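import Pool.Agent.Zk54.MQ.DefC
set_option autoImplicit false
noncomputable section
namespace Pool.Agent.Zk54.MQ

open Subgroup

theorem M13_relIndex {G : Type} [Group G] [Finite G] {p : ℕ} (H E : Subgroup G) [E.Normal]
    (h : ¬ p ∣ H.index) : ¬ p ∣ H.relIndex E := by
  have e1 : H.relIndex E = H.relIndex (H ⊔ E) := by
    have a1 : (H ⊓ E).relIndex E * E.relIndex (H ⊔ E) = (H ⊓ E).relIndex (H ⊔ E) :=
      relIndex_mul_relIndex _ _ _ inf_le_right le_sup_right
    have a2 : (H ⊓ E).relIndex H * H.relIndex (H ⊔ E) = (H ⊓ E).relIndex (H ⊔ E) :=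
      relIndex_mul_relIndex _ _ _ inf_le_left le_sup_left
    rw [inf_relIndex_right, relIndex_sup_right] at a1
    rw [inf_relIndex_left] at a2
    have h0 : E.relIndex H ≠ 0 := (E.subgroupOf H).index_ne_zero_of_finite
    have : E.relIndex H * H.relIndex E = E.relIndex H * H.relIndex (H ⊔ E) := by
      rw [mul_comm, a1, a2]
    exact Nat.eq_of_mul_eq_mul_left (Nat.pos_of_ne_zero h0) this
  intro hp
  apply h
  rw [e1] at hp
  rw [← relIndex_mul_index (le_sup_left : H ≤ H ⊔ E)]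
  exact hp.mul_right _

theorem M13_single {S Ω : Type} [Group S] [DecidableEq Ω] (k : Ω → S) (w : Ω) (s : S) :
    k * Pi.mulSingle w s * k⁻¹ = Pi.mulSingle w (k w * s * (k w)⁻¹) := by
  funext i
  by_cases hi : i = w
  · subst hi
    simp
  · simp [Pi.mulSingle_eq_of_ne hi]

section

variable {G S Ω : Type} [Group G] [Group S] [MulAction G Ω] {m : (Ω → S) →* G} {X : Subgroup G}

theorem M13_inj (h : WD m ⊥ X) : Function.Injective m := by
  rw [injective_iff_map_eq_one]
  intro u hu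
  funext ω
  have := h.ker u (by rw [hu]; exact X.one_mem) ω
  rwa [mem_bot] at this

theorem M13_inf (h : WD m ⊥ X) {g : G} (h1 : g ∈ m.range) (h2 : g ∈ X) : g = 1 := by
  obtain ⟨u, rfl⟩ := h1
  have : u = 1 := by
    funext ω
    have := h.ker u h2 ω
    rwa [mem_bot] at this
  rw [this, map_one]

theorem M13_normal (h : WD m ⊥ X) : m.range.Normal := by
  rw [← normalizer_eq_top_iff, eq_top_iff, ← h.sup, sup_le_iff]
  refine ⟨le_normalizer, fun x hx => ?_⟩
  rw [mem_normalizer_iff]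
  intro g
  constructor
  · rintro ⟨u, rfl⟩
    exact ⟨_, (h.eqv x hx u).symm⟩
  · rintro ⟨u, hu⟩
    have h1 := h.eqv x⁻¹ (X.inv_mem hx) u
    rw [hu] at h1
    refine ⟨_, h1.symm.trans ?_⟩
    group

theorem M13_dec (h : WD m ⊥ X) (g : G) : ∃ u : Ω → S, ∃ x ∈ X, g = m u * x := by
  have := M13_normal h
  have hg : g ∈ m.range ⊔ X := by rw [h.sup]; exact mem_top _
  rw [mem_sup_of_normal_left] at hg
  obtain ⟨_, ⟨u, rfl⟩, x, hx, hg⟩ := hg
  exact ⟨u, x, hx, hg.symm⟩

theorem M13_conj [DecidableEq Ω] (h : WD m ⊥ X) (u : Ω → S) {x : G} (hx : x ∈ X) (w : Ω) (s : S) :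
    (m u * x) * m (Pi.mulSingle w s) * (m u * x)⁻¹ =
      m (Pi.mulSingle (x • w) (u (x • w) * s * (u (x • w))⁻¹)) := by
  have e1 : x * m (Pi.mulSingle w s) * x⁻¹ = m (Pi.mulSingle (x • w) s) := by
    rw [h.eqv x hx]
    congr 1
    funext ω
    by_cases hω : ω = x • w
    · subst hω
      simp
    · rw [Pi.mulSingle_eq_of_ne hω, Pi.mulSingle_eq_of_ne]
      intro h1
      apply hω
      rw [← h1, smul_inv_smul]
  rw [← M13_single, map_mul, map_mul, map_inv, ← e1]
  group

/-- a section of `G` which kills the normal subgroup is a section of `X` -/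
theorem M13_case1 {p : ℕ} [Finite G] (h : WD m ⊥ X) (𝔊 : (S : Type) → [Group S] → Prop)
    (hX : Sec2 p 𝔊 X) {Y : Type} [Group Y] {H : Subgroup G} {f : H →* Y} (hH : ¬ p ∣ H.index)
    (hf : Function.Surjective f) (hbad : Bad2 p 𝔊 Y)
    (hk : ∀ g : H, (g : G) ∈ m.range → f g = 1) : False := by
  have := M13_normal h
  let e : X →* G ⧸ m.range := (QuotientGroup.mk' m.range).comp X.subtype
  have he : Function.Bijective e := by
    constructor
    · rw [injective_iff_map_eq_one]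
      intro x hx
      have h1 : ((x : G) : G ⧸ m.range) = 1 := hx
      rw [QuotientGroup.eq_one_iff] at h1
      exact Subtype.ext (M13_inf h h1 x.2)
    · intro y
      obtain ⟨g, rfl⟩ := QuotientGroup.mk'_surjective _ y
      obtain ⟨u, x, hx, rfl⟩ := M13_dec h g
      refine ⟨⟨x, hx⟩, ?_⟩
      show QuotientGroup.mk' m.range x = QuotientGroup.mk' m.range (m u * x)
      rw [map_mul]
      have : QuotientGroup.mk' m.range (m u) = 1 := by
        rw [← MonoidHom.mem_ker, QuotientGroup.ker_mk']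
        exact ⟨u, rfl⟩
      rw [this, one_mul]
  let E := MulEquiv.ofBijective e he
  let π : G →* X := E.symm.toMonoidHom.comp (QuotientGroup.mk' m.range)
  have hπs : Function.Surjective π := E.symm.surjective.comp (QuotientGroup.mk'_surjective _)
  have hπk : ∀ g, π g = 1 → g ∈ m.range := by
    intro g hg
    have h1 : E.symm (QuotientGroup.mk' m.range g) = 1 := hg
    rw [EmbeddingLike.map_eq_one_iff, ← MonoidHom.mem_ker, QuotientGroup.ker_mk'] at h1
    exact h1
  let q : H →* H.map π := π.subgroupMap H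
  have hq : Function.Surjective q := π.subgroupMap_surjective H
  have hker : q.ker ≤ f.ker := by
    intro g hg
    rw [MonoidHom.mem_ker] at hg ⊢
    apply hk
    apply hπk
    exact congrArg Subtype.val hg
  let g : H.map π →* Y := MonoidHom.liftOfSurjective q hq ⟨f, hker⟩
  have hg : ∀ x, g (q x) = f x := fun x =>
    MonoidHom.liftOfRightInverse_comp_apply _ _ _ ⟨f, hker⟩ x
  refine hX Y (H.map π) g ?_ ?_ hbad
  · exact fun hd => hH (hd.trans (index_map_dvd _ hπs))
  · intro y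
    obtain ⟨x, rfl⟩ := hf y
    exact ⟨q x, hg x⟩

end

/-- wreath products with a simple group without nonsolvable proper subgroups of index prime to `p` -/
theorem wreath_sec {p : ℕ} [_hp : Fact p.Prime] {G S Ω : Type} [Group G] [Finite G] [Group S] [Finite S]
    [Finite Ω] [MulAction G Ω] {m : (Ω → S) →* G} {X : Subgroup G} (h : WD m ⊥ X)
    (𝔊 : (S : Type) → [Group S] → Prop)
    (hiso : ∀ (S S' : Type) [Group S] [Group S'], Nonempty (S ≃* S') → 𝔊 S → 𝔊 S')
    (hS : IsSimpleGroup S) (hna : ∃ a b : S, a * b ≠ b * a) (hpS : p ∣ Nat.card S)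
    (hsub : ∀ K : Subgroup S, ¬ p ∣ K.index → K = ⊤ ∨ Group.IsSolvable K) (hgood : 𝔊 S)
    (hX : Sec2 p 𝔊 X) : Sec2 p 𝔊 G := by
  classical
  intro Y _ H f hH hf hbad
  have hEn := M13_normal h
  obtain ⟨M, hM, hmin, ⟨a0, ha0, b0, hb0, hab⟩, hQ, hInn⟩ := id hbad
  obtain ⟨K, hK⟩ : ∃ K : Subgroup (Ω → S), K = H.comap m := ⟨_, rfl⟩
  have hKm : ∀ k : Ω → S, k ∈ K ↔ m k ∈ H := fun k => by rw [hK, mem_comap]
  obtain ⟨ψ, hψ⟩ : ∃ ψ : K →* Y, ∀ k : K, ψ k = f ⟨m k, (hKm _).1 k.2⟩ := by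
    refine ⟨⟨⟨fun k => f ⟨m k, (hKm _).1 k.2⟩, ?_⟩, ?_⟩, fun k => rfl⟩
    · have : (⟨m ((1 : K) : Ω → S), (hKm _).1 (1 : K).2⟩ : H) = 1 := by
        apply Subtype.ext
        show m 1 = 1
        exact map_one m
      rw [this, map_one]
    · intro a b
      show f _ = f _ * f _
      rw [← map_mul]
      congr 1
      apply Subtype.ext
      exact map_mul m _ _
  have hr : ψ.range.Normal := by
    constructor
    rintro _ ⟨k, rfl⟩ y
    obtain ⟨g, rfl⟩ := hf y
    have h1 : (g : G) * m k * (g : G)⁻¹ ∈ m.range := hEn.conj_mem _ ⟨_, rfl⟩ _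
    obtain ⟨k', hk'⟩ := h1
    have h2 : k' ∈ K := by
      rw [hKm, hk']
      exact H.mul_mem (H.mul_mem g.2 ((hKm _).1 k.2)) (H.inv_mem g.2)
    refine ⟨⟨k', h2⟩, ?_⟩
    rw [hψ, hψ, ← map_inv, ← map_mul, ← map_mul]
    congr 1
    apply Subtype.ext
    exact hk'
  by_cases hb : ψ.range = ⊥
  · refine M13_case1 h 𝔊 hX hH hf hbad fun g hg => ?_
    obtain ⟨k, hk⟩ := hg
    have h1 : k ∈ K := by rw [hKm, hk]; exact g.2
    have h2 : ψ ⟨k, h1⟩ ∈ ψ.range := ⟨_, rfl⟩
    rw [hb, mem_bot, hψ] at h2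
    rw [← h2]
    congr 1
    apply Subtype.ext
    exact hk.symm
  have hMr : M ≤ ψ.range := hmin _ hr hb
  -- indices
  have hKi : ¬ p ∣ K.index := by
    rw [hK, index_comap]
    exact M13_relIndex H m.range hH
  have key : ∀ w : Ω, (∀ s : S, Pi.mulSingle w s ∈ K) ∨
      Group.IsSolvable (K.map (Pi.evalMonoidHom (fun _ => S) w)) := by
    intro w
    have hBi : ¬ p ∣ (K.map (Pi.evalMonoidHom (fun _ => S) w)).index := by
      intro hd
      refine hKi (hd.trans (index_map_dvd _ ?_))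
      intro s
      exact ⟨fun _ => s, rfl⟩
    rcases hsub _ hBi with h1 | h1
    · left
      have hsn : (MonoidHom.mulSingle (fun _ : Ω => S) w).range.Normal := by
        constructor
        rintro _ ⟨s, rfl⟩ k
        refine ⟨k w * s * (k w)⁻¹, ?_⟩
        exact (M13_single k w s).symm
      have hAi : ¬ p ∣ (K.comap (MonoidHom.mulSingle (fun _ : Ω => S) w)).index := by
        rw [index_comap]
        exact M13_relIndex K _ hKi
      have hAn : (K.comap (MonoidHom.mulSingle (fun _ : Ω => S) w)).Normal := by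
        constructor
        intro a ha s
        have hs : s ∈ K.map (Pi.evalMonoidHom (fun _ => S) w) := by rw [h1]; exact mem_top _
        obtain ⟨k, hk, rfl⟩ := hs
        rw [mem_comap] at ha ⊢
        have e : MonoidHom.mulSingle (fun _ : Ω => S) w
            ((Pi.evalMonoidHom (fun _ => S) w) k * a * ((Pi.evalMonoidHom (fun _ => S) w) k)⁻¹) =
            k * MonoidHom.mulSingle (fun _ : Ω => S) w a * k⁻¹ := (M13_single k w a).symm
        rw [e]
        exact K.mul_mem (K.mul_mem hk ha) (K.inv_mem hk)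
      rcases hAn.eq_bot_or_eq_top with h2 | h2
      · exfalso
        apply hAi
        rw [h2, index_bot]
        exact hpS
      · intro s
        have : s ∈ K.comap (MonoidHom.mulSingle (fun _ : Ω => S) w) := by
          rw [h2]; exact mem_top _
        exact this
    · exact Or.inr h1
  -- the derived series of `K`
  obtain ⟨n, hn⟩ : ∃ n, ∀ k ∈ derivedSeries K n, ∀ w, ¬ (∀ s : S, Pi.mulSingle w s ∈ K) →
      (k : Ω → S) w = 1 := by
    have h1 : ∀ w : Ω, ∃ n, ∀ k ∈ derivedSeries K n, ¬ (∀ s : S, Pi.mulSingle w s ∈ K) →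
        (k : Ω → S) w = 1 := by
      intro w
      rcases key w with h1 | h1
      · exact ⟨0, fun k _ h2 => absurd h1 h2⟩
      · obtain ⟨n, hn⟩ := h1.solvable
        refine ⟨n, fun k hk _ => ?_⟩
        have h2 := map_derivedSeries_le_derivedSeries
          ((Pi.evalMonoidHom (fun _ => S) w).subgroupMap K) n
        have h3 := h2 ⟨k, hk, rfl⟩
        rw [hn, mem_bot] at h3
        exact congrArg Subtype.val h3
    choose N hN using h1
    have := Fintype.ofFinite Ω
    refine ⟨Finset.univ.sup N, fun k hk w hw => hN w k ?_ hw⟩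
    exact derivedSeries_antitone K (Finset.le_sup (Finset.mem_univ w)) hk
  have hperf : M ≤ ⁅M, M⁆ := by
    refine hmin _ inferInstance fun h0 => ?_
    rw [commutator_eq_bot_iff_le_centralizer] at h0
    exact hab (mem_centralizer_iff.1 (h0 hb0) a0 ha0)
  have hMd : ∀ j, M ≤ (derivedSeries K j).map ψ := by
    intro j
    induction j with
    | zero =>
      rw [derivedSeries_zero, ← MonoidHom.range_eq_map]
      exact hMr
    | succ j ih =>
      rw [derivedSeries_succ, map_commutator]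
      exact hperf.trans (commutator_mono ih ih)
  -- a factor which does not commute with `M`
  obtain ⟨w, hw, s0, y0, hy0, hne⟩ : ∃ (w : Ω) (hw : ∀ s : S, (Pi.mulSingle w s : Ω → S) ∈ K)
      (s : S) (y : Y), y ∈ M ∧ y * ψ ⟨Pi.mulSingle w s, hw s⟩ ≠ ψ ⟨Pi.mulSingle w s, hw s⟩ * y := by
    by_contra hcon'
    have hcon : ∀ (w : Ω) (hw : ∀ s : S, (Pi.mulSingle w s : Ω → S) ∈ K) (s : S) (y : Y), y ∈ M →
        y * ψ ⟨Pi.mulSingle w s, hw s⟩ = ψ ⟨Pi.mulSingle w s, hw s⟩ * y := by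
      intro w hw s y hy
      by_contra h1
      exact hcon' ⟨w, hw, s, y, hy, h1⟩
    obtain ⟨k, hk, hk2⟩ := hMd n hb0
    obtain ⟨L, hL⟩ : ∃ L : Subgroup (Ω → S), L = ((centralizer (M : Set Y)).comap ψ).map K.subtype :=
      ⟨_, rfl⟩
    have h1 : (k : Ω → S) ∈ L := by
      refine pi_mem_of_mulSingle_mem _ fun i => ?_
      by_cases hi : ∀ s : S, Pi.mulSingle i s ∈ K
      · rw [hL]
        refine ⟨⟨Pi.mulSingle i ((k : Ω → S) i), hi _⟩, ?_, rfl⟩
        show ψ _ ∈ centralizer (M : Set Y)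
        rw [mem_centralizer_iff]
        intro y hy
        exact hcon i hi _ y hy
      · rw [hn k hk i hi, Pi.mulSingle_one]
        exact L.one_mem
    rw [hL] at h1
    obtain ⟨k', hk', hkk⟩ := h1
    have h2 : k' = k := Subtype.ext hkk
    rw [h2] at hk'
    have h3 : ψ k ∈ centralizer (M : Set Y) := hk'
    rw [hk2] at h3
    exact hab (mem_centralizer_iff.1 h3 a0 ha0)
  -- the homomorphism of `S` to `Y`
  obtain ⟨φ, hφ⟩ : ∃ φ : S →* Y, ∀ s, φ s = ψ ⟨Pi.mulSingle w s, hw s⟩ :=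
    ⟨ψ.comp ((MonoidHom.mulSingle (fun _ : Ω => S) w).codRestrict K hw), fun s => rfl⟩
  have hconj : ∀ (k : K) (s : S),
      ψ k * φ s * (ψ k)⁻¹ = φ ((k : Ω → S) w * s * ((k : Ω → S) w)⁻¹) := by
    intro k s
    rw [hφ, hφ, ← map_inv, ← map_mul, ← map_mul]
    congr 1
    apply Subtype.ext
    exact M13_single _ w s
  have hinj : Function.Injective φ := by
    rw [← MonoidHom.ker_eq_bot_iff]
    refine (φ.normal_ker.eq_bot_or_eq_top).resolve_right fun ht => ?_
    have h1 : s0 ∈ φ.ker := by rw [ht]; exact mem_top _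
    rw [MonoidHom.mem_ker, hφ] at h1
    apply hne
    rw [h1, one_mul, mul_one]
  have hSM : ∀ s, φ s ∈ M := by
    have hTn : (M.comap φ).Normal := inferInstance
    rcases hTn.eq_bot_or_eq_top with h1 | h1
    · exfalso
      apply hne
      obtain ⟨k, hk⟩ := hMr hy0
      have h2 : y0 * φ s0 * y0⁻¹ * (φ s0)⁻¹ =
          φ ((k : Ω → S) w * s0 * ((k : Ω → S) w)⁻¹ * s0⁻¹) := by
        rw [map_mul, ← hconj, hk, map_inv]
      have h3 : y0 * φ s0 * y0⁻¹ * (φ s0)⁻¹ ∈ M := by
        have h4 := hM.conj_mem _ (M.inv_mem hy0) (φ s0)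
        have h5 := M.mul_mem hy0 h4
        have e : y0 * (φ s0 * y0⁻¹ * (φ s0)⁻¹) = y0 * φ s0 * y0⁻¹ * (φ s0)⁻¹ := by group
        rwa [e] at h5
      have h4 : (k : Ω → S) w * s0 * ((k : Ω → S) w)⁻¹ * s0⁻¹ ∈ M.comap φ := by
        rw [mem_comap, ← h2]
        exact h3
      rw [h1, mem_bot] at h4
      rw [h4, map_one, mul_inv_eq_one, mul_inv_eq_iff_eq_mul] at h2
      rw [← hφ]
      exact h2
    · intro s
      have : s ∈ M.comap φ := by rw [h1]; exact mem_top _
      exact this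
  -- inner type
  have e0 : S ≃* φ.range := MonoidHom.ofInjective hinj
  apply hInn
  refine ⟨φ.range, ?_, ?_, ?_, ?_, hiso S φ.range ⟨e0⟩ hgood⟩
  · rintro _ ⟨s, rfl⟩
    exact hSM s
  · rintro y hy _ ⟨s, rfl⟩
    obtain ⟨k, rfl⟩ := hMr hy
    exact ⟨_, (hconj k s).symm⟩
  · have := e0.symm.toEquiv.nontrivial
    exact IsSimpleGroup.isSimpleGroup_of_surjective e0.toMonoidHom e0.surjective
  · intro y hy
    obtain ⟨g, rfl⟩ := hf y
    obtain ⟨u, x, hx, hg⟩ := M13_dec h (g : G)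
    have hc : ∀ s, ∃ hk : Pi.mulSingle (x • w) (u (x • w) * s * (u (x • w))⁻¹) ∈ K,
        f g * φ s * (f g)⁻¹ = ψ ⟨Pi.mulSingle (x • w) (u (x • w) * s * (u (x • w))⁻¹), hk⟩ := by
      intro s
      have h1 := M13_conj h u hx w s
      rw [← hg] at h1
      have hk : Pi.mulSingle (x • w) (u (x • w) * s * (u (x • w))⁻¹) ∈ K := by
        rw [hKm, ← h1]
        exact H.mul_mem (H.mul_mem g.2 ((hKm _).1 (hw s))) (H.inv_mem g.2)
      refine ⟨hk, ?_⟩
      rw [hφ, hψ, hψ, ← map_inv, ← map_mul, ← map_mul]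
      congr 1
      apply Subtype.ext
      exact h1
    by_cases hxw : x • w = w
    · refine ⟨φ (u w), ⟨_, rfl⟩, ?_⟩
      rintro _ ⟨s, rfl⟩
      obtain ⟨hk, h1⟩ := hc s
      rw [h1, ← map_inv, ← map_mul, ← map_mul, hφ]
      congr 1
      apply Subtype.ext
      show (Pi.mulSingle (x • w) (u (x • w) * s * (u (x • w))⁻¹) : Ω → S) =
        Pi.mulSingle w (u w * s * (u w)⁻¹)
      rw [hxw]
    · exfalso
      obtain ⟨a, b, hab'⟩ := hna
      apply hab'
      have h1 : ∀ s t, f g * φ s * (f g)⁻¹ * φ t = φ t * (f g * φ s * (f g)⁻¹) := by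
        intro s t
        obtain ⟨hk, h1⟩ := hc s
        rw [h1, hφ, ← map_mul, ← map_mul]
        congr 1
        apply Subtype.ext
        exact Pi.mulSingle_commute (f := fun _ : Ω => S) hxw _ _
      obtain ⟨t, ht⟩ := hy (φ b) ⟨b, rfl⟩
      have h2 := h1 a t
      rw [ht] at h2
      apply hinj
      rw [map_mul, map_mul]
      have h3 : f g * (φ a * φ b) * (f g)⁻¹ = f g * (φ b * φ a) * (f g)⁻¹ := by
        calc f g * (φ a * φ b) * (f g)⁻¹ = f g * φ a * (f g)⁻¹ * (f g * φ b * (f g)⁻¹) := by group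
          _ = (f g * φ b * (f g)⁻¹) * (f g * φ a * (f g)⁻¹) := h2
          _ = f g * (φ b * φ a) * (f g)⁻¹ := by group
      exact mul_left_cancel (mul_right_cancel h3)

end Pool.Agent.Zk54.MQ
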