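import Pool.Agent.Zk54.MQ.DefC

set_option autoImplicit false
set_option linter.unusedSectionVars false
set_option linter.style.haveILetI false

open scoped BigOperators Classical

noncomputable section

namespace Pool.Agent.Zk54.MQ

/-- a group with normal subgroups `M i` with solvable intersection such that no quotient `G / M i` has
such sections -/
theorem Sec2_of_sub {p : ℕ} [hp : Fact p.Prime] (𝔊 : (S : Type) → [Group S] → Prop)
    {G : Type} [Group G] [Finite G] {ι : Type} [Finite ι] (M : ι → Subgroup G)
    [hM : ∀ i, (M i).Normal] (hsol : Group.IsSolvable (⨅ i, M i : Subgroup G))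
    (hq : ∀ i, Sec2 p 𝔊 (G ⧸ M i)) : Sec2 p 𝔊 G := by
  intro Y _ H f hi hf hbad
  have hbad' := hbad
  haveI : Finite Y := Finite.of_surjective f hf
  obtain ⟨M₀, hM₀, hmin, ⟨a, ha, b, hb', hab⟩, -, -⟩ := hbad
  have hnb : ⁅M₀, M₀⁆ ≠ ⊥ := by
    intro h
    apply hab
    have h1 := Subgroup.commutator_eq_bot_iff_le_centralizer.mp h ha
    exact (Subgroup.mem_centralizer_iff.mp h1 b hb').symm
  haveI := hM₀
  have hperf : M₀ ≤ ⁅M₀, M₀⁆ := hmin _ inferInstance hnb
  by_cases h : ∃ i, ((M i).subgroupOf H).map f = ⊥
  · obtain ⟨i, h0⟩ := h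
    have hs : Function.Surjective ((QuotientGroup.mk' (M i)).subgroupMap H) :=
      MonoidHom.subgroupMap_surjective _ _
    have hker : ((QuotientGroup.mk' (M i)).subgroupMap H).ker ≤ f.ker := by
      intro x hx
      have h1 : QuotientGroup.mk' (M i) (x : G) = 1 := congrArg Subtype.val hx
      have h2 : x ∈ (M i).subgroupOf H :=
        Subgroup.mem_subgroupOf.mpr ((QuotientGroup.eq_one_iff _).mp h1)
      have h3 : f x ∈ ((M i).subgroupOf H).map f := ⟨x, h2, rfl⟩
      rw [h0, Subgroup.mem_bot] at h3
      exact h3
    refine hq i Y (H.map (QuotientGroup.mk' (M i)))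
      (((QuotientGroup.mk' (M i)).subgroupMap H).liftOfSurjective hs ⟨f, hker⟩) ?_ ?_ hbad'
    · exact fun h' => hi (h'.trans (Subgroup.index_map_dvd H (QuotientGroup.mk'_surjective (M i))))
    · intro y
      obtain ⟨z, rfl⟩ := hf y
      exact ⟨_, MonoidHom.liftOfRightInverse_comp_apply _ _ _ ⟨f, hker⟩ z⟩
  · push Not at h
    haveI := Fintype.ofFinite ι
    have key : ∀ s : Finset ι, M₀ ≤ ((⨅ i ∈ s, M i).subgroupOf H).map f := by
      intro s
      induction s using Finset.induction_on with
      | empty =>
        intro y _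
        obtain ⟨x, rfl⟩ := hf y
        exact ⟨x, by simp, rfl⟩
      | insert i s _ ih =>
        have h1 : M₀ ≤ ((M i).subgroupOf H).map f :=
          hmin _ (Subgroup.Normal.map inferInstance f hf) (h i)
        refine hperf.trans ((Subgroup.commutator_mono h1 ih).trans ?_)
        rw [← Subgroup.map_commutator]
        refine Subgroup.map_mono ?_
        haveI : (⨅ j ∈ s, M j : Subgroup G).Normal := by
          haveI : ∀ j, (⨅ _ : j ∈ s, M j : Subgroup G).Normal := fun j =>
            Subgroup.normal_iInf_normal fun _ => hM j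
          exact Subgroup.normal_iInf_normal this
        refine (Subgroup.commutator_le_inf _ _).trans ?_
        intro x hx
        rw [Subgroup.mem_inf, Subgroup.mem_subgroupOf, Subgroup.mem_subgroupOf] at hx
        rw [Subgroup.mem_subgroupOf, Finset.iInf_insert, Subgroup.mem_inf]
        exact hx
    have h5 : M₀ ≤ ((⨅ i, M i).subgroupOf H).map f := by
      have := key Finset.univ
      simpa using this
    -- so `M₀` is solvable
    haveI := hsol
    haveI hs1 : Group.IsSolvable ((⨅ i, M i).subgroupOf H) := by
      have h1 : Function.Injective ((H.subtype.comp ((⨅ i, M i).subgroupOf H).subtype).codRestrict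
          (⨅ i, M i) (fun x => x.2)) := by
        intro x y h
        have h2 := congrArg (fun z : (⨅ i, M i : Subgroup G) => (z : G)) h
        exact Subtype.ext (Subtype.ext h2)
      exact Group.isSolvable_of_isSolvable_injective h1
    haveI hs2 : Group.IsSolvable (((⨅ i, M i).subgroupOf H).map f) :=
      Group.isSolvable_of_surjective (f := f.subgroupMap ((⨅ i, M i).subgroupOf H))
        (MonoidHom.subgroupMap_surjective _ _)
    haveI hs3 : Group.IsSolvable M₀ :=
      Group.isSolvable_of_isSolvable_injective (Subgroup.inclusion_injective h5)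
    have hne : M₀ ≠ ⊥ := by
      rintro rfl
      rw [Subgroup.mem_bot] at ha hb'
      exact hab (by rw [ha, hb'])
    haveI : Nontrivial M₀ := (Subgroup.nontrivial_iff_ne_bot M₀).mpr hne
    have h6 := Group.IsSolvable.commutator_lt_top_of_nontrivial M₀
    apply h6.ne
    rw [eq_top_iff]
    intro x _
    have h7 := hperf x.2
    rw [← Subgroup.map_subtype_commutator] at h7
    obtain ⟨z, hz, hzx⟩ := h7
    have : z = x := Subtype.ext hzx
    rwa [← this]

end Pool.Agent.Zk54.MQ
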