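import Pool.Agent.Zk54.MQ.M15

/-!
# The Sylow subgroups of a wreath product with a group of order prime to `p`
-/

set_option autoImplicit false
set_option linter.unusedSectionVars false
set_option linter.style.haveILetI false

open scoped BigOperators Classical Pointwise

noncomputable section

namespace Pool.Agent.Zk54.MQ

/-- the map of wreath products given by a homomorphism -/
def wrMap {Ω A B X : Type} [Group A] [Group B] [Group X] [MulAction X Ω] (f : A →* B) :
    WrX Ω A X →* WrX Ω B X :=
  SemidirectProduct.map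
    { toFun := fun u ω => f (u ω)
      map_one' := by funext ω; exact map_one f
      map_mul' := fun u v => by funext ω; exact map_mul f _ _ } (MonoidHom.id X) (by
    intro x
    ext u ω
    rfl)

/-- the Sylow subgroups of a wreath product with a group of order prime to `p` -/
theorem wr_normal {p : ℕ} [hp : Fact p.Prime] {Ω A X : Type} [Group A] [Finite A] [Group X] [Finite X]
    [Finite Ω] [MulAction X Ω] (P : Sylow p A) (hP : (P : Subgroup A).Normal)
    (hX : ¬ p ∣ Nat.card X) (R : Sylow p (WrX Ω A X)) : (R : Subgroup (WrX Ω A X)).Normal := by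
  haveI := Fintype.ofFinite Ω
  haveI := hP
  let F : WrX Ω A X →* WrX Ω (A ⧸ (P : Subgroup A)) X := wrMap (QuotientGroup.mk' (P : Subgroup A))
  obtain ⟨D, hD⟩ : ∃ D : Subgroup (WrX Ω A X), D = F.ker := ⟨_, rfl⟩
  haveI hDn : D.Normal := by
    rw [hD]
    infer_instance
  have hmem : ∀ g : WrX Ω A X, g ∈ D → g.right = 1 ∧ ∀ ω, g.left ω ∈ (P : Subgroup A) := by
    intro g hg
    rw [hD, MonoidHom.mem_ker] at hg
    have h1 : (F g).right = 1 := congrArg SemidirectProduct.right hg
    have h2 : (F g).left = 1 := congrArg SemidirectProduct.left hg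
    exact ⟨h1, fun ω => (QuotientGroup.eq_one_iff _).mp (congrFun h2 ω)⟩
  have hDp : IsPGroup p D := by
    intro g
    obtain ⟨h1, h2⟩ := hmem g g.2
    -- powers are computed in each coordinate
    have hg : (g : WrX Ω A X) = SemidirectProduct.inl (g : WrX Ω A X).left := by
      refine SemidirectProduct.ext rfl ?_
      exact h1
    obtain ⟨k, hk⟩ := IsPGroup.iff_card.mp P.isPGroup'
    refine ⟨k, Subtype.ext ?_⟩
    show (g : WrX Ω A X) ^ p ^ k = 1
    rw [hg, ← map_pow]
    have h3 : (g : WrX Ω A X).left ^ p ^ k = 1 := by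
      funext ω
      have h4 : (⟨_, h2 ω⟩ : (P : Subgroup A)) ^ p ^ k = 1 := by
        rw [← hk]
        exact pow_card_eq_one'
      exact congrArg Subtype.val h4
    rw [h3, map_one]
  have hDi : ¬ p ∣ D.index := by
    have hA : ¬ p ∣ Nat.card (A ⧸ (P : Subgroup A)) := P.not_dvd_index
    have hc : Nat.card (WrX Ω (A ⧸ (P : Subgroup A)) X) =
        Nat.card (A ⧸ (P : Subgroup A)) ^ Nat.card Ω * Nat.card X := by
      rw [Nat.card_congr (SemidirectProduct.equivProd), Nat.card_prod, Nat.card_fun]
    intro h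
    have h1 : D.index ∣ Nat.card (WrX Ω (A ⧸ (P : Subgroup A)) X) := by
      rw [hD, Subgroup.index_ker]
      exact Subgroup.card_subgroup_dvd_card _
    have h2 := h.trans h1
    rw [hc, hp.out.dvd_mul] at h2
    exact h2.elim (fun h3 => hA (hp.out.dvd_of_dvd_pow h3)) hX
  -- `D` is a Sylow subgroup
  let S : Sylow p (WrX Ω A X) := hDp.toSylow hDi
  have hS : (S : Subgroup (WrX Ω A X)) = D := rfl
  obtain ⟨g, hg⟩ := MulAction.exists_smul_eq (WrX Ω A X) S R
  rw [← hg, Sylow.coe_subgroup_smul, hS]
  have h5 : (MulAut.conj g • D : Subgroup (WrX Ω A X)) = D := Subgroup.Normal.conj_smul_eq_self g D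
  rw [h5]
  exact hDn

end Pool.Agent.Zk54.MQ
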