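import Pool.Agent.Zk54.MQ.E9a

set_option autoImplicit false
set_option linter.unusedSectionVars false
set_option linter.style.haveILetI false

namespace Pool.Agent.Zk54.MQ

open Subgroup

instance e9_inn_normal {S : Type} [Group S] : (MulAut.conj (G := S)).range.Normal := by
  constructor
  rintro _ ⟨s, rfl⟩ x
  refine ⟨x s, ?_⟩
  ext t
  simp [MulAut.conj_apply]

/-- cyclic Sylow subgroups are preserved by isomorphisms -/
theorem e9_sylow {p : ℕ} [Fact p.Prime] {F S : Type} [Group F] [Group S] [Finite F] (e : F ≃* S)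
    (hF : ∀ Q : Sylow p F, IsCyclic Q) (Q : Sylow p S) : IsCyclic Q := by
  have h1 : IsPGroup p ((Q : Subgroup S).map e.symm.toMonoidHom) := Q.2.map _
  obtain ⟨P, hP⟩ := h1.exists_le_sylow
  haveI := hF P
  have h2 : IsCyclic ((Q : Subgroup S).map e.symm.toMonoidHom) :=
    isCyclic_of_injective (Subgroup.inclusion hP) (Subgroup.inclusion_injective hP)
  exact isCyclic_of_injective
    (((Q : Subgroup S).equivMapOfInjective e.symm.toMonoidHom e.symm.injective).toMonoidHom)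
    (MulEquiv.injective _)

theorem e9_cyc {p : ℕ} [Fact p.Prime] {Y : Type} [Group Y] [Finite Y] (M S : Subgroup Y)
    (hSM : S ≤ M) (hSn : ∀ m ∈ M, ∀ s ∈ S, m * s * m⁻¹ ∈ S) (hSs : IsSimpleGroup S)
    {F : Type} [Group F] (hF : TT p F) (e : F ≃* S) : Cyc p M := by
  obtain ⟨-, -, hp, hcyc, -, a, b, hb, ⟨s₀, hs₀⟩, hgen⟩ := hF
  haveI : Finite F := Finite.of_equiv S e.symm.toEquiv
  refine ⟨S, hSM, hSn, hSs, ?_, e9_sylow e hcyc, ?_⟩
  · rwa [Nat.card_congr e.toEquiv] at hp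
  have hθ : ∀ (y : Y) (hy : y ∈ normalizer (S : Set Y)) (s : S),
      ((S.normalizerMonoidHom ⟨y, hy⟩ s : S) : Y) = y * s * y⁻¹ := fun y hy s => rfl
  let c : MulAut F ≃* MulAut S := MulAut.congr e
  have hc : ∀ (x : MulAut F) (t : S), c x t = e (x (e.symm t)) := fun x t => rfl
  -- the outer automorphism group
  let π : MulAut S →* MulAut S ⧸ (MulAut.conj (G := S)).range := QuotientGroup.mk' _
  have hπ1 : ∀ s : S, π (MulAut.conj s) = 1 := fun s =>
    (QuotientGroup.eq_one_iff _).2 ⟨s, rfl⟩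
  have hπ2 : ∀ x : MulAut S, π x = 1 → ∃ s : S, MulAut.conj s = x := fun x hx =>
    (QuotientGroup.eq_one_iff _).1 hx
  have hgen' : ∀ x : MulAut S, ∃ i : ℕ, π x = π (c a) ^ i := by
    intro x
    obtain ⟨i, s, h⟩ := hgen (c.symm x)
    refine ⟨i, ?_⟩
    have h1 : c.symm x = MulAut.conj s * a ^ i := by
      ext t
      rw [h]
      rfl
    have h2 : x = c (MulAut.conj s) * c a ^ i := by
      rw [← map_pow, ← map_mul, ← h1, MulEquiv.apply_symm_apply]
    have h3 : c (MulAut.conj s) = MulAut.conj (e s) := by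
      ext t
      rw [hc]
      simp [MulAut.conj_apply]
    rw [h2, h3, map_mul, hπ1, one_mul, map_pow]
  have hpb : π (c a) ^ b = 1 := by
    have h1 : a ^ b = MulAut.conj s₀ := by
      ext t
      rw [hs₀]
      rfl
    have h3 : c (MulAut.conj s₀) = MulAut.conj (e s₀) := by
      ext t
      rw [hc]
      simp [MulAut.conj_apply]
    rw [← map_pow, ← map_pow, h1, h3, hπ1]
  haveI : IsCyclic (MulAut S ⧸ (MulAut.conj (G := S)).range) := by
    refine ⟨π (c a), fun q => ?_⟩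
    obtain ⟨x, rfl⟩ := QuotientGroup.mk'_surjective _ q
    obtain ⟨i, hi⟩ := hgen' x
    exact ⟨i, (zpow_natCast _ _).trans hi.symm⟩
  let Θ : normalizer (S : Set Y) →* MulAut S ⧸ (MulAut.conj (G := S)).range :=
    π.comp S.normalizerMonoidHom
  haveI : IsCyclic Θ.range := inferInstance
  obtain ⟨⟨g, y₀, rfl⟩, hg⟩ := IsCyclic.exists_generator (α := Θ.range)
  have hkey : ∀ y : normalizer (S : Set Y), ∃ i : ℕ, Θ y = Θ (y₀ ^ i) := by
    intro y
    obtain ⟨k, hk⟩ := mem_zpowers_iff.1 (hg ⟨Θ y, y, rfl⟩)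
    have h1 : Θ y₀ ^ k = Θ y := congrArg Subtype.val hk
    have h2 : y₀ ^ k ∈ Submonoid.powers y₀ := mem_powers_iff_mem_zpowers.2 ⟨k, rfl⟩
    obtain ⟨i, hi⟩ := h2
    refine ⟨i, ?_⟩
    rw [← h1, ← map_zpow, ← hi]
  have hmem : ∀ y : Y, (∀ s ∈ S, y * s * y⁻¹ ∈ S) → y ∈ normalizer (S : Set Y) := fun y hy =>
    mem_normalizer_fintype hy
  have hconv : ∀ y z : normalizer (S : Set Y), Θ y = Θ z → ∃ s ∈ S, ∀ t ∈ S,
      (y : Y) * t * (y : Y)⁻¹ = s * (z * t * (z : Y)⁻¹) * s⁻¹ := by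
    intro y z hyz
    have h1 : π (S.normalizerMonoidHom y * (S.normalizerMonoidHom z)⁻¹) = 1 := by
      rw [map_mul, map_inv, mul_inv_eq_one]
      exact hyz
    obtain ⟨s, hs⟩ := hπ2 _ h1
    refine ⟨s, s.2, fun t ht => ?_⟩
    have h2 : S.normalizerMonoidHom y = MulAut.conj s * S.normalizerMonoidHom z := by
      rw [hs, inv_mul_cancel_right]
    have h3 := congrArg (fun f : MulAut S => ((f ⟨t, ht⟩ : S) : Y)) h2
    exact h3
  refine ⟨y₀, b, ?_, hb, ?_, ?_⟩
  · intro s hs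
    exact (mem_normalizer_iff.1 y₀.2 s).1 hs
  · have h1 : Θ (y₀ ^ b) = Θ 1 := by
      rw [map_one, map_pow]
      obtain ⟨i, hi⟩ := hgen' (S.normalizerMonoidHom y₀)
      have h2 : Θ y₀ = π (c a) ^ i := hi
      rw [h2, ← pow_mul, mul_comm, pow_mul, hpb, one_pow]
    obtain ⟨s, hs, h⟩ := hconv _ _ h1
    refine ⟨s, hs, fun t ht => ?_⟩
    have := h t ht
    simpa using this
  · intro y hy
    obtain ⟨i, hi⟩ := hkey ⟨y, hmem y hy⟩
    obtain ⟨s, hs, h⟩ := hconv _ _ hi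
    refine ⟨i, s, hs, fun t ht => ?_⟩
    have := h t ht
    simpa using this

end Pool.Agent.Zk54.MQ
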