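import Pool.Agent.Zk54.MQ.Def0
set_option autoImplicit false
set_option linter.unusedSectionVars false
noncomputable section
namespace Pool.Agent.Zk54.MQ

section aux

variable {p : ℕ} [hp : Fact p.Prime] {U : Type} [Group U]

/-- a central element of order prime to `p` whose `p`-power is trivial -/
theorem eq_one_of_pow [Finite U] {C : Subgroup U} (hC : ¬ p ∣ Nat.card C) {k : U} (hk : k ∈ C) {n : ℕ}
    (h : k ^ p ^ n = 1) : k = 1 := by
  have h1 : orderOf k ∣ p ^ n := orderOf_dvd_of_pow_eq_one h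
  have h2 : orderOf k ∣ Nat.card C := Subgroup.orderOf_dvd_natCard C hk
  have h3 : Nat.Coprime (p ^ n) (Nat.card C) :=
    Nat.Coprime.pow_left n ((Nat.Prime.coprime_iff_not_dvd hp.out).mpr hC)
  have h4 : orderOf k = 1 := Nat.eq_one_of_dvd_coprimes h3 h1 h2
  exact orderOf_eq_one_iff.mp h4

/-- the key step: `b = u' k` with `b` conjugate to an element of `PU`. -/
theorem central_part [Finite U] {C : Subgroup U} (hCc : C ≤ Subgroup.center U)
    (hC : ¬ p ∣ Nat.card C) (PU : Sylow p U) {v a u k : U} (ha : a ∈ (PU : Subgroup U))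
    (hu : u ∈ (PU : Subgroup U)) (hk : k ∈ C) (h : v * a * v⁻¹ = u * k) :
    v * a * v⁻¹ = u := by
  obtain ⟨i, hi⟩ := PU.2 ⟨a, ha⟩
  obtain ⟨j, hj⟩ := PU.2 ⟨u, hu⟩
  have hi' : a ^ p ^ i = 1 := by
    have := congrArg Subtype.val hi
    simpa using this
  have hj' : u ^ p ^ j = 1 := by
    have := congrArg Subtype.val hj
    simpa using this
  have hcomm : Commute u k := by
    have := Subgroup.mem_center_iff.mp (hCc hk) u
    exact this
  have h1 : (v * a * v⁻¹) ^ p ^ (i + j) = 1 := by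
    rw [conj_pow, pow_add, pow_mul, hi', one_pow, mul_one, mul_inv_cancel]
  have h2 : (u * k) ^ p ^ (i + j) = k ^ p ^ (i + j) := by
    rw [hcomm.mul_pow, add_comm i j, pow_add p j i, pow_mul u, hj', one_pow, one_mul]
  rw [h, h2] at h1
  have h3 := eq_one_of_pow hC hk h1
  rw [h, h3, mul_one]

end aux

section pi

variable {p : ℕ} [hp : Fact p.Prime] {U Ω : Type} [Group U] [Finite U] [Fintype Ω]

/-- the product of Sylow subgroups -/
def piSub (Ω : Type) (H : Subgroup U) : Subgroup (Ω → U) where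
  carrier := {u | ∀ ω, u ω ∈ H}
  mul_mem' := fun ha hb ω => H.mul_mem (ha ω) (hb ω)
  one_mem' := fun _ => H.one_mem
  inv_mem' := fun ha ω => H.inv_mem (ha ω)

theorem mem_piSub {H : Subgroup U} {u : Ω → U} : u ∈ piSub Ω H ↔ ∀ ω, u ω ∈ H := Iff.rfl

theorem card_piSub (H : Subgroup U) : Nat.card (piSub Ω H) = Nat.card H ^ Fintype.card Ω := by
  have e : piSub Ω H ≃ (Ω → H) :=
    { toFun := fun u ω => ⟨u.1 ω, u.2 ω⟩
      invFun := fun u => ⟨fun ω => (u ω : U), fun ω => (u ω).2⟩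
      left_inv := fun _ => rfl
      right_inv := fun _ => rfl }
  rw [Nat.card_congr e, Nat.card_fun, Nat.card_eq_fintype_card (α := Ω)]

/-- the product of Sylow subgroups is a Sylow subgroup -/
def piSylow (Ω : Type) [Fintype Ω] (PU : Sylow p U) : Sylow p (Ω → U) :=
  Sylow.ofCard (piSub Ω (PU : Subgroup U)) (by
    rw [card_piSub, PU.card_eq_multiplicity, Nat.card_fun, Nat.card_eq_fintype_card (α := Ω),
      Nat.factorization_pow, ← pow_mul, Finsupp.smul_apply, smul_eq_mul, mul_comm])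

theorem coe_piSylow (PU : Sylow p U) :
    ((piSylow Ω PU : Sylow p (Ω → U)) : Subgroup (Ω → U)) = piSub Ω (PU : Subgroup U) := rfl

end pi

/-- the normalizer of a Sylow subgroup -/
theorem sylow_part {p : ℕ} [hp : Fact p.Prime] {G U Ω : Type} [Group G] [Finite G] [Group U] [Finite U]
    [Fintype Ω] [Nonempty Ω] [MulAction G Ω] {m : (Ω → U) →* G} {C : Subgroup U} {X : Subgroup G}
    (h : WD m C X) (hC : ¬ p ∣ Nat.card C) (PU : Sylow p U) :
    ∃ (P : Sylow p G) (R : Subgroup G),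
      Subgroup.normalizer ((P : Subgroup G) : Set G) ≤
        (res m (Subgroup.normalizer ((PU : Subgroup U) : Set U))).range ⊔ X ∧
      IsPGroup p R ∧
      (res m (Subgroup.normalizer ((PU : Subgroup U) : Set U))).range ⊔ X ≤
        Subgroup.normalizer (R : Set G) ∧
      (p ∣ Nat.card U → R ≠ ⊥) := by
  classical
  obtain ⟨E, hE⟩ : ∃ E : Subgroup G, E = m.range := ⟨_, rfl⟩
  obtain ⟨R, hR⟩ : ∃ R : Subgroup G, R = (piSub Ω (PU : Subgroup U)).map m := ⟨_, rfl⟩
  have hmemR : ∀ g, g ∈ R ↔ ∃ u : Ω → U, (∀ ω, u ω ∈ (PU : Subgroup U)) ∧ m u = g := by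
    intro g
    rw [hR, Subgroup.mem_map]
    rfl
  -- `X` normalizes `R` and `E`
  have hXR : ∀ x ∈ X, ∀ r ∈ R, x * r * x⁻¹ ∈ R := by
    intro x hx r hr
    obtain ⟨u, hu, rfl⟩ := (hmemR r).mp hr
    rw [h.eqv x hx]
    exact (hmemR _).mpr ⟨_, fun ω => hu _, rfl⟩
  have hEn : E.Normal := by
    have h1 : E ⊔ X ≤ Subgroup.normalizer (E : Set G) := by
      refine sup_le Subgroup.le_normalizer fun x hx => ?_
      refine Subgroup.mem_normalizer_fintype fun g hg => ?_
      rw [hE] at hg ⊢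
      obtain ⟨u, rfl⟩ := hg
      rw [h.eqv x hx]
      exact ⟨_, rfl⟩
    rw [hE, h.sup] at h1
    rw [hE]
    exact Subgroup.normalizer_eq_top_iff.mp (top_le_iff.mp h1)
  have hRp : IsPGroup p R := by
    rw [hR]
    have h1 := (piSylow Ω PU).2.map m
    rwa [coe_piSylow] at h1
  have hRE : R ≤ E := by
    intro g hg
    obtain ⟨u, -, rfl⟩ := (hmemR g).mp hg
    rw [hE]
    exact ⟨u, rfl⟩
  -- `R` is a Sylow subgroup of `E`
  have hmax : ∀ Q : Subgroup G, IsPGroup p Q → R ≤ Q → Q ≤ E → Q = R := by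
    intro Q hQ hRQ hQE
    subst hE
    let RE : Sylow p m.range := (piSylow Ω PU).mapSurjective m.rangeRestrict_surjective
    have h1 : (RE : Subgroup m.range) = (piSub Ω (PU : Subgroup U)).map m.rangeRestrict := rfl
    have h2 : IsPGroup p (Q.subgroupOf m.range) := by
      rw [Subgroup.subgroupOf]
      exact hQ.comap_of_injective _ (Subgroup.subtype_injective _)
    have h3 : (RE : Subgroup m.range) ≤ Q.subgroupOf m.range := by
      rw [h1]
      rintro _ ⟨u, hu, rfl⟩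
      rw [Subgroup.mem_subgroupOf]
      exact hRQ ((hmemR _).mpr ⟨u, hu, rfl⟩)
    have h4 := RE.is_maximal' h2 h3
    refine le_antisymm (fun q hq => ?_) hRQ
    have h5 : (⟨q, hQE hq⟩ : m.range) ∈ Q.subgroupOf m.range := by
      rw [Subgroup.mem_subgroupOf]
      exact hq
    rw [h4] at h5
    change (⟨q, hQE hq⟩ : m.range) ∈ (piSub Ω (PU : Subgroup U)).map m.rangeRestrict at h5
    obtain ⟨u, hu, hu'⟩ := h5
    have h6 := congrArg Subtype.val hu'
    exact (hmemR q).mpr ⟨u, hu, h6⟩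
  obtain ⟨P, hP⟩ := hRp.exists_le_sylow
  have hPE : (P : Subgroup G) ⊓ E = R :=
    hmax _ (P.2.to_le inf_le_left) (le_inf hP hRE) inf_le_right
  -- elements of the normalizer of `PU` normalize `R`
  have hNR : (res m (Subgroup.normalizer ((PU : Subgroup U) : Set U))).range ⊔ X ≤
      Subgroup.normalizer (R : Set G) := by
    refine sup_le ?_ fun x hx => Subgroup.mem_normalizer_fintype (hXR x hx)
    rintro _ ⟨v, rfl⟩
    refine Subgroup.mem_normalizer_fintype fun r hr => ?_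
    obtain ⟨u, hu, rfl⟩ := (hmemR r).mp hr
    rw [res_apply, ← map_inv, ← map_mul, ← map_mul]
    refine (hmemR _).mpr ⟨_, fun ω => ?_, rfl⟩
    have h1 := (v ω).2
    rw [Subgroup.mem_normalizer_iff] at h1
    exact (h1 (u ω)).mp (hu ω)
  refine ⟨P, R, ?_, hRp, hNR, ?_⟩
  · intro g hg
    have hgR : ∀ r ∈ R, g * r * g⁻¹ ∈ R := by
      intro r hr
      rw [← hPE] at hr ⊢
      refine ⟨?_, hEn.conj_mem r hr.2 g⟩
      rw [Subgroup.mem_normalizer_iff] at hg
      exact (hg r).mp hr.1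
    have hg2 : g ∈ E ⊔ X := by
      rw [hE, h.sup]
      exact Subgroup.mem_top g
    obtain ⟨e, he, x, hx, rfl⟩ := Subgroup.mem_sup_of_normal_left.mp hg2
    have heR : ∀ r ∈ R, e * r * e⁻¹ ∈ R := by
      intro r hr
      have h1 := hgR _ (hXR x⁻¹ (X.inv_mem hx) r hr)
      have h2 : e * x * (x⁻¹ * r * x⁻¹⁻¹) * (e * x)⁻¹ = e * r * e⁻¹ := by group
      rwa [h2] at h1
    refine Subgroup.mul_mem_sup ?_ hx
    rw [hE] at he
    obtain ⟨v, rfl⟩ := he
    have hv : ∀ ω, v ω ∈ Subgroup.normalizer ((PU : Subgroup U) : Set U) := by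
      intro ω
      refine Subgroup.mem_normalizer_fintype fun a ha => ?_
      have h1 : m (Pi.mulSingle ω a) ∈ R := by
        refine (hmemR _).mpr ⟨_, fun ω' => ?_, rfl⟩
        by_cases hω : ω' = ω
        · subst hω
          rw [Pi.mulSingle_eq_same]
          exact ha
        · rw [Pi.mulSingle_eq_of_ne hω]
          exact Subgroup.one_mem _
      have h2 := heR _ h1
      rw [← map_inv, ← map_mul, ← map_mul] at h2
      obtain ⟨u, hu, hu'⟩ := (hmemR _).mp h2
      obtain ⟨k, hk⟩ : ∃ k : Ω → U, k = u⁻¹ * (v * Pi.mulSingle ω a * v⁻¹) := ⟨_, rfl⟩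
      have h3 : m k = 1 := by
        rw [hk, map_mul, map_inv, hu', inv_mul_cancel]
      have h4 := h.ker k (h3 ▸ X.one_mem) ω
      have h5 : v ω * a * (v ω)⁻¹ = u ω * k ω := by
        rw [hk]
        simp only [Pi.mul_apply, Pi.inv_apply, Pi.mulSingle_eq_same]
        group
      have h6 := central_part h.Cc hC PU ha (hu ω) h4 h5
      change v ω * a * (v ω)⁻¹ ∈ (PU : Subgroup U)
      rw [h6]
      exact hu ω
    exact ⟨fun ω => ⟨v ω, hv ω⟩, rfl⟩
  · intro hdvd hbot
    have h1 := PU.ne_bot_of_dvd_card hdvd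
    obtain ⟨a, ha, ha1⟩ := (Subgroup.ne_bot_iff_exists_ne_one (H := (PU : Subgroup U))).mp h1 |>.elim
      fun a ha => (⟨(a : U), a.2, fun h0 => ha (Subtype.ext h0)⟩ :
        ∃ a : U, a ∈ (PU : Subgroup U) ∧ a ≠ 1)
    obtain ⟨ω⟩ := ‹Nonempty Ω›
    have h2 : m (Pi.mulSingle ω a) ∈ R := by
      refine (hmemR _).mpr ⟨_, fun ω' => ?_, rfl⟩
      by_cases hω : ω' = ω
      · subst hω
        rw [Pi.mulSingle_eq_same]
        exact ha
      · rw [Pi.mulSingle_eq_of_ne hω]
        exact Subgroup.one_mem _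
    rw [hbot, Subgroup.mem_bot] at h2
    have h3 := h.ker _ (h2 ▸ X.one_mem) ω
    rw [Pi.mulSingle_eq_same] at h3
    obtain ⟨i, hi⟩ := PU.2 ⟨a, ha⟩
    have hi' : a ^ p ^ i = 1 := by
      have := congrArg Subtype.val hi
      simpa using this
    exact ha1 (eq_one_of_pow hC h3 hi')

end Pool.Agent.Zk54.MQ
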