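import Pool.Agent.Zk54.MQ.M5b
import Pool.Agent.Zk54.MQ.M7
import Pool.Agent.K3h85.IN.Field

/-!
# The case of a factor of order prime to `p`

`U` has order prime to `p` and `G = m(U^Ω) N_G(P)`. We may assume `P ≤ X`, then `X ≤ N_G(P)` and `m(U^Ω) ∩ N_G(P)` is the
image of the functions which are constant on the orbits of `P` on `Ω`. The partner of the character with the factors
`g(π ω)` has the factors `g(o)` raised by an automorphism of `ℂ` which maps the roots of unity of order dividing `|U|`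
to their `|o|`-th powers.
-/

set_option autoImplicit false
set_option linter.unusedSectionVars false
set_option linter.style.haveILetI false

section FileA

noncomputable section

open scoped BigOperators Classical IsMulCommutative


namespace Pool.Agent.Zk54.MQ.C2

open Pool.Agent.Zk54.MQ
open Pool.Agent.K3h3.MK (NN)

section grp

variable {p : ℕ} [hp : Fact p.Prime] {G U Ω : Type} [Group G] [Finite G] [Group U] [Finite U]
  [Fintype Ω] [MulAction G Ω] {m : (Ω → U) →* G} {C : Subgroup U} {X : Subgroup G}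

theorem card_range (m : (Ω → U) →* G) (hU : ¬ p ∣ Nat.card U) : ¬ p ∣ Nat.card m.range := by
  intro hd
  have h1 : Nat.card m.range ∣ Nat.card (Ω → U) := Subgroup.card_range_dvd m
  rw [Nat.card_fun] at h1
  exact hU (hp.out.dvd_of_dvd_pow (hd.trans h1))

theorem exists_le (h : WD m C X) (hU : ¬ p ∣ Nat.card U) : ∃ P : Sylow p G, (P : Subgroup G) ≤ X := by
  haveI := h.normal
  have h1 : ¬ p ∣ X.index := by
    intro hd
    have h2 : X.index = X.relIndex m.range := by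
      haveI : MulAction.IsPretransitive m.range (G ⧸ X) := by
        rw [MulAction.isPretransitive_iff_base (((1 : G) : G ⧸ X))]
        intro y
        obtain ⟨g, rfl⟩ := QuotientGroup.mk_surjective y
        obtain ⟨u, x, hx, rfl⟩ := h.exists_mul g
        refine ⟨⟨m u, ⟨u, rfl⟩⟩, ?_⟩
        change ((m u * 1 : G) : G ⧸ X) = _
        rw [QuotientGroup.eq, mul_one]
        have e : (m u)⁻¹ * (m u * x) = x := by group
        rw [e]
        exact hx
      have h2 := MulAction.index_stabilizer_of_transitive m.range (((1 : G) : G ⧸ X))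
      have h3 : MulAction.stabilizer m.range (((1 : G) : G ⧸ X)) = X.subgroupOf m.range := by
        ext x
        rw [MulAction.mem_stabilizer_iff, Subgroup.mem_subgroupOf]
        change (((x : G) * 1 : G) : G ⧸ X) = ((1 : G) : G ⧸ X) ↔ _
        rw [mul_one, eq_comm, QuotientGroup.eq, inv_one, one_mul]
      rw [h3] at h2
      exact h2.symm
    rw [h2] at hd
    exact card_range m hU (hd.trans (Subgroup.relIndex_dvd_card X m.range))
  obtain ⟨Q⟩ : Nonempty (Sylow p X) := inferInstance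
  have h4 : IsPGroup p ((Q : Subgroup X).map X.subtype) := Q.2.map _
  have h5 : ¬ p ∣ ((Q : Subgroup X).map X.subtype).index := by
    rw [Subgroup.index_map_subtype]
    intro hd
    rcases hp.out.dvd_mul.mp hd with h6 | h6
    · exact Q.not_dvd_index h6
    · exact h1 h6
  refine ⟨h4.toSylow h5, ?_⟩
  rintro _ ⟨x, _, rfl⟩
  exact x.2

theorem sup_smul {E : Subgroup G} (hE : E.Normal) {P Q : Sylow p G} (hs : E ⊔ NN P = ⊤) :
    E ⊔ NN Q = ⊤ := by
  obtain ⟨g, rfl⟩ := MulAction.exists_smul_eq G P Q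
  rw [eq_top_iff]
  intro x _
  have h1 : g⁻¹ * x * g ∈ E ⊔ NN P := by rw [hs]; trivial
  obtain ⟨e, he, n, hn, hx⟩ := Subgroup.mem_sup_of_normal_left.mp h1
  have h2 : x = (g * e * g⁻¹) * (g * n * g⁻¹) := by
    have : x = g * (g⁻¹ * x * g) * g⁻¹ := by group
    rw [this, ← hx]
    group
  rw [h2]
  refine Subgroup.mul_mem_sup (hE.conj_mem e he g) ?_
  have hn' : n • P = P := Sylow.smul_eq_iff_mem_normalizer.mpr hn
  have h3 : (g * n * g⁻¹) • (g • P) = g • P := by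
    rw [mul_smul, mul_smul, inv_smul_smul, hn']
  exact Sylow.smul_eq_iff_mem_normalizer.mp h3

theorem X_le (h : WD m C X) (hU : ¬ p ∣ Nat.card U) {P : Sylow p G} (hP : (P : Subgroup G) ≤ X)
    (hs : m.range ⊔ NN P = ⊤) : X ≤ NN P := by
  haveI := h.normal
  intro x hx
  refine Subgroup.mem_normalizer_fintype fun y hy => ?_
  have h1 : x ∈ m.range ⊔ NN P := by rw [hs]; trivial
  obtain ⟨e, he, n, hn, rfl⟩ := Subgroup.mem_sup_of_normal_left.mp h1
  have h2 : n * y * n⁻¹ ∈ P := (Subgroup.mem_normalizer_iff.mp hn y).mp hy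
  obtain ⟨d, hd⟩ : ∃ d, d = (e * n) * y * (e * n)⁻¹ * (n * y * n⁻¹)⁻¹ := ⟨_, rfl⟩
  have hdE : d ∈ m.range := by
    have e1 : d = e * ((n * y * n⁻¹) * e⁻¹ * (n * y * n⁻¹)⁻¹) := by rw [hd]; group
    rw [e1]
    exact m.range.mul_mem he ((h.normal).conj_mem _ (m.range.inv_mem he) _)
  have hdX : d ∈ X := by
    rw [hd]
    exact X.mul_mem (X.mul_mem (X.mul_mem hx (hP hy)) (X.inv_mem hx)) (X.inv_mem (hP h2))
  have hdc : d ∈ Subgroup.center G := by
    obtain ⟨u, rfl⟩ := hdE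
    exact h.cen u (h.ker u hdX)
  obtain ⟨i, hi⟩ := P.2 ⟨y, hy⟩
  have hi' : y ^ p ^ i = 1 := by
    have := congrArg Subtype.val hi
    simpa using this
  have e2 : (e * n) * y * (e * n)⁻¹ = d * (n * y * n⁻¹) := by rw [hd]; group
  have h3 : ((e * n) * y * (e * n)⁻¹) ^ p ^ i = 1 := by
    rw [conj_pow, hi', mul_one, mul_inv_cancel]
  have hcomm : Commute d (n * y * n⁻¹) := ((Subgroup.mem_center_iff.mp hdc) _).symm
  rw [e2, hcomm.mul_pow, conj_pow, hi', mul_one, mul_inv_cancel, mul_one] at h3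
  have h4 : d = 1 := eq_one_of_pow (C := m.range) (card_range m hU) hdE h3
  rw [e2, h4, one_mul]
  exact h2

/-- the inclusion of the functions with values in the center -/
def cz (Ω U : Type) [Group U] : (Ω → Subgroup.center U) →* (Ω → U) where
  toFun c := fun ω => (c ω : U)
  map_one' := rfl
  map_mul' := fun _ _ => rfl

@[simp] theorem cz_apply (c : Ω → Subgroup.center U) (ω : Ω) : cz Ω U c ω = (c ω : U) := rfl

theorem pow_cardU (c : Subgroup.center U) : c ^ Nat.card U = 1 :=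
  Subtype.ext (by push_cast; exact pow_card_eq_one')

theorem coprime_P (hU : ¬ p ∣ Nat.card U) (P : Sylow p G) : Nat.Coprime (Nat.card P) (Nat.card U) := by
  obtain ⟨n, hn⟩ := IsPGroup.iff_card.mp P.2
  have : Nat.card P = p ^ n := hn
  rw [this]
  exact Nat.Coprime.pow_left n ((Nat.Prime.coprime_iff_not_dvd hp.out).mpr hU)

/-- an element normalizing `P` comes from a function which is constant on the orbits of `P` -/
theorem exists_const (h : WD m C X) (hU : ¬ p ∣ Nat.card U) {P : Sylow p G}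
    (hP : (P : Subgroup G) ≤ X) (u : Ω → U) (hu : m u ∈ NN P) :
    ∃ w : Ω → U, m w = m u ∧ ∀ y ∈ P, ∀ ω, w (y • ω) = w ω := by
  haveI := h.normal
  haveI : Fintype P := Fintype.ofFinite P
  have key : ∀ x ∈ P, m (fun ω => u (x⁻¹ • ω)) = m u := by
    intro x hx
    have h1 : x * m u * x⁻¹ = m (fun ω => u (x⁻¹ • ω)) := h.eqv x (hP hx) u
    have h2 : x * m u * x⁻¹ * (m u)⁻¹ ∈ P := by
      have h3 : m u * x⁻¹ * (m u)⁻¹ ∈ P :=
        (Subgroup.mem_normalizer_iff.mp hu x⁻¹).mp ((P : Subgroup G).inv_mem hx)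
      have e : x * m u * x⁻¹ * (m u)⁻¹ = x * (m u * x⁻¹ * (m u)⁻¹) := by group
      rw [e]
      exact (P : Subgroup G).mul_mem hx h3
    have h4 : x * m u * x⁻¹ * (m u)⁻¹ ∈ m.range :=
      m.range.mul_mem ((h.normal).conj_mem _ ⟨u, rfl⟩ x) (m.range.inv_mem ⟨u, rfl⟩)
    obtain ⟨i, hi⟩ := P.2 ⟨_, h2⟩
    have hi' : (x * m u * x⁻¹ * (m u)⁻¹) ^ p ^ i = 1 := by
      have := congrArg Subtype.val hi
      simpa using this
    have h5 := eq_one_of_pow (C := m.range) (card_range m hU) h4 hi'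
    rw [← h1]
    exact mul_inv_eq_one.mp h5
  have kz : ∀ (x : P) (ω : Ω), u ((x : G)⁻¹ • ω) * (u ω)⁻¹ ∈ Subgroup.center U := by
    intro x ω
    have h1 : m (fun ω => u ((x : G)⁻¹ • ω) * (u ω)⁻¹) = 1 := by
      have e : (fun ω => u ((x : G)⁻¹ • ω) * (u ω)⁻¹) = (fun ω => u ((x : G)⁻¹ • ω)) * u⁻¹ := rfl
      rw [e, map_mul, map_inv, key x x.2, mul_inv_cancel]
    exact h.Cc (h.ker _ (by rw [h1]; exact X.one_mem) ω)
  obtain ⟨k, hk⟩ : ∃ k : P → Ω → Subgroup.center U, ∀ x ω, (k x ω : U) = u ((x : G)⁻¹ • ω) * (u ω)⁻¹ :=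
    ⟨fun x ω => ⟨_, kz x ω⟩, fun _ _ => rfl⟩
  have hk1 : ∀ x, m (cz Ω U (k x)) = 1 := by
    intro x
    have e : cz Ω U (k x) = (fun ω => u ((x : G)⁻¹ • ω)) * u⁻¹ := by
      funext ω
      exact hk x ω
    rw [e, map_mul, map_inv, key x x.2, mul_inv_cancel]
  obtain ⟨K, hK⟩ : ∃ K : Ω → Subgroup.center U, K = ∏ x : P, k x := ⟨_, rfl⟩
  have hK1 : m (cz Ω U K) = 1 := by
    have h1 : K ∈ (m.comp (cz Ω U)).ker := by
      rw [hK]
      exact Subgroup.prod_mem _ fun x _ => hk1 x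
    exact h1
  obtain ⟨a, ha⟩ : ∃ a : ℤ, ∀ c : Subgroup.center U, c ^ ((Nat.card P : ℤ) * a) = c := by
    refine ⟨Nat.gcdA (Nat.card P) (Nat.card U), fun c => ?_⟩
    have h1 := Nat.gcd_eq_gcd_ab (Nat.card P) (Nat.card U)
    rw [(coprime_P hU P : Nat.gcd _ _ = 1)] at h1
    have h2 : (Nat.card P : ℤ) * Nat.gcdA (Nat.card P) (Nat.card U) =
        1 - Nat.card U * Nat.gcdB (Nat.card P) (Nat.card U) := by
      push_cast at h1
      linarith
    rw [h2, zpow_sub, zpow_one, zpow_mul, zpow_natCast, pow_cardU, one_zpow, inv_one, mul_one]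
  have hKy : ∀ (y : P) ω, K ((y : G) • ω) = K ω * (k y⁻¹ ω) ^ (-(Nat.card P : ℤ)) := by
    intro y ω
    have h1 : ∀ x : P, k (y * x) ((y : G) • ω) = k x ω * (k y⁻¹ ω)⁻¹ := by
      intro x
      apply Subtype.ext
      push_cast
      rw [hk, hk, hk]
      have e1 : (((y * x : P) : G))⁻¹ • (y : G) • ω = (x : G)⁻¹ • ω := by
        rw [smul_smul]
        congr 1
        push_cast
        group
      have e2 : (((y⁻¹ : P) : G))⁻¹ • ω = (y : G) • ω := by
        push_cast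
        rw [inv_inv]
      rw [e1, e2]
      group
    have h2 : ∏ x : P, k x ((y : G) • ω) = ∏ x : P, k (y * x) ((y : G) • ω) :=
      (Fintype.prod_equiv (Equiv.mulLeft y) _ _ fun x => rfl).symm
    rw [hK, Finset.prod_apply, Finset.prod_apply, h2]
    simp_rw [h1]
    rw [Finset.prod_mul_distrib, Finset.prod_const, Finset.card_univ, inv_pow, zpow_neg, zpow_natCast,
      Nat.card_eq_fintype_card]
  refine ⟨u * cz Ω U (K ^ a), ?_, ?_⟩
  · rw [map_mul, map_zpow, map_zpow, hK1, one_zpow, mul_one]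
  · intro y hy ω
    have h1 := hKy ⟨y, hy⟩ ω
    have h2 : ((K ^ a) (y • ω) : Subgroup.center U) = (K ^ a) ω * (k (⟨y, hy⟩ : P)⁻¹ ω)⁻¹ := by
      rw [Pi.pow_apply, Pi.pow_apply]
      change K ((⟨y, hy⟩ : P) • ω) ^ a = _
      rw [show (K ((⟨y, hy⟩ : P) • ω)) = _ from h1, mul_zpow, ← zpow_mul, neg_mul, zpow_neg, ha]
    have h3 : u (y • ω) = (k (⟨y, hy⟩ : P)⁻¹ ω : U) * u ω := by
      rw [hk]
      have e2 : (((⟨y, hy⟩ : P)⁻¹ : P) : G)⁻¹ • ω = y • ω := by
        push_cast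
        rw [inv_inv]
      rw [e2, inv_mul_cancel_right]
    rw [Pi.mul_apply, Pi.mul_apply, cz_apply, cz_apply, h2, h3]
    push_cast
    have h4 : ∀ z : Subgroup.center U, ∀ v : U, (z : U) * v = v * z := fun z v =>
      ((Subgroup.mem_center_iff.mp z.2) v).symm
    rw [h4 (k (⟨y, hy⟩ : P)⁻¹ ω) (u ω), mul_assoc]
    congr 1
    rw [h4 (k (⟨y, hy⟩ : P)⁻¹ ω) _, mul_assoc, inv_mul_cancel, mul_one]

end grp

end Pool.Agent.Zk54.MQ.C2

end

end FileA

section FileB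

noncomputable section

open scoped BigOperators Classical IsMulCommutative


namespace Pool.Agent.Zk54.MQ.C2

open Pool.Agent.Zk54.MQ
open Pool.Agent.K3h3.MK (NN)

section quo

variable {p : ℕ} [hp : Fact p.Prime] {G Ω Ω' : Type} [Group G] [Finite G]
  [Fintype Ω] [MulAction G Ω]

/-- `π` is the quotient by the orbits of `P` -/
structure QD (P : Sylow p G) [MulAction (NN P) Ω'] (π : Ω → Ω') : Prop where
  surj : Function.Surjective π
  equi : ∀ (n : NN P) (ω : Ω), π ((n : G) • ω) = n • π ω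
  orb : ∀ ω ω', π ω = π ω' → ∃ x ∈ P, x • ω = ω'
  inv : ∀ x ∈ P, ∀ ω, π (x • ω) = π ω
  pow : ∀ o, ∃ i : ℕ, Nat.card {ω // π ω = o} = p ^ i

theorem exists_quot (Ω : Type) [Fintype Ω] [MulAction G Ω] (P : Sylow p G) :
    ∃ (Ω' : Type) (_ : Fintype Ω') (_ : MulAction (NN P) Ω') (π : Ω → Ω'), QD P π := by
  let s : Setoid Ω :=
    { r := fun a b => ∃ x ∈ P, x • a = b
      iseqv :=
        { refl := fun a => ⟨1, (P : Subgroup G).one_mem, one_smul _ _⟩
          symm := by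
            rintro a b ⟨x, hx, rfl⟩
            exact ⟨x⁻¹, (P : Subgroup G).inv_mem hx, inv_smul_smul _ _⟩
          trans := by
            rintro a b c ⟨x, hx, rfl⟩ ⟨y, hy, rfl⟩
            exact ⟨y * x, (P : Subgroup G).mul_mem hy hx, mul_smul _ _ _⟩ } }
  let act : MulAction (NN P) (Quotient s) :=
    { smul := fun n => Quotient.map (fun ω => (n : G) • ω) (by
        rintro a b ⟨x, hx, rfl⟩
        refine ⟨n * x * (n : G)⁻¹, (Subgroup.mem_normalizer_iff.mp n.2 x).mp hx, ?_⟩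
        rw [mul_smul, mul_smul, inv_smul_smul])
      one_smul := by
        rintro ⟨ω⟩
        change Quotient.mk s ((1 : G) • ω) = Quotient.mk s ω
        rw [one_smul]
      mul_smul := by
        rintro a b ⟨ω⟩
        change Quotient.mk s (((a * b : NN P) : G) • ω) = Quotient.mk s ((a : G) • (b : G) • ω)
        rw [smul_smul]
        rfl }
  have fin : Finite (Quotient s) := inferInstance
  refine ⟨Quotient s, Fintype.ofFinite _, act, Quotient.mk s, ?_⟩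
  refine ⟨Quotient.mk_surjective, fun n ω => rfl, fun ω ω' h => Quotient.exact h, ?_, ?_⟩
  · intro x hx ω
    exact (Quotient.sound (⟨x, hx, rfl⟩ : ∃ y ∈ P, y • ω = x • ω)).symm
  · intro o
    obtain ⟨ω₀, rfl⟩ := Quotient.mk_surjective o
    have h1 := IsPGroup.card_orbit (P.2) (α := Ω) ω₀
    obtain ⟨i, hi⟩ := h1
    refine ⟨i, ?_⟩
    rw [← hi]
    refine Nat.card_congr (Equiv.subtypeEquivRight fun ω => ?_)
    constructor
    · intro h
      obtain ⟨x, hx, h2⟩ := Quotient.exact h.symm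
      exact ⟨⟨x, hx⟩, h2⟩
    · rintro ⟨x, rfl⟩
      exact (Quotient.sound (⟨x, x.2, rfl⟩ : ∃ y ∈ P, y • ω₀ = (x : G) • ω₀)).symm

/-- the size of a fibre -/
def K (π : Ω → Ω') (o : Ω') : ℕ := Nat.card {ω // π ω = o}

theorem K_smul {P : Sylow p G} [MulAction (NN P) Ω'] {π : Ω → Ω'} (q : QD P π) (n : NN P) (o : Ω') :
    K π (n • o) = K π o := by
  refine (Nat.card_congr (Equiv.subtypeEquiv (MulAction.toPerm (n : G)) fun ω => ?_)).symm
  rw [MulAction.toPerm_apply, q.equi]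
  exact (MulAction.injective n).eq_iff.symm

theorem prod_fib [Fintype Ω'] {M : Type} [CommMonoid M] (π : Ω → Ω') (F : Ω' → M) :
    ∏ ω, F (π ω) = ∏ o, F o ^ K π o := by
  rw [← Fintype.prod_fiberwise' π F]
  refine Finset.prod_congr rfl fun o _ => ?_
  rw [Finset.prod_const, Finset.card_univ, K, Nat.card_eq_fintype_card]

end quo

section wd

variable {p : ℕ} [hp : Fact p.Prime] {G U Ω Ω' : Type} [Group G] [Finite G] [Group U] [Finite U]
  [Fintype Ω] [Fintype Ω'] [MulAction G Ω] {m : (Ω → U) →* G} {C : Subgroup U} {X : Subgroup G}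
  {P : Sylow p G} [MulAction (NN P) Ω'] {π : Ω → Ω'}

/-- composition with `π` -/
def cmp (U : Type) [Group U] (π : Ω → Ω') : (Ω' → U) →* (Ω → U) where
  toFun v := fun ω => v (π ω)
  map_one' := rfl
  map_mul' := fun _ _ => rfl

theorem cmp_mem (h : WD m C X) (hP : (P : Subgroup G) ≤ X) (q : QD P π) (v : Ω' → U) :
    m (cmp U π v) ∈ NN P := by
  have h1 : ∀ x ∈ P, x * m (cmp U π v) * x⁻¹ = m (cmp U π v) := by
    intro x hx
    rw [h.eqv x (hP hx)]
    congr 1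
    funext ω
    change v (π (x⁻¹ • ω)) = v (π ω)
    rw [q.inv x⁻¹ ((P : Subgroup G).inv_mem hx)]
  refine Subgroup.mem_normalizer_fintype fun x hx => ?_
  have h2 := h1 x hx
  have h3 : m (cmp U π v) * x * (m (cmp U π v))⁻¹ = x := by
    have h4 : x * m (cmp U π v) = m (cmp U π v) * x := by
      rw [← mul_inv_eq_iff_eq_mul]
      exact h2
    rw [← h4, mul_inv_cancel_right]
  rw [h3]
  exact hx

/-- the homomorphism into the normalizer -/
def mN (h : WD m C X) (hP : (P : Subgroup G) ≤ X) (q : QD P π) : (Ω' → U) →* NN P :=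
  (m.comp (cmp U π)).codRestrict (NN P) fun v => cmp_mem h hP q v

theorem mN_coe (h : WD m C X) (hP : (P : Subgroup G) ≤ X) (q : QD P π) (v : Ω' → U) :
    ((mN h hP q v : NN P) : G) = m (fun ω => v (π ω)) := rfl

theorem exists_cmp (q : QD P π) {A : Type} (w : Ω → A) (hw : ∀ y ∈ P, ∀ ω, w (y • ω) = w ω) :
    ∃ v : Ω' → A, w = fun ω => v (π ω) := by
  refine ⟨fun o => w (Function.surjInv q.surj o), funext fun ω => ?_⟩
  obtain ⟨x, hx, h1⟩ := q.orb _ _ (Function.surjInv_eq q.surj (π ω))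
  change w ω = w (Function.surjInv q.surj (π ω))
  rw [← hw x hx (Function.surjInv q.surj (π ω)), h1]

theorem WD.toN (h : WD m C X) (hU : ¬ p ∣ Nat.card U) (hP : (P : Subgroup G) ≤ X)
    (hs : m.range ⊔ NN P = ⊤) (q : QD P π) :
    WD (mN h hP q) C (X.subgroupOf (NN P)) where
  Cc := h.Cc
  eqv := by
    intro x hx u
    apply Subtype.ext
    have h1 := h.eqv x (Subgroup.mem_subgroupOf.mp hx) fun ω => u (π ω)
    refine h1.trans ?_
    rw [mN_coe]
    congr 1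
    funext ω
    rw [← q.equi]
    rfl
  triv := by
    intro u o
    obtain ⟨ω, rfl⟩ := q.surj o
    rw [← q.equi, mN_coe, h.triv]
  ker := by
    intro u hu o
    obtain ⟨ω, rfl⟩ := q.surj o
    exact h.ker _ (Subgroup.mem_subgroupOf.mp hu) ω
  cen := by
    intro u hu
    rw [Subgroup.mem_center_iff]
    intro y
    exact Subtype.ext (Subgroup.mem_center_iff.mp (h.cen (fun ω => u (π ω)) fun ω => hu _) y)
  sup := by
    rw [eq_top_iff]
    intro n _
    obtain ⟨u, x, hx, hux⟩ := h.exists_mul (n : G)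
    have hxN : x ∈ NN P := X_le h hU hP hs hx
    have hu : m u ∈ NN P := by
      have e : m u = n * x⁻¹ := by rw [hux, mul_inv_cancel_right]
      rw [e]
      exact (NN P).mul_mem n.2 ((NN P).inv_mem hxN)
    obtain ⟨w, hw1, hw2⟩ := exists_const h hU hP u hu
    obtain ⟨v, rfl⟩ := exists_cmp q w hw2
    have e : n = mN h hP q v * ⟨x, hxN⟩ := Subtype.ext (by
      rw [hux, ← hw1]
      rfl)
    rw [e]
    exact Subgroup.mul_mem_sup ⟨v, rfl⟩ (Subgroup.mem_subgroupOf.mpr hx)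

end wd

end Pool.Agent.Zk54.MQ.C2

end

end FileB

section FileC

noncomputable section

open scoped BigOperators Classical IsMulCommutative


namespace Pool.Agent.Zk54.MQ.C2

open Pool.Agent.Zk54.MQ
open Pool.Agent.H254R3.IN hiding NN
open Pool.Agent.Helper884 Pool.Agent.Q288.MB
open Pool.Agent.K3h3.KB Pool.Agent.K3h3.MK
open IC (Irr)
open Pool.Agent.K3h83.IN (ov wo wo_eq wo_congr fixes S1 S2 G5 Tst mem_Tst range_le_Tst mem_NN_subtype
  cl_congr)

/-- automorphisms of `ℂ` raising the roots of unity to powers -/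
def IsTau (U : Type) (τ : ℕ → (ℂ ≃+* ℂ)) : Prop :=
  ∀ k, Nat.Coprime k (Nat.card U) → ∀ z : ℂ, z ^ Nat.card U = 1 → τ k z = z ^ k

theorem exists_tau (U : Type) [Group U] [Finite U] : ∃ τ : ℕ → (ℂ ≃+* ℂ), IsTau U τ := by
  have : ∀ k, ∃ σ : ℂ ≃+* ℂ, Nat.Coprime k (Nat.card U) →
      ∀ z : ℂ, z ^ Nat.card U = 1 → σ z = z ^ k := by
    intro k
    by_cases hk : Nat.Coprime k (Nat.card U)
    · obtain ⟨σ, hσ⟩ := Pool.Agent.K3h85.IN.exists_pow_aut (Nat.card U) k Nat.card_pos hk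
      exact ⟨σ, fun _ => hσ⟩
    · exact ⟨RingEquiv.refl ℂ, fun h => absurd h hk⟩
  choose τ hτ using this
  exact ⟨τ, hτ⟩

theorem exists_mu {U : Type} [Group U] [Finite U] {χ : U → ℂ} (hχ : IsIrr χ) :
    ∃ μ : Subgroup.center U →* ℂˣ, ∀ c : Subgroup.center U, χ c = ((μ c : ℂˣ) : ℂ) * χ 1 := by
  haveI := Fintype.ofFinite U
  obtain ⟨μ, hμ⟩ := Pool.Agent.K3h18.IN.central (Subgroup.center U).subtype
    (by rw [Subgroup.range_subtype]) hχ
  exact ⟨μ, fun c => by rw [← hμ c 1, mul_one]; rfl⟩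

section

variable {p : ℕ} [hp : Fact p.Prime] {G U Ω Ω' : Type} [Group G] [Finite G] [Group U] [Finite U]
  [Fintype Ω] [Fintype Ω'] [MulAction G Ω] {m : (Ω → U) →* G} {C : Subgroup U} {X : Subgroup G}
  {P : Sylow p G} [MulAction (NN P) Ω'] {π : Ω → Ω'}

theorem K_coprime (q : QD P π) (hU : ¬ p ∣ Nat.card U) (o : Ω') :
    Nat.Coprime (K π o) (Nat.card U) := by
  obtain ⟨i, hi⟩ := q.pow o
  rw [K, hi]
  exact Nat.Coprime.pow_left i ((Nat.Prime.coprime_iff_not_dvd hp.out).mpr hU)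

/-- the factors of the partner -/
def gt (τ : ℕ → (ℂ ≃+* ℂ)) (π : Ω → Ω') (g : Ω' → U → ℂ) : Ω' → U → ℂ :=
  fun o u => τ (K π o) (g o u)

theorem gt_irr (τ : ℕ → (ℂ ≃+* ℂ)) (π : Ω → Ω') {g : Ω' → U → ℂ} (hg : ∀ o, IsIrr (g o)) (o : Ω') :
    IsIrr (gt τ π g o) := Pool.Agent.Q90.WR.irr_gal (τ (K π o)) (hg o)

theorem gt_inj (τ : ℕ → (ℂ ≃+* ℂ)) (π : Ω → Ω') {g g' : Ω' → U → ℂ} (h : gt τ π g = gt τ π g') :
    g = g' := by
  funext o u
  exact (τ (K π o)).injective (congrFun (congrFun h o) u)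

theorem gt_eq_iff (τ : ℕ → (ℂ ≃+* ℂ)) (π : Ω → Ω') {g : Ω' → U → ℂ} {o o' : Ω'} (h : K π o = K π o') :
    gt τ π g o = gt τ π g o' ↔ g o = g o' := by
  constructor
  · intro h1
    funext u
    have h2 := congrFun h1 u
    unfold gt at h2
    rw [h] at h2
    exact (τ (K π o')).injective h2
  · intro h1
    funext u
    unfold gt
    rw [h, h1]

/-- the product of the values of the central characters -/
def T1 (π : Ω → Ω') (μ : Ω' → (Subgroup.center U →* ℂˣ)) : (Ω → Subgroup.center U) →* ℂˣ where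
  toFun c := ∏ ω, μ (π ω) (c ω)
  map_one' := by simp
  map_mul' a b := by simp [Finset.prod_mul_distrib]

theorem T1_apply (π : Ω → Ω') (μ : Ω' → (Subgroup.center U →* ℂˣ)) (c : Ω → Subgroup.center U) :
    T1 π μ c = ∏ ω, μ (π ω) (c ω) := rfl

theorem T1_pow (π : Ω → Ω') (μ : Ω' → (Subgroup.center U →* ℂˣ)) (c : Ω → Subgroup.center U) :
    T1 π μ c ^ Nat.card U = 1 := by
  have h : c ^ Nat.card U = 1 := funext fun ω => pow_cardU (c ω)
  rw [← map_pow, h, map_one]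

variable {g : Ω' → U → ℂ} {μ : Ω' → (Subgroup.center U →* ℂˣ)}

theorem prodG (hμ : ∀ o c, g o ((c : Subgroup.center U) : U) = ((μ o c : ℂˣ) : ℂ) * g o 1)
    (c : Ω → Subgroup.center U) :
    ∏ ω, g (π ω) (c ω) = ((T1 π μ c : ℂˣ) : ℂ) * ∏ ω, g (π ω) 1 := by
  rw [T1_apply, Units.coe_prod, ← Finset.prod_mul_distrib]
  exact Finset.prod_congr rfl fun ω _ => hμ _ _

theorem prodN {τ : ℕ → (ℂ ≃+* ℂ)} (hτ : IsTau U τ) (q : QD P π) (hU : ¬ p ∣ Nat.card U)
    (hμ : ∀ o c, g o ((c : Subgroup.center U) : U) = ((μ o c : ℂˣ) : ℂ) * g o 1)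
    (v : Ω' → Subgroup.center U) :
    ∏ o, gt τ π g o (v o) = ((T1 π μ (fun ω => v (π ω)) : ℂˣ) : ℂ) * ∏ o, gt τ π g o 1 := by
  have h1 : T1 π μ (fun ω => v (π ω)) = ∏ o, μ o (v o) ^ K π o :=
    prod_fib π fun o => μ o (v o)
  rw [h1, Units.coe_prod, ← Finset.prod_mul_distrib]
  refine Finset.prod_congr rfl fun o _ => ?_
  unfold gt
  rw [hμ, map_mul, hτ _ (K_coprime q hU o), Units.val_pow_eq_pow_val]
  have h2 : (μ o (v o)) ^ Nat.card U = 1 := by rw [← map_pow, pow_cardU, map_one]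
  have h3 := congrArg (fun z : ℂˣ => (z : ℂ)) h2
  simpa using h3

theorem T1_shift (q : QD P π) {x : G} (hx : x ∈ P) (c : Ω → Subgroup.center U) :
    T1 π μ (fun ω => c (x⁻¹ • ω)) = T1 π μ c := by
  rw [T1_apply, T1_apply]
  refine (Fintype.prod_equiv (MulAction.toPerm x) _ _ fun ω => ?_).symm
  rw [MulAction.toPerm_apply, inv_smul_smul, q.inv x hx]

/-- the conditions on the kernels agree -/
theorem ker_iff (h : WD m C X) (hU : ¬ p ∣ Nat.card U) (hP : (P : Subgroup G) ≤ X) (q : QD P π)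
    {τ : ℕ → (ℂ ≃+* ℂ)} (hτ : IsTau U τ) (hg : ∀ o, IsIrr (g o)) :
    (∀ u, m u = 1 → ∏ ω, g (π ω) (u ω) = ∏ ω, g (π ω) 1) ↔
      ∀ v, mN h hP q v = 1 → ∏ o, gt τ π g o (v o) = ∏ o, gt τ π g o 1 := by
  have hmu : ∀ o, ∃ μ : Subgroup.center U →* ℂˣ, ∀ c : Subgroup.center U,
      g o c = ((μ c : ℂˣ) : ℂ) * g o 1 := fun o => exists_mu (hg o)
  choose μ hμ using hmu
  have n1 : ∏ ω, g (π ω) 1 ≠ 0 := Finset.prod_ne_zero_iff.mpr fun ω _ => one_ne (hg _)
  have n2 : ∏ o, gt τ π g o 1 ≠ 0 :=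
    Finset.prod_ne_zero_iff.mpr fun o _ => one_ne (gt_irr τ π hg o)
  constructor
  · intro H v hv
    have h3 : m (fun ω => v (π ω)) = 1 := congrArg Subtype.val hv
    have h4 : ∀ o, v o ∈ Subgroup.center U := by
      intro o
      obtain ⟨ω, rfl⟩ := q.surj o
      exact h.Cc (h.ker _ (by rw [h3]; exact X.one_mem) ω)
    have h5 := prodG (π := π) hμ (fun ω => ⟨v (π ω), h4 (π ω)⟩)
    have h6 := H _ h3
    have h7 := h5.symm.trans h6
    have h8 : ((T1 π μ (fun ω => (⟨v (π ω), h4 (π ω)⟩ : Subgroup.center U)) : ℂˣ) : ℂ) = 1 :=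
      mul_right_cancel₀ n1 (by rw [h7, one_mul])
    have h9 := prodN hτ q hU hμ (fun o => ⟨v o, h4 o⟩)
    rw [h8, one_mul] at h9
    exact h9
  · intro H u hu
    haveI : Fintype P := Fintype.ofFinite P
    have h4 : ∀ ω, u ω ∈ Subgroup.center U := fun ω =>
      h.Cc (h.ker _ (by rw [hu]; exact X.one_mem) ω)
    obtain ⟨c, hc⟩ : ∃ c : Ω → Subgroup.center U, ∀ ω, (c ω : U) = u ω :=
      ⟨fun ω => ⟨u ω, h4 ω⟩, fun _ => rfl⟩
    have hmc : ∀ x : P, m (cz Ω U (fun ω => c ((x : G)⁻¹ • ω))) = 1 := by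
      intro x
      have e1 : cz Ω U (fun ω => c ((x : G)⁻¹ • ω)) = fun ω => u ((x : G)⁻¹ • ω) :=
        funext fun ω => hc _
      rw [e1, ← h.eqv x (hP x.2), hu, mul_one, mul_inv_cancel]
    obtain ⟨A, hA⟩ : ∃ A : Ω → Subgroup.center U, A = ∏ x : P, fun ω => c ((x : G)⁻¹ • ω) :=
      ⟨_, rfl⟩
    have hA1 : m (cz Ω U A) = 1 := by
      have h1 : A ∈ (m.comp (cz Ω U)).ker := by
        rw [hA]
        exact Subgroup.prod_mem _ fun x _ => hmc x
      exact h1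
    have hA2 : ∀ y ∈ P, ∀ ω, A (y • ω) = A ω := by
      intro y hy ω
      rw [hA, Finset.prod_apply, Finset.prod_apply]
      refine Fintype.prod_equiv (Equiv.mulLeft (⟨y, hy⟩ : P)⁻¹) _ _ fun x => ?_
      congr 1
      rw [smul_smul]
      congr 1
      push_cast [Equiv.coe_mulLeft]
      group
    obtain ⟨v, hv⟩ := exists_cmp q A hA2
    have h5 : mN h hP q (fun o => (v o : U)) = 1 := by
      apply Subtype.ext
      rw [mN_coe]
      have e1 : (fun ω => ((v (π ω) : Subgroup.center U) : U)) = cz Ω U A := by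
        rw [hv]
        rfl
      rw [e1, hA1]
      rfl
    have h6 := H _ h5
    have h7 := (prodN hτ q hU hμ v).symm.trans h6
    have h8 : ((T1 π μ (fun ω => v (π ω)) : ℂˣ) : ℂ) = 1 :=
      mul_right_cancel₀ n2 (by rw [h7, one_mul])
    have h9 : T1 π μ A = 1 := by
      rw [hv]
      exact Units.ext h8
    have h10 : T1 π μ A = T1 π μ c ^ Nat.card P := by
      have e1 : ∀ x : P, T1 π μ (fun ω => c ((x : G)⁻¹ • ω)) = T1 π μ c :=
        fun x => T1_shift q x.2 c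
      rw [hA, map_prod]
      refine (Finset.prod_congr rfl fun x _ => e1 x).trans ?_
      rw [Finset.prod_const, Finset.card_univ, Nat.card_eq_fintype_card]
      rfl
    have h11 : T1 π μ c = 1 := by
      have k1 : orderOf (T1 π μ c) ∣ Nat.card P := orderOf_dvd_of_pow_eq_one (by rw [← h10, h9])
      have k2 : orderOf (T1 π μ c) ∣ Nat.card U := orderOf_dvd_of_pow_eq_one (T1_pow π μ c)
      exact orderOf_eq_one_iff.mp (Nat.eq_one_of_dvd_coprimes (coprime_P hU P) k1 k2)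
    have h12 := prodG (π := π) hμ c
    rw [h11, Units.val_one, one_mul] at h12
    simp_rw [hc] at h12
    exact h12

end

end Pool.Agent.Zk54.MQ.C2

end

end FileC

section FileD

noncomputable section

open scoped BigOperators Classical IsMulCommutative


namespace Pool.Agent.Zk54.MQ.C2

open Pool.Agent.Zk54.MQ
open Pool.Agent.H254R3.IN hiding NN
open Pool.Agent.Helper884 Pool.Agent.Q288.MB
open Pool.Agent.K3h3.KB Pool.Agent.K3h3.MK
open IC (Irr)
open Pool.Agent.K3h83.IN (ov wo wo_eq wo_congr fixes S1 S2 G5 Tst mem_Tst range_le_Tst mem_NN_subtype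
  cl_congr)

theorem sum_rel {α β R : Type} [AddCommMonoid R] (s : Finset α) (t : Finset β) (Rel : α → β → Prop)
    (F : α → R) (F' : β → R) (h1 : ∀ a ∈ s, ∃ b ∈ t, Rel a b) (h2 : ∀ b ∈ t, ∃ a ∈ s, Rel a b)
    (h3 : ∀ a b b', Rel a b → Rel a b' → b = b') (h4 : ∀ a a' b, Rel a b → Rel a' b → a = a')
    (h5 : ∀ a b, Rel a b → F a = F' b) : ∑ a ∈ s, F a = ∑ b ∈ t, F' b := by
  refine Finset.sum_bij (fun a ha => (h1 a ha).choose) ?_ ?_ ?_ ?_
  · exact fun a ha => (h1 a ha).choose_spec.1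
  · intro a ha a' ha' h
    have k1 := (h1 a ha).choose_spec.2
    have k2 := (h1 a' ha').choose_spec.2
    rw [← h] at k2
    exact h4 _ _ _ k1 k2
  · intro b hb
    obtain ⟨a, ha, hab⟩ := h2 b hb
    exact ⟨a, ha, h3 _ _ _ (h1 a ha).choose_spec.2 hab⟩
  · exact fun a ha => h5 _ _ (h1 a ha).choose_spec.2

section

variable {p : ℕ} [hp : Fact p.Prime] {G U Ω Ω' : Type} [Group G] [Finite G] [Group U] [Finite U]
  [Fintype Ω] [Fintype Ω'] [MulAction G Ω] {m : (Ω → U) →* G} {C : Subgroup U} {X : Subgroup G}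
  {P : Sylow p G} [MulAction (NN P) Ω'] {π : Ω → Ω'}

/-- the partners -/
structure Pr (h : WD m C X) (hP : (P : Subgroup G) ≤ X) (q : QD P π) (τ : ℕ → (ℂ ≃+* ℂ))
    (g : Ω' → U → ℂ) (θ : m.range → ℂ) (θ' : (mN h hP q).range → ℂ) : Prop where
  irr : ∀ o, IsIrr (g o)
  e1 : ∀ u, θ ⟨m u, ⟨u, rfl⟩⟩ = ∏ ω, g (π ω) (u ω)
  e2 : ∀ v, θ' ⟨mN h hP q v, ⟨v, rfl⟩⟩ = ∏ o, gt τ π g o (v o)

variable {h : WD m C X} {hP : (P : Subgroup G) ≤ X} {q : QD P π} {τ : ℕ → (ℂ ≃+* ℂ)}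
  {g : Ω' → U → ℂ} {θ : m.range → ℂ} {θ' : (mN h hP q).range → ℂ}

theorem Pr.st (_r : Pr h hP q τ g θ θ') {x : NN P} :
    (∀ ω, g (π ((x : G) • ω)) = g (π ω)) ↔ ∀ o, gt τ π g (x • o) = gt τ π g o := by
  constructor
  · intro H o
    rw [gt_eq_iff τ π (K_smul q x o)]
    obtain ⟨ω, rfl⟩ := q.surj o
    rw [← q.equi]
    exact H ω
  · intro H ω
    have h1 := H (π ω)
    rw [gt_eq_iff τ π (K_smul q x (π ω)), ← q.equi] at h1
    exact h1

theorem Pr.fixes_iff (r : Pr h hP q τ g θ θ') (hU : ¬ p ∣ Nat.card U)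
    (hs : m.range ⊔ NN P = ⊤) (n : NN P) :
    fixes (mN h hP q).range.subtype θ' n ↔ fixes m.range.subtype θ (n : G) := by
  have hN := WD.toN h hU hP hs q
  obtain ⟨v, y, hy, rfl⟩ := hN.exists_mul n
  rw [fixes_mul hN (theta_irr (gt_irr τ π r.irr) r.e2) v y,
    MQ.fixes_iff hN (gt_irr τ π r.irr) r.e2 hy]
  have e : ((mN h hP q v * y : NN P) : G) = m (fun ω => v (π ω)) * (y : G) := rfl
  rw [e, fixes_mul h (theta_irr (fun ω => r.irr (π ω)) r.e1),
    MQ.fixes_iff h (fun ω => r.irr (π ω)) r.e1 (Subgroup.mem_subgroupOf.mp hy)]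
  exact r.st.symm

theorem Pr.cl_eq (r : Pr h hP q τ g θ θ') : cl p (ndeg θ) = cl p (ndeg θ') := by
  rw [ndeg_theta (fun ω => r.irr (π ω)) r.e1, ndeg_theta (gt_irr τ π r.irr) r.e2]
  refine cl_congr p ?_
  have h1 : ∏ ω, ndeg (g (π ω)) = ∏ o, ndeg (g o) ^ K π o := prod_fib π fun o => ndeg (g o)
  rw [h1, Nat.cast_prod, Nat.cast_prod]
  refine Finset.prod_congr rfl fun o _ => ?_
  obtain ⟨i, hi⟩ := q.pow o
  have h2 : ndeg (gt τ π g o) = ndeg (g o) := Pool.Agent.K3h85.IN.ndeg_gal (r.irr o) (τ (K π o))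
  rw [h2, Nat.cast_pow, K, hi, ZMod.pow_card_pow]

theorem Pr.wo_eq (r : Pr h hP q τ g θ θ') (s1 : S1) (g5 : G5) (hτ : IsTau U τ)
    (hU : ¬ p ∣ Nat.card U) (hs : m.range ⊔ NN P = ⊤) :
    wo (cl p) m.range.subtype θ = wo (cl p) (mN h hP q).range.subtype θ' := by
  have hN := WD.toN h hU hP hs q
  have hf : ∀ ω, IsIrr (g (π ω)) := fun ω => r.irr (π ω)
  have hf' := gt_irr τ π r.irr
  rw [wo_theta s1 g5 h hf r.e1, wo_theta s1 g5 hN hf' r.e2, r.cl_eq]
  have hXN : X ≤ NN P := X_le h hU hP hs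
  have hX : Xf (X.subgroupOf (NN P)) (gt τ π g) = (Xf X (fun ω => g (π ω))).subgroupOf (NN P) := by
    ext x
    rw [mem_Xf, Subgroup.mem_subgroupOf, Subgroup.mem_subgroupOf, mem_Xf]
    exact and_congr_right fun _ => r.st.symm
  have hXfle : Xf X (fun ω => g (π ω)) ≤ NN P := (Xf_le X _).trans hXN
  have hrel : (Xf (X.subgroupOf (NN P)) (gt τ π g)).relIndex (X.subgroupOf (NN P)) =
      (Xf X (fun ω => g (π ω))).relIndex X := by
    rw [hX, Subgroup.relIndex_subgroupOf hXN]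
  rw [hrel]
  congr 2
  -- the elements of `D`
  have hDv : ∀ d ∈ m.range ⊓ X, ∃ v : Ω' → Subgroup.center U,
      m (fun ω => ((v (π ω) : Subgroup.center U) : U)) = d := by
    rintro _ ⟨⟨u, rfl⟩, hx⟩
    obtain ⟨w, hw1, hw2⟩ := exists_const h hU hP u (hXN hx)
    obtain ⟨v, rfl⟩ := exists_cmp q w hw2
    have h4 : ∀ o, v o ∈ Subgroup.center U := by
      intro o
      obtain ⟨ω, rfl⟩ := q.surj o
      exact h.Cc (h.ker (fun ω => v (π ω)) (by rw [hw1]; exact hx) ω)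
    exact ⟨fun o => ⟨v o, h4 o⟩, hw1⟩
  have hD : (mN h hP q).range ⊓ X.subgroupOf (NN P) = (m.range ⊓ X).subgroupOf (NN P) := by
    ext x
    rw [Subgroup.mem_inf, Subgroup.mem_subgroupOf, Subgroup.mem_subgroupOf, Subgroup.mem_inf]
    refine and_congr_left fun hx => ⟨?_, ?_⟩
    · rintro ⟨u, rfl⟩
      exact ⟨_, rfl⟩
    · intro hu
      obtain ⟨v, hv⟩ := hDv x ⟨hu, hx⟩
      exact ⟨fun o => (v o : U), Subtype.ext hv⟩
  have hDle : m.range ⊓ X ≤ NN P := inf_le_right.trans hXN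
  refine (wo_congr (cl p) ((MulEquiv.subgroupCongr hD).trans (Subgroup.subgroupOfEquivOfLe hDle))
    ((MulEquiv.subgroupCongr hX).trans (Subgroup.subgroupOfEquivOfLe hXfle)) _ _
    (fun l => rfl) _ _ ?_).symm
  rintro ⟨x, ⟨u0, hu0⟩, hx⟩
  have hx' : (x : G) ∈ m.range ⊓ X := ⟨⟨_, congrArg Subtype.val hu0⟩, hx⟩
  obtain ⟨v, hv⟩ := hDv x hx'
  have hv2 : mN h hP q (fun o => (v o : U)) = x := Subtype.ext hv
  have hmu : ∀ o, ∃ μ : Subgroup.center U →* ℂˣ, ∀ c : Subgroup.center U,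
      g o c = ((μ c : ℂˣ) : ℂ) * g o 1 := fun o => exists_mu (r.irr o)
  choose μ hμ using hmu
  have n1 : ∏ ω, g (π ω) 1 ≠ 0 := Finset.prod_ne_zero_iff.mpr fun ω _ => one_ne (hf _)
  have n2 : ∏ o, gt τ π g o 1 ≠ 0 := Finset.prod_ne_zero_iff.mpr fun o _ => one_ne (hf' _)
  have k1 : θ' ⟨x, ⟨u0, hu0⟩⟩ = ∏ o, gt τ π g o (v o) := by
    rw [← r.e2 (fun o => (v o : U))]
    congr 1
    exact Subtype.ext hv2.symm
  have k2 : θ' 1 = ∏ o, gt τ π g o 1 := by
    have h7 := r.e2 1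
    have e7 : (⟨mN h hP q 1, ⟨1, rfl⟩⟩ : (mN h hP q).range) = 1 := Subtype.ext (map_one _)
    rw [e7] at h7
    exact h7
  have k3 : θ ⟨(x : G), hx'.1⟩ = ∏ ω, g (π ω) (v (π ω)) := by
    rw [← r.e1 (fun ω => ((v (π ω) : Subgroup.center U) : U))]
    congr 1
    exact Subtype.ext hv.symm
  have k4 : θ 1 = ∏ ω, g (π ω) 1 := by
    have h7 := r.e1 1
    have e7 : (⟨m 1, ⟨1, rfl⟩⟩ : m.range) = 1 := Subtype.ext (map_one _)
    rw [e7] at h7
    exact h7
  change θ' ⟨x, _⟩ / θ' 1 = θ ⟨(x : G), _⟩ / θ 1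
  rw [k1, k2, k3, k4, prodN hτ q hU hμ v, prodG (π := π) hμ (fun ω => v (π ω)),
    mul_div_cancel_right₀ _ n1, mul_div_cancel_right₀ _ n2]

end

end Pool.Agent.Zk54.MQ.C2

end

end FileD

section FileE

noncomputable section

open scoped BigOperators Classical


namespace Pool.Agent.Zk54.MQ

open Pool.Agent.H254R3.IN hiding NN
open Pool.Agent.Helper884 Pool.Agent.Q288.MB
open Pool.Agent.K3h3.KB Pool.Agent.K3h3.MK
open IC (Irr)
open Pool.Agent.K3h83.IN (ov wo wo_eq wo_congr fixes S1 S2 G5 Tst mem_Tst range_le_Tst mem_NN_subtype)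
open Pool.Agent.Zk54.MQ.C2

/-- the case of a factor of order prime to `p` -/
theorem case2 {p : ℕ} [hp : Fact p.Prime] {G U Ω : Type} [Group G] [Finite G] [Group U] [Finite U]
    [Fintype Ω] [MulAction G Ω] {m : (Ω → U) →* G} {C : Subgroup U} {X : Subgroup G}
    (s1 : S1) (s2 : S2) (g5 : G5) (h : WD m C X) (hU : ¬ p ∣ Nat.card U) (P : Sylow p G)
    (hs : m.range ⊔ Pool.Agent.K3h3.MK.NN P = ⊤) :
    wt (cl p) G = wt (cl p) (Pool.Agent.K3h3.MK.NN P) := by
  obtain ⟨Q, hQ⟩ := exists_le h hU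
  have hsQ : m.range ⊔ NN Q = ⊤ := sup_smul h.normal hs
  rw [wt_NN (cl p) P Q]
  obtain ⟨Ω', _, _, π, q⟩ := exists_quot Ω Q
  obtain ⟨τ, hτ⟩ := exists_tau U
  have hN := WD.toN h hU hQ hsQ q
  have hQN : (Q : Subgroup G) ≤ NN Q := Subgroup.le_normalizer
  have hr : m.range.subtype.range = m.range := Subgroup.range_subtype _
  have hrB : (mN h hQ q).range.subtype.range = (mN h hQ q).range := Subgroup.range_subtype _
  have hn : m.range.subtype.range.Normal := by rw [hr]; exact h.normal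
  have hnB : (mN h hQ q).range.subtype.range.Normal := by rw [hrB]; exact hN.normal
  haveI := Fintype.ofFinite m.range
  haveI := Fintype.ofFinite (mN h hQ q).range
  have e1 := s2 p m.range G m.range.subtype m.range.subtype_injective hn Q
  have e2 := s2 p (mN h hQ q).range (NN Q) (mN h hQ q).range.subtype
    (mN h hQ q).range.subtype_injective hnB (Q.subtype hQN)
  have c1 : Nat.card (NN (Q.subtype hQN)) = Nat.card (NN Q) := by
    refine Nat.card_congr
      { toFun := fun x => ⟨x.1.1, (mem_NN_subtype Q hQN x.1).mp x.2⟩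
        invFun := fun x => ⟨⟨x.1, x.2⟩, (mem_NN_subtype Q hQN ⟨x.1, x.2⟩).mpr x.2⟩
        left_inv := fun _ => rfl
        right_inv := fun _ => rfl }
  have ext1 : ∀ θ₁ θ₂ : m.range → ℂ, (∀ u, θ₁ ⟨m u, ⟨u, rfl⟩⟩ = θ₂ ⟨m u, ⟨u, rfl⟩⟩) →
      θ₁ = θ₂ := by
    intro θ₁ θ₂ H
    funext x
    obtain ⟨_, u, rfl⟩ := x
    exact H u
  have ext2 : ∀ θ₁ θ₂ : (mN h hQ q).range → ℂ,
      (∀ u, θ₁ ⟨mN h hQ q u, ⟨u, rfl⟩⟩ = θ₂ ⟨mN h hQ q u, ⟨u, rfl⟩⟩) → θ₁ = θ₂ := by
    intro θ₁ θ₂ H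
    funext x
    obtain ⟨_, u, rfl⟩ := x
    exact H u
  have key : ∑ θ ∈ (Irr m.range).filter (fun θ => ∀ x ∈ Q, fixes m.range.subtype θ x),
      (Nat.card {x : G // x ∈ NN Q ∧ fixes m.range.subtype θ x} : RR p) *
        wo (cl p) m.range.subtype θ =
      ∑ θ ∈ (Irr (mN h hQ q).range).filter
        (fun θ => ∀ x ∈ Q.subtype hQN, fixes (mN h hQ q).range.subtype θ x),
      (Nat.card {x : NN Q // x ∈ NN (Q.subtype hQN) ∧
        fixes (mN h hQ q).range.subtype θ x} : RR p) * wo (cl p) (mN h hQ q).range.subtype θ := by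
    have fx : ∀ (g : Ω' → U → ℂ) (θ : m.range → ℂ) (θ' : (mN h hQ q).range → ℂ),
        Pr h hQ q τ g θ θ' → ((∀ x ∈ Q, fixes m.range.subtype θ x) ↔
          ∀ x ∈ Q.subtype hQN, fixes (mN h hQ q).range.subtype θ' x) := by
      intro g θ θ' r
      constructor
      · intro H x hx
        exact (r.fixes_iff hU hsQ x).mpr (H x hx)
      · intro H x hx
        exact (r.fixes_iff hU hsQ ⟨x, hQN hx⟩).mp (H ⟨x, hQN hx⟩ hx)
    refine sum_rel _ _ (fun θ θ' => ∃ g, Pr h hQ q τ g θ θ') _ _ ?_ ?_ ?_ ?_ ?_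
    · intro θ hθ
      rw [Finset.mem_filter] at hθ
      obtain ⟨f, hf, hf2⟩ := exists_f (mem_Irr.mp hθ.1)
      have hc : ∀ y ∈ Q, ∀ ω, f (y • ω) = f ω := fun y hy =>
        (MQ.fixes_iff h hf hf2 (hQ hy)).mp (hθ.2 y hy)
      obtain ⟨g, rfl⟩ := exists_cmp q f hc
      have hg : ∀ o, IsIrr (g o) := by
        intro o
        obtain ⟨ω, rfl⟩ := q.surj o
        exact hf ω
      have hk : ∀ u, m u = 1 → ∏ ω, g (π ω) (u ω) = ∏ ω, g (π ω) 1 := by
        intro u hu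
        have h1 := hf2 u
        have h2 := hf2 1
        have e3 : (⟨m u, ⟨u, rfl⟩⟩ : m.range) = ⟨m 1, ⟨1, rfl⟩⟩ :=
          Subtype.ext (hu.trans (map_one m).symm)
        rw [← h1, e3, h2]
        rfl
      obtain ⟨θ', hθ'⟩ := exists_theta hN (gt_irr τ π hg) ((ker_iff h hU hQ q hτ hg).mp hk)
      have r : Pr h hQ q τ g θ θ' := ⟨hg, hf2, hθ'⟩
      refine ⟨θ', ?_, g, r⟩
      rw [Finset.mem_filter]
      exact ⟨mem_Irr.mpr (theta_irr (gt_irr τ π hg) hθ'), (fx g θ θ' r).mp hθ.2⟩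
    · intro θ' hθ'
      rw [Finset.mem_filter] at hθ'
      obtain ⟨f, hf, hf2⟩ := exists_f (mem_Irr.mp hθ'.1)
      obtain ⟨g, hg0⟩ : ∃ g : Ω' → U → ℂ, g = fun o u => (τ (K π o)).symm (f o u) := ⟨_, rfl⟩
      have hgf : gt τ π g = f := by
        funext o u
        rw [hg0]
        exact RingEquiv.apply_symm_apply _ _
      have hg : ∀ o, IsIrr (g o) := by
        intro o
        rw [hg0]
        exact Pool.Agent.Q90.WR.irr_gal (τ (K π o)).symm (hf o)
      subst hgf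
      have hk : ∀ u, mN h hQ q u = 1 → ∏ o, gt τ π g o (u o) = ∏ o, gt τ π g o 1 := by
        intro u hu
        have h1 := hf2 u
        have h2 := hf2 1
        have e3 : (⟨mN h hQ q u, ⟨u, rfl⟩⟩ : (mN h hQ q).range) = ⟨mN h hQ q 1, ⟨1, rfl⟩⟩ :=
          Subtype.ext (hu.trans (map_one _).symm)
        rw [← h1, e3, h2]
        rfl
      obtain ⟨θ, hθ⟩ := exists_theta h (fun ω => hg (π ω)) ((ker_iff h hU hQ q hτ hg).mpr hk)
      have r : Pr h hQ q τ g θ θ' := ⟨hg, hθ, hf2⟩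
      refine ⟨θ, ?_, g, r⟩
      rw [Finset.mem_filter]
      exact ⟨mem_Irr.mpr (theta_irr (fun ω => hg (π ω)) hθ), (fx g θ θ' r).mpr hθ'.2⟩
    · rintro θ θ₁ θ₂ ⟨g₁, r₁⟩ ⟨g₂, r₂⟩
      have h1 : (fun ω => g₁ (π ω)) = fun ω => g₂ (π ω) :=
        f_unique (fun ω => r₁.irr _) (fun ω => r₂.irr _) fun u => by rw [← r₁.e1, ← r₂.e1]
      have h2 : g₁ = g₂ := by
        funext o
        obtain ⟨ω, rfl⟩ := q.surj o
        exact congrFun h1 ω
      apply ext2
      intro u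
      rw [r₁.e2, r₂.e2, h2]
    · rintro θ₁ θ₂ θ' ⟨g₁, r₁⟩ ⟨g₂, r₂⟩
      have h1 : gt τ π g₁ = gt τ π g₂ :=
        f_unique (gt_irr τ π r₁.irr) (gt_irr τ π r₂.irr) fun u => by rw [← r₁.e2, ← r₂.e2]
      have h2 : g₁ = g₂ := gt_inj τ π h1
      apply ext1
      intro u
      rw [r₁.e1, r₂.e1, h2]
    · rintro θ θ' ⟨g, r⟩
      rw [r.wo_eq s1 g5 hτ hU hsQ]
      congr 2
      refine Nat.card_congr
        { toFun := fun x => ⟨⟨x.1, x.2.1⟩, (mem_NN_subtype Q hQN ⟨x.1, x.2.1⟩).mpr x.2.1,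
            (r.fixes_iff hU hsQ ⟨x.1, x.2.1⟩).mpr x.2.2⟩
          invFun := fun x => ⟨x.1.1, (mem_NN_subtype Q hQN x.1).mp x.2.1,
            (r.fixes_iff hU hsQ x.1).mp x.2.2⟩
          left_inv := fun _ => rfl
          right_inv := fun _ => rfl }
  rw [c1, ← key, ← e1] at e2
  exact (natCast_mul_inj p Nat.card_pos.ne' e2).symm

end Pool.Agent.Zk54.MQ

end

end FileE

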