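import Mathlib

/-!
# Subgroups of `PSL_2(p)` of index prime to `p`
-/

set_option autoImplicit false
set_option linter.unusedSectionVars false

namespace Pool.Agent.Zk54.MQ

open Matrix Matrix.SpecialLinearGroup

section

variable {F : Type} [Field F]

/-- upper unitriangular matrices -/
def pbu (x : F) : SpecialLinearGroup (Fin 2) F := ⟨!![1, x; 0, 1], by simp [Matrix.det_fin_two_of]⟩

/-- lower unitriangular matrices -/
def pbv (x : F) : SpecialLinearGroup (Fin 2) F := ⟨!![1, 0; x, 1], by simp [Matrix.det_fin_two_of]⟩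

theorem pbu_mul (x y : F) : pbu x * pbu y = pbu (x + y) := by
  apply Subtype.ext
  change (!![1, x; 0, 1] : Matrix (Fin 2) (Fin 2) F) * !![1, y; 0, 1] = !![1, x + y; 0, 1]
  rw [Matrix.mul_fin_two]
  simp [add_comm]

theorem pb_gen {K : Subgroup (SpecialLinearGroup (Fin 2) F)} (hU : ∀ x, pbu x ∈ K)
    (hV : ∀ x, pbv x ∈ K) : K = ⊤ := by
  refine top_le_iff.1 fun A _ => ?_
  refine SL2.transvection_induction (fun A => A ∈ K) ?_ (fun _ _ => K.mul_mem) A
  intro i j h c
  have h01 : (0 : Fin 2) ≠ 1 := by decide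
  fin_cases i
  · obtain rfl : j = 1 := by fin_cases j <;> tauto
    have : (SpecialLinearGroup.transvection h c : SpecialLinearGroup (Fin 2) F) = pbu c := by
      apply Subtype.ext
      ext a b
      fin_cases a <;> fin_cases b <;> simp [transvection_coe, pbu]
    rw [this]
    exact hU c
  · obtain rfl : j = 0 := by fin_cases j <;> tauto
    have : (SpecialLinearGroup.transvection h c : SpecialLinearGroup (Fin 2) F) = pbv c := by
      apply Subtype.ext
      ext a b
      fin_cases a <;> fin_cases b <;> simp [transvection_coe, pbv]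
    rw [this]
    exact hV c

theorem pb_key {K : Subgroup (SpecialLinearGroup (Fin 2) F)} (hU : ∀ x, pbu x ∈ K)
    {k : SpecialLinearGroup (Fin 2) F} (hk : k ∈ K) (hk0 : k.1 1 0 ≠ 0) : K = ⊤ := by
  have hdet := k.2
  rw [Matrix.det_fin_two] at hdet
  set a := k.1 0 0 with ha
  set b := k.1 0 1 with hb
  set c := k.1 1 0 with hc
  set d := k.1 1 1 with hd
  have hkm : k.1 = !![a, b; c, d] := by
    ext i j
    fin_cases i <;> fin_cases j <;> rfl
  let w : SpecialLinearGroup (Fin 2) F := pbu (-a / c) * k * pbu (-d / c)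
  have hw : w ∈ K := K.mul_mem (K.mul_mem (hU _) hk) (hU _)
  have hwm : w.1 = !![0, -1 / c; c, 0] := by
    change (!![1, -a / c; 0, 1] : Matrix (Fin 2) (Fin 2) F) * k.1 * !![1, -d / c; 0, 1] = _
    rw [hkm, Matrix.mul_fin_two, Matrix.mul_fin_two]
    ext i j
    fin_cases i <;> fin_cases j
    · simp
      field_simp
      ring
    · simp
      field_simp
      linear_combination -hdet
    · simp
    · simp
      field_simp
      ring
  refine pb_gen hU fun z => ?_
  have h1 : pbv z * w = w * pbu (-z / c ^ 2) := by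
    apply Subtype.ext
    change (!![1, 0; z, 1] : Matrix (Fin 2) (Fin 2) F) * w.1 = w.1 * !![1, -z / c ^ 2; 0, 1]
    rw [hwm, Matrix.mul_fin_two, Matrix.mul_fin_two]
    ext i j
    fin_cases i <;> fin_cases j
    · simp
    · simp
    · simp
    · simp
      field_simp
  rw [← eq_mul_inv_iff_mul_eq] at h1
  rw [h1]
  exact K.mul_mem (K.mul_mem hw (hU _)) (K.inv_mem hw)

theorem pb_solv {K : Subgroup (SpecialLinearGroup (Fin 2) F)}
    (hK : ∀ k ∈ K, k.1 1 0 = 0) : Group.IsSolvable K := by
  let g : K →* F :=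
    { toFun := fun k => k.1.1 0 0
      map_one' := by simp
      map_mul' := fun k l => by
        have h1 : ((k * l : K) : SpecialLinearGroup (Fin 2) F).1 = k.1.1 * l.1.1 := rfl
        rw [h1, Matrix.mul_apply, Fin.sum_univ_two, hK _ l.2, mul_zero, add_zero] }
  let f : K →* Fˣ := g.toHomUnits
  have hker : ∀ k : f.ker, k.1.1.1 0 0 = 1 := by
    intro k
    have h1 := k.2
    rw [MonoidHom.mem_ker] at h1
    have h2 := congrArg (fun u : Fˣ => (u : F)) h1
    exact h2
  have hker2 : ∀ k : f.ker, k.1.1.1 1 1 = 1 := by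
    intro k
    have h1 := k.1.1.2
    rw [Matrix.det_fin_two, hker k, hK _ k.1.2, mul_zero, sub_zero, one_mul] at h1
    exact h1
  have hsolv : Group.IsSolvable f.ker := by
    refine Group.isSolvable_of_comm fun k l => ?_
    apply Subtype.ext
    apply Subtype.ext
    apply Subtype.ext
    change k.1.1.1 * l.1.1.1 = l.1.1.1 * k.1.1.1
    have e : ∀ m : f.ker, m.1.1.1 = !![1, m.1.1.1 0 1; 0, 1] := by
      intro m
      ext i j
      fin_cases i <;> fin_cases j
      · exact hker m
      · rfl
      · exact hK _ m.1.2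
      · exact hker2 m
    rw [e k, e l, Matrix.mul_fin_two, Matrix.mul_fin_two]
    simp [add_comm]
  exact Group.isSolvable_of_ker_le_range f.ker.subtype f (by rw [Subgroup.range_subtype])

end

/-- the subgroups of `SL_2(p)` of index prime to `p` -/
theorem pb_SL (p : ℕ) [hp : Fact p.Prime] (K : Subgroup (SpecialLinearGroup (Fin 2) (ZMod p)))
    (h : ¬ p ∣ K.index) : K = ⊤ ∨ Group.IsSolvable K := by
  classical
  let φ : Multiplicative (ZMod p) →* SpecialLinearGroup (Fin 2) (ZMod p) :=
    { toFun := fun x => pbu x.toAdd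
      map_one' := by
        apply Subtype.ext
        ext i j
        fin_cases i <;> fin_cases j <;> simp [pbu]
      map_mul' := fun x y => (pbu_mul _ _).symm }
  let act : MulAction (Multiplicative (ZMod p)) (SpecialLinearGroup (Fin 2) (ZMod p) ⧸ K) :=
    MulAction.compHom _ φ
  have hP : IsPGroup p (Multiplicative (ZMod p)) := by
    refine IsPGroup.of_card (n := 1) ?_
    rw [pow_one, Nat.card_congr Multiplicative.toAdd, Nat.card_zmod]
  obtain ⟨q, hq⟩ := hP.nonempty_fixed_point_of_prime_not_dvd_card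
    (SpecialLinearGroup (Fin 2) (ZMod p) ⧸ K) h
  obtain ⟨g, rfl⟩ := QuotientGroup.mk_surjective q
  have hg : ∀ x : ZMod p, g⁻¹ * pbu x * g ∈ K := by
    intro x
    have h1 : (Multiplicative.ofAdd x) • (g : SpecialLinearGroup (Fin 2) (ZMod p) ⧸ K) = g :=
      hq (Multiplicative.ofAdd x)
    have h2 : ((pbu x * g : SpecialLinearGroup (Fin 2) (ZMod p)) :
        SpecialLinearGroup (Fin 2) (ZMod p) ⧸ K) = g := h1
    rw [eq_comm, QuotientGroup.eq, ← mul_assoc] at h2
    exact h2
  let L : Subgroup (SpecialLinearGroup (Fin 2) (ZMod p)) := K.map (MulAut.conj g).toMonoidHom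
  have hL : ∀ x : ZMod p, pbu x ∈ L := by
    intro x
    refine ⟨_, hg x, ?_⟩
    change g * (g⁻¹ * pbu x * g) * g⁻¹ = pbu x
    group
  by_cases hcase : ∀ k ∈ L, k.1 1 0 = 0
  · right
    have h1 := pb_solv hcase
    have h2 : Function.Surjective ((K.equivMapOfInjective (MulAut.conj g).toMonoidHom
        (MulAut.conj g).injective).symm) := MulEquiv.surjective _
    exact Group.isSolvable_of_surjective
      (f := ((K.equivMapOfInjective (MulAut.conj g).toMonoidHom
        (MulAut.conj g).injective).symm : L →* K)) h2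
  · left
    push Not at hcase
    obtain ⟨k, hk, hk0⟩ := hcase
    have h1 := pb_key hL hk hk0
    refine top_le_iff.1 fun x _ => ?_
    have h2 : g * x * g⁻¹ ∈ L := by
      rw [h1]
      trivial
    obtain ⟨y, hy, hyx⟩ := h2
    have h3 : y = x := (MulAut.conj g).injective hyx
    rw [← h3]
    exact hy

/-- the subgroups of `PSL_2(p)` of index prime to `p` -/
theorem pb_PSL (p : ℕ) [hp : Fact p.Prime]
    (K : Subgroup (Matrix.ProjectiveSpecialLinearGroup (Fin 2) (ZMod p)))
    (h : ¬ p ∣ K.index) : K = ⊤ ∨ Group.IsSolvable K := by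
  let f := QuotientGroup.mk' (Subgroup.center (SpecialLinearGroup (Fin 2) (ZMod p)))
  have hf : Function.Surjective f := QuotientGroup.mk'_surjective _
  have hi : (K.comap f).index = K.index := K.index_comap_of_surjective hf
  rcases pb_SL p (K.comap f) (by rw [hi]; exact h) with h1 | h1
  · left
    rw [← Subgroup.map_comap_eq_self_of_surjective hf K, h1, ← MonoidHom.range_eq_map]
    exact MonoidHom.range_eq_top.2 hf
  · right
    exact Group.isSolvable_of_surjective (f := f.subgroupComap K)
      (MonoidHom.subgroupComap_surjective_of_surjective f K hf)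

end Pool.Agent.Zk54.MQ
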