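import Pool.Agent.Zk54.MQ.PSLs

/-!
# The automorphisms of `PSL_2(p)`
-/

set_option autoImplicit false
set_option maxHeartbeats 400000

namespace Pool.Agent.Zk54.MQ

open Matrix

section field

variable {F : Type} [Field F]

/-- the conjugation with `diag(c, 1)` -/
def psl_f (c : Fˣ) (M : psl_G F) : psl_G F :=
  ⟨!![M.1 0 0, c * M.1 0 1; ((c⁻¹ : Fˣ) : F) * M.1 1 0, M.1 1 1], by
    rw [Matrix.det_fin_two_of]
    have h := psl_det M
    have hc : (c : F) * ((c⁻¹ : Fˣ) : F) = 1 := c.mul_inv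
    linear_combination h - M.1 0 1 * M.1 1 0 * hc⟩

lemma psl_f00 (c : Fˣ) (M : psl_G F) : (psl_f c M).1 0 0 = M.1 0 0 := rfl
lemma psl_f01 (c : Fˣ) (M : psl_G F) : (psl_f c M).1 0 1 = c * M.1 0 1 := rfl
lemma psl_f10 (c : Fˣ) (M : psl_G F) : (psl_f c M).1 1 0 = ((c⁻¹ : Fˣ) : F) * M.1 1 0 := rfl
lemma psl_f11 (c : Fˣ) (M : psl_G F) : (psl_f c M).1 1 1 = M.1 1 1 := rfl

lemma psl_f_mul (c : Fˣ) (M N : psl_G F) : psl_f c (M * N) = psl_f c M * psl_f c N := by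
  have hc : (c : F) * ((c⁻¹ : Fˣ) : F) = 1 := c.mul_inv
  apply psl_ext
  · simp only [psl_mul00, psl_f00, psl_f01, psl_f10]
    linear_combination -(M.1 0 1 * N.1 1 0) * hc
  · simp only [psl_mul01, psl_f00, psl_f01, psl_f11]
    ring
  · simp only [psl_mul10, psl_f00, psl_f10, psl_f11]
    ring
  · simp only [psl_mul11, psl_f01, psl_f10, psl_f11]
    linear_combination -(M.1 1 0 * N.1 0 1) * hc

lemma psl_f_f (c c' : Fˣ) (M : psl_G F) : psl_f c (psl_f c' M) = psl_f (c * c') M := by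
  apply psl_ext
  · rfl
  · simp only [psl_f01, Units.val_mul]
    ring
  · simp only [psl_f10, mul_inv, Units.val_mul]
    ring
  · rfl

lemma psl_f_one (M : psl_G F) : psl_f 1 M = M := by
  apply psl_ext
  · rfl
  · simp [psl_f01]
  · simp [psl_f10]
  · rfl

/-- the conjugation with `diag(c, 1)` -/
def psl_e (c : Fˣ) : psl_G F ≃* psl_G F where
  toFun := psl_f c
  invFun := psl_f c⁻¹
  left_inv M := by rw [psl_f_f, inv_mul_cancel, psl_f_one]
  right_inv M := by rw [psl_f_f, mul_inv_cancel, psl_f_one]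
  map_mul' := psl_f_mul c

/-- the diagonal automorphism of `PSL_2` -/
def psl_d (c : Fˣ) : MulAut (psl_S F) :=
  QuotientGroup.congr _ _ (psl_e c) (Subgroup.characteristic_iff_map_eq.1 inferInstance (psl_e c))

lemma psl_d_pi (c : Fˣ) (M : psl_G F) : psl_d c (psl_pi M) = psl_pi (psl_f c M) := rfl

lemma psl_f_u (c : Fˣ) (t : F) : psl_f c (psl_u t) = psl_u (c * t) := by
  apply psl_ext
  · rfl
  · rfl
  · simp [psl_f10]
  · rfl

lemma psl_f_v (c : Fˣ) (t : F) : psl_f c (psl_v t) = psl_v (((c⁻¹ : Fˣ) : F) * t) := by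
  apply psl_ext
  · rfl
  · simp [psl_f01]
  · rfl
  · rfl

lemma psl_d_mul (c c' : Fˣ) : psl_d (c * c') = psl_d c * psl_d c' := by
  apply MulEquiv.ext
  intro x
  obtain ⟨M, rfl⟩ := psl_pi_surj x
  rw [MulAut.mul_apply, psl_d_pi, psl_d_pi, psl_d_pi, psl_f_f]

lemma psl_d_one : psl_d (1 : Fˣ) = 1 := by
  apply MulEquiv.ext
  intro x
  obtain ⟨M, rfl⟩ := psl_pi_surj x
  rw [psl_d_pi, psl_f_one]
  rfl

lemma psl_d_pow (c : Fˣ) (n : ℕ) : psl_d (c ^ n) = psl_d c ^ n := by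
  induction n with
  | zero => rw [pow_zero, pow_zero, psl_d_one]
  | succ n ih => rw [pow_succ, pow_succ, psl_d_mul, ih]

lemma psl_d_sq (r : Fˣ) : ∃ s : psl_S F, ∀ t, psl_d (r ^ 2) t = s * t * s⁻¹ := by
  obtain ⟨D, hD⟩ : ∃ D : psl_G F, D = ⟨!![(r : F), 0; 0, ((r⁻¹ : Fˣ) : F)], by
    rw [Matrix.det_fin_two_of]
    simp⟩ := ⟨_, rfl⟩
  have d00 : D.1 0 0 = r := by rw [hD]; rfl
  have d01 : D.1 0 1 = 0 := by rw [hD]; rfl
  have d10 : D.1 1 0 = 0 := by rw [hD]; rfl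
  have d11 : D.1 1 1 = ((r⁻¹ : Fˣ) : F) := by rw [hD]; rfl
  have hr : (r : F) * ((r⁻¹ : Fˣ) : F) = 1 := r.mul_inv
  refine ⟨psl_pi D, fun t => ?_⟩
  obtain ⟨M, rfl⟩ := psl_pi_surj t
  rw [psl_d_pi, eq_mul_inv_iff_mul_eq, ← map_mul, ← map_mul]
  congr 1
  apply psl_ext
  · simp only [psl_mul00, psl_f00, psl_f01, d00, d01, d10]
    ring
  · simp only [psl_mul01, psl_f00, psl_f01, d00, d01, d11, Units.val_pow_eq_pow_val]
    linear_combination (r : F) * M.1 0 1 * hr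
  · have hi : (((r ^ 2)⁻¹ : Fˣ) : F) = ((r⁻¹ : Fˣ) : F) ^ 2 := by
      rw [← inv_pow, Units.val_pow_eq_pow_val]
    simp only [psl_mul10, psl_f10, psl_f11, d00, d10, d11, hi]
    linear_combination ((r⁻¹ : Fˣ) : F) * M.1 1 0 * hr
  · simp only [psl_mul11, psl_f10, psl_f11, d01, d10, d11]
    ring

lemma psl_u_pow (n : ℕ) : psl_u (1 : F) ^ n = psl_u (n : F) := by
  induction n with
  | zero => rw [pow_zero, Nat.cast_zero, psl_u_zero]
  | succ n ih => rw [pow_succ, ih, psl_u_mul, Nat.cast_succ]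

lemma psl_v_pow (t : F) (n : ℕ) : psl_v t ^ n = psl_v (n * t) := by
  induction n with
  | zero => rw [pow_zero, Nat.cast_zero, zero_mul, psl_v_zero]
  | succ n ih => rw [pow_succ, ih, psl_v_mul, Nat.cast_succ, add_mul, one_mul]

/-- an endomorphism fixing `u 1` and mapping `v 1` to `v d`, `d ≠ 0`, fixes `v 1` -/
lemma psl_d_eq_one (h2 : (2 : F) ≠ 0) (x : psl_S F →* psl_S F) {d : F} (hd : d ≠ 0)
    (hu : x (psl_pi (psl_u 1)) = psl_pi (psl_u 1)) (hv : x (psl_pi (psl_v 1)) = psl_pi (psl_v d)) :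
    d = 1 := by
  have h1 : psl_pi (psl_u 1 * psl_v (-1) * psl_u 1 * (psl_u 1 * psl_v (-1) * psl_u 1) : psl_G F) =
      1 := by
    rw [psl_pi_eq_one]
    simp only [psl_mul00, psl_mul01, psl_mul10, psl_mul11, psl_u00, psl_u01, psl_u10, psl_u11,
      psl_v00, psl_v01, psl_v10, psl_v11]
    refine ⟨by ring, by ring, by ring⟩
  have hv' : x (psl_pi (psl_v (-1))) = psl_pi (psl_v (-d)) := by
    rw [← psl_v_inv, map_inv, map_inv, hv, ← map_inv, psl_v_inv]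
  have h3 := congrArg x h1
  rw [map_mul, map_mul, map_mul, map_mul, map_mul, map_mul, hu, hv', ← map_mul, ← map_mul, ← map_mul,
    map_one, psl_pi_eq_one] at h3
  have h4 := h3.2.1
  simp only [psl_mul00, psl_mul01, psl_mul10, psl_mul11, psl_u00, psl_u01, psl_u10, psl_u11,
    psl_v00, psl_v01, psl_v10, psl_v11] at h4
  have h5 : (2 * d) * (d - 1) = 0 := by linear_combination h4
  rcases mul_eq_zero.1 h5 with h6 | h6
  · exact absurd h6 (mul_ne_zero h2 hd)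
  · linear_combination h6

end field

variable {p : ℕ} [hp : Fact p.Prime]

lemma psl_fix (x : psl_S (ZMod p) →* psl_S (ZMod p))
    (hu : x (psl_pi (psl_u 1)) = psl_pi (psl_u 1)) (hv : x (psl_pi (psl_v 1)) = psl_pi (psl_v 1)) :
    x = MonoidHom.id _ := by
  have h1 := psl_gen' (x.eqLocus (MonoidHom.id _)) (by
    rintro _ ⟨t, rfl⟩
    change x (psl_pi (psl_u t)) = psl_pi (psl_u t)
    have e1 : psl_u t = psl_u (1 : ZMod p) ^ t.val := by
      rw [psl_u_pow, ZMod.natCast_zmod_val]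
    rw [e1, map_pow, map_pow, hu]) (by
    rintro _ ⟨t, rfl⟩
    change x (psl_pi (psl_v t)) = psl_pi (psl_v t)
    have e1 : psl_v t = psl_v (1 : ZMod p) ^ t.val := by
      rw [psl_v_pow, ZMod.natCast_zmod_val, mul_one]
    rw [e1, map_pow, map_pow, hv])
  exact MonoidHom.eq_of_eqOn_top (fun y _ => by
    have : y ∈ x.eqLocus (MonoidHom.id _) := by rw [h1]; trivial
    exact this)

lemma psl_card_Um : Nat.card (psl_Um (ZMod p)) = p := by
  have : Nat.card (psl_Um (ZMod p)) = Nat.card (ZMod p) := by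
    apply Nat.card_congr
    exact (Equiv.ofInjective (fun t => psl_pi (psl_v t)) (fun _ _ h => psl_pi_v_inj h)).symm
  rw [this, Nat.card_eq_fintype_card, ZMod.card]

lemma psl_conj_of_card (H : Subgroup (psl_S (ZMod p))) (h : Nat.card H = p) :
    ∃ g : psl_S (ZMod p), H = (psl_Up (ZMod p)).map (MulAut.conj g).toMonoidHom := by
  have := psl_finite (p := p)
  obtain ⟨P, hP⟩ := psl_sylow_of (psl_Up (ZMod p)) psl_card_Up'
  obtain ⟨Q, hQ⟩ := psl_sylow_of H h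
  obtain ⟨g, hg⟩ := MulAction.exists_smul_eq (psl_S (ZMod p)) P Q
  refine ⟨g, ?_⟩
  rw [← hQ, ← hg, ← hP]
  rfl

lemma psl_card_map (x : MulAut (psl_S (ZMod p))) (H : Subgroup (psl_S (ZMod p))) :
    Nat.card (H.map x.toMonoidHom) = Nat.card H :=
  Nat.card_congr (H.equivMapOfInjective x.toMonoidHom x.injective).symm.toEquiv

/-- an automorphism preserving `Up` and `Um` is diagonal -/
lemma psl_aut_diag (h2 : (2 : ZMod p) ≠ 0) (x : MulAut (psl_S (ZMod p)))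
    (hu : ∀ y ∈ psl_Up (ZMod p), x y ∈ psl_Up (ZMod p))
    (hv : ∀ y ∈ psl_Um (ZMod p), x y ∈ psl_Um (ZMod p)) : ∃ c : (ZMod p)ˣ, x = psl_d c := by
  obtain ⟨c, hc⟩ := hu _ (⟨1, rfl⟩ : psl_pi (psl_u (1 : ZMod p)) ∈ psl_Up (ZMod p))
  change psl_pi (psl_u c) = x (psl_pi (psl_u 1)) at hc
  have hc0 : c ≠ 0 := by
    rintro rfl
    rw [psl_u_zero, map_one] at hc
    have h1 : psl_pi (psl_u (1 : ZMod p)) = 1 := by
      apply x.injective
      rw [← hc, map_one]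
    rw [psl_pi_eq_one] at h1
    exact one_ne_zero h1.1
  refine ⟨Units.mk0 c hc0, ?_⟩
  obtain ⟨w, hw⟩ : ∃ w : (ZMod p)ˣ, w = Units.mk0 c hc0 := ⟨_, rfl⟩
  have hwc : (w : ZMod p) = c := by rw [hw]; rfl
  rw [← hw]
  obtain ⟨z, hz⟩ : ∃ z : MulAut (psl_S (ZMod p)), z = psl_d w⁻¹ * x := ⟨_, rfl⟩
  have hzu : z (psl_pi (psl_u 1)) = psl_pi (psl_u 1) := by
    rw [hz, MulAut.mul_apply, ← hc, psl_d_pi, psl_f_u, ← hwc]
    rw [Units.inv_mul]
  obtain ⟨d', hd'⟩ := hv _ (⟨1, rfl⟩ : psl_pi (psl_v (1 : ZMod p)) ∈ psl_Um (ZMod p))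
  change psl_pi (psl_v d') = x (psl_pi (psl_v 1)) at hd'
  obtain ⟨d, hd⟩ : ∃ d, z (psl_pi (psl_v 1)) = psl_pi (psl_v d) := by
    refine ⟨(((w⁻¹)⁻¹ : (ZMod p)ˣ) : ZMod p) * d', ?_⟩
    rw [hz, MulAut.mul_apply, ← hd', psl_d_pi, psl_f_v]
  have hd0 : d ≠ 0 := by
    rintro rfl
    rw [psl_v_zero, map_one] at hd
    have h1 : psl_pi (psl_v (1 : ZMod p)) = 1 := by
      apply z.injective
      rw [hd, map_one]
    rw [psl_pi_eq_one] at h1
    exact one_ne_zero h1.2.1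
  have hd1 : d = 1 := psl_d_eq_one h2 z.toMonoidHom hd0 hzu hd
  have hz1 := psl_fix z.toMonoidHom hzu (by rw [hd1] at hd; exact hd)
  have hz2 : z = 1 := by
    apply MulEquiv.ext
    intro y
    exact DFunLike.congr_fun hz1 y
  rw [hz2] at hz
  have h3 : psl_d w * 1 = psl_d w * (psl_d w⁻¹ * x) := by rw [hz]
  rw [mul_one, ← mul_assoc, ← psl_d_mul, mul_inv_cancel, psl_d_one, one_mul] at h3
  exact h3.symm

/-- the automorphisms of `PSL_2(p)` -/
lemma psl_aut (h2 : (2 : ZMod p) ≠ 0) (x : MulAut (psl_S (ZMod p))) :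
    ∃ (c : (ZMod p)ˣ) (s : psl_S (ZMod p)), ∀ t, x t = s * psl_d c t * s⁻¹ := by
  have := psl_finite (p := p)
  -- first step
  obtain ⟨g, hg⟩ := psl_conj_of_card ((psl_Up (ZMod p)).map x.toMonoidHom) (by
    rw [psl_card_map, psl_card_Up'])
  obtain ⟨x1, hx1⟩ : ∃ x1 : MulAut (psl_S (ZMod p)), x1 = MulAut.conj g⁻¹ * x := ⟨_, rfl⟩
  have hx1a : ∀ t, x1 t = g⁻¹ * x t * g := by
    intro t
    rw [hx1, MulAut.mul_apply, MulAut.conj_apply, inv_inv]
  have hu1 : ∀ y ∈ psl_Up (ZMod p), x1 y ∈ psl_Up (ZMod p) := by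
    intro y hy
    have h1 : x y ∈ (psl_Up (ZMod p)).map (MulAut.conj g).toMonoidHom := by
      rw [← hg]
      exact ⟨y, hy, rfl⟩
    obtain ⟨z, hz, hzx⟩ := h1
    change g * z * g⁻¹ = x y at hzx
    rw [hx1a, ← hzx]
    have e1 : g⁻¹ * (g * z * g⁻¹) * g = z := by group
    rw [e1]
    exact hz
  -- second step
  obtain ⟨Q, hQ⟩ := psl_sylow_of ((psl_Um (ZMod p)).map x1.toMonoidHom) (by
    rw [psl_card_map, psl_card_Um])
  rcases psl_sylow_cases Q with hc | ⟨y, hy⟩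
  · exfalso
    have h1 : (psl_Up (ZMod p)).map x1.toMonoidHom = psl_Up (ZMod p) := by
      apply Subgroup.eq_of_le_of_card_ge
      · rintro _ ⟨z, hz, rfl⟩
        exact hu1 z hz
      · rw [psl_card_map]
    rw [hQ] at hc
    have h2 := hc.trans h1.symm
    have h3 := Subgroup.map_injective x1.injective h2
    exact psl_Um_not_le h3.le
  rw [hQ] at hy
  obtain ⟨a, ha⟩ : ∃ a, a = psl_pi (psl_u y) := ⟨_, rfl⟩
  rw [← ha] at hy
  have haU : a ∈ psl_Up (ZMod p) := ⟨y, ha.symm⟩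
  obtain ⟨x2, hx2⟩ : ∃ x2 : MulAut (psl_S (ZMod p)), x2 = MulAut.conj a⁻¹ * x1 := ⟨_, rfl⟩
  have hx2a : ∀ t, x2 t = a⁻¹ * x1 t * a := by
    intro t
    rw [hx2, MulAut.mul_apply, MulAut.conj_apply, inv_inv]
  obtain ⟨c, hc⟩ := psl_aut_diag h2 x2 (by
    intro z hz
    rw [hx2a]
    exact (psl_Up _).mul_mem ((psl_Up _).mul_mem ((psl_Up _).inv_mem haU) (hu1 z hz)) haU) (by
    intro z hz
    rw [hy, hx2a]
    have e1 : a * (a⁻¹ * x1 z * a) * a⁻¹ = x1 z := by group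
    rw [e1]
    exact ⟨z, hz, rfl⟩)
  refine ⟨c, g * a, fun t => ?_⟩
  rw [← hc, hx2a, hx1a]
  group

/-- the outer automorphism group is cyclic of order at most two -/
theorem psl_out (h5 : 5 ≤ p) : ∃ (a : MulAut (psl_S (ZMod p))) (b : ℕ), ¬ p ∣ b ∧
    (∃ s : psl_S (ZMod p), ∀ t, (a ^ b) t = s * t * s⁻¹) ∧
    ∀ x : MulAut (psl_S (ZMod p)), ∃ (i : ℕ) (s : psl_S (ZMod p)), ∀ t,
      x t = s * (a ^ i) t * s⁻¹ := by
  have h2 : (2 : ZMod p) ≠ 0 := by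
    intro h
    have h1 : ((2 : ℕ) : ZMod p) = 0 := by exact_mod_cast h
    rw [ZMod.natCast_eq_zero_iff] at h1
    have := Nat.le_of_dvd (by norm_num) h1
    omega
  obtain ⟨γ, hγ⟩ := IsCyclic.exists_generator (α := (ZMod p)ˣ)
  refine ⟨psl_d γ, 2, fun h => ?_, ?_, fun x => ?_⟩
  · have := Nat.le_of_dvd (by norm_num) h
    omega
  · rw [← psl_d_pow]
    exact psl_d_sq γ
  · obtain ⟨c, s, h⟩ := psl_aut h2 x
    obtain ⟨i, hi⟩ := mem_powers_iff_mem_zpowers.2 (hγ c)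
    refine ⟨i, s, fun t => ?_⟩
    rw [h t, ← psl_d_pow]
    congr 3
    exact congrArg psl_d hi.symm

end Pool.Agent.Zk54.MQ
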