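import Pool.Agent.Zk54.MQ.DefD
import Pool.Agent.Zk54.MQ.PSLb
import Pool.Agent.Zk54.MQ.PSLc

/-!
# `PSL_2(p)` is one of the simple groups of the theorem
-/

set_option autoImplicit false
set_option maxHeartbeats 400000

namespace Pool.Agent.Zk54.MQ

theorem tame_PSL (p : ℕ) [Fact p.Prime] (h5 : 5 ≤ p) :
    TT p (Matrix.ProjectiveSpecialLinearGroup (Fin 2) (ZMod p)) :=
  ⟨psl_simple h5, psl_noncomm, psl_dvd, psl_sylow_cyclic, pb_PSL p, psl_out h5⟩

end Pool.Agent.Zk54.MQ
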