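import Pool.Agent.Zk54.MQ.DefD

/-!
# The alternating group of degree five has the property `TT 5`
-/

set_option autoImplicit false
set_option linter.unusedSectionVars false

namespace Pool.Agent.Zk54.MQ

open Equiv

/-- the alternating group of degree five -/
abbrev A5g : Type := alternatingGroup (Fin 5)

theorem card_A5 : Nat.card A5g = 60 := by
  have h := two_mul_nat_card_alternatingGroup (α := Fin 5)
  rw [Nat.card_perm, Nat.card_fin] at h
  have h2 : Nat.factorial 5 = 120 := by decide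
  rw [h2] at h
  change 2 * Nat.card (alternatingGroup (Fin 5)) = 120 at h
  change Nat.card (alternatingGroup (Fin 5)) = 60
  omega

/-- the five cycle -/
def gA : Perm (Fin 5) := finRotate 5

/-- the three cycle -/
def hA : Perm (Fin 5) := swap 0 1 * swap 1 2

theorem gA_mem : gA ∈ alternatingGroup (Fin 5) := by
  rw [Perm.mem_alternatingGroup]
  decide +kernel

theorem hA_mem : hA ∈ alternatingGroup (Fin 5) := by
  rw [Perm.mem_alternatingGroup]
  decide +kernel

theorem noncomm : gA * hA ≠ hA * gA := by decide +kernel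

theorem gA5 : gA ^ 5 = 1 := by decide +kernel
theorem gA1 : gA ≠ 1 := by decide +kernel
theorem hA3 : hA ^ 3 = 1 := by decide +kernel
theorem hA1 : hA ≠ 1 := by decide +kernel
theorem ghA : (gA ^ 2 * hA) ^ 2 = 1 := by decide +kernel

theorem pin : ∀ x : Perm (Fin 5), x ≠ 1 → x ^ 3 = 1 → (gA ^ 2 * x) ^ 2 = 1 →
    ∃ i : Fin 5, x = gA ^ (i : ℕ) * hA * (gA ^ (i : ℕ))⁻¹ := by decide +kernel

theorem A5_simple : IsSimpleGroup (alternatingGroup (Fin 5)) :=
  alternatingGroup.isSimpleGroup (by simp)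

/-- subgroups of small index -/
theorem index_five {K : Subgroup A5g} (h : K.index < 5) : K = ⊤ := by
  classical
  have : IsSimpleGroup A5g := A5_simple
  have h0 : K.index ≠ 0 := Subgroup.index_ne_zero_of_finite
  rcases Subgroup.Normal.eq_bot_or_eq_top (Subgroup.normalCore_normal K) with h1 | h1
  · exfalso
    have h2 : Function.Injective (MulAction.toPermHom A5g (A5g ⧸ K)) := by
      rw [← MonoidHom.ker_eq_bot_iff, ← Subgroup.normalCore_eq_ker, h1]
    have h3 := Subgroup.card_dvd_of_injective _ h2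
    rw [Nat.card_perm, card_A5] at h3
    have h4 : Nat.card (A5g ⧸ K) < 5 := h
    have h5 : Nat.factorial (Nat.card (A5g ⧸ K)) ≤ Nat.factorial 4 :=
      Nat.factorial_le (by omega)
    have h6 := Nat.le_of_dvd (Nat.factorial_pos _) h3
    have h7 : Nat.factorial 4 = 24 := by decide
    omega
  · exact top_le_iff.1 (h1 ▸ Subgroup.normalCore_le K)

theorem sub_solv (K : Subgroup A5g) (h5 : ¬ 5 ∣ K.index) : K = ⊤ ∨ Group.IsSolvable K := by
  have h1 : Nat.card K * K.index = 60 := by rw [Subgroup.card_mul_index, card_A5]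
  by_cases h2 : K.index < 5
  · exact Or.inl (index_five h2)
  · right
    have h3 : K.index ∣ 60 := ⟨_, by rw [mul_comm]; exact h1.symm⟩
    have h4 : K.index ≤ 60 := Nat.le_of_dvd (by norm_num) h3
    have h6 : K.index = 6 ∨ K.index = 12 := by
      generalize K.index = n at *
      interval_cases n <;> omega
    have h7 : Squarefree (Nat.card K) := by
      rcases h6 with h | h
      · have : Nat.card K = 10 := by rw [h] at h1; omega
        rw [this]; decide +kernel
      · have : Nat.card K = 5 := by rw [h] at h1; omega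
        rw [this]; decide +kernel
    have := IsZGroup.of_squarefree h7
    infer_instance

theorem gen (K : Subgroup A5g) (hg : (⟨gA, gA_mem⟩ : A5g) ∈ K) (hh : (⟨hA, hA_mem⟩ : A5g) ∈ K) :
    K = ⊤ := by
  have h1 : Nat.card K * K.index = 60 := by rw [Subgroup.card_mul_index, card_A5]
  have h5 : 5 ∣ Nat.card K := by
    have h2 : orderOf (⟨gA, gA_mem⟩ : A5g) = 5 := by
      have : Fact (Nat.Prime 5) := ⟨by norm_num⟩
      refine orderOf_eq_prime (Subtype.ext gA5) ?_
      intro h
      exact gA1 (congrArg Subtype.val h)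
    have h3 := orderOf_dvd_natCard (⟨_, hg⟩ : K)
    rwa [Subgroup.orderOf_mk, h2] at h3
  have h3 : 3 ∣ Nat.card K := by
    have h2 : orderOf (⟨hA, hA_mem⟩ : A5g) = 3 := by
      have : Fact (Nat.Prime 3) := ⟨by norm_num⟩
      refine orderOf_eq_prime (Subtype.ext hA3) ?_
      intro h
      exact hA1 (congrArg Subtype.val h)
    have h3 := orderOf_dvd_natCard (⟨_, hh⟩ : K)
    rwa [Subgroup.orderOf_mk, h2] at h3
  have h15 : 15 ∣ Nat.card K := (Nat.Coprime.mul_dvd_of_dvd_of_dvd (by norm_num) h3 h5)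
  apply index_five
  obtain ⟨k, hk⟩ := h15
  rw [hk] at h1
  by_contra hcon
  have h6 : k ≠ 0 := by
    rintro rfl
    omega
  have h7 : 15 * 1 * 5 ≤ 15 * k * K.index := Nat.mul_le_mul (by omega) (by omega)
  omega

/-- every automorphism is a conjugation -/
theorem aut_A5 (x : MulAut A5g) : ∃ s : Perm (Fin 5),
    ∀ t : A5g, ((x t : A5g) : Perm (Fin 5)) = s * t * s⁻¹ := by
  classical
  let g : A5g := ⟨gA, gA_mem⟩
  let h : A5g := ⟨hA, hA_mem⟩
  have : Fact (Nat.Prime 5) := ⟨by norm_num⟩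
  have hx5 : orderOf ((x g : A5g) : Perm (Fin 5)) = 5 := by
    refine orderOf_eq_prime ?_ ?_
    · have h1 : (x g) ^ 5 = 1 := by
        rw [← map_pow, show g ^ 5 = 1 from Subtype.ext gA5, map_one]
      exact congrArg Subtype.val h1
    · intro h1
      have h2 : x g = 1 := Subtype.ext h1
      rw [map_eq_one_iff x x.injective] at h2
      exact gA1 (congrArg Subtype.val h2)
  have hg5 : orderOf gA = 5 := orderOf_eq_prime gA5 gA1
  have hct : ∀ p : Perm (Fin 5), orderOf p = 5 → p.cycleType = {5} := by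
    intro p hp
    have h1 := Perm.cycleType_prime_order (σ := p) (by rw [hp]; norm_num)
    obtain ⟨n, hn⟩ := h1
    rw [hp] at hn
    have h2 := Perm.sum_cycleType_le p
    rw [hn] at h2 ⊢
    simp only [Multiset.sum_replicate, smul_eq_mul, Fintype.card_fin] at h2
    have : n = 0 := by omega
    subst this
    rfl
  have hconj : IsConj ((x g : A5g) : Perm (Fin 5)) gA := by
    rw [Perm.isConj_iff_cycleType_eq, hct _ hx5, hct _ hg5]
  obtain ⟨s, hs⟩ := isConj_iff.1 hconj
  -- hs : s * x g * s⁻¹ = gA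
  have e1 : s * ((x h : A5g) : Perm (Fin 5)) * s⁻¹ ≠ 1 := by
    intro h1
    have h2 : ((x h : A5g) : Perm (Fin 5)) = 1 := by
      rw [mul_inv_eq_one] at h1
      exact mul_eq_left.1 h1
    have h3 : x h = 1 := Subtype.ext h2
    rw [map_eq_one_iff x x.injective] at h3
    exact hA1 (congrArg Subtype.val h3)
  have e2 : (s * ((x h : A5g) : Perm (Fin 5)) * s⁻¹) ^ 3 = 1 := by
    rw [conj_pow]
    have h1 : (x h) ^ 3 = 1 := by
      rw [← map_pow, show h ^ 3 = 1 from Subtype.ext hA3, map_one]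
    have h2 : ((x h : A5g) : Perm (Fin 5)) ^ 3 = 1 := congrArg Subtype.val h1
    rw [h2, mul_one, mul_inv_cancel]
  have e3 : (gA ^ 2 * (s * ((x h : A5g) : Perm (Fin 5)) * s⁻¹)) ^ 2 = 1 := by
    have h1 : (x (g ^ 2 * h)) ^ 2 = 1 := by
      rw [← map_pow, show (g ^ 2 * h) ^ 2 = 1 from Subtype.ext ghA, map_one]
    rw [map_mul, map_pow] at h1
    have h2 : (((x g : A5g) : Perm (Fin 5)) ^ 2 * ((x h : A5g) : Perm (Fin 5))) ^ 2 = 1 :=
      congrArg Subtype.val h1
    have h3 : gA ^ 2 * (s * ((x h : A5g) : Perm (Fin 5)) * s⁻¹) =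
        s * (((x g : A5g) : Perm (Fin 5)) ^ 2 * ((x h : A5g) : Perm (Fin 5))) * s⁻¹ := by
      rw [← hs, conj_pow]
      group
    rw [h3, conj_pow, h2, mul_one, mul_inv_cancel]
  obtain ⟨i, hi⟩ := pin _ e1 e2 e3
  let r : Perm (Fin 5) := s⁻¹ * gA ^ (i : ℕ)
  have hsr : ∀ y : Perm (Fin 5), y = s⁻¹ * (s * y * s⁻¹) * s := fun y => by group
  have f1 : ((x g : A5g) : Perm (Fin 5)) = r * g * r⁻¹ := by
    rw [hsr (x g : A5g), hs]
    show _ = s⁻¹ * gA ^ (i : ℕ) * gA * (s⁻¹ * gA ^ (i : ℕ))⁻¹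
    have : gA ^ (i : ℕ) * gA = gA * gA ^ (i : ℕ) := (pow_mul_comm' gA i)
    rw [mul_inv_rev, inv_inv, mul_assoc s⁻¹ (gA ^ (i : ℕ)) gA, this]
    group
  have f2 : ((x h : A5g) : Perm (Fin 5)) = r * h * r⁻¹ := by
    rw [hsr (x h : A5g), hi]
    show _ = s⁻¹ * gA ^ (i : ℕ) * hA * (s⁻¹ * gA ^ (i : ℕ))⁻¹
    group
  let φ : A5g →* Perm (Fin 5) := (Subgroup.subtype _).comp x.toMonoidHom
  let ψ : A5g →* Perm (Fin 5) := (MulAut.conj r).toMonoidHom.comp (Subgroup.subtype _)
  have hK : φ.eqLocus ψ = ⊤ := by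
    apply gen
    · exact f1
    · exact f2
  refine ⟨r, fun t => ?_⟩
  have ht : t ∈ φ.eqLocus ψ := by rw [hK]; trivial
  exact ht

theorem tame_A5 : TT 5 (alternatingGroup (Fin 5)) := by
  classical
  have : Fact (Nat.Prime 5) := ⟨by norm_num⟩
  refine ⟨A5_simple, ⟨⟨gA, gA_mem⟩, ⟨hA, hA_mem⟩, fun h =>
    noncomm (congrArg Subtype.val h)⟩, ?_, ?_, sub_solv, ?_⟩
  · have := card_A5
    change Nat.card (alternatingGroup (Fin 5)) = 60 at this
    rw [this]; norm_num
  · intro Q
    have h1 : Nat.card Q = 5 := by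
      rw [Sylow.card_eq_multiplicity]
      have := card_A5
      change Nat.card (alternatingGroup (Fin 5)) = 60 at this
      rw [this]
      have h2 : Nat.factorization 60 5 = 1 := by
        rw [Nat.factorization_def _ (by norm_num)]
        decide +kernel
      rw [h2, pow_one]
    exact isCyclic_of_prime_card h1
  · refine ⟨MulAut.conjNormal (swap 0 1), 2, by norm_num, ⟨1, fun t => ?_⟩, fun x => ?_⟩
    · rw [← map_pow, pow_two, swap_mul_self, map_one]
      simp
    · obtain ⟨s, hs⟩ := aut_A5 x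
      rcases Int.units_eq_one_or (Perm.sign s) with h1 | h1
      · refine ⟨0, ⟨s, Perm.mem_alternatingGroup.2 h1⟩, fun t => ?_⟩
        apply Subtype.ext
        rw [hs]
        simp
      · refine ⟨1, ⟨s * swap 0 1, Perm.mem_alternatingGroup.2 ?_⟩, fun t => ?_⟩
        · rw [map_mul, h1, Perm.sign_swap (by decide)]
          rfl
        · apply Subtype.ext
          rw [hs, pow_one]
          show _ = (s * swap 0 1) * ((MulAut.conjNormal (swap 0 1) t : alternatingGroup (Fin 5)) :
            Perm (Fin 5)) * (s * swap 0 1)⁻¹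
          rw [MulAut.conjNormal_apply]
          have : (swap (0 : Fin 5) 1) * swap 0 1 = 1 := swap_mul_self _ _
          rw [mul_inv_rev, swap_inv]
          calc s * (t : Perm (Fin 5)) * s⁻¹ = s * 1 * (t : Perm (Fin 5)) * 1 * s⁻¹ := by simp
            _ = s * (swap 0 1 * swap 0 1) * (t : Perm (Fin 5)) * (swap 0 1 * swap 0 1) * s⁻¹ := by
              rw [this]
            _ = _ := by simp only [mul_assoc]

end Pool.Agent.Zk54.MQ
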