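import Mathlib

/-!
# Groups with a normal subgroup which is a central product of copies of a group `U`, permuted by a supplement
-/

set_option autoImplicit false
set_option linter.unusedSectionVars false

namespace Pool.Agent.Zk54.MQ

/-- `m(U^Ω)` is normal in `G = m(U^Ω) X`, the subgroup `X` permutes the coordinates, `m(U^Ω) ∩ X` and the kernel
of `m` come from the central subgroup `C^Ω`, whose image is central. -/
structure WD {G U Ω : Type} [Group G] [Group U] [MulAction G Ω] (m : (Ω → U) →* G) (C : Subgroup U)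
    (X : Subgroup G) : Prop where
  Cc : C ≤ Subgroup.center U
  eqv : ∀ x ∈ X, ∀ u : Ω → U, x * m u * x⁻¹ = m (fun ω => u (x⁻¹ • ω))
  triv : ∀ (u : Ω → U) (ω : Ω), m u • ω = ω
  ker : ∀ u : Ω → U, m u ∈ X → ∀ ω, u ω ∈ C
  cen : ∀ u : Ω → U, (∀ ω, u ω ∈ C) → m u ∈ Subgroup.center G
  sup : m.range ⊔ X = ⊤

/-- the stabilizer in `X` of a function on `Ω` -/
def Xf {G Ω A : Type} [Group G] [MulAction G Ω] (X : Subgroup G) (f : Ω → A) : Subgroup G where
  carrier := {x | x ∈ X ∧ ∀ ω, f (x • ω) = f ω}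
  mul_mem' := by
    rintro a b ⟨ha, ha'⟩ ⟨hb, hb'⟩
    exact ⟨X.mul_mem ha hb, fun ω => by rw [mul_smul, ha', hb']⟩
  one_mem' := ⟨X.one_mem, fun ω => by rw [one_smul]⟩
  inv_mem' := by
    rintro a ⟨ha, ha'⟩
    exact ⟨X.inv_mem ha, fun ω => by rw [← ha' (a⁻¹ • ω), smul_inv_smul]⟩

theorem mem_Xf {G Ω A : Type} [Group G] [MulAction G Ω] {X : Subgroup G} {f : Ω → A} {x : G} :
    x ∈ Xf X f ↔ x ∈ X ∧ ∀ ω, f (x • ω) = f ω := Iff.rfl

theorem Xf_le {G Ω A : Type} [Group G] [MulAction G Ω] (X : Subgroup G) (f : Ω → A) : Xf X f ≤ X :=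
  fun _ h => h.1

theorem WD.inf_le {G U Ω : Type} [Group G] [Group U] [MulAction G Ω] {m : (Ω → U) →* G}
    {C : Subgroup U} {X : Subgroup G} (h : WD m C X) {A : Type} (f : Ω → A) :
    m.range ⊓ X ≤ Xf X f := by
  rintro _ ⟨⟨u, rfl⟩, hx⟩
  exact ⟨hx, fun ω => by rw [h.triv]⟩

/-- the coordinatewise restriction of `m` to a subgroup of `U` -/
def res {G U Ω : Type} [Group G] [Group U] (m : (Ω → U) →* G) (U₀ : Subgroup U) :
    (Ω → U₀) →* G :=
  m.comp { toFun := fun u ω => (u ω : U), map_one' := rfl, map_mul' := fun _ _ => rfl }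

@[simp] theorem res_apply {G U Ω : Type} [Group G] [Group U] (m : (Ω → U) →* G) (U₀ : Subgroup U)
    (u : Ω → U₀) : res m U₀ u = m (fun ω => (u ω : U)) := rfl

end Pool.Agent.Zk54.MQ
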