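import Pool.Agent.Zk54.MQ.Def0

/-!
# Obstructions whose simple factors get only inner automorphisms
-/

set_option autoImplicit false
set_option linter.unusedSectionVars false

namespace Pool.Agent.Zk54.MQ

/-- `M` has a simple normal subgroup `S` with the property `𝔊` on which `Y` induces only inner
automorphisms -/
def Inn (𝔊 : (S : Type) → [Group S] → Prop) {Y : Type} [Group Y] (M : Subgroup Y) : Prop :=
  ∃ S : Subgroup Y, S ≤ M ∧ (∀ m ∈ M, ∀ s ∈ S, m * s * m⁻¹ ∈ S) ∧ IsSimpleGroup S ∧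
    (∀ y : Y, (∀ s ∈ S, y * s * y⁻¹ ∈ S) → ∃ s ∈ S, ∀ t ∈ S, y * t * y⁻¹ = s * t * s⁻¹) ∧ 𝔊 S

/-- the obstructions which are not of inner type -/
def Bad2 (p : ℕ) (𝔊 : (S : Type) → [Group S] → Prop) (Y : Type) [Group Y] : Prop :=
  ∃ M : Subgroup Y, M.Normal ∧ (∀ L : Subgroup Y, L.Normal → L ≠ ⊥ → M ≤ L) ∧
    (∃ a ∈ M, ∃ b ∈ M, a * b ≠ b * a) ∧
    (∃ Q : Sylow p Y, ¬ IsCyclic Q ∧ M ⊔ Subgroup.normalizer ((Q : Subgroup Y) : Set Y) = ⊤) ∧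
    ¬ Inn 𝔊 M

/-- the groups without such sections -/
def Sec2 (p : ℕ) (𝔊 : (S : Type) → [Group S] → Prop) (G : Type) [Group G] : Prop :=
  ∀ (Y : Type) [Group Y] (H : Subgroup G) (f : H →* Y), ¬ p ∣ H.index → Function.Surjective f →
    ¬ Bad2 p 𝔊 Y

end Pool.Agent.Zk54.MQ
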