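import Pool.Agent.Zk54.MQ.DefC

/-!
# Obstructions whose simple factors get only inner automorphisms, or a cyclic group of outer automorphisms of order
prime to `p`
-/

set_option autoImplicit false
set_option linter.unusedSectionVars false

namespace Pool.Agent.Zk54.MQ

/-- `M` has a simple normal subgroup `S` of order divisible by `p` with cyclic Sylow `p`-subgroups, on which
`Y` induces modulo the inner automorphisms a cyclic group of automorphisms of order prime to `p` -/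
def Cyc (p : ℕ) {Y : Type} [Group Y] (M : Subgroup Y) : Prop :=
  ∃ S : Subgroup Y, S ≤ M ∧ (∀ m ∈ M, ∀ s ∈ S, m * s * m⁻¹ ∈ S) ∧ IsSimpleGroup S ∧
    p ∣ Nat.card S ∧ (∀ Q : Sylow p S, IsCyclic Q) ∧
    ∃ (y₀ : Y) (b : ℕ), (∀ s ∈ S, y₀ * s * y₀⁻¹ ∈ S) ∧ ¬ p ∣ b ∧
      (∃ s ∈ S, ∀ t ∈ S, y₀ ^ b * t * (y₀ ^ b)⁻¹ = s * t * s⁻¹) ∧
      ∀ y : Y, (∀ s ∈ S, y * s * y⁻¹ ∈ S) →
        ∃ i : ℕ, ∃ s ∈ S, ∀ t ∈ S, y * t * y⁻¹ = s * (y₀ ^ i * t * (y₀ ^ i)⁻¹) * s⁻¹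

/-- the obstructions which are neither of inner type nor of cyclic type -/
def Bad3 (p : ℕ) (𝔊 : (S : Type) → [Group S] → Prop) (Y : Type) [Group Y] : Prop :=
  ∃ M : Subgroup Y, M.Normal ∧ (∀ L : Subgroup Y, L.Normal → L ≠ ⊥ → M ≤ L) ∧
    (∃ a ∈ M, ∃ b ∈ M, a * b ≠ b * a) ∧
    (∃ Q : Sylow p Y, ¬ IsCyclic Q ∧ M ⊔ Subgroup.normalizer ((Q : Subgroup Y) : Set Y) = ⊤) ∧
    ¬ Inn 𝔊 M ∧ ¬ Cyc p M

/-- the groups without such sections -/
def Sec3 (p : ℕ) (𝔊 : (S : Type) → [Group S] → Prop) (G : Type) [Group G] : Prop :=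
  ∀ (Y : Type) [Group Y] (H : Subgroup G) (f : H →* Y), ¬ p ∣ H.index → Function.Surjective f →
    ¬ Bad3 p 𝔊 Y

/-- nonabelian simple groups of order divisible by `p` with cyclic Sylow `p`-subgroups, a cyclic outer
automorphism group of order prime to `p` and with solvable proper subgroups of index prime to `p` -/
def TT (p : ℕ) (S : Type) [Group S] : Prop :=
  IsSimpleGroup S ∧ (∃ a b : S, a * b ≠ b * a) ∧ p ∣ Nat.card S ∧ (∀ Q : Sylow p S, IsCyclic Q) ∧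
  (∀ K : Subgroup S, ¬ p ∣ K.index → K = ⊤ ∨ Group.IsSolvable K) ∧
  ∃ (a : MulAut S) (b : ℕ), ¬ p ∣ b ∧ (∃ s : S, ∀ t, (a ^ b) t = s * t * s⁻¹) ∧
    ∀ x : MulAut S, ∃ (i : ℕ) (s : S), ∀ t, x t = s * (a ^ i) t * s⁻¹

/-- `G` has a subnormal series whose factors are solvable or have the property `𝔗` -/
def Ser (𝔗 : (S : Type) → [Group S] → Prop) (G : Type) [Group G] : Prop :=
  ∃ (n : ℕ) (H : ℕ → Subgroup G), H 0 = ⊥ ∧ H n = ⊤ ∧ ∀ i < n, H i ≤ H (i + 1) ∧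
    ∃ (F : Type) (_ : Group F) (f : H (i + 1) →* F), Function.Surjective f ∧
      f.ker = (H i).subgroupOf (H (i + 1)) ∧ (Group.IsSolvable F ∨ 𝔗 F)

end Pool.Agent.Zk54.MQ
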