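import Pool.Agent.Zk54.MQ.Def0

set_option autoImplicit false
set_option linter.unusedSectionVars false

namespace Pool.Agent.Zk54.MQ

/-- a normal subgroup `m(U^Ω)` with the automorphisms `α g ω` induced by the elements of `G` -/
structure WE {G U Ω : Type} [Group G] [Group U] [MulAction G Ω] (m : (Ω → U) →* G)
    (α : G → Ω → MulAut U) : Prop where
  eqv : ∀ (g : G) (u : Ω → U), g * m u * g⁻¹ = m (fun ω => α g (g⁻¹ • ω) (u (g⁻¹ • ω)))
  mul : ∀ (g h : G) (ω : Ω), α (g * h) ω = α g (h • ω) * α h ω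
  triv : ∀ (u : Ω → U) (ω : Ω), m u • ω = ω
  inn : ∀ (u : Ω → U) (ω : Ω) (v : U), α (m u) ω v = u ω * v * (u ω)⁻¹
  ker : ∀ u : Ω → U, m u = 1 → ∀ ω, u ω ∈ Subgroup.center U
  cen : ∀ u : Ω → U, (∀ ω, u ω ∈ Subgroup.center U) → m u ∈ Subgroup.center G
  fixc : ∀ (g : G) (ω : Ω), ∀ z ∈ Subgroup.center U, α g ω z = z

end Pool.Agent.Zk54.MQ
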