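import Pool.Agent.K3h83.IN.Stm4
import Pool.Agent.K3h85.IN.CExt

/-!
# Character triples with projective representations with the same factor set
-/

set_option autoImplicit false
set_option linter.unusedSectionVars false
set_option linter.style.haveILetI false

open scoped BigOperators Classical Pointwise

noncomputable section

namespace Pool.Agent.Zk54.MQ

section Main

open Pool.Agent.H254R3.IN Pool.Agent.K3h85.IN Representation

variable {L G : Type} [Group L] [Group G] {V : Type} [AddCommGroup V] [Module ℂ V]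
variable [Finite L] [Finite G] [FiniteDimensional ℂ V]

/-- an invariant irreducible representation of a normal subgroup extends to a central extension -/
theorem main2 (j : L →* G) (hj : Function.Injective j) (hn : j.range.Normal)
    (σ : Representation ℂ L V) (hσ : σ.IsIrreducible)
    (hinv : ∀ (x : G) (l l' : L), x * j l * x⁻¹ = j l' → σ.character l' = σ.character l) :
    ∃ (E : Type) (_ : Group E) (_ : Finite E) (π : E →* G) (s : L →* E)
    (ρ : Representation ℂ E V) (lam : π.ker →* ℂˣ),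
    Function.Surjective π ∧ (∀ l, π (s l) = j l) ∧ s.range.Normal ∧
    π.ker ≤ Subgroup.center E ∧ (∀ l, ρ (s l) = σ l) ∧
    (∀ (x : E) (l l' : L), π x * j l * (π x)⁻¹ = j l' → ρ x ∘ₗ σ l = σ l' ∘ₗ ρ x) ∧
    ∀ (a : π.ker) (v : V), ρ a v = (((lam a)⁻¹ : ℂˣ) : ℂ) • v := by
  haveI : Nontrivial V := irr_nontrivial σ hσ
  have hdim : 0 < Module.finrank ℂ V := Module.finrank_pos
  set E := grp j hj hn σ with hE
  have memE : ∀ x : G × (V →ₗ[ℂ] V)ˣ, x ∈ E ↔ (∀ l l', x.1 * j l * x.1⁻¹ = j l' →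
      (x.2 : V →ₗ[ℂ] V) * σ l = σ l' * (x.2 : V →ₗ[ℂ] V)) ∧
      LinearMap.det (x.2 : V →ₗ[ℂ] V) ^ Nat.card L = 1 := fun x => Iff.rfl
  let π : E →* G := (MonoidHom.fst G (V →ₗ[ℂ] V)ˣ).comp E.subtype
  let ρ : Representation ℂ E V := (Units.coeHom (V →ₗ[ℂ] V)).comp
    ((MonoidHom.snd G (V →ₗ[ℂ] V)ˣ).comp E.subtype)
  have hρ : ∀ x : E, ρ x = (x.1.2 : V →ₗ[ℂ] V) := fun x => rfl
  have hπ : ∀ x : E, π x = x.1.1 := fun x => rfl
  have hσU : ∀ l, ((MonoidHom.toHomUnits σ l : (V →ₗ[ℂ] V)ˣ) : V →ₗ[ℂ] V) = σ l := fun l => rfl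
  have hsmem : ∀ l, (j l, MonoidHom.toHomUnits σ l) ∈ E := by
    intro l
    rw [memE]
    refine ⟨fun m m' h => ?_, ?_⟩
    · have h1 : m' = l * m * l⁻¹ := hj (by rw [← h]; simp)
      rw [hσU, ← map_mul, h1, ← map_mul]
      congr 1
      group
    · rw [hσU, ← map_pow, ← map_pow, pow_card_eq_one', map_one, map_one]
  let s : L →* E := ((j.prod (MonoidHom.toHomUnits σ)).codRestrict E hsmem)
  have hs1 : ∀ l, (s l).1.1 = j l := fun l => rfl
  have hs2 : ∀ l, ((s l).1.2 : V →ₗ[ℂ] V) = σ l := fun l => rfl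
  have hsurj : Function.Surjective π := by
    intro g
    obtain ⟨α, hα, hα'⟩ := exists_conj j hj hn g
    obtain ⟨S, hS⟩ := exists_unit σ (MonoidHom.comp σ α) hσ (irr_comp_surj σ hσ α hα') (by
      funext l
      exact (hinv g l (α l) (hα l).symm).symm)
    have hd : LinearMap.det (S : V →ₗ[ℂ] V) ≠ 0 := by
      have := (LinearMap.isUnit_det _ S.isUnit).ne_zero
      exact this
    obtain ⟨c, hc⟩ := IsAlgClosed.exists_pow_nat_eq (LinearMap.det (S : V →ₗ[ℂ] V))⁻¹ hdim
    have hc0 : c ≠ 0 := by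
      rintro rfl
      rw [zero_pow hdim.ne'] at hc
      exact inv_ne_zero hd hc.symm
    refine ⟨⟨(g, Units.mk0 c hc0 • S), ?_⟩, rfl⟩
    rw [memE]
    have e1 : ((Units.mk0 c hc0 • S : (V →ₗ[ℂ] V)ˣ) : V →ₗ[ℂ] V) = c • (S : V →ₗ[ℂ] V) := rfl
    refine ⟨fun l l' h => ?_, ?_⟩
    · have h1 : l' = α l := hj (by rw [hα, ← h])
      rw [e1, smul_mul_assoc, hS, h1, mul_smul_comm]
      rfl
    · rw [e1, LinearMap.det_smul, hc, inv_mul_cancel₀ hd, one_pow]
  have hscal : ∀ a : π.ker, ∃ c : ℂ, ρ a = c • LinearMap.id := by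
    intro a
    refine schur σ hσ _ fun l v => ?_
    have h1 : (a.1.1.1 : G) = 1 := MonoidHom.mem_ker.mp a.2
    have h2 := ((memE _).mp a.1.2).1 l l (by rw [h1]; simp)
    exact congrArg (fun f => f v) h2
  choose c hc using hscal
  have hcinj : ∀ {x y : ℂ}, x • (LinearMap.id : V →ₗ[ℂ] V) = y • LinearMap.id → x = y :=
    fun h => scalar_inj h
  let cc : π.ker →* ℂ :=
    { toFun := c
      map_one' := hcinj (by rw [← hc, one_smul]; simp; rfl)
      map_mul' := fun a b => hcinj (by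
        rw [← hc, Subgroup.coe_mul, map_mul, hc, hc]
        ext v
        simp [smul_smul, mul_comm]) }
  let lam : π.ker →* ℂˣ := (MonoidHom.toHomUnits cc)⁻¹
  have hlam : ∀ a, (((lam a)⁻¹ : ℂˣ) : ℂ) = c a := by
    intro a
    change ((((MonoidHom.toHomUnits cc a)⁻¹)⁻¹ : ℂˣ) : ℂ) = c a
    rw [inv_inv]
    rfl
  have hccinj : Function.Injective cc := by
    rw [injective_iff_map_eq_one]
    intro a ha
    have h1 : (a.1.1.1 : G) = 1 := MonoidHom.mem_ker.mp a.2
    have h2 : ρ a = c a • LinearMap.id := hc a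
    have h3 : c a = 1 := ha
    rw [h3, one_smul, hρ] at h2
    apply Subtype.ext
    apply Subtype.ext
    refine Prod.ext h1 ?_
    apply Units.ext
    exact h2
  have hroot : ∀ a, (MonoidHom.toHomUnits cc a) ∈
      rootsOfUnity (Module.finrank ℂ V * Nat.card L) ℂ := by
    intro a
    rw [mem_rootsOfUnity']
    have h1 := ((memE _).mp a.1.2).2
    have h2 : (a.1.1.2 : V →ₗ[ℂ] V) = c a • LinearMap.id := hc a
    rw [h2, LinearMap.det_smul, LinearMap.det_id, mul_one, ← pow_mul] at h1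
    exact h1
  haveI : NeZero (Module.finrank ℂ V * Nat.card L) := ⟨(Nat.mul_pos hdim Nat.card_pos).ne'⟩
  haveI hfk : Finite π.ker := by
    refine Finite.of_injective (fun a => (⟨MonoidHom.toHomUnits cc a, hroot a⟩ :
      rootsOfUnity (Module.finrank ℂ V * Nat.card L) ℂ)) fun a b hab => ?_
    apply hccinj
    have := congrArg (fun z => ((z : ℂˣ) : ℂ)) (Subtype.ext_iff.mp hab)
    exact this
  haveI hfE : Finite E := by
    haveI : Finite (E ⧸ π.ker) := Finite.of_injective _
      (QuotientGroup.quotientKerEquivRange π).injective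
    exact Finite.of_subgroup_quotient π.ker
  refine ⟨E, inferInstance, hfE, π, s, ρ, lam, hsurj, fun l => rfl, ⟨?_⟩, ?_, ?_, ?_, ?_⟩
  · rintro _ ⟨l, rfl⟩ x
    obtain ⟨l', hl'⟩ := MonoidHom.mem_range.mp
      (hn.conj_mem _ (MonoidHom.mem_range.mpr ⟨l, rfl⟩) x.1.1)
    refine ⟨l', ?_⟩
    rw [eq_mul_inv_iff_mul_eq]
    apply Subtype.ext
    refine Prod.ext ?_ ?_
    · change j l' * x.1.1 = x.1.1 * j l
      rw [hl']
      group
    · apply Units.ext
      exact (((memE _).mp x.2).1 l l' hl'.symm).symm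
  · intro a ha
    rw [Subgroup.mem_center_iff]
    intro x
    have h1 : (a.1.1 : G) = 1 := MonoidHom.mem_ker.mp ha
    have h2 : (a.1.2 : V →ₗ[ℂ] V) = c ⟨a, ha⟩ • LinearMap.id := hc ⟨a, ha⟩
    apply Subtype.ext
    refine Prod.ext ?_ ?_
    · change x.1.1 * a.1.1 = a.1.1 * x.1.1
      rw [h1, mul_one, one_mul]
    · apply Units.ext
      change (x.1.2 : V →ₗ[ℂ] V) * (a.1.2 : V →ₗ[ℂ] V) = (a.1.2 : V →ₗ[ℂ] V) * x.1.2
      rw [h2]
      ext v
      simp
  · intro l
    rfl
  · intro x l l' h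
    exact ((memE _).mp x.2).1 l l' h
  · intro a v
    rw [hlam, hc]
    simp

end Main

open Pool.Agent.Helper884 Pool.Agent.H254R3.IN
open Pool.Agent.K3h3.KB Pool.Agent.K3h3.MK
open IC (Irr)
open Pool.Agent.K3h83.IN (ov wo fixes S3b wo_congr)

/-- a bijective operator which intertwines preserves the character -/
theorem char_eq {L : Type} [Group L] {V : Type} [AddCommGroup V] [Module ℂ V]
    [FiniteDimensional ℂ V] (σ : Representation ℂ L V) {l l' : L} (A : V →ₗ[ℂ] V)
    (hA : Function.Bijective A) (h : A ∘ₗ σ l = σ l' ∘ₗ A) : σ.character l' = σ.character l := by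
  let e : V ≃ₗ[ℂ] V := LinearEquiv.ofBijective A hA
  have h1 : σ l' = e.conj (σ l) := by
    ext v
    rw [LinearEquiv.conj_apply]
    simp only [LinearMap.comp_apply, LinearEquiv.coe_coe]
    have h2 := LinearMap.congr_fun h (e.symm v)
    simp only [LinearMap.comp_apply] at h2
    have h3 : A (e.symm v) = v := e.apply_symm_apply v
    rw [h3] at h2
    exact h2.symm
  unfold Representation.character
  rw [h1, LinearMap.trace_conj']

/-- E1: character triples with projective representations with the same factor set -/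
theorem triple_iso (s3b : S3b) {T : Type} [Group T] [Finite T] (E N : Subgroup T) (hE : E.Normal)
    (hEN : E ⊔ N = ⊤) {V V' : Type} [AddCommGroup V] [Module ℂ V] [FiniteDimensional ℂ V]
    [AddCommGroup V'] [Module ℂ V'] [FiniteDimensional ℂ V'] (σ : Representation ℂ E V)
    (hσ : σ.IsIrreducible) (σ' : Representation ℂ (E ⊓ N : Subgroup T) V')
    (hσ' : σ'.IsIrreducible) (W : N → (V →ₗ[ℂ] V)) (W' : N → (V' →ₗ[ℂ] V'))
    (hWi : ∀ n, Function.Bijective (W n)) (hWi' : ∀ n, Function.Bijective (W' n))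
    (hW : ∀ (n : N) (l l' : E), (n : T) * l * (n : T)⁻¹ = l' → W n ∘ₗ σ l = σ l' ∘ₗ W n)
    (hW' : ∀ (n : N) (l l' : (E ⊓ N : Subgroup T)), (n : T) * l * (n : T)⁻¹ = l' →
      W' n ∘ₗ σ' l = σ' l' ∘ₗ W' n)
    (γ : N → N → ℂ) (hm : ∀ n k, W n ∘ₗ W k = γ n k • W (n * k))
    (hm' : ∀ n k, W' n ∘ₗ W' k = γ n k • W' (n * k)) (c : (E ⊓ N : Subgroup T) → ℂ)
    (hc : ∀ e : (E ⊓ N : Subgroup T), W ⟨e, e.2.2⟩ = c e • σ ⟨e, e.2.1⟩)
    (hc' : ∀ e : (E ⊓ N : Subgroup T), W' ⟨e, e.2.2⟩ = c e • σ' e)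
    {R : Type} [CommRing R] (w : ℕ →* R) :
    ∃ κ : R, wo w E.subtype σ.character = w (ndeg σ.character) * κ ∧
      wo w (Subgroup.inclusion (inf_le_right : E ⊓ N ≤ N)) σ'.character =
        w (ndeg σ'.character) * κ := by
  haveI : Nontrivial V := irr_nontrivial σ hσ
  haveI : Nontrivial V' := irr_nontrivial σ' hσ'
  -- products
  have hprod : ∀ x : T, ∃ (e : E) (n : N), x = e * n := by
    intro x
    have hx : x ∈ E ⊔ N := by rw [hEN]; trivial
    have hx' : x ∈ ((E : Set T) * (N : Set T)) := by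
      rw [← Subgroup.normal_mul]
      exact hx
    obtain ⟨e, he, n, hn, rfl⟩ := Set.mem_mul.1 hx'
    exact ⟨⟨e, he⟩, ⟨n, hn⟩, rfl⟩
  -- invertible operators of `σ`
  have hbij : ∀ {L : Type} [Group L] {V₀ : Type} [AddCommGroup V₀] [Module ℂ V₀]
      (τ : Representation ℂ L V₀) (l : L), Function.Bijective (τ l) := by
    intro L _ V₀ _ _ τ l
    constructor
    · intro u v huv
      have h1 := congrArg (τ l⁻¹) huv
      rw [← Module.End.mul_apply, ← Module.End.mul_apply, ← map_mul, inv_mul_cancel, map_one] at h1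
      exact h1
    · intro v
      refine ⟨τ l⁻¹ v, ?_⟩
      rw [← Module.End.mul_apply, ← map_mul, mul_inv_cancel, map_one]
      rfl
  have hinv : ∀ (x : T) (l l' : E), x * E.subtype l * x⁻¹ = E.subtype l' →
      σ.character l' = σ.character l := by
    intro x l l' h
    obtain ⟨e, n, rfl⟩ := hprod x
    have hm1 : (n : T) * l * (n : T)⁻¹ ∈ E := hE.conj_mem _ l.2 _
    have h1 := hW n l ⟨_, hm1⟩ rfl
    have h2 : l' = e * ⟨_, hm1⟩ * e⁻¹ := by
      apply Subtype.ext
      change (l' : T) = (e : T) * ((n : T) * l * (n : T)⁻¹) * (e : T)⁻¹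
      have h3 : (e : T) * n * l * ((e : T) * n)⁻¹ = l' := h
      rw [← h3]
      group
    have h4 : σ.character l' = σ.character ⟨_, hm1⟩ := by
      rw [h2]
      exact char_eq σ (σ e) (hbij σ e) (by
        rw [← Module.End.mul_eq_comp, ← Module.End.mul_eq_comp, ← map_mul, ← map_mul]
        congr 1
        group)
    rw [h4]
    exact char_eq σ (W n) (hWi n) h1
  obtain ⟨Th, _, _, π, s, ρ, lam, hπ, hs, hsn, hker, hρs, hρi, hlam⟩ :=
    main2 E.subtype (Subgroup.subtype_injective E) (by rw [Subgroup.range_subtype]; exact hE) σ hσ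
      hinv
  haveI := hsn
  let t : Th →* Th ⧸ s.range := QuotientGroup.mk' s.range
  have ht : Function.Surjective t := QuotientGroup.mk'_surjective _
  have htk : t.ker = s.range := QuotientGroup.ker_mk' _
  have hinj : Function.Injective fun l => π (s l) := by
    intro a b hab
    simp only [hs] at hab
    exact Subtype.ext hab
  refine ⟨wo w (t.comp π.ker.subtype) (fun a => ((lam a : ℂˣ) : ℂ)), ?_, ?_⟩
  · have h1 := s3b R w E Th T (Th ⧸ s.range) π hπ hker s hinj t ht htk V ρ σ.character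
      ⟨V, inferInstance, inferInstance, inferInstance, σ, hσ, rfl⟩ (fun l => by unfold Representation.character; rw [hρs]) lam hlam
    have h2 : π.comp s = E.subtype := by
      ext l
      exact hs l
    rw [h2] at h1
    exact h1
  -- the preimage of `N`
  let Nh : Subgroup Th := N.comap π
  let π' : Nh →* N := π.subgroupComap N
  have hπ'v : ∀ x : Nh, ((π' x : N) : T) = π x := fun x => rfl
  have hπ' : Function.Surjective π' := by
    intro n
    obtain ⟨x, hx⟩ := hπ n
    exact ⟨⟨x, by rw [Subgroup.mem_comap, hx]; exact n.2⟩, Subtype.ext hx⟩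
  have hk1 : ∀ x : Nh, x ∈ π'.ker ↔ (x : Th) ∈ π.ker := by
    intro x
    rw [MonoidHom.mem_ker, MonoidHom.mem_ker]
    constructor
    · intro h
      exact congrArg Subtype.val h
    · intro h
      exact Subtype.ext h
  have hcen' : π'.ker ≤ Subgroup.center Nh := by
    intro x hx
    have h1 := hker ((hk1 x).1 hx)
    rw [Subgroup.mem_center_iff] at h1 ⊢
    intro y
    exact Subtype.ext (h1 y)
  let s' : (E ⊓ N : Subgroup T) →* Nh :=
    (s.comp (Subgroup.inclusion (inf_le_left : E ⊓ N ≤ E))).codRestrict Nh (by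
      intro e
      change π (s _) ∈ N
      rw [hs]
      exact e.2.2)
  have hs'v : ∀ e : (E ⊓ N : Subgroup T), ((s' e : Nh) : Th) = s ⟨e, e.2.1⟩ := fun e => rfl
  have hps' : ∀ e : (E ⊓ N : Subgroup T), π' (s' e) = ⟨e, e.2.2⟩ := by
    intro e
    apply Subtype.ext
    rw [hπ'v, hs'v, hs]
    rfl
  have hinj' : Function.Injective fun e => π' (s' e) := by
    intro a b hab
    simp only [hps'] at hab
    exact Subtype.ext (congrArg (fun x : N => (x : T)) hab)
  let t' : Nh →* Th ⧸ s.range := t.comp Nh.subtype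
  have hts : ∀ l : E, t (s l) = 1 := by
    intro l
    rw [← MonoidHom.mem_ker, htk]
    exact ⟨l, rfl⟩
  have ht' : Function.Surjective t' := by
    intro q
    obtain ⟨x, rfl⟩ := ht q
    obtain ⟨e, n, hx⟩ := hprod (π x)
    refine ⟨⟨(s e)⁻¹ * x, ?_⟩, ?_⟩
    · rw [Subgroup.mem_comap, map_mul, map_inv, hs, hx]
      have : ((E.subtype e)⁻¹ * ((e : T) * n)) = n := by
        change ((e : T))⁻¹ * ((e : T) * n) = n
        group
      rw [this]
      exact n.2
    · change t ((s e)⁻¹ * x) = t x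
      rw [map_mul, map_inv, hts, inv_one, one_mul]
  have htk' : t'.ker = s'.range := by
    ext x
    constructor
    · intro hx
      have h1 : (x : Th) ∈ t.ker := hx
      rw [htk] at h1
      obtain ⟨l, hl⟩ := h1
      have h2 : (l : T) ∈ N := by
        have h3 := x.2
        change π x ∈ N at h3
        rw [← hl, hs] at h3
        exact h3
      exact ⟨⟨l, l.2, h2⟩, Subtype.ext hl⟩
    · rintro ⟨e, rfl⟩
      exact hts _
  -- the scalars
  have hz : ∀ x : Nh, ∃ z : ℂ, ρ x = z • W (π' x) := by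
    intro x
    let A : V ≃ₗ[ℂ] V := LinearEquiv.ofBijective (W (π' x)) (hWi _)
    have hA : ∀ v, A v = W (π' x) v := fun v => rfl
    obtain ⟨z, hz⟩ := schur σ hσ (A.symm.toLinearMap ∘ₗ ρ x) (by
      intro l v
      have hm1 : π x * (l : T) * (π x)⁻¹ ∈ E := hE.conj_mem _ l.2 _
      have h1 := LinearMap.congr_fun (hρi x l ⟨_, hm1⟩ rfl) v
      have h2 := LinearMap.congr_fun (hW (π' x) l ⟨_, hm1⟩ rfl) (A.symm (ρ x v))
      simp only [LinearMap.comp_apply, LinearEquiv.coe_coe] at h1 h2 ⊢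
      rw [h1, LinearEquiv.symm_apply_eq, hA, h2, ← hA, LinearEquiv.apply_symm_apply])
    refine ⟨z, ?_⟩
    ext v
    have h1 := LinearMap.congr_fun hz v
    simp only [LinearMap.comp_apply, LinearEquiv.coe_coe, LinearMap.smul_apply,
      LinearMap.id_apply] at h1
    rw [LinearEquiv.symm_apply_eq, map_smul, hA] at h1
    rw [h1, LinearMap.smul_apply]
  choose z hz using hz
  obtain ⟨v₀, hv₀⟩ := exists_ne (0 : V)
  have hWne : ∀ n, W n v₀ ≠ 0 := by
    intro n h
    exact hv₀ ((hWi n).1 (h.trans (map_zero _).symm))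
  have hcancel : ∀ (n : N) (a b : ℂ), a • W n = b • W n → a = b := by
    intro n a b h
    have h1 := LinearMap.congr_fun h v₀
    simp only [LinearMap.smul_apply] at h1
    exact smul_left_injective ℂ (hWne n) h1
  have hW1 : ∀ {V₀ : Type} [AddCommGroup V₀] [Module ℂ V₀] (W₀ : N → (V₀ →ₗ[ℂ] V₀))
      (_ : ∀ n, Function.Bijective (W₀ n)) (_ : ∀ n k, W₀ n ∘ₗ W₀ k = γ n k • W₀ (n * k)),
      W₀ 1 = γ 1 1 • LinearMap.id := by
    intro V₀ _ _ W₀ hb hmm
    ext v
    apply (hb 1).1
    have h1 := LinearMap.congr_fun (hmm 1 1) v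
    rw [mul_one] at h1
    simp only [LinearMap.comp_apply, LinearMap.smul_apply, LinearMap.id_apply] at h1 ⊢
    rw [h1, map_smul]
  have hV1 := hW1 W hWi hm
  have hV1' := hW1 W' hWi' hm'
  have hzm : ∀ x y, z (x * y) = z x * z y * γ (π' x) (π' y) := by
    intro x y
    apply hcancel (π' (x * y))
    rw [← hz, Subgroup.coe_mul, map_mul, hz x, hz y]
    rw [Module.End.mul_eq_comp, LinearMap.smul_comp, LinearMap.comp_smul, hm, smul_smul, smul_smul,
      map_mul, mul_assoc]
  have hidne : ∀ a b : ℂ, a • (LinearMap.id : V →ₗ[ℂ] V) = b • LinearMap.id → a = b :=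
    fun a b h => scalar_inj h
  have hz1 : z 1 * γ 1 1 = 1 := by
    have h1 := hz 1
    rw [Subgroup.coe_one, map_one, map_one, hV1, smul_smul] at h1
    symm
    apply hidne
    rw [one_smul]
    exact h1
  let ρ' : Representation ℂ Nh V' :=
    { toFun := fun x => z x • W' (π' x)
      map_one' := by
        rw [map_one, hV1', smul_smul, hz1, one_smul]
        rfl
      map_mul' := by
        intro x y
        rw [hzm, Module.End.mul_eq_comp, LinearMap.smul_comp, LinearMap.comp_smul, map_mul, hm',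
          smul_smul, smul_smul, mul_assoc] }
  have hρ' : ∀ x, ρ' x = z x • W' (π' x) := fun x => rfl
  have hρs' : ∀ e, ρ' (s' e) = σ' e := by
    intro e
    rw [hρ', hps', hc', smul_smul]
    have h1 := hz (s' e)
    rw [hps', hc, smul_smul, hs'v, hρs] at h1
    have h2 : z (s' e) * c e = 1 := by
      have h3 := LinearMap.congr_fun h1 v₀
      simp only [LinearMap.smul_apply] at h3
      have h4 : σ ⟨e, e.2.1⟩ v₀ ≠ 0 := fun h => hv₀ ((hbij σ _).1 (h.trans (map_zero _).symm))
      apply smul_left_injective ℂ h4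
      change (z (s' e) * c e) • _ = (1 : ℂ) • _
      rw [one_smul]
      exact h3.symm
    rw [h2, one_smul]
  let f : π'.ker ≃* π.ker :=
    { toFun := fun a => ⟨a.1.1, (hk1 a.1).1 a.2⟩
      invFun := fun b => ⟨⟨b.1, by
        rw [Subgroup.mem_comap, (MonoidHom.mem_ker).1 b.2]
        exact N.one_mem⟩, (hk1 _).2 b.2⟩
      left_inv := fun a => rfl
      right_inv := fun b => rfl
      map_mul' := fun a b => rfl }
  let lam' : π'.ker →* ℂˣ := lam.comp f.toMonoidHom
  have hlam' : ∀ (a : π'.ker) (v : V'), ρ' a v = (((lam' a)⁻¹ : ℂˣ) : ℂ) • v := by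
    intro a v
    have ha : π' a.1 = 1 := a.2
    have h1 : ρ (a.1 : Th) = (((lam (f a))⁻¹ : ℂˣ) : ℂ) • LinearMap.id := by
      ext v
      exact hlam (f a) v
    rw [hz, ha, hV1, smul_smul] at h1
    have h2 := hidne _ _ h1
    rw [hρ', ha, hV1', smul_smul, h2]
    rfl
  have h1 := s3b R w (E ⊓ N : Subgroup T) Nh N (Th ⧸ s.range) π' hπ' hcen' s' hinj' t' ht' htk' V'
    ρ' σ'.character ⟨V', inferInstance, inferInstance, inferInstance, σ', hσ', rfl⟩
    (fun l => by unfold Representation.character; rw [hρs']) lam' hlam'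
  have h2 : π'.comp s' = Subgroup.inclusion (inf_le_right : E ⊓ N ≤ N) := by
    ext e
    exact congrArg (fun x : N => (x : T)) (hps' e)
  rw [h2] at h1
  rw [h1]
  congr 1
  exact wo_congr w f (MulEquiv.refl _) (t'.comp π'.ker.subtype) (t.comp π.ker.subtype)
    (fun l => rfl) _ _ (fun l => rfl)

end Pool.Agent.Zk54.MQ
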