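import Mathlib
set_option autoImplicit false
open scoped BigOperators Classical
set_option linter.unusedSectionVars false
noncomputable section
namespace Pool.Agent.Zk54.MQ

/-- the block condition: `B` maps the block `j` into the block `k` -/
def Blk {J : Type} {n n' : J → ℕ} (j k : J)
    (B : Matrix (Σ j, Fin (n j)) (Σ j, Fin (n' j)) ℂ) : Prop :=
  ∀ x y, y.1 = j → x.1 ≠ k → B x y = 0

namespace TensM

variable {Ω J : Type} [Fintype Ω] [Fintype J] {n : J → ℕ} {f : Ω → J}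

/-- the matrix of the tensor product -/
def mt (f : Ω → J) (x : Equiv.Perm Ω)
    (A : Ω → Matrix (Σ j, Fin (n j)) (Σ j, Fin (n j)) ℂ) :
    Matrix (∀ ω : Ω, Fin (n (f ω))) (∀ ω : Ω, Fin (n (f ω))) ℂ :=
  fun a b => ∏ ω, A ω ⟨f (x ω), a (x ω)⟩ ⟨f ω, b ω⟩

theorem mt_one : mt (n := n) f 1 (fun _ => 1) = 1 := by
  ext a b
  unfold mt
  rw [Matrix.one_apply]
  by_cases h : a = b
  · subst h
    rw [if_pos rfl]
    refine Finset.prod_eq_one fun ω _ => ?_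
    exact Matrix.one_apply_eq _
  · rw [if_neg h]
    obtain ⟨i, hi⟩ := Function.ne_iff.mp h
    refine Finset.prod_eq_zero (Finset.mem_univ i) ?_
    refine Matrix.one_apply_ne ?_
    intro h2
    apply hi
    have h3 := (Sigma.mk.inj_iff.mp h2).2
    exact eq_of_heq h3

theorem mt_mul (x y : Equiv.Perm Ω) (A B : Ω → Matrix (Σ j, Fin (n j)) (Σ j, Fin (n j)) ℂ)
    (hB : ∀ ω, Blk (f ω) (f (y ω)) (B ω)) :
    mt f x A * mt f y B = mt f (x * y) (fun ω => A (y ω) * B ω) := by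
  ext a c
  rw [Matrix.mul_apply]
  have h1 : ∀ ω, (A (y ω) * B ω) ⟨f ((x * y) ω), a ((x * y) ω)⟩ ⟨f ω, c ω⟩ =
      ∑ i : Fin (n (f (y ω))), A (y ω) ⟨f (x (y ω)), a (x (y ω))⟩ ⟨f (y ω), i⟩ *
        B ω ⟨f (y ω), i⟩ ⟨f ω, c ω⟩ := by
    intro ω
    rw [Matrix.mul_apply, Fintype.sum_sigma, Finset.sum_eq_single (f (y ω))]
    · rfl
    · intro j _ hj
      refine Finset.sum_eq_zero fun i _ => ?_
      rw [hB ω ⟨j, i⟩ ⟨f ω, c ω⟩ rfl hj, mul_zero]
    · intro h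
      exact absurd (Finset.mem_univ _) h
  have h2 : mt f (x * y) (fun ω => A (y ω) * B ω) a c =
      ∏ ω, ∑ i : Fin (n (f (y ω))), A (y ω) ⟨f (x (y ω)), a (x (y ω))⟩ ⟨f (y ω), i⟩ *
        B ω ⟨f (y ω), i⟩ ⟨f ω, c ω⟩ := by
    unfold TensM.mt
    exact Finset.prod_congr rfl fun ω _ => h1 ω
  rw [h2]
  have h3 := Finset.prod_univ_sum
    (fun ω : Ω => (Finset.univ : Finset (Fin (n (f (y ω)))))) fun ω i =>
      A (y ω) ⟨f (x (y ω)), a (x (y ω))⟩ ⟨f (y ω), i⟩ * B ω ⟨f (y ω), i⟩ ⟨f ω, c ω⟩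
  rw [Fintype.piFinset_univ] at h3
  rw [h3]
  refine (Fintype.sum_equiv (Equiv.piCongrLeft (fun ω => Fin (n (f ω))) y) _ _ fun β => ?_).symm
  rw [Finset.prod_mul_distrib]
  unfold mt
  congr 1
  · refine Fintype.prod_equiv y _ _ fun ω => ?_
    rw [Equiv.piCongrLeft_apply_apply]
  · refine Finset.prod_congr rfl fun ω _ => ?_
    rw [Equiv.piCongrLeft_apply_apply]

end TensM

open TensM in
/-- E2: tensor products of blocks with permutations of the factors -/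
theorem tensM {Ω J : Type} [Fintype Ω] [Fintype J] (n : J → ℕ) (f : Ω → J) :
    ∃ (V : Type) (_ : AddCommGroup V) (_ : Module ℂ V) (_ : FiniteDimensional ℂ V)
      (M : Equiv.Perm Ω → (Ω → Matrix (Σ j, Fin (n j)) (Σ j, Fin (n j)) ℂ) → (V →ₗ[ℂ] V)),
      (M 1 (fun _ => 1) = LinearMap.id) ∧
      (∀ (x y : Equiv.Perm Ω) (A B : Ω → Matrix (Σ j, Fin (n j)) (Σ j, Fin (n j)) ℂ),
        (∀ ω, Blk (f ω) (f (y ω)) (B ω)) →
        M x A ∘ₗ M y B = M (x * y) (fun ω => A (y ω) * B ω)) ∧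
      (∀ (x : Equiv.Perm Ω) (c : Ω → ℂ) (A B : Ω → Matrix (Σ j, Fin (n j)) (Σ j, Fin (n j)) ℂ),
        (∀ ω p q, q.1 = f ω → A ω p q = c ω * B ω p q) → M x A = (∏ ω, c ω) • M x B) ∧
      (∀ A : Ω → Matrix (Σ j, Fin (n j)) (Σ j, Fin (n j)) ℂ,
        LinearMap.trace ℂ V (M 1 A) = ∏ ω, ∑ i : Fin (n (f ω)), A ω ⟨f ω, i⟩ ⟨f ω, i⟩) := by
  refine ⟨(∀ ω : Ω, Fin (n (f ω))) → ℂ, inferInstance, inferInstance, inferInstance,
    fun x A => Matrix.toLin' (mt f x A), ?_, ?_, ?_, ?_⟩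
  · beta_reduce
    rw [mt_one, Matrix.toLin'_one]
  · intro x y A B hB
    beta_reduce
    rw [← mt_mul x y A B hB, Matrix.toLin'_mul]
  · intro x c A B hc
    beta_reduce
    rw [← map_smul]
    refine congrArg _ (Matrix.ext fun a b => ?_)
    rw [Matrix.smul_apply, smul_eq_mul]
    unfold TensM.mt
    rw [← Finset.prod_mul_distrib]
    exact Finset.prod_congr rfl fun ω _ => hc ω _ _ rfl
  · intro A
    rw [Matrix.trace_toLin'_eq]
    have h3 := Finset.prod_univ_sum (fun ω : Ω => (Finset.univ : Finset (Fin (n (f ω)))))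
      fun ω i => A ω ⟨f ω, i⟩ ⟨f ω, i⟩
    rw [Fintype.piFinset_univ] at h3
    rw [h3]
    rfl

end Pool.Agent.Zk54.MQ
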