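import Mathlib

/-!
# Block matrices which permute the blocks
-/

set_option autoImplicit false
set_option linter.unusedSectionVars false

open scoped BigOperators Classical

noncomputable section

namespace Pool.Agent.Zk54.MQ.E3

variable {J : Type} [Fintype J] {n : J → ℕ}

/-- the block `(a, j)` -/
def blk (A : Matrix (Σ j, Fin (n j)) (Σ j, Fin (n j)) ℂ) (a j : J) :
    Matrix (Fin (n a)) (Fin (n j)) ℂ := fun x y => A ⟨a, x⟩ ⟨j, y⟩

theorem ext_blk {A B : Matrix (Σ j, Fin (n j)) (Σ j, Fin (n j)) ℂ}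
    (h : ∀ a j, blk A a j = blk B a j) : A = B := by
  ext ⟨a, x⟩ ⟨j, y⟩
  exact congrFun (congrFun (h a j) x) y

theorem blk_mul (A B : Matrix (Σ j, Fin (n j)) (Σ j, Fin (n j)) ℂ) (a j : J) :
    blk (A * B) a j = ∑ l, blk A a l * blk B l j := by
  ext x y
  rw [Matrix.sum_apply]
  simp only [blk, Matrix.mul_apply, Fintype.sum_sigma]

/-- the block diagonal matrix -/
def D (M : ∀ j, Matrix (Fin (n j)) (Fin (n j)) ℂ) : Matrix (Σ j, Fin (n j)) (Σ j, Fin (n j)) ℂ :=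
  Matrix.blockDiagonal' M

theorem blk_D_same (M : ∀ j, Matrix (Fin (n j)) (Fin (n j)) ℂ) (j : J) : blk (D M) j j = M j := by
  ext x y
  exact Matrix.blockDiagonal'_apply_eq M j x y

theorem blk_D_ne (M : ∀ j, Matrix (Fin (n j)) (Fin (n j)) ℂ) {a j : J} (h : a ≠ j) :
    blk (D M) a j = 0 := by
  ext x y
  exact Matrix.blockDiagonal'_apply_ne M x y h

theorem blk_mul_D (A : Matrix (Σ j, Fin (n j)) (Σ j, Fin (n j)) ℂ)
    (M : ∀ j, Matrix (Fin (n j)) (Fin (n j)) ℂ) (a j : J) :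
    blk (A * D M) a j = blk A a j * M j := by
  rw [blk_mul, Finset.sum_eq_single j]
  · rw [blk_D_same]
  · intro l _ hl
    rw [blk_D_ne M hl, Matrix.mul_zero]
  · intro h
    exact absurd (Finset.mem_univ j) h

theorem blk_D_mul (A : Matrix (Σ j, Fin (n j)) (Σ j, Fin (n j)) ℂ)
    (M : ∀ j, Matrix (Fin (n j)) (Fin (n j)) ℂ) (a j : J) :
    blk (D M * A) a j = M a * blk A a j := by
  rw [blk_mul, Finset.sum_eq_single a]
  · rw [blk_D_same]
  · intro l _ hl
    rw [blk_D_ne M hl.symm, Matrix.zero_mul]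
  · intro h
    exact absurd (Finset.mem_univ a) h

theorem D_mul (M N : ∀ j, Matrix (Fin (n j)) (Fin (n j)) ℂ) :
    D M * D N = D fun j => M j * N j := (Matrix.blockDiagonal'_mul M N).symm

theorem D_one : D (n := n) (fun j => (1 : Matrix (Fin (n j)) (Fin (n j)) ℂ)) = 1 :=
  Matrix.blockDiagonal'_one

/-- the scalars -/
def S (n : J → ℕ) (l : J → ℂ) : Matrix (Σ j, Fin (n j)) (Σ j, Fin (n j)) ℂ :=
  D fun j => l j • (1 : Matrix (Fin (n j)) (Fin (n j)) ℂ)

theorem S_mul (l m : J → ℂ) : S n l * S n m = S n fun j => l j * m j := by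
  rw [S, S, D_mul, S]
  congr 1
  funext j
  rw [smul_mul_smul_comm, Matrix.one_mul]

theorem S_one : S n (fun _ => 1) = 1 := by
  rw [S, ← D_one]
  congr 1
  funext j
  rw [one_smul]

theorem S_pow (l : J → ℂ) (q : ℕ) : S n l ^ q = S n fun j => l j ^ q := by
  induction q with
  | zero =>
    simp only [pow_zero]
    exact S_one.symm
  | succ q ih =>
    rw [pow_succ, ih, S_mul]
    rfl

theorem S_D (l : J → ℂ) (M : ∀ j, Matrix (Fin (n j)) (Fin (n j)) ℂ) :
    S n l * D M = D M * S n l := by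
  rw [S, D_mul, D_mul]
  congr 1
  funext j
  rw [Matrix.smul_mul, Matrix.mul_smul, Matrix.one_mul, Matrix.mul_one]

theorem S_inj (hn : ∀ j, 0 < n j) {l m : J → ℂ} (h : S n l = S n m) : l = m := by
  funext j
  have h1 := congrArg (fun A => blk A j j ⟨0, hn j⟩ ⟨0, hn j⟩) h
  simp only [S, blk_D_same, Matrix.smul_apply, Matrix.one_apply_eq, smul_eq_mul, mul_one] at h1
  exact h1

/-- `A` maps the block `j` into the block `σ j` -/
def Typ (σ : Equiv.Perm J) (A : Matrix (Σ j, Fin (n j)) (Σ j, Fin (n j)) ℂ) : Prop :=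
  ∀ a j, a ≠ σ j → blk A a j = 0

theorem Typ.one : Typ (1 : Equiv.Perm J) (1 : Matrix (Σ j, Fin (n j)) (Σ j, Fin (n j)) ℂ) := by
  intro a j h
  rw [← D_one]
  exact blk_D_ne _ h

theorem Typ.mul {σ ρ : Equiv.Perm J} {A B : Matrix (Σ j, Fin (n j)) (Σ j, Fin (n j)) ℂ}
    (hA : Typ σ A) (hB : Typ ρ B) : Typ (σ * ρ) (A * B) := by
  intro a j h
  rw [blk_mul]
  apply Finset.sum_eq_zero
  intro l _
  by_cases hl : l = ρ j
  · rw [hA a l (by rw [hl]; exact h), Matrix.zero_mul]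
  · rw [hB l j hl, Matrix.mul_zero]

theorem Typ.pow {σ : Equiv.Perm J} {A : Matrix (Σ j, Fin (n j)) (Σ j, Fin (n j)) ℂ}
    (hA : Typ σ A) (i : ℕ) : Typ (σ ^ i) (A ^ i) := by
  induction i with
  | zero => rw [pow_zero, pow_zero]; exact Typ.one
  | succ i ih => rw [pow_succ, pow_succ]; exact ih.mul hA

theorem Typ.S_mul {σ : Equiv.Perm J} {A : Matrix (Σ j, Fin (n j)) (Σ j, Fin (n j)) ℂ}
    (hA : Typ σ A) (l : J → ℂ) : S n l * A = A * S n fun j => l (σ j) := by
  apply ext_blk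
  intro a j
  rw [S, S, blk_D_mul, blk_mul_D]
  by_cases h : a = σ j
  · subst h
    rw [Matrix.smul_mul, Matrix.mul_smul, Matrix.one_mul, Matrix.mul_one]
  · rw [hA a j h, Matrix.mul_zero, Matrix.zero_mul]

/-- the block permutation matrix -/
def bm (τ : Equiv.Perm J) (T : ∀ j, Matrix (Fin (n (τ j))) (Fin (n j)) ℂ) :
    Matrix (Σ j, Fin (n j)) (Σ j, Fin (n j)) ℂ := fun x y =>
  if h : x.1 = τ y.1 then T y.1 (h ▸ x.2) y.2 else 0

theorem blk_bm_same (τ : Equiv.Perm J) (T : ∀ j, Matrix (Fin (n (τ j))) (Fin (n j)) ℂ) (j : J) :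
    blk (bm τ T) (τ j) j = T j := by
  ext x y
  simp [blk, bm]

theorem typ_bm (τ : Equiv.Perm J) (T : ∀ j, Matrix (Fin (n (τ j))) (Fin (n j)) ℂ) :
    Typ τ (bm τ T) := by
  intro a j h
  ext x y
  simp [blk, bm, h]

/-- the inverse block permutation matrix -/
def bm' (τ : Equiv.Perm J) (T : ∀ j, Matrix (Fin (n j)) (Fin (n (τ j))) ℂ) :
    Matrix (Σ j, Fin (n j)) (Σ j, Fin (n j)) ℂ := fun x y =>
  if h : y.1 = τ x.1 then T x.1 x.2 (h ▸ y.2) else 0

theorem bm'_mul_bm (τ : Equiv.Perm J) (T : ∀ j, Matrix (Fin (n (τ j))) (Fin (n j)) ℂ)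
    (T' : ∀ j, Matrix (Fin (n j)) (Fin (n (τ j))) ℂ) (h : ∀ j, T' j * T j = 1) :
    bm' τ T' * bm τ T = 1 := by
  rw [← D_one]
  apply ext_blk
  intro a j
  rw [blk_mul, Finset.sum_eq_single (τ j)]
  · rw [blk_bm_same]
    by_cases haj : a = j
    · subst haj
      rw [blk_D_same, ← h a]
      congr 1
      ext x y
      simp [blk, bm']
    · rw [blk_D_ne _ haj]
      have : blk (bm' τ T') a (τ j) = 0 := by
        ext x y
        have h1 : τ j ≠ τ a := fun h => haj (τ.injective h).symm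
        simp [blk, bm', h1]
      rw [this, Matrix.zero_mul]
  · intro l _ hl
    rw [typ_bm τ T l j hl, Matrix.mul_zero]
  · intro h
    exact absurd (Finset.mem_univ _) h

end Pool.Agent.Zk54.MQ.E3
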