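import Pool.Agent.Zk54.MQ.M2a
import Pool.Agent.Zk54.MQ.E3a

/-!
# Matrix forms of irreducible representations and their intertwiners
-/

set_option autoImplicit false
set_option linter.unusedSectionVars false
set_option linter.style.haveILetI false

open scoped BigOperators Classical

noncomputable section

namespace Pool.Agent.Zk54.MQ.E3

open Pool.Agent.Helper884 Pool.Agent.H254R3.IN
open Representation

variable {H : Type} [Group H] [Finite H]

/-- the representation on `ℂ ^ n` -/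
def rep {n : ℕ} (R : H →* Matrix (Fin n) (Fin n) ℂ) : Representation ℂ H (Fin n → ℂ) :=
  ((Matrix.toLinAlgEquiv' (R := ℂ) (n := Fin n)).toAlgHom.toMonoidHom :
    Matrix (Fin n) (Fin n) ℂ →* ((Fin n → ℂ) →ₗ[ℂ] (Fin n → ℂ))).comp R

theorem rep_apply {n : ℕ} (R : H →* Matrix (Fin n) (Fin n) ℂ) (u : H) :
    rep R u = Matrix.toLin' (R u) := rfl

theorem rep_char {n : ℕ} (R : H →* Matrix (Fin n) (Fin n) ℂ) (u : H) :
    (rep R).character u = (R u).trace := Matrix.trace_toLin'_eq (R u)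

theorem rep_irr {n : ℕ} (R : H →* Matrix (Fin n) (Fin n) ℂ) {χ : H → ℂ} (hχ : IsIrr χ)
    (h : ∀ u, (R u).trace = χ u) : (rep R).IsIrreducible := by
  apply irr_rep
  have : (rep R).character = χ := funext fun u => by rw [rep_char, h]
  rw [this]
  exact hχ

theorem schurM {n : ℕ} (R : H →* Matrix (Fin n) (Fin n) ℂ) {χ : H → ℂ} (hχ : IsIrr χ)
    (h : ∀ u, (R u).trace = χ u) (A : Matrix (Fin n) (Fin n) ℂ) (hA : ∀ u, A * R u = R u * A) :
    ∃ c : ℂ, A = c • (1 : Matrix (Fin n) (Fin n) ℂ) := by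
  obtain ⟨c, hc⟩ := schur (rep R) (rep_irr R hχ h) (Matrix.toLin' A) (by
    intro u v
    rw [rep_apply]
    simp only [Matrix.toLin'_apply, Matrix.mulVec_mulVec, hA])
  refine ⟨c, ?_⟩
  apply Matrix.toLin'.injective
  rw [hc, map_smul, Matrix.toLin'_one]

theorem pos_of_irr {n : ℕ} (R : H →* Matrix (Fin n) (Fin n) ℂ) {χ : H → ℂ} (hχ : IsIrr χ)
    (h : ∀ u, (R u).trace = χ u) : 0 < n := by
  rcases Nat.eq_zero_or_pos n with h0 | h0
  · exfalso
    subst h0
    have h1 := h 1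
    rw [Matrix.trace, Finset.univ_eq_empty, Finset.sum_empty] at h1
    exact hχ.one_ne h1.symm
  · exact h0

theorem exists_T {n n' : ℕ} (R : H →* Matrix (Fin n) (Fin n) ℂ)
    (R' : H →* Matrix (Fin n') (Fin n') ℂ) {χ : H → ℂ} (hχ : IsIrr χ)
    (h : ∀ u, (R u).trace = χ u) (h' : ∀ u, (R' u).trace = χ u) :
    ∃ (T : Matrix (Fin n') (Fin n) ℂ) (T' : Matrix (Fin n) (Fin n') ℂ), T' * T = 1 ∧
      ∀ u, T * R u = R' u * T := by
  haveI := Fintype.ofFinite H
  haveI : Invertible (Nat.card H : ℂ) := invertibleOfNonzero (by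
    exact_mod_cast Nat.card_pos.ne')
  haveI := rep_irr R hχ h
  haveI := rep_irr R' hχ h'
  have h1 := char_orthonormal (rep R') (rep R)
  have h2 := char_orthonormal (rep R) (rep R)
  have h3 : (rep R').character = (rep R).character := funext fun u => by
    rw [rep_char, rep_char, h, h']
  rw [if_pos ⟨Representation.Equiv.refl (rep R)⟩] at h2
  rw [h3, h2] at h1
  have h4 : Nonempty ((rep R).Equiv (rep R')) := by
    by_contra hn
    rw [if_neg hn] at h1
    exact one_ne_zero h1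
  obtain ⟨φ⟩ := h4
  refine ⟨LinearMap.toMatrix' φ.toLinearEquiv.toLinearMap,
    LinearMap.toMatrix' φ.toLinearEquiv.symm.toLinearMap, ?_, fun u => ?_⟩
  · rw [← LinearMap.toMatrix'_comp]
    have : φ.toLinearEquiv.symm.toLinearMap ∘ₗ φ.toLinearEquiv.toLinearMap = LinearMap.id :=
      LinearMap.ext fun v => φ.toLinearEquiv.symm_apply_apply v
    rw [this, LinearMap.toMatrix'_id]
  · have h5 : φ.toLinearEquiv.toLinearMap ∘ₗ Matrix.toLin' (R u) =
        Matrix.toLin' (R' u) ∘ₗ φ.toLinearEquiv.toLinearMap := φ.isIntertwining' u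
    have h6 := congrArg LinearMap.toMatrix' h5
    rw [LinearMap.toMatrix'_comp, LinearMap.toMatrix'_comp, LinearMap.toMatrix'_toLin',
      LinearMap.toMatrix'_toLin'] at h6
    exact h6

variable {J : Type} [Fintype J]

theorem central {n : ℕ} (R : H →* Matrix (Fin n) (Fin n) ℂ) {χ : H → ℂ} (hχ : IsIrr χ)
    (h : ∀ u, (R u).trace = χ u) (c : H) (hc : c ∈ Subgroup.center H) :
    R c = (χ c / χ 1) • (1 : Matrix (Fin n) (Fin n) ℂ) := by
  obtain ⟨r, hr⟩ := schurM R hχ h (R c) (fun u => by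
    rw [← map_mul, ← map_mul, Subgroup.mem_center_iff.1 hc u])
  have h1 : χ c = r * χ 1 := by
    rw [← h, ← h, hr, Matrix.trace_smul, map_one, smul_eq_mul]
  rw [h1, mul_div_cancel_right₀ _ hχ.one_ne, hr]

/-- **Existence of the operator.** -/
theorem loc (α : H →* H) (b : ℕ) (u₀ : H) (hab : ∀ v, α^[b] v = u₀ * v * u₀⁻¹)
    (χ : J → H → ℂ) (hχ : ∀ j, IsIrr (χ j)) (τ : Equiv.Perm J) (hτ : ∀ j u, χ (τ j) (α u) = χ j u)
    (hτb : τ ^ b = 1) (hζ : u₀⁻¹ * α u₀ ∈ Subgroup.center H) :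
    ∃ (n : J → ℕ) (R : ∀ j, H →* Matrix (Fin (n j)) (Fin (n j)) ℂ)
      (t : Matrix (Σ j, Fin (n j)) (Σ j, Fin (n j)) ℂ) (z : J → ℂ),
      (∀ j, 0 < n j) ∧ (∀ j u, (R j u).trace = χ j u) ∧
      (∀ j, ∀ c ∈ Subgroup.center H, R j c = (χ j c / χ j 1) • (1 : Matrix _ _ ℂ)) ∧
      IsUnit t ∧ Typ τ t ∧ (∀ u, t * D (fun j => R j u) = D (fun j => R j (α u)) * t) ∧
      (∀ j, z j ≠ 0) ∧ t ^ b = D (fun j => R j u₀) * S n z ∧
      ∀ j, z (τ j) = z j * (χ (τ j) (u₀⁻¹ * α u₀) / χ (τ j) 1) := by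
  choose n R htr _ using fun j => exists_mat (hχ j)
  have hn : ∀ j, 0 < n j := fun j => pos_of_irr (R j) (hχ j) (htr j)
  have hcen : ∀ j, ∀ c ∈ Subgroup.center H, R j c = (χ j c / χ j 1) • (1 : Matrix _ _ ℂ) :=
    fun j c hc => central (R j) (hχ j) (htr j) c hc
  have hT : ∀ j, ∃ (T : Matrix (Fin (n (τ j))) (Fin (n j)) ℂ)
      (T' : Matrix (Fin (n j)) (Fin (n (τ j))) ℂ), T' * T = 1 ∧
      ∀ u, T * R j u = R (τ j) (α u) * T := fun j =>
    exists_T (R j) ((R (τ j)).comp α) (hχ j) (htr j) (fun u => by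
      rw [← hτ]
      exact htr (τ j) (α u))
  choose T T' hTT hTR using hT
  have ht1 : IsUnit (bm τ T) := by
    have h1 := bm'_mul_bm τ T T' hTT
    exact ⟨⟨bm τ T, bm' τ T', mul_eq_one_comm.1 h1, h1⟩, rfl⟩
  have ht2 : Typ τ (bm τ T) := typ_bm τ T
  have ht3 : ∀ u, bm τ T * D (fun j => R j u) = D (fun j => R j (α u)) * bm τ T := by
    intro u
    apply ext_blk
    intro a j
    rw [blk_mul_D, blk_D_mul]
    by_cases h : a = τ j
    · subst h
      rw [blk_bm_same]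
      exact hTR j u
    · rw [ht2 a j h, Matrix.zero_mul, Matrix.mul_zero]
  have hpow : ∀ (i : ℕ) (u : H), bm τ T ^ i * D (fun j => R j u) =
      D (fun j => R j (α^[i] u)) * bm τ T ^ i := by
    intro i
    induction i with
    | zero => intro u; rw [pow_zero, one_mul, mul_one]; rfl
    | succ i ih =>
      intro u
      rw [pow_succ, mul_assoc, ht3, ← mul_assoc, ih, mul_assoc, Function.iterate_succ_apply]
  have hDD : ∀ u v : H, D (fun j => R j u) * D (fun j => R j v) = D (fun j => R j (u * v)) := by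
    intro u v
    rw [D_mul]
    congr 1
    funext j
    rw [map_mul]
  have hD1 : D (fun j => R j (1 : H)) = 1 := by
    rw [← D_one]
    congr 1
    funext j
    rw [map_one]
  -- the scalars
  have hC1 : ∀ u, (D (fun j => R j u₀⁻¹) * bm τ T ^ b) * D (fun j => R j u) =
      D (fun j => R j u) * (D (fun j => R j u₀⁻¹) * bm τ T ^ b) := by
    intro u
    rw [mul_assoc, hpow, ← mul_assoc, hDD, ← mul_assoc, hDD, hab]
    congr 3
    funext j
    congr 1
    group
  have hC2 : Typ (1 : Equiv.Perm J) (D (fun j => R j u₀⁻¹) * bm τ T ^ b) := by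
    intro a j h
    have h1 := ht2.pow b
    rw [hτb] at h1
    rw [blk_D_mul, h1 a j h, Matrix.mul_zero]
  have hsc : ∀ j, ∃ c : ℂ, blk (D (fun j => R j u₀⁻¹) * bm τ T ^ b) j j =
      c • (1 : Matrix (Fin (n j)) (Fin (n j)) ℂ) := by
    intro j
    apply schurM (R j) (hχ j) (htr j)
    intro u
    have h1 : blk (D (fun j => R j u₀⁻¹) * bm τ T ^ b * D (fun j => R j u)) j j =
        blk (D (fun j => R j u) * (D (fun j => R j u₀⁻¹) * bm τ T ^ b)) j j := by rw [hC1 u]
    rw [blk_mul_D (D (fun j => R j u₀⁻¹) * bm τ T ^ b) (fun j => R j u),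
      blk_D_mul (D (fun j => R j u₀⁻¹) * bm τ T ^ b) (fun j => R j u)] at h1
    exact h1
  choose z hz using hsc
  have hCz : D (fun j => R j u₀⁻¹) * bm τ T ^ b = S n z := by
    apply ext_blk
    intro a j
    by_cases h : a = j
    · subst h
      rw [hz, S, blk_D_same]
    · rw [hC2 a j h, S, blk_D_ne _ h]
  have htb : bm τ T ^ b = D (fun j => R j u₀) * S n z := by
    rw [← hCz, ← mul_assoc, hDD, mul_inv_cancel, hD1, one_mul]
  have hunitD : ∀ u, IsUnit (D (fun j => R j u)) := fun u =>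
    ⟨⟨D (fun j => R j u), D (fun j => R j u⁻¹), by rw [hDD, mul_inv_cancel, hD1],
      by rw [hDD, inv_mul_cancel, hD1]⟩, rfl⟩
  have hunitS : IsUnit (S n z) := by
    rw [← hCz]
    exact (hunitD _).mul (ht1.pow b)
  have hz0 : ∀ j, z j ≠ 0 := by
    intro j h0
    obtain ⟨⟨A, B, hAB, hBA⟩, hA⟩ := hunitS
    simp only at hA
    rw [hA] at hAB
    have h1 := congrArg (fun M => blk M j j ⟨0, hn j⟩ ⟨0, hn j⟩) hAB
    simp only [S] at h1
    rw [blk_D_mul, h0, zero_smul, Matrix.zero_mul, ← D_one, blk_D_same] at h1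
    simp at h1
  refine ⟨n, R, bm τ T, z, hn, htr, hcen, ht1, ht2, ht3, hz0, htb, ?_⟩
  -- the relation
  have hDζ : D (fun j => R j (u₀⁻¹ * α u₀)) = S n fun j => χ j (u₀⁻¹ * α u₀) / χ j 1 := by
    rw [S]
    congr 1
    funext j
    exact hcen j _ hζ
  have h1 : bm τ T * bm τ T ^ b = bm τ T ^ b * bm τ T := by rw [← pow_succ, ← pow_succ']
  rw [htb, ← mul_assoc, ht3, mul_assoc (D fun j => R j u₀), ht2.S_mul] at h1
  have h2 : D (fun j => R j (α u₀)) = D (fun j => R j u₀) * D (fun j => R j (u₀⁻¹ * α u₀)) := by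
    rw [hDD, mul_inv_cancel_left]
  rw [h2, hDζ, mul_assoc, mul_assoc] at h1
  have h3 := (hunitD u₀).mul_left_cancel h1
  rw [← mul_assoc, ht2.S_mul, mul_assoc] at h3
  have h4 := ht1.mul_left_cancel h3
  rw [S_mul] at h4
  have h5 := S_inj hn h4
  intro j
  have h6 := congrFun h5 j
  rw [← h6, mul_comm]

end Pool.Agent.Zk54.MQ.E3
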