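import Pool.Agent.Zk54.MQ.E2
import Pool.Agent.K3h83.IN.Stm4
import Pool.Agent.Zk54.MQ.E3b

/-!
# Operators for an automorphism, with the same scalars for `U` and `U₀`
-/

set_option autoImplicit false
set_option linter.unusedSectionVars false
set_option linter.style.haveILetI false

open scoped BigOperators Classical

noncomputable section

namespace Pool.Agent.Zk54.MQ

open Pool.Agent.Helper884 Pool.Agent.H254R3.IN
open Pool.Agent.K3h3.KB Pool.Agent.K3h3.MK

namespace E3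

variable {H : Type} [Group H] {J : Type} [Fintype J] {n : J → ℕ}

/-- the block diagonal representation -/
def DR (R : ∀ j, H →* Matrix (Fin (n j)) (Fin (n j)) ℂ) :
    H →* Matrix (Σ j, Fin (n j)) (Σ j, Fin (n j)) ℂ where
  toFun u := D fun j => R j u
  map_one' := by
    rw [← D_one]
    congr 1
    funext j
    rw [map_one]
  map_mul' u v := by
    rw [D_mul]
    congr 1
    funext j
    rw [map_mul]

theorem DR_apply (R : ∀ j, H →* Matrix (Fin (n j)) (Fin (n j)) ℂ) (u : H) :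
    DR R u = D fun j => R j u := rfl

theorem S_DR (R : ∀ j, H →* Matrix (Fin (n j)) (Fin (n j)) ℂ) (l : J → ℂ) (u : H) :
    S n l * DR R u = DR R u * S n l := S_D l _

theorem step (R : ∀ j, H →* Matrix (Fin (n j)) (Fin (n j)) ℂ)
    {t : Matrix (Σ j, Fin (n j)) (Σ j, Fin (n j)) ℂ} {τ : Equiv.Perm J} (ht : Typ τ t) {u₀ : H}
    {b : ℕ} {z : J → ℂ} (htb : t ^ b = D (fun j => R j u₀) * S n z) (q k : ℕ) (u w c : H)
    (lam : J → ℂ) (hc : ∀ j, R j c = lam j • (1 : Matrix (Fin (n j)) (Fin (n j)) ℂ))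
    (huw : u * u₀ ^ q = w * c) :
    DR R u * t ^ (b * q + k) =
      DR R w * t ^ k * S n (fun j => lam ((τ ^ k) j) * z ((τ ^ k) j) ^ q) := by
  have h1 : (t ^ b) ^ q = DR R (u₀ ^ q) * S n (fun j => z j ^ q) := by
    rw [htb, ← DR_apply, (show Commute (DR R u₀) (S n z) from (S_DR R z u₀).symm).mul_pow,
      S_pow, map_pow]
  have h2 : DR R c = S n lam := by
    rw [DR_apply, S]
    congr 1
    funext j
    exact hc j
  have h3 := (ht.pow k).S_mul fun j => z j ^ q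
  have h4 := (ht.pow k).S_mul lam
  calc DR R u * t ^ (b * q + k) = DR R u * (DR R (u₀ ^ q) * S n (fun j => z j ^ q)) * t ^ k := by
        rw [pow_add, pow_mul, h1]
        simp only [mul_assoc]
    _ = DR R (u * u₀ ^ q) * (S n (fun j => z j ^ q) * t ^ k) := by
        rw [map_mul]
        simp only [mul_assoc]
    _ = DR R w * (S n lam * t ^ k) * S n (fun j => z ((τ ^ k) j) ^ q) := by
        rw [huw, map_mul, h2, h3]
        simp only [mul_assoc]
    _ = _ := by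
        rw [h4, ← S_mul]
        simp only [mul_assoc]

end E3

open E3

/-- E3: operators for an automorphism, with the same scalars for `U` and `U₀` -/
theorem local_ops {U : Type} [Group U] [Finite U] (U₀ : Subgroup U) (hZ : Subgroup.center U ≤ U₀)
    (a : MulAut U) (b : ℕ) (hb : 0 < b) (u₀ : U) (hu₀ : u₀ ∈ U₀) (hab : ∀ v, (a ^ b) v = u₀ * v * u₀⁻¹)
    (hord : ∀ (k : ℕ) (w : U), (∀ v, (a ^ k) v = w * v * w⁻¹) → b ∣ k)
    (ha0 : ∀ u, u ∈ U₀ → a u ∈ U₀) (hfix : ∀ z ∈ Subgroup.center U, a z = z)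
    {J : Type} [Fintype J] (χ : J → U → ℂ) (χ' : J → U₀ → ℂ) (hχ : ∀ j, IsIrr (χ j))
    (hχ' : ∀ j, IsIrr (χ' j)) (hinj : Function.Injective χ) (τ : Equiv.Perm J) (hτ : ∀ j u, χ (τ j) (a u) = χ j u)
    (hτ' : ∀ j (u : U₀), χ' (τ j) ⟨a u, ha0 u u.2⟩ = χ' j u)
    (hz : ∀ j (z : U) (hz : z ∈ Subgroup.center U), χ j z / χ j 1 = χ' j ⟨z, hZ hz⟩ / χ' j 1) :
    ∃ (n n' : J → ℕ) (R : ∀ j, U →* Matrix (Fin (n j)) (Fin (n j)) ℂ)
      (R' : ∀ j, U₀ →* Matrix (Fin (n' j)) (Fin (n' j)) ℂ)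
      (t : Matrix (Σ j, Fin (n j)) (Σ j, Fin (n j)) ℂ)
      (t' : Matrix (Σ j, Fin (n' j)) (Σ j, Fin (n' j)) ℂ),
      (∀ j u, (R j u).trace = χ j u) ∧ (∀ j u, (R' j u).trace = χ' j u) ∧
      IsUnit t ∧ IsUnit t' ∧ (∀ j, Blk j (τ j) t) ∧ (∀ j, Blk j (τ j) t') ∧
      (∀ u, t * Matrix.blockDiagonal' (fun j => R j u) =
        Matrix.blockDiagonal' (fun j => R j (a u)) * t) ∧
      (∀ u : U₀, t' * Matrix.blockDiagonal' (fun j => R' j u) =
        Matrix.blockDiagonal' (fun j => R' j ⟨a u, ha0 u u.2⟩) * t') ∧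
      ∀ (i k : ℕ) (u w : U₀), (∀ v : U, u * (a ^ i) v * (u : U)⁻¹ = w * (a ^ k) v * (w : U)⁻¹) →
        ∃ l : J → ℂ, (∀ j, l j ≠ 0) ∧
          Matrix.blockDiagonal' (fun j => R j u) * t ^ i =
            Matrix.blockDiagonal' (fun j => R j w) * t ^ k *
              Matrix.blockDiagonal' (fun j => l j • (1 : Matrix (Fin (n j)) (Fin (n j)) ℂ)) ∧
          Matrix.blockDiagonal' (fun j => R' j u) * t' ^ i =
            Matrix.blockDiagonal' (fun j => R' j w) * t' ^ k *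
              Matrix.blockDiagonal' (fun j => l j • (1 : Matrix (Fin (n' j)) (Fin (n' j)) ℂ)) := by
  -- the automorphisms as homomorphisms
  let α : U →* U := a.toMonoidHom
  have hα : ∀ u, α u = a u := fun u => rfl
  let α₀ : U₀ →* U₀ :=
    { toFun := fun u => ⟨a u, ha0 u u.2⟩
      map_one' := Subtype.ext (map_one a)
      map_mul' := fun x y => Subtype.ext (map_mul a (x : U) (y : U)) }
  have hα₀ : ∀ u : U₀, α₀ u = ⟨a u, ha0 u u.2⟩ := fun u => rfl
  have hit : ∀ (i : ℕ) (v : U), α^[i] v = (a ^ i) v := by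
    intro i
    induction i with
    | zero => intro v; rfl
    | succ i ih =>
      intro v
      rw [Function.iterate_succ_apply, ih, pow_succ]
      rfl
  have hit₀ : ∀ (i : ℕ) (v : U₀), ((α₀^[i] v : U₀) : U) = (a ^ i) (v : U) := by
    intro i
    induction i with
    | zero => intro v; rfl
    | succ i ih =>
      intro v
      rw [Function.iterate_succ_apply, ih, pow_succ]
      rfl
  have hcen₀ : ∀ (c : U₀), (c : U) ∈ Subgroup.center U → c ∈ Subgroup.center U₀ := by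
    intro c hc
    rw [Subgroup.mem_center_iff]
    intro g
    exact Subtype.ext (Subgroup.mem_center_iff.1 hc (g : U))
  -- `u₀⁻¹ a(u₀)` is central
  have hζ : u₀⁻¹ * a u₀ ∈ Subgroup.center U := by
    rw [Subgroup.mem_center_iff]
    intro g
    obtain ⟨v, rfl⟩ := a.surjective g
    have h1 : (a ^ b) (a v) = a ((a ^ b) v) := by
      have h2 : a ^ b * a = a * a ^ b := by rw [← pow_succ, ← pow_succ']
      exact congrArg (fun f : MulAut U => f v) h2
    rw [hab, hab, map_mul, map_mul, map_inv] at h1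
    have h3 : a v * u₀⁻¹ = u₀⁻¹ * a u₀ * a v * (a u₀)⁻¹ := by
      have h4 := congrArg (fun x => u₀⁻¹ * x) h1
      calc a v * u₀⁻¹ = u₀⁻¹ * (u₀ * a v * u₀⁻¹) := by group
        _ = u₀⁻¹ * (a u₀ * a v * (a u₀)⁻¹) := h4
        _ = _ := by group
    calc a v * (u₀⁻¹ * a u₀) = (a v * u₀⁻¹) * a u₀ := by group
      _ = (u₀⁻¹ * a u₀ * a v * (a u₀)⁻¹) * a u₀ := by rw [h3]
      _ = u₀⁻¹ * a u₀ * a v := by group
  -- `τ ^ b = 1`
  have hτi : ∀ (i : ℕ) (j : J) (u : U), χ ((τ ^ i) j) ((a ^ i) u) = χ j u := by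
    intro i
    induction i with
    | zero => intro j u; rfl
    | succ i ih =>
      intro j u
      have h1 : (τ ^ (i + 1)) j = (τ ^ i) (τ j) := by rw [pow_succ]; rfl
      have h2 : (a ^ (i + 1)) u = (a ^ i) (a u) := by rw [pow_succ]; rfl
      rw [h1, h2, ih, hτ]
  have hτb : τ ^ b = 1 := by
    ext j
    apply hinj
    funext u
    rw [Equiv.Perm.one_apply, ← hτi b j u, hab, (hχ _).conj]
  obtain ⟨n, R, t, z, hn, htr, hcen, ht1, ht2, ht3, hz0, htb, hrel⟩ :=
    loc α b u₀ (fun v => (hit b v).trans (hab v)) χ hχ τ hτ hτb hζ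
  obtain ⟨n', R', t', z', hn', htr', hcen', ht1', ht2', ht3', hz0', htb', hrel'⟩ :=
    loc α₀ b ⟨u₀, hu₀⟩ (fun v => Subtype.ext ((hit₀ b v).trans (hab v))) χ' hχ' τ hτ' hτb
      (hcen₀ _ hζ)
  -- the correction
  have hlam : ∀ (j : J) (c : U₀) (hc : (c : U) ∈ Subgroup.center U),
      χ' j c / χ' j 1 = χ j c / χ j 1 := fun j c hc => (hz j c hc).symm
  choose rt hrt using fun c : ℂ => IsAlgClosed.exists_pow_nat_eq c hb
  have hr : ∀ j, z (τ j) / z' (τ j) = z j / z' j := by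
    intro j
    have h1 := hrel j
    have h2 := hrel' j
    have h3 := hlam (τ j) ((⟨u₀, hu₀⟩ : U₀)⁻¹ * α₀ ⟨u₀, hu₀⟩) hζ
    rw [h3] at h2
    have h4 : χ (τ j) (u₀⁻¹ * α u₀) / χ (τ j) 1 ≠ 0 := by
      intro h0
      rw [h0, mul_zero] at h1
      exact hz0 (τ j) h1
    rw [h1, h2]
    exact mul_div_mul_right _ _ h4
  let s : J → ℂ := fun j => rt (z j / z' j)
  have hsτ : ∀ j, s (τ j) = s j := fun j => congrArg rt (hr j)
  have hsb : ∀ j, s j ^ b = z j / z' j := fun j => hrt _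
  have hs0 : ∀ j, s j ≠ 0 := by
    intro j h0
    have h1 := hsb j
    rw [h0, zero_pow hb.ne'] at h1
    exact div_ne_zero (hz0 j) (hz0' j) h1.symm
  have hcomm : Commute t' (S n' s) := by
    have h1 := ht2'.S_mul s
    have h2 : (fun j => s (τ j)) = s := funext hsτ
    rw [h2] at h1
    exact h1.symm
  have hunitS : ∀ {m : J → ℕ} {l : J → ℂ}, (∀ j, l j ≠ 0) →
      S m l * S m (fun j => (l j)⁻¹) = 1 := by
    intro m l hl
    rw [E3.S_mul, ← S_one]
    congr 1
    funext j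
    exact mul_inv_cancel₀ (hl j)
  have htb'' : (t' * S n' s) ^ b = D (fun j => R' j ⟨u₀, hu₀⟩) * S n' z := by
    rw [hcomm.mul_pow, htb', S_pow, mul_assoc, E3.S_mul]
    congr 2
    funext j
    rw [hsb, mul_div_cancel₀ _ (hz0' j)]
  have ht2'' : Typ τ (t' * S n' s) := by
    intro c j h
    rw [S, blk_mul_D, ht2' c j h, Matrix.zero_mul]
  -- the main property for `k ≤ i`
  have key : ∀ (i k : ℕ) (u w : U₀), k ≤ i →
      (∀ v : U, u * (a ^ i) v * (u : U)⁻¹ = w * (a ^ k) v * (w : U)⁻¹) →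
      ∃ l : J → ℂ, (∀ j, l j ≠ 0) ∧ DR R u * t ^ i = DR R w * t ^ k * S n l ∧
        DR R' u * (t' * S n' s) ^ i = DR R' w * (t' * S n' s) ^ k * S n' l := by
    intro i k u w hki huw
    have h1 : ∀ v : U, (u : U) * (a ^ (i - k)) v * (u : U)⁻¹ = w * v * (w : U)⁻¹ := by
      intro v
      obtain ⟨v', rfl⟩ := (a ^ k).surjective v
      rw [← huw v']
      have h2 : (a ^ (i - k)) ((a ^ k) v') = (a ^ i) v' := by
        have h3 : a ^ (i - k) * a ^ k = a ^ i := by rw [← pow_add, Nat.sub_add_cancel hki]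
        exact congrArg (fun f : MulAut U => f v') h3
      rw [h2]
    have h2 : b ∣ i - k := by
      apply hord (i - k) ((u : U)⁻¹ * w)
      intro v
      have h3 := h1 v
      calc (a ^ (i - k)) v = (u : U)⁻¹ * ((u : U) * (a ^ (i - k)) v * (u : U)⁻¹) * u := by group
        _ = (u : U)⁻¹ * (w * v * (w : U)⁻¹) * u := by rw [h3]
        _ = _ := by group
    obtain ⟨q, hq⟩ := h2
    have hi : i = b * q + k := by omega
    have h3 : ∀ v : U, (a ^ (b * q)) v = u₀ ^ q * v * (u₀ ^ q)⁻¹ := by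
      intro v
      have h4 : a ^ b = MulAut.conj u₀ := by
        ext v
        rw [hab]
        rfl
      rw [pow_mul, h4, ← map_pow]
      rfl
    let c : U₀ := w⁻¹ * u * ⟨u₀, hu₀⟩ ^ q
    have hc : (c : U) ∈ Subgroup.center U := by
      show (w : U)⁻¹ * u * u₀ ^ q ∈ Subgroup.center U
      rw [Subgroup.mem_center_iff]
      intro g
      have h5 := h1 g
      rw [hq, h3] at h5
      calc g * ((w : U)⁻¹ * u * u₀ ^ q) =
          (w : U)⁻¹ * (w * g * (w : U)⁻¹) * u * u₀ ^ q := by group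
        _ = (w : U)⁻¹ * (u * (u₀ ^ q * g * (u₀ ^ q)⁻¹) * (u : U)⁻¹) * u * u₀ ^ q := by rw [h5]
        _ = _ := by group
    refine ⟨fun j => (χ ((τ ^ k) j) c / χ ((τ ^ k) j) 1) * z ((τ ^ k) j) ^ q, fun j => ?_, ?_, ?_⟩
    · apply mul_ne_zero _ (pow_ne_zero _ (hz0 _))
      intro h0
      have h5 := hcen ((τ ^ k) j) c hc
      rw [h0, zero_smul] at h5
      have h6 : R ((τ ^ k) j) (c * (c : U)⁻¹) = 0 := by rw [map_mul, h5, Matrix.zero_mul]
      rw [mul_inv_cancel, map_one] at h6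
      have h7 := congrFun (congrFun h6 ⟨0, hn _⟩) ⟨0, hn _⟩
      simp at h7
    · rw [hi]
      refine step R ht2 htb q k u w c (fun j => χ j c / χ j 1) (fun j => hcen j c hc) ?_
      show (u : U) * u₀ ^ q = w * ((w : U)⁻¹ * u * u₀ ^ q)
      group
    · rw [hi]
      refine step R' ht2'' htb'' q k u w c (fun j => χ j c / χ j 1) (fun j => ?_) ?_
      · rw [hcen' j c (hcen₀ c hc), hlam j c hc]
      · show u * (⟨u₀, hu₀⟩ : U₀) ^ q = w * (w⁻¹ * u * (⟨u₀, hu₀⟩ : U₀) ^ q)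
        group
  refine ⟨n, n', R, R', t, t' * S n' s, htr, htr', ht1, ?_, ?_, ?_, ht3, ?_, ?_⟩
  · exact ht1'.mul ⟨⟨S n' s, S n' fun j => (s j)⁻¹, hunitS hs0,
      mul_eq_one_comm.1 (hunitS hs0)⟩, rfl⟩
  · intro j x y hy hx
    obtain ⟨x1, x2⟩ := x
    obtain ⟨y1, y2⟩ := y
    simp only at hy hx
    subst hy
    exact congrFun (congrFun (ht2 x1 y1 hx) x2) y2
  · intro j x y hy hx
    obtain ⟨x1, x2⟩ := x
    obtain ⟨y1, y2⟩ := y
    simp only at hy hx
    subst hy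
    exact congrFun (congrFun (ht2'' x1 y1 hx) x2) y2
  · intro u
    show t' * S n' s * D (fun j => R' j u) = D (fun j => R' j (α₀ u)) * (t' * S n' s)
    rw [mul_assoc, S_D, ← mul_assoc, ht3', mul_assoc]
  · intro i k u w huw
    rcases le_total k i with h | h
    · exact key i k u w h huw
    · obtain ⟨l, hl0, h1, h2⟩ := key k i w u h fun v => (huw v).symm
      refine ⟨fun j => (l j)⁻¹, fun j => inv_ne_zero (hl0 j), ?_, ?_⟩
      · show DR R u * t ^ i = DR R w * t ^ k * S n fun j => (l j)⁻¹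
        rw [h1, mul_assoc, hunitS hl0, mul_one]
      · show DR R' u * (t' * S n' s) ^ i =
          DR R' w * (t' * S n' s) ^ k * S n' fun j => (l j)⁻¹
        rw [h2, mul_assoc, hunitS hl0, mul_one]

end Pool.Agent.Zk54.MQ
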