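import Pool.Agent.K3h3.MK.Ring

set_option autoImplicit false
set_option linter.unusedSectionVars false

open scoped BigOperators Classical

noncomputable section

namespace Pool.Agent.Zk54.MQ

open Pool.Agent.K3h3.MK

/-- the number of the `i < k` with `d ∣ i` and `τ ^ i x = x` -/
def fixn {X : Type} (τ : Equiv.Perm X) (k d : ℕ) (x : X) : ℕ :=
  ((Finset.range k).filter fun i => d ∣ i ∧ (τ ^ i) x = x).card

namespace EqB

/-- the period -/
def per {X : Type} (τ : Equiv.Perm X) (x : X) : ℕ := Function.minimalPeriod τ x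

theorem pow_fix {X : Type} (τ : Equiv.Perm X) (x : X) (n : ℕ) :
    (τ ^ n) x = x ↔ per τ x ∣ n := by
  rw [← Equiv.Perm.iterate_eq_pow]
  exact Function.isPeriodicPt_iff_minimalPeriod_dvd

theorem zpow_fix {X : Type} (τ : Equiv.Perm X) (x : X) (n : ℤ) :
    (τ ^ n) x = x ↔ (per τ x : ℤ) ∣ n :=
  MulAction.zpow_smul_eq_iff_minimalPeriod_dvd (a := τ) (b := x) (n := n)

theorem per_dvd {X : Type} {τ : Equiv.Perm X} {k : ℕ} (hτ : τ ^ k = 1) (x : X) : per τ x ∣ k := by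
  rw [← pow_fix, hτ]
  rfl

/-- the relative period -/
def jj {X : Type} (τ : Equiv.Perm X) (d : ℕ) (x : X) : ℕ := Nat.lcm d (per τ x) / d

theorem jj_dvd {X : Type} (τ : Equiv.Perm X) {d : ℕ} (hd : 0 < d) (x : X) (n : ℕ) :
    jj τ d x ∣ n ↔ (τ ^ (d * n)) x = x := by
  rw [pow_fix]
  unfold jj
  rw [Nat.div_dvd_iff_dvd_mul (Nat.dvd_lcm_left _ _) hd, Nat.lcm_dvd_iff]
  constructor
  · rintro ⟨-, h⟩
    exact h
  · intro h
    exact ⟨Dvd.intro _ rfl, h⟩

theorem fixn_eq {X : Type} (τ : Equiv.Perm X) {k d K : ℕ} (hd : 0 < d) (hK : 0 < K)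
    (hk : d * K = k) (hτ : τ ^ k = 1) (x : X) :
    jj τ d x ∣ K ∧ fixn τ k d x = K / jj τ d x := by
  have h1 : jj τ d x ∣ K := by
    rw [jj_dvd τ hd, hk, hτ]
    rfl
  refine ⟨h1, ?_⟩
  obtain ⟨t, ht⟩ := h1
  set j := jj τ d x with hj
  have hj0 : 0 < j := by
    rcases Nat.eq_zero_or_pos j with h | h
    · rw [h, zero_mul] at ht
      omega
    · exact h
  have hdj : Nat.lcm d (per τ x) = d * j := by
    rw [hj]
    unfold jj
    rw [Nat.mul_div_cancel' (Nat.dvd_lcm_left _ _)]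
  have h2 : ((Finset.range k).filter fun i => d ∣ i ∧ (τ ^ i) x = x) =
      (Finset.range t).image (fun i => d * j * i) := by
    ext i
    simp only [Finset.mem_filter, Finset.mem_range, Finset.mem_image]
    rw [pow_fix, ← Nat.lcm_dvd_iff, hdj]
    constructor
    · rintro ⟨h3, a, rfl⟩
      refine ⟨a, ?_, rfl⟩
      rw [← hk, ht, ← mul_assoc] at h3
      exact lt_of_mul_lt_mul_left h3 (Nat.zero_le _)
    · rintro ⟨a, h3, rfl⟩
      refine ⟨?_, Dvd.intro _ rfl⟩
      rw [← hk, ht, ← mul_assoc]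
      exact Nat.mul_lt_mul_of_pos_left h3 (by positivity)
  unfold fixn
  rw [h2, Finset.card_image_of_injective, Finset.card_range, ht, Nat.mul_div_cancel_left _ hj0]
  intro a b hab
  exact Nat.eq_of_mul_eq_mul_left (by positivity) hab

/-- the number of the fixed points of `τ ^ e` with the value `v` -/
def FF {X V : Type} [Fintype X] (τ : Equiv.Perm X) (κ : X → V) (e : ℕ) (v : V) : ℤ :=
  ((Finset.univ.filter fun x => (τ ^ e) x = x ∧ κ x = v).card : ℤ)

/-- the number of the points with the relative period `j` and the value `v` -/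
def GG {X V : Type} [Fintype X] (τ : Equiv.Perm X) (κ : X → V) (d j : ℕ) (v : V) : ℤ :=
  ((Finset.univ.filter fun x => jj τ d x = j ∧ κ x = v).card : ℤ)

theorem sum_GG {X V : Type} [Fintype X] (τ : Equiv.Perm X) (κ : X → V) {d : ℕ} (hd : 0 < d)
    {n : ℕ} (hn : 0 < n) (v : V) :
    ∑ j ∈ n.divisors, GG τ κ d j v = FF τ κ (d * n) v := by
  unfold GG FF
  rw [← Nat.cast_sum]
  congr 1
  rw [← Finset.card_biUnion]
  · congr 1
    ext x
    simp only [Finset.mem_biUnion, Nat.mem_divisors, Finset.mem_filter, Finset.mem_univ, true_and]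
    rw [← jj_dvd τ hd]
    constructor
    · rintro ⟨j, ⟨hj, -⟩, rfl, h⟩
      exact ⟨hj, h⟩
    · rintro ⟨h1, h2⟩
      exact ⟨_, ⟨h1, by omega⟩, rfl, h2⟩
  · intro a _ b _ hab
    rw [Function.onFun, Finset.disjoint_left]
    intro x hx hx'
    simp only [Finset.mem_filter, Finset.mem_univ, true_and] at hx hx'
    exact hab (hx.1.symm.trans hx'.1)

/-- the sum of the squares of the proper divisors -/
theorem sum_sq_lt {K : ℕ} (hK : 0 < K) :
    ∑ j ∈ K.divisors.erase 1, ((K / j : ℕ) : ℤ) ^ 2 < (K : ℤ) ^ 2 := by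
  have h1 : ∑ j ∈ K.divisors.erase 1, (((K / j : ℕ) : ℝ)) ^ 2 ≤
      (K : ℝ) ^ 2 * ∑ j ∈ Finset.Ioc 1 K, ((j : ℝ) ^ 2)⁻¹ := by
    rw [Finset.mul_sum]
    calc ∑ j ∈ K.divisors.erase 1, (((K / j : ℕ) : ℝ)) ^ 2
        = ∑ j ∈ K.divisors.erase 1, (K : ℝ) ^ 2 * ((j : ℝ) ^ 2)⁻¹ := by
          refine Finset.sum_congr rfl fun j hj => ?_
          rw [Finset.mem_erase, Nat.mem_divisors] at hj
          rw [Nat.cast_div hj.2.1 (by
            have : j ≠ 0 := fun h => by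
              rw [h] at hj
              exact hK.ne' (Nat.eq_zero_of_zero_dvd hj.2.1)
            exact_mod_cast this)]
          rw [div_pow, div_eq_mul_inv]
      _ ≤ ∑ j ∈ Finset.Ioc 1 K, (K : ℝ) ^ 2 * ((j : ℝ) ^ 2)⁻¹ := by
          apply Finset.sum_le_sum_of_subset_of_nonneg
          · intro j hj
            rw [Finset.mem_erase, Nat.mem_divisors] at hj
            rw [Finset.mem_Ioc]
            have h2 : j ≤ K := Nat.le_of_dvd hK hj.2.1
            have h3 : j ≠ 0 := fun h => by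
              rw [h] at hj
              exact hK.ne' (Nat.eq_zero_of_zero_dvd hj.2.1)
            have h4 := hj.1
            exact ⟨by omega, h2⟩
          · intro j _ _
            positivity
  have h2 := sum_Ioc_inv_sq_le_sub (α := ℝ) (k := 1) (n := K) one_ne_zero hK
  have hKr : (0 : ℝ) < K := by exact_mod_cast hK
  have h3 : ∑ j ∈ K.divisors.erase 1, (((K / j : ℕ) : ℝ)) ^ 2 < (K : ℝ) ^ 2 := by
    refine lt_of_le_of_lt h1 ?_
    calc (K : ℝ) ^ 2 * ∑ j ∈ Finset.Ioc 1 K, ((j : ℝ) ^ 2)⁻¹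
        ≤ (K : ℝ) ^ 2 * (((1 : ℕ) : ℝ)⁻¹ - (K : ℝ)⁻¹) := by gcongr
      _ < (K : ℝ) ^ 2 := by
          have : 0 < (K : ℝ)⁻¹ := by positivity
          have h5 : 0 < (K : ℝ) ^ 2 * (K : ℝ)⁻¹ := by positivity
          rw [Nat.cast_one, inv_one, mul_sub, mul_one]
          linarith
  exact_mod_cast h3

/-- the unit of the class of `j` -/
def UU (p : ℕ) [hp : Fact p.Prime] (j : ℕ) : (ZMod p)ˣ :=
  if h : (j : ZMod p) = 0 then 1 else (Units.mk0 (j : ZMod p) h) ^ 2

theorem cl_UU (p : ℕ) [hp : Fact p.Prime] {j : ℕ} (hj : ¬ p ∣ j) :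
    cl p j = MonoidAlgebra.single (UU p j) 1 := by
  have h : (j : ZMod p) ≠ 0 := fun h => hj ((ZMod.natCast_eq_zero_iff _ _).mp h)
  rw [cl_apply p h]
  unfold UU
  rw [dif_neg h]

theorem UU_one (p : ℕ) [hp : Fact p.Prime] : UU p 1 = 1 := by
  have h : ((1 : ℕ) : ZMod p) ≠ 0 := by simp
  unfold UU
  rw [dif_neg h]
  have e : (Units.mk0 ((1 : ℕ) : ZMod p) h) = 1 := by
    ext
    simp
  rw [e, one_pow]

theorem term_coeff (p : ℕ) [hp : Fact p.Prime] {t j : ℕ} (hj : ¬ p ∣ j) (a w : (ZMod p)ˣ) :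
    ((t : RR p) ^ 2 * (cl p j * MonoidAlgebra.single a 1)).coeff w =
      if UU p j * a = w then ((t : ℤ)) ^ 2 else 0 := by
  rw [cl_UU p hj, MonoidAlgebra.single_mul_single, one_mul, ← Nat.cast_pow, ← nsmul_eq_mul,
    MonoidAlgebra.coeff_smul, MonoidAlgebra.coeff_single, Finsupp.smul_apply,
    Finsupp.single_apply, nsmul_eq_mul]
  split_ifs with h
  · push_cast
    ring
  · simp

theorem coeffH (p : ℕ) [hp : Fact p.Prime] {X : Type} [Fintype X] (τ : Equiv.Perm X)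
    {k d K : ℕ} (hd : 0 < d) (hK : 0 < K) (hk : d * K = k) (hpk : ¬ p ∣ k) (hτ : τ ^ k = 1)
    (κ : X → (ZMod p)ˣ) (w : (ZMod p)ˣ) :
    (∑ x, (fixn τ k d x : RR p) ^ 2 *
          (cl p ((k / d) / fixn τ k d x) * MonoidAlgebra.single (κ x) 1)).coeff w =
      ∑ j ∈ K.divisors, ((K / j : ℕ) : ℤ) ^ 2 * GG τ κ d j ((UU p j)⁻¹ * w) := by
  rw [MonoidAlgebra.coeff_sum, Finsupp.finsetSum_apply]
  have h1 : ∀ x, ((fixn τ k d x : RR p) ^ 2 *
          (cl p ((k / d) / fixn τ k d x) * MonoidAlgebra.single (κ x) 1)).coeff w =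
      if κ x = (UU p (jj τ d x))⁻¹ * w then (((K / jj τ d x : ℕ)) : ℤ) ^ 2 else 0 := by
    intro x
    obtain ⟨h2, h3⟩ := fixn_eq τ hd hK hk hτ x
    have h4 : k / d = K := by
      rw [← hk]
      exact Nat.mul_div_cancel_left _ hd
    rw [h3, h4, Nat.div_div_self h2 hK.ne']
    rw [term_coeff p (fun h => hpk (h.trans (h2.trans (Dvd.intro_left d hk))))]
    have h5 : UU p (jj τ d x) * κ x = w ↔ κ x = (UU p (jj τ d x))⁻¹ * w := by
      rw [eq_inv_mul_iff_mul_eq]
    simp only [h5]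
  rw [Finset.sum_congr rfl fun x _ => h1 x]
  rw [← Finset.sum_fiberwise_of_maps_to (s := Finset.univ) (t := K.divisors)
    (g := fun x => jj τ d x) (fun x _ => Nat.mem_divisors.mpr
      ⟨(fixn_eq τ hd hK hk hτ x).1, hK.ne'⟩)]
  refine Finset.sum_congr rfl fun j _ => ?_
  unfold GG
  rw [Finset.card_filter, Nat.cast_sum, Finset.mul_sum, Finset.sum_filter]
  refine Finset.sum_congr rfl fun x _ => ?_
  by_cases h6 : jj τ d x = j
  · rw [if_pos h6, h6]
    by_cases h7 : κ x = (UU p j)⁻¹ * w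
    · rw [if_pos h7, if_pos ⟨rfl, h7⟩]
      simp
    · rw [if_neg h7, if_neg (fun h => h7 h.2)]
      simp
  · rw [if_neg h6, if_neg (fun h => h6 h.1)]
    simp

/-- the step of the induction -/
theorem step (p : ℕ) [hp : Fact p.Prime] {X X' : Type} [Fintype X] [Fintype X']
    (τ : Equiv.Perm X) (τ' : Equiv.Perm X') {k d K : ℕ} (hd : 0 < d) (hK : 0 < K)
    (hk : d * K = k) (hpk : ¬ p ∣ k) (hτ : τ ^ k = 1) (hτ' : τ' ^ k = 1) (κ : X → (ZMod p)ˣ)
    (κ' : X' → (ZMod p)ˣ)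
    (H : ∑ x, (fixn τ k d x : RR p) ^ 2 *
          (cl p ((k / d) / fixn τ k d x) * MonoidAlgebra.single (κ x) 1) =
        ∑ x, (fixn τ' k d x : RR p) ^ 2 *
          (cl p ((k / d) / fixn τ' k d x) * MonoidAlgebra.single (κ' x) 1))
    (hind : ∀ n, n ∣ K → 1 < n → ∀ v, FF τ κ (d * n) v = FF τ' κ' (d * n) v) (v : (ZMod p)ˣ) :
    FF τ κ d v = FF τ' κ' d v := by
  set D : (ZMod p)ˣ → ℤ := fun v => FF τ κ d v - FF τ' κ' d v with hD
  set f : ℕ → (ZMod p)ˣ → ℤ := fun j v => GG τ κ d j v - GG τ' κ' d j v with hf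
  have h1 : ∀ v, ∀ n > 0, n ∈ {n : ℕ | n ∣ K} →
      (∑ i ∈ n.divisors, f i v) = (fun n => if n = 1 then D v else 0) n := by
    intro v n hn hnK
    rw [hf]
    simp only
    rw [Finset.sum_sub_distrib, sum_GG τ κ hd hn, sum_GG τ' κ' hd hn]
    by_cases h : n = 1
    · rw [if_pos h, h, mul_one]
    · rw [if_neg h, hind n hnK (by omega) v, sub_self]
  have h2 : ∀ v, ∀ n, n ∣ K → |f n v| ≤ |D v| := by
    intro v n hn
    have hn0 : 0 < n := Nat.pos_of_dvd_of_pos hn hK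
    have h3 := (ArithmeticFunction.sum_eq_iff_sum_smul_moebius_eq_on {n : ℕ | n ∣ K}
      (fun a b hab hb => hab.trans hb)).mp (h1 v) n hn0 hn
    rw [← h3]
    have h4 : ∑ x ∈ n.divisorsAntidiagonal, ArithmeticFunction.moebius x.1 •
        (fun n => if n = 1 then D v else 0) x.2 = ArithmeticFunction.moebius n • D v := by
      rw [Finset.sum_eq_single (n, 1)]
      · simp
      · rintro ⟨a, b⟩ hab hne
        rw [Nat.mem_divisorsAntidiagonal] at hab
        have : b ≠ 1 := by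
          rintro rfl
          apply hne
          rw [← hab.1, mul_one]
        simp [this]
      · intro h
        exfalso
        apply h
        rw [Nat.mem_divisorsAntidiagonal]
        exact ⟨mul_one n, hn0.ne'⟩
    rw [h4, smul_eq_mul, abs_mul]
    have h5 : |ArithmeticFunction.moebius n| ≤ 1 := ArithmeticFunction.abs_moebius_le_one
    have h6 := abs_nonneg (D v)
    nlinarith
  have h3 : ∀ w, ∑ j ∈ K.divisors, ((K / j : ℕ) : ℤ) ^ 2 * f j ((UU p j)⁻¹ * w) = 0 := by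
    intro w
    have h4 := congrArg (fun z : RR p => z.coeff w) H
    rw [coeffH p τ hd hK hk hpk hτ κ w, coeffH p τ' hd hK hk hpk hτ' κ' w] at h4
    rw [hf]
    simp only
    rw [← sub_eq_zero, ← Finset.sum_sub_distrib] at h4
    rw [← h4]
    exact Finset.sum_congr rfl fun j _ => by ring
  obtain ⟨w₀, hw₀⟩ := Finite.exists_max (fun w => |D w|)
  have h4 := h3 w₀
  have h1K : 1 ∈ K.divisors := Nat.mem_divisors.mpr ⟨one_dvd _, hK.ne'⟩
  rw [← Finset.add_sum_erase _ _ h1K] at h4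
  have h5 : f 1 w₀ = D w₀ := by
    have := h1 w₀ 1 one_pos (one_dvd K)
    simpa using this
  rw [UU_one, inv_one, one_mul, h5, Nat.div_one] at h4
  have h6 : |∑ j ∈ K.divisors.erase 1, ((K / j : ℕ) : ℤ) ^ 2 * f j ((UU p j)⁻¹ * w₀)| ≤
      (∑ j ∈ K.divisors.erase 1, ((K / j : ℕ) : ℤ) ^ 2) * |D w₀| := by
    rw [Finset.sum_mul]
    refine (Finset.abs_sum_le_sum_abs _ _).trans (Finset.sum_le_sum fun j hj => ?_)
    rw [abs_mul, abs_of_nonneg (sq_nonneg _)]
    have h7 : |f j ((UU p j)⁻¹ * w₀)| ≤ |D w₀| :=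
      (h2 _ j (Nat.mem_divisors.mp (Finset.mem_erase.mp hj).2).1).trans (hw₀ _)
    exact mul_le_mul_of_nonneg_left h7 (sq_nonneg _)
  have h7 : ((K : ℕ) : ℤ) ^ 2 * |D w₀| ≤
      (∑ j ∈ K.divisors.erase 1, ((K / j : ℕ) : ℤ) ^ 2) * |D w₀| := by
    have h8 : ((K : ℕ) : ℤ) ^ 2 * |D w₀| = |((K : ℕ) : ℤ) ^ 2 * D w₀| := by
      rw [abs_mul, abs_of_nonneg (sq_nonneg ((K : ℕ) : ℤ))]
    rw [h8, show ((K : ℕ) : ℤ) ^ 2 * D w₀ =
      -∑ j ∈ K.divisors.erase 1, ((K / j : ℕ) : ℤ) ^ 2 * f j ((UU p j)⁻¹ * w₀) by linarith,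
      abs_neg]
    exact h6
  have h8 := sum_sq_lt hK
  have h9 : |D w₀| = 0 := by
    by_contra hne
    have h10 : 0 < |D w₀| := lt_of_le_of_ne (abs_nonneg _) (Ne.symm hne)
    nlinarith
  have h10 : D v = 0 := by
    have := hw₀ v
    rw [h9] at this
    exact abs_eq_zero.mp (le_antisymm this (abs_nonneg _))
  exact sub_eq_zero.mp h10

theorem FF_eq (p : ℕ) [hp : Fact p.Prime] {X X' : Type} [Fintype X] [Fintype X']
    (τ : Equiv.Perm X) (τ' : Equiv.Perm X') {k : ℕ} (hk : 0 < k) (hpk : ¬ p ∣ k)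
    (hτ : τ ^ k = 1) (hτ' : τ' ^ k = 1) (κ : X → (ZMod p)ˣ) (κ' : X' → (ZMod p)ˣ)
    (H : ∀ d : ℕ, d ∣ k → ∑ x, (fixn τ k d x : RR p) ^ 2 *
          (cl p ((k / d) / fixn τ k d x) * MonoidAlgebra.single (κ x) 1) =
        ∑ x, (fixn τ' k d x : RR p) ^ 2 *
          (cl p ((k / d) / fixn τ' k d x) * MonoidAlgebra.single (κ' x) 1)) :
    ∀ K d : ℕ, d * K = k → ∀ v, FF τ κ d v = FF τ' κ' d v := by
  intro K
  induction K using Nat.strong_induction_on with
  | _ K ih =>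
    intro d hdK v
    have hd : 0 < d := Nat.pos_of_ne_zero (by rintro rfl; omega)
    have hK : 0 < K := Nat.pos_of_ne_zero (by rintro rfl; omega)
    refine step p τ τ' hd hK hdK hpk hτ hτ' κ κ' (H d (Dvd.intro _ hdK)) ?_ v
    rintro n ⟨m, rfl⟩ hn v
    refine ih m ?_ (d * n) (by rw [← hdK]; ring) v
    have hm : 0 < m := Nat.pos_of_ne_zero (by rintro rfl; omega)
    nlinarith

/-! ### the equivariant bijection -/

section bij
variable {X V : Type} [Fintype X] (τ : Equiv.Perm X) (κ : X → V)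

/-- the number of the points with the period `s` and the value `v` -/
def NN (s : ℕ) (v : V) : ℤ :=
  ((Finset.univ.filter fun x => per τ x = s ∧ κ x = v).card : ℤ)

theorem sum_NN {n : ℕ} (hn : 0 < n) (v : V) :
    ∑ j ∈ n.divisors, NN τ κ j v = FF τ κ n v := by
  unfold NN FF
  rw [← Nat.cast_sum]
  congr 1
  rw [← Finset.card_biUnion]
  · congr 1
    ext x
    simp only [Finset.mem_biUnion, Nat.mem_divisors, Finset.mem_filter, Finset.mem_univ, true_and]
    rw [pow_fix]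
    constructor
    · rintro ⟨j, ⟨hj, -⟩, rfl, h⟩
      exact ⟨hj, h⟩
    · rintro ⟨h1, h2⟩
      exact ⟨_, ⟨h1, by omega⟩, rfl, h2⟩
  · intro a _ b _ hab
    rw [Function.onFun, Finset.disjoint_left]
    intro x hx hx'
    simp only [Finset.mem_filter, Finset.mem_univ, true_and] at hx hx'
    exact hab (hx.1.symm.trans hx'.1)

/-- the orbits -/
abbrev Orb : Type := Quotient (Equiv.Perm.SameCycle.setoid τ)

/-- the orbit of a point -/
def cls' (x : X) : Orb τ := Quotient.mk (Equiv.Perm.SameCycle.setoid τ) x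

/-- a representative -/
def rp (o : Orb τ) : X := o.out

theorem cls_rp (o : Orb τ) : cls' τ (rp τ o) = o := Quotient.out_eq o

theorem exists_idx (x : X) : ∃ i : ℤ, (τ ^ i) (rp τ (cls' τ x)) = x := by
  have h : Equiv.Perm.SameCycle τ (rp τ (cls' τ x)) x :=
    Quotient.exact (s := Equiv.Perm.SameCycle.setoid τ) (cls_rp τ (cls' τ x))
  exact h

/-- the index of a point -/
def idx (x : X) : ℤ := (exists_idx τ x).choose

theorem idx_spec (x : X) : (τ ^ (idx τ x)) (rp τ (cls' τ x)) = x := (exists_idx τ x).choose_spec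

theorem cls_zpow (i : ℤ) (x : X) : cls' τ ((τ ^ i) x) = cls' τ x := by
  refine Quotient.sound (s := Equiv.Perm.SameCycle.setoid τ) ?_
  exact Equiv.Perm.SameCycle.symm ⟨i, rfl⟩

theorem zpow_eq_iff (x : X) (i j : ℤ) : (τ ^ i) x = (τ ^ j) x ↔ (per τ x : ℤ) ∣ i - j := by
  rw [← zpow_fix, sub_eq_neg_add, zpow_add, Equiv.Perm.mul_apply, zpow_neg,
    Equiv.Perm.inv_eq_iff_eq]

theorem per_zpow (i : ℤ) (x : X) : per τ ((τ ^ i) x) = per τ x := by
  have h : ∀ n : ℕ, per τ ((τ ^ i) x) ∣ n ↔ per τ x ∣ n := by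
    intro n
    rw [← pow_fix, ← pow_fix, ← zpow_natCast, ← Equiv.Perm.mul_apply, ← zpow_add, add_comm,
      zpow_add, Equiv.Perm.mul_apply]
    exact (τ ^ i).injective.eq_iff
  exact Nat.dvd_antisymm ((h _).mpr dvd_rfl) ((h _).mp dvd_rfl)

theorem per_eq (x : X) : per τ (rp τ (cls' τ x)) = per τ x := by
  conv_rhs => rw [← idx_spec τ x]
  rw [per_zpow]

theorem kap_zpow (hκ : ∀ x, κ (τ x) = κ x) (i : ℤ) (x : X) : κ ((τ ^ i) x) = κ x := by
  induction i using Int.induction_on generalizing x with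
  | zero => rfl
  | succ n ih => rw [zpow_add_one, Equiv.Perm.mul_apply, ih, hκ]
  | pred n ih =>
    rw [zpow_sub_one, Equiv.Perm.mul_apply, ih]
    have h := hκ (τ⁻¹ x)
    rw [show τ (τ⁻¹ x) = x from Equiv.apply_symm_apply τ x] at h
    exact h.symm

theorem kap_eq (hκ : ∀ x, κ (τ x) = κ x) (x : X) : κ (rp τ (cls' τ x)) = κ x := by
  conv_rhs => rw [← idx_spec τ x]
  rw [kap_zpow τ κ hκ]

/-- the number of the points of an orbit -/
theorem card_orb (o : Orb τ) : (Finset.univ.filter fun x => cls' τ x = o).card =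
    per τ (rp τ o) := by
  set r := rp τ o with hr
  set s := per τ r with hs
  have hs0 : 0 < s := by
    rw [hs]
    unfold per
    exact Function.minimalPeriod_pos_of_mem_periodicPts
      (Function.Injective.mem_periodicPts τ.injective r)
  have h1 : (Finset.univ.filter fun x => cls' τ x = o) =
      (Finset.range s).image (fun i : ℕ => (τ ^ (i : ℤ)) r) := by
    ext x
    simp only [Finset.mem_filter, Finset.mem_univ, true_and, Finset.mem_image, Finset.mem_range]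
    constructor
    · rintro rfl
      have hsz : (0 : ℤ) < s := by exact_mod_cast hs0
      refine ⟨(idx τ x % s).toNat, ?_, ?_⟩
      · have h2 := Int.emod_lt_of_pos (idx τ x) hsz
        have h3 := Int.emod_nonneg (idx τ x) hsz.ne'
        omega
      · have h3 := Int.emod_nonneg (idx τ x) hsz.ne'
        rw [Int.toNat_of_nonneg h3]
        conv_rhs => rw [← idx_spec τ x]
        rw [zpow_eq_iff]
        exact ⟨-(idx τ x / s), by rw [Int.emod_def]; ring⟩
    · rintro ⟨i, -, rfl⟩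
      rw [cls_zpow, hr, cls_rp]
  rw [h1, Finset.card_image_of_injOn, Finset.card_range]
  intro a ha b hb hab
  simp only [Finset.coe_range, Set.mem_Iio] at ha hb
  have h2 := (zpow_eq_iff τ r a b).mp hab
  have ha' : (a : ℤ) < s := by exact_mod_cast ha
  have hb' : (b : ℤ) < s := by exact_mod_cast hb
  have h3 := Int.eq_zero_of_abs_lt_dvd h2 (by
    rw [← hs, abs_lt]
    constructor <;> omega)
  omega

theorem per_pos (x : X) : 0 < per τ x := by
  unfold per
  exact Function.minimalPeriod_pos_of_mem_periodicPts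
    (Function.Injective.mem_periodicPts τ.injective x)

/-- the number of the orbits with the period `s` and the value `v` -/
def MM (s : ℕ) (v : V) : ℕ :=
  Fintype.card {o : Orb τ // (per τ (rp τ o), κ (rp τ o)) = (s, v)}

theorem NN_eq (hκ : ∀ x, κ (τ x) = κ x) (s : ℕ) (v : V) : NN τ κ s v = (MM τ κ s v * s : ℕ) := by
  unfold NN MM
  congr 1
  have h1 : (Finset.univ.filter fun x => per τ x = s ∧ κ x = v) =
      (Finset.univ.filter fun o : Orb τ => (per τ (rp τ o), κ (rp τ o)) = (s, v)).biUnion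
        (fun o => Finset.univ.filter fun x => cls' τ x = o) := by
    ext x
    simp only [Finset.mem_biUnion, Finset.mem_filter, Finset.mem_univ, true_and, Prod.mk.injEq]
    constructor
    · rintro ⟨h2, h3⟩
      exact ⟨cls' τ x, ⟨by rw [per_eq, h2], by rw [kap_eq τ κ hκ, h3]⟩, rfl⟩
    · rintro ⟨o, ⟨h2, h3⟩, rfl⟩
      rw [per_eq] at h2
      rw [kap_eq τ κ hκ] at h3
      exact ⟨h2, h3⟩
  rw [h1, Finset.card_biUnion, Fintype.card_subtype, Finset.sum_congr rfl (g := fun _ => s),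
    Finset.sum_const, smul_eq_mul]
  · intro o ho
    rw [card_orb]
    have := (Finset.mem_filter.mp ho).2
    exact congrArg Prod.fst this
  · intro a _ b _ hab
    rw [Function.onFun, Finset.disjoint_left]
    intro x hx hx'
    simp only [Finset.mem_filter, Finset.mem_univ, true_and] at hx hx'
    exact hab (hx.symm.trans hx')

end bij

section final
variable {X X' V : Type} [Fintype X] [Fintype X'] (τ : Equiv.Perm X) (τ' : Equiv.Perm X')
  (κ : X → V) (κ' : X' → V)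

theorem NN_NN {k : ℕ} (hk : 0 < k) (hτ : τ ^ k = 1) (hτ' : τ' ^ k = 1)
    (h : ∀ e, e ∣ k → ∀ v, FF τ κ e v = FF τ' κ' e v) (s : ℕ) (v : V) :
    NN τ κ s v = NN τ' κ' s v := by
  by_cases hs : s ∣ k
  · induction s using Nat.strong_induction_on with
    | _ s ih =>
      have hs0 : 0 < s := Nat.pos_of_dvd_of_pos hs hk
      have h1 := sum_NN τ κ hs0 v
      have h2 := sum_NN τ' κ' hs0 v
      rw [← h s hs v, ← h1, ← Nat.cons_self_properDivisors hs0.ne', Finset.sum_cons,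
        Finset.sum_cons] at h2
      have h3 : ∑ j ∈ s.properDivisors, NN τ' κ' j v = ∑ j ∈ s.properDivisors, NN τ κ j v := by
        refine Finset.sum_congr rfl fun j hj => ?_
        rw [Nat.mem_properDivisors] at hj
        exact (ih j hj.2 (hj.1.trans hs)).symm
      rw [h3] at h2
      exact (add_right_cancel h2).symm
  · unfold NN
    rw [Finset.filter_false_of_mem, Finset.filter_false_of_mem]
    · rfl
    · rintro x - ⟨rfl, -⟩
      exact hs (per_dvd hτ' x)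
    · rintro x - ⟨rfl, -⟩
      exact hs (per_dvd hτ x)

theorem final {k : ℕ} (hk : 0 < k) (hτ : τ ^ k = 1) (hτ' : τ' ^ k = 1)
    (hκ : ∀ x, κ (τ x) = κ x) (hκ' : ∀ x, κ' (τ' x) = κ' x)
    (h : ∀ e, e ∣ k → ∀ v, FF τ κ e v = FF τ' κ' e v) :
    ∃ e : X ≃ X', (∀ x, e (τ x) = τ' (e x)) ∧ ∀ x, κ' (e x) = κ x := by
  have hM : ∀ s v, MM τ κ s v = MM τ' κ' s v := by
    intro s v
    rcases Nat.eq_zero_or_pos s with rfl | hs
    · unfold MM
      have h1 : IsEmpty {o : Orb τ // (per τ (rp τ o), κ (rp τ o)) = (0, v)} :=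
        ⟨fun o => (per_pos τ (rp τ o.1)).ne' (congrArg Prod.fst o.2)⟩
      have h2 : IsEmpty {o : Orb τ' // (per τ' (rp τ' o), κ' (rp τ' o)) = (0, v)} :=
        ⟨fun o => (per_pos τ' (rp τ' o.1)).ne' (congrArg Prod.fst o.2)⟩
      rw [Fintype.card_eq_zero, Fintype.card_eq_zero]
    · have h1 := NN_NN τ τ' κ κ' hk hτ hτ' h s v
      rw [NN_eq τ κ hκ, NN_eq τ' κ' hκ'] at h1
      have h2 : MM τ κ s v * s = MM τ' κ' s v * s := by exact_mod_cast h1
      exact Nat.eq_of_mul_eq_mul_right hs h2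
  let g : Orb τ → ℕ × V := fun o => (per τ (rp τ o), κ (rp τ o))
  let g' : Orb τ' → ℕ × V := fun o => (per τ' (rp τ' o), κ' (rp τ' o))
  have h1 : ∀ z : ℕ × V, Nonempty ({o : Orb τ // g o = z} ≃ {o : Orb τ' // g' o = z}) := by
    rintro ⟨s, v⟩
    exact ⟨Fintype.equivOfCardEq (hM s v)⟩
  let E0 := fun z => (h1 z).some
  let E : Orb τ ≃ Orb τ' := (Equiv.sigmaFiberEquiv g).symm.trans
    ((Equiv.sigmaCongrRight E0).trans (Equiv.sigmaFiberEquiv g'))
  have hE : ∀ o, g' (E o) = g o := fun o => (E0 (g o) ⟨o, rfl⟩).2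
  have hE1 : ∀ o, per τ' (rp τ' (E o)) = per τ (rp τ o) := fun o => congrArg Prod.fst (hE o)
  have hE2 : ∀ o, κ' (rp τ' (E o)) = κ (rp τ o) := fun o => congrArg Prod.snd (hE o)
  have key : ∀ (o : Orb τ) (i j : ℤ), (τ ^ i) (rp τ o) = (τ ^ j) (rp τ o) ↔
      (τ' ^ i) (rp τ' (E o)) = (τ' ^ j) (rp τ' (E o)) := by
    intro o i j
    rw [zpow_eq_iff, zpow_eq_iff, hE1]
  let φ : X → X' := fun x => (τ' ^ (idx τ x)) (rp τ' (E (cls' τ x)))
  have hφ : ∀ (o : Orb τ) (i : ℤ), φ ((τ ^ i) (rp τ o)) = (τ' ^ i) (rp τ' (E o)) := by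
    intro o i
    have h2 : cls' τ ((τ ^ i) (rp τ o)) = o := by rw [cls_zpow, cls_rp]
    have h3 := idx_spec τ ((τ ^ i) (rp τ o))
    change (τ' ^ (idx τ ((τ ^ i) (rp τ o)))) (rp τ' (E (cls' τ ((τ ^ i) (rp τ o))))) = _
    rw [h2] at h3 ⊢
    exact (key o _ _).mp h3
  have hcl : ∀ x, cls' τ' (φ x) = E (cls' τ x) := by
    intro x
    change cls' τ' ((τ' ^ (idx τ x)) (rp τ' (E (cls' τ x)))) = _
    rw [cls_zpow, cls_rp]
  have hbij : Function.Bijective φ := by
    constructor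
    · intro x y hxy
      have h2 : cls' τ x = cls' τ y := E.injective (by rw [← hcl, ← hcl, hxy])
      have h3 := idx_spec τ x
      have h4 := idx_spec τ y
      rw [← h2] at h4
      rw [← h3, ← h4, hφ, hφ] at hxy
      rw [← h3, ← h4]
      exact (key _ _ _).mpr hxy
    · intro y
      refine ⟨(τ ^ (idx τ' y)) (rp τ (E.symm (cls' τ' y))), ?_⟩
      rw [hφ, Equiv.apply_symm_apply]
      exact idx_spec τ' y
  refine ⟨Equiv.ofBijective φ hbij, fun x => ?_, fun x => ?_⟩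
  · change φ (τ x) = τ' (φ x)
    conv_lhs => rw [← idx_spec τ x]
    conv_rhs => rw [← idx_spec τ x]
    rw [hφ, ← Equiv.Perm.mul_apply, ← zpow_one_add, hφ, zpow_one_add, Equiv.Perm.mul_apply]
  · change κ' (φ x) = κ x
    change κ' ((τ' ^ (idx τ x)) (rp τ' (E (cls' τ x)))) = κ x
    rw [kap_zpow τ' κ' hκ', hE2, kap_eq τ κ hκ]

end final

end EqB

/-- E4b: an equivariant bijection from the weighted numbers for all subgroups of a cyclic group -/
theorem equiv_bij (p : ℕ) [hp : Fact p.Prime] {X X' : Type} [Fintype X] [Fintype X']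
    (τ : Equiv.Perm X) (τ' : Equiv.Perm X') (k : ℕ) (hk : 0 < k) (hpk : ¬ p ∣ k) (hτ : τ ^ k = 1)
    (hτ' : τ' ^ k = 1) (κ : X → (ZMod p)ˣ) (κ' : X' → (ZMod p)ˣ) (hκ : ∀ x, κ (τ x) = κ x)
    (hκ' : ∀ x, κ' (τ' x) = κ' x)
    (H : ∀ d : ℕ, d ∣ k →
      ∑ x, (fixn τ k d x : RR p) ^ 2 *
          (cl p ((k / d) / fixn τ k d x) * MonoidAlgebra.single (κ x) 1) =
        ∑ x, (fixn τ' k d x : RR p) ^ 2 *
          (cl p ((k / d) / fixn τ' k d x) * MonoidAlgebra.single (κ' x) 1)) :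
    ∃ e : X ≃ X', (∀ x, e (τ x) = τ' (e x)) ∧ ∀ x, κ' (e x) = κ x := by
  refine EqB.final τ τ' κ κ' hk hτ hτ' hκ hκ' ?_
  rintro e ⟨K, rfl⟩ v
  exact EqB.FF_eq p τ τ' hk hpk hτ hτ' κ κ' H K e rfl v

end Pool.Agent.Zk54.MQ
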