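import Pool.Agent.K3h83.IN.Stm4
import Pool.Agent.K3h18.IN.Infl

/-!
# A bijection of the characters of degree prime to `p` compatible with the central characters
-/

set_option autoImplicit false
set_option linter.unusedSectionVars false
set_option linter.style.haveILetI false

open scoped BigOperators Classical

noncomputable section

namespace Pool.Agent.Zk54.MQ

open Pool.Agent.Helper884 Pool.Agent.H254R3.IN Pool.Agent.Q288.MB
open Pool.Agent.K3h3.KB Pool.Agent.K3h3.MK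
open IC (Irr)
open Pool.Agent.K3h83.IN (ov wo fixes S13 ov_iff wo_eq)

/-- the central character along `j` -/
def mu8 {A G : Type} [Group A] [Group G] [Finite G] (j : A →* G)
    (hj : j.range ≤ Subgroup.center G) (χ : G → ℂ) : A →* ℂˣ :=
  if h : IsIrr χ then
    haveI := Fintype.ofFinite G
    (Pool.Agent.K3h18.IN.central j hj h).choose
  else 1

theorem mu8_spec {A G : Type} [Group A] [Group G] [Finite G] (j : A →* G)
    (hj : j.range ≤ Subgroup.center G) {χ : G → ℂ} (h : IsIrr χ) (a : A) (x : G) :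
    χ (j a * x) = ((mu8 j hj χ a : ℂˣ) : ℂ) * χ x := by
  haveI := Fintype.ofFinite G
  unfold mu8
  rw [dif_pos h]
  exact (Pool.Agent.K3h18.IN.central j hj h).choose_spec a x

theorem ov_mu8 {A G : Type} [Group A] [Finite A] [Group G] [Finite G] (j : A →* G)
    (hj : j.range ≤ Subgroup.center G) {χ : G → ℂ} (h : IsIrr χ) (ν : A →* ℂˣ) :
    ov j (fun a => ((ν a : ℂˣ) : ℂ)) χ ↔ mu8 j hj χ = ν := by
  haveI := Fintype.ofFinite G
  haveI := Fintype.ofFinite A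
  have hd : χ 1 ≠ 0 := by
    rw [← ndeg_cast h]
    exact_mod_cast (ndeg_pos h).ne'
  have hres : (fun a => χ (j a)) = χ 1 • fun a => ((mu8 j hj χ a : ℂˣ) : ℂ) := by
    funext a
    have := mu8_spec j hj h a 1
    rw [mul_one] at this
    rw [this, Pi.smul_apply, smul_eq_mul, mul_comm]
  rw [ov_iff, hres, IC.B_smul_left, IC.B_irr (Pool.Agent.K3h18.IN.lin (mu8 j hj χ))
    (Pool.Agent.K3h18.IN.lin ν)]
  constructor
  · intro h1
    have h2 : (fun a => ((mu8 j hj χ a : ℂˣ) : ℂ)) = fun a => ((ν a : ℂˣ) : ℂ) := by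
      by_contra hne
      rw [if_neg hne, mul_zero] at h1
      exact h1 rfl
    ext a
    exact congrFun h2 a
  · intro h1
    rw [h1, if_pos rfl, mul_one]
    exact hd

theorem quot {A G : Type} [Group A] [Group G] [Finite G] (j : A →* G)
    (hj : j.range ≤ Subgroup.center G) {χ : G → ℂ} (h : IsIrr χ) (a : A) :
    χ (j a) / χ 1 = ((mu8 j hj χ a : ℂˣ) : ℂ) := by
  have hd : χ 1 ≠ 0 := by
    rw [← ndeg_cast h]
    exact_mod_cast (ndeg_pos h).ne'
  rw [div_eq_iff hd]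
  have := mu8_spec j hj h a 1
  rwa [mul_one] at this

/-- the fibre over a linear character -/
def fib {p : ℕ} {A G : Type} [Group A] [Finite A] [Group G] [Finite G] (j : A →* G)
    (hj : j.range ≤ Subgroup.center G) (ν : A →* ℂˣ) :
    {χ : {χ : G → ℂ // IsIrr χ ∧ (ndeg χ : ZMod p) ≠ 0} // mu8 j hj χ.1 = ν} ≃
      {χ : G → ℂ // IsIrr χ ∧ (ndeg χ : ZMod p) ≠ 0 ∧ ov j (fun a => ((ν a : ℂˣ) : ℂ)) χ} where
  toFun χ := ⟨χ.1.1, χ.1.2.1, χ.1.2.2, (ov_mu8 j hj χ.1.2.1 ν).2 χ.2⟩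
  invFun χ := ⟨⟨χ.1, χ.2.1, χ.2.2.1⟩, (ov_mu8 j hj χ.2.1 ν).1 χ.2.2.2⟩
  left_inv _ := rfl
  right_inv _ := rfl

/-- M8: a bijection compatible with the central characters -/
theorem exists_e (s13 : S13) {p : ℕ} [hp : Fact p.Prime] {U : Type} [Group U] [Finite U] (P : Sylow p U)
    (hle : Subgroup.center U ≤ NN P)
    (h : ∀ nu : Subgroup.center U → ℂ, IsIrr nu →
      wo (cl p) (Subgroup.center U).subtype nu = wo (cl p) (Subgroup.inclusion hle) nu) :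
    ∃ e : {χ : U → ℂ // IsIrr χ ∧ (ndeg χ : ZMod p) ≠ 0} ≃
        {χ : NN P → ℂ // IsIrr χ ∧ (ndeg χ : ZMod p) ≠ 0},
      (∀ χ, (ndeg χ.1 : ZMod p) ^ 2 = (ndeg (e χ).1 : ZMod p) ^ 2) ∧
      ∀ χ (c : U) (hc : c ∈ Subgroup.center U),
        χ.1 c / χ.1 1 = (e χ).1 ⟨c, hle hc⟩ / (e χ).1 1 := by
  haveI := Fintype.ofFinite U
  haveI : Fintype (NN P) := Fintype.ofFinite _
  haveI : Fintype (Subgroup.center U) := Fintype.ofFinite _
  have j1 : (Subgroup.center U).subtype.range ≤ Subgroup.center U := by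
    rw [Subgroup.range_subtype]
  have j2 : (Subgroup.inclusion hle).range ≤ Subgroup.center (NN P) := by
    rintro _ ⟨a, rfl⟩
    rw [Subgroup.mem_center_iff]
    intro y
    apply Subtype.ext
    exact Subgroup.mem_center_iff.mp a.2 y
  have key : ∀ ν : Subgroup.center U →* ℂˣ,
      ∃ e : {χ : {χ : U → ℂ // IsIrr χ ∧ (ndeg χ : ZMod p) ≠ 0} //
          mu8 (Subgroup.center U).subtype j1 χ.1 = ν} ≃
        {χ : {χ : NN P → ℂ // IsIrr χ ∧ (ndeg χ : ZMod p) ≠ 0} //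
          mu8 (Subgroup.inclusion hle) j2 χ.1 = ν},
        ∀ χ, (ndeg χ.1.1 : ZMod p) ^ 2 = (ndeg (e χ).1.1 : ZMod p) ^ 2 := by
    intro ν
    have h1 := h (fun a => ((ν a : ℂˣ) : ℂ)) (Pool.Agent.K3h18.IN.lin ν)
    rw [wo_eq, wo_eq] at h1
    obtain ⟨e, he⟩ := s13 p U (NN P) _ _ h1
    exact ⟨(fib _ j1 ν).trans (e.trans (fib _ j2 ν).symm), fun χ => he (fib _ j1 ν χ)⟩
  choose E hE using key
  refine ⟨(Equiv.sigmaFiberEquiv (fun χ : {χ : U → ℂ // IsIrr χ ∧ (ndeg χ : ZMod p) ≠ 0} =>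
    mu8 (Subgroup.center U).subtype j1 χ.1)).symm.trans ((Equiv.sigmaCongrRight E).trans
    (Equiv.sigmaFiberEquiv (fun χ : {χ : NN P → ℂ // IsIrr χ ∧ (ndeg χ : ZMod p) ≠ 0} =>
      mu8 (Subgroup.inclusion hle) j2 χ.1))), ?_, ?_⟩
  · intro χ
    exact hE _ ⟨χ, rfl⟩
  · intro χ c hc
    let ψ := E (mu8 (Subgroup.center U).subtype j1 χ.1) ⟨χ, rfl⟩
    have h3 : ((mu8 (Subgroup.center U).subtype j1 χ.1 ⟨c, hc⟩ : ℂˣ) : ℂ) =
        ((mu8 (Subgroup.inclusion hle) j2 ψ.1.1 ⟨c, hc⟩ : ℂˣ) : ℂ) := by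
      rw [ψ.2]
    exact (quot _ j1 χ.2.1 ⟨c, hc⟩).trans (h3.trans (quot _ j2 ψ.1.2.1 ⟨c, hc⟩).symm)

end Pool.Agent.Zk54.MQ
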