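import Pool.Agent.Zk54.MQ.E4c
import Pool.Agent.Zk54.MQ.E4b
import Pool.Agent.Zk54.MQ.M8

/-!
# An equivariant bijection for groups with cyclic Sylow subgroups
-/

set_option autoImplicit false
set_option linter.unusedSectionVars false
set_option linter.style.haveILetI false

open scoped BigOperators Classical

noncomputable section

namespace Pool.Agent.Zk54.MQ

open Pool.Agent.Helper884 Pool.Agent.H254R3.IN Pool.Agent.Q288.MB
open Pool.Agent.K3h3.KB Pool.Agent.K3h3.MK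
open IC (Irr)
open Pool.Agent.K3h83.IN (ov wo ov_congr)

/-- a cyclic group acting through the powers of an element -/
def cyHom {M : Type} [Group M] (K : ℕ) [NeZero K] (β : M) (h : β ^ K = 1) :
    Multiplicative (ZMod K) →* M where
  toFun c := β ^ (ZMod.val (Multiplicative.toAdd c))
  map_one' := by
    show β ^ (ZMod.val (0 : ZMod K)) = 1
    rw [ZMod.val_zero, pow_zero]
  map_mul' c c' := by
    show β ^ (ZMod.val (Multiplicative.toAdd c + Multiplicative.toAdd c')) = _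
    rw [ZMod.val_add, ← pow_eq_pow_mod _ h, pow_add]

theorem coe_pow {U : Type} [Group U] {N : Subgroup U} {a : MulAut U} {aN : MulAut N}
    (h : ∀ x, (aN x : U) = a x) (n : ℕ) : ∀ x, ((aN ^ n) x : U) = (a ^ n) x := by
  induction n with
  | zero => exact fun x => rfl
  | succ n ih =>
    intro x
    rw [pow_succ', pow_succ', MulAut.mul_apply, MulAut.mul_apply, h, ih]

theorem pow_eq_one {U : Type} [Group U] {N : Subgroup U} {a : MulAut U} {aN : MulAut N}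
    (h : ∀ x, (aN x : U) = a x) {n : ℕ} (hn : a ^ n = 1) : aN ^ n = 1 := by
  ext x
  rw [coe_pow h, hn]
  rfl

theorem pow_fix' {U : Type} [Group U] {a : MulAut U} {z : U} (h : a z = z) (n : ℕ) :
    (a ^ n) z = z := by
  induction n with
  | zero => rfl
  | succ n ih => rw [pow_succ', MulAut.mul_apply, ih, h]

theorem pow_mem' {U : Type} [Group U] {a : MulAut U} {S : Subgroup U} (h : ∀ x ∈ S, a x ∈ S)
    (n : ℕ) : ∀ x ∈ S, (a ^ n) x ∈ S := by
  induction n with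
  | zero => exact fun x hx => hx
  | succ n ih =>
    intro x hx
    rw [pow_succ', MulAut.mul_apply]
    exact h _ (ih x hx)

theorem card_fixn' {X : Type} (τ : Equiv.Perm X) (x : X) (P : ℕ → Prop)
    (hP : ∀ n, (τ ^ n) x = x ↔ P n) {k d K : ℕ} (hd : 0 < d) (hK : 0 < K) (hk : k = d * K) :
    Nat.card {c : Multiplicative (ZMod K) // P (d * ZMod.val (Multiplicative.toAdd c))} =
      fixn τ k d x := by
  haveI : NeZero K := ⟨hK.ne'⟩
  haveI : Fintype (Multiplicative (ZMod K)) := Multiplicative.fintype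
  rw [Nat.card_eq_fintype_card, Fintype.card_subtype]
  unfold fixn
  refine Finset.card_bij (fun c _ => d * ZMod.val (Multiplicative.toAdd c)) ?_ ?_ ?_
  · intro c hc
    rw [Finset.mem_filter] at hc ⊢
    refine ⟨?_, Dvd.intro _ rfl, ?_⟩
    · rw [Finset.mem_range, hk]
      exact Nat.mul_lt_mul_of_pos_left (ZMod.val_lt _) hd
    · rw [hP]
      exact hc.2
  · intro c _ c' _ h
    have h1 := Nat.eq_of_mul_eq_mul_left hd h
    exact Multiplicative.toAdd.injective (ZMod.val_injective K h1)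
  · intro i hi
    rw [Finset.mem_filter, Finset.mem_range, hk] at hi
    obtain ⟨h1, ⟨m, rfl⟩, h3⟩ := hi
    have hm : m < K := Nat.lt_of_mul_lt_mul_left h1
    have hv : ZMod.val (Multiplicative.toAdd (Multiplicative.ofAdd (m : ZMod K))) = m := by
      rw [toAdd_ofAdd, ZMod.val_natCast_of_lt hm]
    refine ⟨Multiplicative.ofAdd (m : ZMod K), ?_, by rw [hv]⟩
    rw [Finset.mem_filter]
    refine ⟨Finset.mem_univ _, ?_⟩
    rw [hv]
    exact (hP _).mp h3

section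

variable {p : ℕ} [hp : Fact p.Prime]

/-- the weighted sum over the characters over `nu` -/
def SS (p : ℕ) [hp : Fact p.Prime] {V Z : Type} [Group V] [Fintype V] [Group Z] [Finite Z]
    (i : Z →* V) (nu : Z → ℂ) (K : ℕ) (β : MulAut V) : RR p :=
  ∑ χ ∈ (Irr V).filter (ov i nu),
    (Nat.card {c : Multiplicative (ZMod K) //
        ∀ v, χ ((β ^ (ZMod.val (Multiplicative.toAdd c))) v) = χ v} : RR p) ^ 2 *
      (cl p (K / Nat.card {c : Multiplicative (ZMod K) //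
        ∀ v, χ ((β ^ (ZMod.val (Multiplicative.toAdd c))) v) = χ v}) * cl p (ndeg χ))

theorem SS_eq {U : Type} [Group U] [Fintype U] (hcyc : ∀ Q : Sylow p U, IsCyclic Q)
    (Q : Sylow p U) [Fintype (NN Q)] (hle : Subgroup.center U ≤ NN Q) (K : ℕ) (hK : 0 < K)
    (hpK : ¬ p ∣ K) (a : MulAut U) (haK : a ^ K = 1) (ha : ∀ x ∈ Q, a x ∈ Q) (aN : MulAut (NN Q))
    (haN : ∀ x, (aN x : U) = a x) (hfix : ∀ z ∈ Subgroup.center U, a z = z)
    (nu : Subgroup.center U → ℂ) (hnu : IsIrr nu) :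
    SS p (Subgroup.center U).subtype nu K a = SS p (Subgroup.inclusion hle) nu K aN := by
  haveI : NeZero K := ⟨hK.ne'⟩
  have hcard : Nat.card (Multiplicative (ZMod K)) = K := by
    rw [Nat.card_congr Multiplicative.toAdd, Nat.card_zmod]
  haveI : Finite (Multiplicative (ZMod K)) := Nat.finite_of_card_ne_zero (by rw [hcard]; exact hK.ne')
  have hCc : IsCyclic (Multiplicative (ZMod K)) := inferInstance
  have j1 : (Subgroup.center U).subtype.range ≤ Subgroup.center U := by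
    rw [Subgroup.range_subtype]
  have j2 : (Subgroup.inclusion hle).range ≤ Subgroup.center (NN Q) := by
    rintro _ ⟨a, rfl⟩
    rw [Subgroup.mem_center_iff]
    intro y
    apply Subtype.ext
    exact Subgroup.mem_center_iff.mp a.2 y
  have e1 := cliffSD hCc (cyHom K a haK) (Subgroup.center U).subtype
    (Subgroup.center U).subtype_injective j1 (fun c z => pow_fix' (hfix _ z.2) _) nu hnu (cl p)
  have e2 := cliffSD hCc (cyHom K aN (pow_eq_one haN haK)) (Subgroup.inclusion hle)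
    (Subgroup.inclusion_injective hle) j2 (fun c z => by
      apply Subtype.ext
      show ((aN ^ _) _ : U) = _
      rw [coe_pow haN]
      exact pow_fix' (hfix _ z.2) _) nu hnu (cl p)
  have e3 := relSD (p := p) (by rw [hcard]; exact hpK) (cyHom K a haK) hcyc Q hle
    (fun c x hx => pow_mem' ha _ x hx) (cyHom K aN (pow_eq_one haN haK))
    (fun c x => coe_pow haN _ x) (fun c z hz => pow_fix' (hfix _ hz) _) nu hnu
  rw [← e3, e1, hcard] at e2
  exact e2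

/-- the characters of degree prime to `p` over `nu` -/
abbrev XX (p : ℕ) {Z G : Type} [Group Z] [Finite Z] [Group G] (j : Z →* G) (nu : Z → ℂ) : Type :=
  {χ : G → ℂ // IsIrr χ ∧ (ndeg χ : ZMod p) ≠ 0 ∧ ov j nu χ}

instance finXX {Z G : Type} [Group Z] [Finite Z] [Group G] [Finite G] (j : Z →* G) (nu : Z → ℂ) :
    Finite (XX p j nu) := by
  haveI := Fintype.ofFinite G
  have h : {χ : G → ℂ | IsIrr χ}.Finite := IC.irr_finite
  exact (h.subset fun χ (hχ : IsIrr χ ∧ (ndeg χ : ZMod p) ≠ 0 ∧ ov j nu χ) => hχ.1).to_subtype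

variable {Z G : Type} [Group Z] [Finite Z] [Group G] (j : Z →* G) (nu : Z → ℂ)

theorem ndeg_comp {G : Type} [Group G] (e : MulAut G) (χ : G → ℂ) :
    ndeg (fun g => χ (e g)) = ndeg χ := by
  unfold ndeg
  show ⌊(χ (e 1)).re⌋₊ = ⌊(χ 1).re⌋₊
  rw [map_one]

/-- composition with an automorphism -/
def cmp (e : MulAut G) (he : ∀ z, e (j z) = j z) (χ : XX p j nu) : XX p j nu :=
  ⟨fun g => χ.1 (e g), Pool.Agent.Q90.WR.irr_comp e χ.2.1, by
    rw [ndeg_comp e χ.1]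
    exact χ.2.2.1,
    (ov_congr (MulEquiv.refl Z) e j j (fun l => he l) nu nu (fun _ => rfl) χ.1).mpr χ.2.2.2⟩

theorem inv_fix {e : MulAut G} {z : G} (he : e z = z) : e⁻¹ z = z := by
  have h1 : e⁻¹ (e z) = z := e.symm_apply_apply z
  rwa [he] at h1

/-- the permutation of the characters given by an automorphism -/
def tau (e : MulAut G) (he : ∀ z, e (j z) = j z) : Equiv.Perm (XX p j nu) where
  toFun := cmp j nu e⁻¹ (fun z => inv_fix (he z))
  invFun := cmp j nu e he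
  left_inv χ := by
    apply Subtype.ext
    funext g
    show χ.1 (e⁻¹ (e g)) = χ.1 g
    exact congrArg χ.1 (e.symm_apply_apply g)
  right_inv χ := by
    apply Subtype.ext
    funext g
    show χ.1 (e (e⁻¹ g)) = χ.1 g
    exact congrArg χ.1 (e.apply_symm_apply g)

theorem tau_pow (e : MulAut G) (he : ∀ z, e (j z) = j z) (n : ℕ) (χ : XX p j nu) (g : G) :
    ((tau j nu e he ^ n) χ).1 g = χ.1 ((e ^ n)⁻¹ g) := by
  induction n generalizing g with
  | zero => rfl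
  | succ n ih =>
    rw [pow_succ', pow_succ', mul_inv_rev, MulAut.mul_apply, Equiv.Perm.mul_apply]
    exact ih (e⁻¹ g)

theorem tau_one (e : MulAut G) (he : ∀ z, e (j z) = j z) {n : ℕ} (hn : e ^ n = 1) :
    (tau j nu e he ^ n : Equiv.Perm (XX p j nu)) = 1 := by
  ext χ g
  rw [tau_pow, hn]
  rfl

theorem tau_fix (e : MulAut G) (he : ∀ z, e (j z) = j z) (n : ℕ) (χ : XX p j nu) :
    (tau j nu e he ^ n) χ = χ ↔ ∀ v, χ.1 ((e ^ n) v) = χ.1 v := by
  constructor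
  · intro h v
    have h1 := tau_pow j nu e he n χ ((e ^ n) v)
    rw [h] at h1
    rw [h1]
    exact congrArg χ.1 ((e ^ n).symm_apply_apply v)
  · intro h
    apply Subtype.ext
    funext g
    rw [tau_pow, ← h]
    exact congrArg χ.1 ((e ^ n).apply_symm_apply g)

theorem card_fixn (e : MulAut G) (he : ∀ z, e (j z) = j z) {k d K : ℕ} (hd : 0 < d) (hK : 0 < K)
    (hk : k = d * K) (χ : XX p j nu) :
    Nat.card {c : Multiplicative (ZMod K) //
      ∀ v, χ.1 (((e ^ d) ^ (ZMod.val (Multiplicative.toAdd c))) v) = χ.1 v} =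
      fixn (tau j nu e he) k d χ := by
  rw [← card_fixn' (tau j nu e he) χ (fun n => ∀ v, χ.1 ((e ^ n) v) = χ.1 v)
    (fun n => tau_fix j nu e he n χ) hd hK hk]
  simp only [pow_mul]

/-- the class of the degree -/
def kp (χ : XX p j nu) : (ZMod p)ˣ := (Units.mk0 (ndeg χ.1 : ZMod p) χ.2.2.1) ^ 2

theorem kp_tau (e : MulAut G) (he : ∀ z, e (j z) = j z) (χ : XX p j nu) :
    kp j nu (tau j nu e he χ) = kp j nu χ := by
  have h : ndeg (tau j nu e he χ).1 = ndeg χ.1 := ndeg_comp e⁻¹ χ.1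
  unfold kp
  congr 1
  ext
  show ((ndeg (tau j nu e he χ).1 : ℕ) : ZMod p) = ((ndeg χ.1 : ℕ) : ZMod p)
  rw [h]

theorem sum_XX [Fintype G] [Fintype (XX p j nu)] (e : MulAut G) (he : ∀ z, e (j z) = j z)
    {k : ℕ} (hk : 0 < k) (d : ℕ) (hd : d ∣ k) :
    ∑ x : XX p j nu, (fixn (tau j nu e he) k d x : RR p) ^ 2 *
          (cl p ((k / d) / fixn (tau j nu e he) k d x) * MonoidAlgebra.single (kp j nu x) 1) =
      SS p j nu (k / d) (e ^ d) := by
  have hd0 : 0 < d := Nat.pos_of_dvd_of_pos hd hk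
  have hK0 : 0 < k / d := Nat.div_pos (Nat.le_of_dvd hk hd) hd0
  have hkd : k = d * (k / d) := (Nat.mul_div_cancel' hd).symm
  obtain ⟨F, hF⟩ : ∃ F : (G → ℂ) → RR p, F = fun χ =>
    (Nat.card {c : Multiplicative (ZMod (k / d)) //
        ∀ v, χ (((e ^ d) ^ (ZMod.val (Multiplicative.toAdd c))) v) = χ v} : RR p) ^ 2 *
      (cl p ((k / d) / Nat.card {c : Multiplicative (ZMod (k / d)) //
        ∀ v, χ (((e ^ d) ^ (ZMod.val (Multiplicative.toAdd c))) v) = χ v}) * cl p (ndeg χ)) :=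
    ⟨_, rfl⟩
  have h1 : SS p j nu (k / d) (e ^ d) = ∑ χ ∈ (Irr G).filter (ov j nu), F χ := by
    rw [hF]
    rfl
  rw [h1, ← Finset.sum_filter_of_ne (p := fun χ => (ndeg χ : ZMod p) ≠ 0)]
  · rw [Finset.sum_subtype (p := fun χ => IsIrr χ ∧ (ndeg χ : ZMod p) ≠ 0 ∧ ov j nu χ) _
      (fun χ => by
        rw [Finset.mem_filter, Finset.mem_filter, mem_Irr]
        tauto) F]
    refine Finset.sum_congr rfl fun x _ => ?_
    rw [hF]
    simp only []
    rw [card_fixn j nu e he hd0 hK0 hkd x, cl_apply p x.2.2.1]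
    rfl
  · intro χ _ hne h0
    apply hne
    have h2 : cl p (ndeg χ) = 0 := by
      change cls p _ = 0
      unfold cls
      rw [dif_pos h0]
    rw [hF]
    simp only []
    rw [h2, mul_zero, mul_zero]

end

theorem exists_kt {p b N : ℕ} [hp : Fact p.Prime] (hN : N ≠ 0) (hb : ¬ p ∣ b) :
    ∃ k t : ℕ, 0 < k ∧ ¬ p ∣ k ∧ N ∣ (1 + b * t) * k := by
  obtain ⟨s, k, hk, hNk⟩ := Nat.exists_eq_pow_mul_and_not_dvd hN p hp.out.one_lt.ne'
  haveI : NeZero (p ^ s) := ⟨pow_ne_zero _ hp.out.ne_zero⟩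
  have hc : Nat.Coprime b (p ^ s) := (Nat.Coprime.pow_left s
    ((Nat.Prime.coprime_iff_not_dvd hp.out).mpr hb)).symm
  have h1 := ZMod.coe_mul_inv_eq_one b hc
  refine ⟨k, ZMod.val (-((b : ZMod (p ^ s))⁻¹)), Nat.pos_of_ne_zero ?_, hk, ?_⟩
  · rintro rfl
    exact hk (dvd_zero p)
  · rw [hNk]
    refine Nat.mul_dvd_mul ?_ dvd_rfl
    rw [← ZMod.natCast_eq_zero_iff]
    push_cast
    rw [ZMod.natCast_zmod_val, mul_neg, h1, add_neg_cancel]

/-- E4: an equivariant bijection for groups with cyclic Sylow subgroups -/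
theorem exists_e_eqv {p : ℕ} [hp : Fact p.Prime] {U : Type} [Group U] [Finite U]
    (hZ : ¬ p ∣ Nat.card (Subgroup.center U)) (hcyc : ∀ Q : Sylow p U, IsCyclic Q) (Q : Sylow p U)
    (hle : Subgroup.center U ≤ NN Q) (a : MulAut U) (b : ℕ) (hb : ¬ p ∣ b)
    (hab : ∃ u₀ : U, ∀ v, (a ^ b) v = u₀ * v * u₀⁻¹) (ha : ∀ x ∈ Q, a x ∈ Q)
    (haN : ∀ x ∈ NN Q, a x ∈ NN Q) (hfix : ∀ z ∈ Subgroup.center U, a z = z) :
    ∃ e : {χ : U → ℂ // IsIrr χ ∧ (ndeg χ : ZMod p) ≠ 0} ≃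
        {χ : NN Q → ℂ // IsIrr χ ∧ (ndeg χ : ZMod p) ≠ 0},
      (∀ χ, (ndeg χ.1 : ZMod p) ^ 2 = (ndeg (e χ).1 : ZMod p) ^ 2) ∧
      (∀ χ (z : U) (hz : z ∈ Subgroup.center U),
        χ.1 z / χ.1 1 = (e χ).1 ⟨z, hle hz⟩ / (e χ).1 1) ∧
      ∀ χ χ₁, (∀ u, χ₁.1 (a u) = χ.1 u) → ∀ u : NN Q, (e χ₁).1 ⟨a u, haN u u.2⟩ = (e χ).1 u := by
  haveI := Fintype.ofFinite U
  haveI : Fintype (NN Q) := Fintype.ofFinite _
  haveI : Fintype (Subgroup.center U) := Fintype.ofFinite _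
  obtain ⟨u₀, hu₀⟩ := hab
  have hN : orderOf a ≠ 0 := (orderOf_pos a).ne'
  obtain ⟨k, t, hk, hpk, hkt⟩ := exists_kt hN hb
  obtain ⟨a', ha'⟩ : ∃ a', a' = a ^ (1 + b * t) := ⟨_, rfl⟩
  obtain ⟨y, hy⟩ : ∃ y, y = u₀ ^ t := ⟨_, rfl⟩
  have hak : a' ^ k = 1 := by
    rw [ha', ← pow_mul]
    exact orderOf_dvd_iff_pow_eq_one.mp hkt
  have hay : ∀ x, a' x = y * a x * y⁻¹ := by
    intro x
    have h1 : a ^ b = MulAut.conj u₀ := by
      ext v
      rw [hu₀, MulAut.conj_apply]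
    rw [ha', add_comm, pow_succ, pow_mul, h1, ← map_pow, ← hy, MulAut.mul_apply,
      MulAut.conj_apply]
  have ha'Q : ∀ x ∈ Q, a' x ∈ Q := by
    intro x hx
    rw [ha']
    exact pow_mem' (S := (Q : Subgroup U)) ha _ x hx
  have hyN : y ∈ NN Q := by
    refine Subgroup.mem_normalizer_fintype fun x hx => ?_
    have h1 : (a ^ (orderOf a - 1)) x ∈ Q := pow_mem' (S := (Q : Subgroup U)) ha _ x hx
    have h2 : a ((a ^ (orderOf a - 1)) x) = x := by
      rw [← MulAut.mul_apply, ← pow_succ', Nat.sub_add_cancel (Nat.pos_of_ne_zero hN),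
        pow_orderOf_eq_one, MulAut.one_apply]
    have h3 := ha'Q _ h1
    rw [hay, h2] at h3
    exact h3
  have ha'N : ∀ x ∈ NN Q, a' x ∈ NN Q := by
    intro x hx
    rw [hay]
    exact (NN Q).mul_mem ((NN Q).mul_mem hyN (haN x hx)) ((NN Q).inv_mem hyN)
  have ha'fix : ∀ z ∈ Subgroup.center U, a' z = z := by
    intro z hz
    rw [hay, hfix z hz, Subgroup.mem_center_iff.mp hz y, mul_inv_cancel_right]
  obtain ⟨aN, haNe⟩ : ∃ aN : MulAut (NN Q), ∀ x, (aN x : U) = a' x := by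
    let f : NN Q →* NN Q := (a'.toMonoidHom.comp (NN Q).subtype).codRestrict _
      (fun x => ha'N x x.2)
    have hf : Function.Injective f := by
      intro x x' h
      have h1 : a' x = a' x' := congrArg Subtype.val h
      exact Subtype.ext (a'.injective h1)
    exact ⟨MulEquiv.ofBijective f (Finite.injective_iff_bijective.mp hf), fun x => rfl⟩
  have j1 : (Subgroup.center U).subtype.range ≤ Subgroup.center U := by
    rw [Subgroup.range_subtype]
  have j2 : (Subgroup.inclusion hle).range ≤ Subgroup.center (NN Q) := by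
    rintro _ ⟨a, rfl⟩
    rw [Subgroup.mem_center_iff]
    intro y
    apply Subtype.ext
    exact Subgroup.mem_center_iff.mp a.2 y
  have hf1 : ∀ z, a' ((Subgroup.center U).subtype z) = (Subgroup.center U).subtype z :=
    fun z => ha'fix z z.2
  have hf2 : ∀ z, aN ((Subgroup.inclusion hle) z) = (Subgroup.inclusion hle) z := by
    intro z
    apply Subtype.ext
    rw [haNe]
    exact ha'fix z z.2
  have key : ∀ ν : Subgroup.center U →* ℂˣ,
      ∃ e : XX p (Subgroup.center U).subtype (fun a => ((ν a : ℂˣ) : ℂ)) ≃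
        XX p (Subgroup.inclusion hle) (fun a => ((ν a : ℂˣ) : ℂ)),
        (∀ x, e (tau _ _ a' hf1 x) = tau _ _ aN hf2 (e x)) ∧ ∀ x, kp _ _ (e x) = kp _ _ x := by
    intro ν
    haveI := Fintype.ofFinite (XX p (Subgroup.center U).subtype (fun a => ((ν a : ℂˣ) : ℂ)))
    haveI := Fintype.ofFinite (XX p (Subgroup.inclusion hle) (fun a => ((ν a : ℂˣ) : ℂ)))
    refine equiv_bij p (tau _ _ a' hf1) (tau _ _ aN hf2) k hk hpk (tau_one _ _ _ _ hak)
      (tau_one _ _ _ _ (pow_eq_one haNe hak)) (kp _ _) (kp _ _) (kp_tau _ _ _ _) (kp_tau _ _ _ _) ?_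
    intro d hd
    rw [sum_XX _ _ a' hf1 hk d hd, sum_XX _ _ aN hf2 hk d hd]
    refine SS_eq hcyc Q hle (k / d) ?_ ?_ (a' ^ d) ?_ ?_ (aN ^ d) (coe_pow haNe d) ?_ _
      (Pool.Agent.K3h18.IN.lin ν)
    · exact Nat.div_pos (Nat.le_of_dvd hk hd) (Nat.pos_of_dvd_of_pos hd hk)
    · exact fun h => hpk (h.trans (Nat.div_dvd_of_dvd hd))
    · rw [← pow_mul, Nat.mul_div_cancel' hd, hak]
    · exact pow_mem' (S := (Q : Subgroup U)) ha'Q d
    · exact fun z hz => pow_fix' (ha'fix z hz) d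
  choose E hE1 hE2 using key
  obtain ⟨e, he⟩ : ∃ e : {χ : U → ℂ // IsIrr χ ∧ (ndeg χ : ZMod p) ≠ 0} ≃
      {χ : NN Q → ℂ // IsIrr χ ∧ (ndeg χ : ZMod p) ≠ 0},
      ∀ (χ : {χ : U → ℂ // IsIrr χ ∧ (ndeg χ : ZMod p) ≠ 0}) (ν : Subgroup.center U →* ℂˣ)
        (h : mu8 (Subgroup.center U).subtype j1 χ.1 = ν),
        (e χ).1 = (E ν ⟨χ.1, χ.2.1, χ.2.2,
          (ov_mu8 (Subgroup.center U).subtype j1 χ.2.1 ν).2 h⟩).1 := by
    refine ⟨(Equiv.sigmaFiberEquiv (fun χ : {χ : U → ℂ // IsIrr χ ∧ (ndeg χ : ZMod p) ≠ 0} =>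
      mu8 (Subgroup.center U).subtype j1 χ.1)).symm.trans ((Equiv.sigmaCongrRight fun ν =>
        (fib _ j1 ν).trans ((E ν).trans (fib _ j2 ν).symm)).trans
      (Equiv.sigmaFiberEquiv (fun χ : {χ : NN Q → ℂ // IsIrr χ ∧ (ndeg χ : ZMod p) ≠ 0} =>
        mu8 (Subgroup.inclusion hle) j2 χ.1))), ?_⟩
    rintro χ _ rfl
    rfl
  refine ⟨e, ?_, ?_, ?_⟩
  · intro χ
    rw [he χ _ rfl]
    have h1 := hE2 (mu8 (Subgroup.center U).subtype j1 χ.1) ⟨χ.1, χ.2.1, χ.2.2,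
      (ov_mu8 (Subgroup.center U).subtype j1 χ.2.1 _).2 rfl⟩
    have h2 := congrArg (fun v : (ZMod p)ˣ => (v : ZMod p)) h1
    exact h2.symm
  · intro χ c hc
    rw [he χ _ rfl]
    obtain ⟨ψ, hψ⟩ : ∃ ψ, ψ = E (mu8 (Subgroup.center U).subtype j1 χ.1) ⟨χ.1, χ.2.1, χ.2.2,
      (ov_mu8 (Subgroup.center U).subtype j1 χ.2.1 _).2 rfl⟩ := ⟨_, rfl⟩
    rw [← hψ]
    have h3 := (ov_mu8 (Subgroup.inclusion hle) j2 ψ.2.1 _).1 ψ.2.2.2
    have h4 := quot _ j2 ψ.2.1 ⟨c, hc⟩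
    rw [h3] at h4
    exact (quot _ j1 χ.2.1 ⟨c, hc⟩).trans h4.symm
  · intro χ χ₁ hχ u
    have h1 : ∀ v, χ₁.1 (a' v) = χ.1 v := by
      intro v
      rw [hay, IsIrr.conj χ₁.2.1, hχ]
    have hν : mu8 (Subgroup.center U).subtype j1 χ₁.1 = mu8 (Subgroup.center U).subtype j1 χ.1 := by
      ext z
      rw [← quot _ j1 χ₁.2.1 z, ← quot _ j1 χ.2.1 z, ← h1, ← h1 1, map_one, hf1]
    rw [he χ _ rfl, he χ₁ _ hν]
    obtain ⟨x, hx⟩ : ∃ x : XX p (Subgroup.center U).subtype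
        (fun a => ((mu8 (Subgroup.center U).subtype j1 χ.1 a : ℂˣ) : ℂ)), x = ⟨χ.1, χ.2.1, χ.2.2,
      (ov_mu8 (Subgroup.center U).subtype j1 χ.2.1 _).2 rfl⟩ := ⟨_, rfl⟩
    have hx₁ : (⟨χ₁.1, χ₁.2.1, χ₁.2.2, (ov_mu8 (Subgroup.center U).subtype j1 χ₁.2.1 _).2 hν⟩ :
        XX p (Subgroup.center U).subtype
          (fun a => ((mu8 (Subgroup.center U).subtype j1 χ.1 a : ℂˣ) : ℂ))) =
        tau _ _ a' hf1 x := by
      apply Subtype.ext
      funext g
      show χ₁.1 g = x.1 (a'⁻¹ g)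
      rw [hx]
      show χ₁.1 g = χ.1 (a'⁻¹ g)
      rw [← h1]
      exact congrArg χ₁.1 (a'.apply_symm_apply g).symm
    rw [hx₁, hE1, ← hx]
    obtain ⟨ψ, hψ⟩ : ∃ ψ, ψ = E _ x := ⟨_, rfl⟩
    rw [← hψ]
    show ψ.1 (aN⁻¹ ⟨a u, haN u u.2⟩) = ψ.1 u
    have hτ := (tau (p := p) _ _ aN hf2 ψ).2.1
    have h5 := IsIrr.conj hτ ⟨a u, haN u u.2⟩ (⟨y, hyN⟩ : NN Q)
    have h6 : (⟨y, hyN⟩ : NN Q) * ⟨a u, haN u u.2⟩ * (⟨y, hyN⟩ : NN Q)⁻¹ = aN u := by
      apply Subtype.ext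
      rw [haNe, hay]
      rfl
    rw [h6] at h5
    refine h5.symm.trans ?_
    exact congrArg ψ.1 (aN.symm_apply_apply u)

end Pool.Agent.Zk54.MQ
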