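import Pool.Agent.K3h18.IN.SemiDir
import Pool.Agent.K3h85.IN.CExt
import Pool.Agent.K3h51.IN.S2a

/-!
# The characters over a central character in an extension by a cyclic complement
-/

set_option autoImplicit false
set_option linter.unusedSectionVars false
set_option linter.unusedVariables false
set_option linter.style.haveILetI false

section FileA

noncomputable section

open scoped BigOperators Classical


namespace Pool.Agent.Zk54.MQ.E4

open Pool.Agent.Helper884 Pool.Agent.H254R3.IN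
open IC (Irr)

section lift

variable {T V : Type} [Group T] [Finite T] [AddCommGroup V] [Module ℂ V] [FiniteDimensional ℂ V]

/-- the pairs of an element and a compatible operator -/
def pr {L : Subgroup T} (hL : L.Normal) (σ : Representation ℂ L V) :
    Subgroup (T × (V →ₗ[ℂ] V)ˣ) where
  carrier := {x | ∀ l l' : L, x.1 * (l : T) * x.1⁻¹ = l' →
      (x.2 : V →ₗ[ℂ] V) * σ l = σ l' * (x.2 : V →ₗ[ℂ] V)}
  one_mem' := by
    intro l l' h
    simp only [Prod.fst_one, one_mul, inv_one, mul_one] at h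
    rw [Subtype.ext h]
    simp
  mul_mem' := by
    intro x y hx hy l l' h
    have h1 := hy l ⟨_, hL.conj_mem _ l.2 y.1⟩ rfl
    have h2 := hx ⟨_, hL.conj_mem _ l.2 y.1⟩ l' (by
      rw [← h, Prod.fst_mul]
      group)
    rw [Prod.snd_mul, Units.val_mul, mul_assoc, h1, ← mul_assoc, h2, mul_assoc]
  inv_mem' := by
    intro x hx l l' h
    have h1 := hx l' l (by
      rw [← h, Prod.fst_inv]
      group)
    rw [Prod.snd_inv]
    have h2 : ((x.2⁻¹ : (V →ₗ[ℂ] V)ˣ) : V →ₗ[ℂ] V) * ((x.2 : V →ₗ[ℂ] V) * σ l') *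
        ((x.2⁻¹ : (V →ₗ[ℂ] V)ˣ) : V →ₗ[ℂ] V) = ((x.2⁻¹ : (V →ₗ[ℂ] V)ˣ) : V →ₗ[ℂ] V) *
        (σ l * (x.2 : V →ₗ[ℂ] V)) * ((x.2⁻¹ : (V →ₗ[ℂ] V)ˣ) : V →ₗ[ℂ] V) := by rw [h1]
    rw [← mul_assoc, Units.inv_mul, one_mul, mul_assoc, mul_assoc, Units.mul_inv, mul_one] at h2
    exact h2.symm

theorem mem_pr {L : Subgroup T} {hL : L.Normal} {σ : Representation ℂ L V}
    {x : T × (V →ₗ[ℂ] V)ˣ} : x ∈ pr hL σ ↔ ∀ l l' : L, x.1 * (l : T) * x.1⁻¹ = l' →
      (x.2 : V →ₗ[ℂ] V) * σ l = σ l' * (x.2 : V →ₗ[ℂ] V) := Iff.rfl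

theorem exists_lift (L N : Subgroup T) (hL : L.Normal) [hN : IsCyclic N] (σ : Representation ℂ L V)
    (hσ : σ.IsIrreducible)
    (hinv : ∀ (x : T) (l l' : L), x * (l : T) * x⁻¹ = l' → σ.character l' = σ.character l) :
    ∃ W : Representation ℂ N V, ∀ (n : N) (l l' : L), (n : T) * l * (n : T)⁻¹ = l' →
      ∀ v, W n (σ l v) = σ l' (W n v) := by
  haveI := hL
  haveI : Nontrivial V := irr_nontrivial σ hσ
  obtain ⟨d, hd⟩ := IsCyclic.exists_generator (α := N)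
  obtain ⟨α, hα⟩ : ∃ α : L →* L, α = (MulAut.conjNormal (H := L) (d : T)).toMonoidHom := ⟨_, rfl⟩
  have hαc : ∀ l : L, ((α l : L) : T) = d * l * (d : T)⁻¹ := by
    intro l
    rw [hα]
    rfl
  have hαs : Function.Surjective α := by
    rw [hα]
    exact (MulAut.conjNormal (H := L) (d : T)).surjective
  have hτ : Representation.IsIrreducible (MonoidHom.comp σ α : Representation ℂ L V) :=
    Pool.Agent.K3h85.IN.irr_comp_surj σ hσ α hαs
  obtain ⟨S, hS⟩ := Pool.Agent.K3h85.IN.exists_unit σ (MonoidHom.comp σ α : Representation ℂ L V) hσ hτ (by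
    funext l
    exact (hinv d l (α l) (hαc l).symm).symm)
  have hSp : ((d : T), S) ∈ pr hL σ := by
    rw [mem_pr]
    intro l l' h
    have h1 : α l = l' := Subtype.ext ((hαc l).trans h)
    rw [hS l, ← h1]
    rfl
  -- the power of `S` is a scalar
  obtain ⟨n, hn⟩ : ∃ n, n = orderOf d := ⟨_, rfl⟩
  have hn0 : 0 < n := by
    rw [hn]
    exact orderOf_pos d
  have hSn : ∀ l : L, (S ^ n : (V →ₗ[ℂ] V)ˣ) * σ l = σ l * ((S ^ n : (V →ₗ[ℂ] V)ˣ) : V →ₗ[ℂ] V) := by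
    intro l
    have h1 := mem_pr.mp ((pr hL σ).pow_mem hSp n) l l (by
      have h2 : ((d : T), S) ^ n = ((1 : T), S ^ n) := by
        rw [Prod.pow_mk]
        congr 1
        rw [← Subgroup.coe_pow, hn, pow_orderOf_eq_one]
        rfl
      rw [h2]
      simp)
    rw [Prod.pow_snd] at h1
    exact h1
  obtain ⟨c, hc⟩ := schur σ hσ ((S ^ n : (V →ₗ[ℂ] V)ˣ) : V →ₗ[ℂ] V) (fun l v => by
    exact congrArg (fun f : V →ₗ[ℂ] V => f v) (hSn l))
  have hc0 : c ≠ 0 := by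
    rintro rfl
    have h1 : IsUnit ((S ^ n : (V →ₗ[ℂ] V)ˣ) : V →ₗ[ℂ] V) := Units.isUnit _
    rw [hc, zero_smul] at h1
    exact not_isUnit_zero h1
  obtain ⟨z, hz⟩ := IsAlgClosed.exists_pow_nat_eq c⁻¹ hn0
  have hz0 : z ≠ 0 := by
    rintro rfl
    rw [zero_pow hn0.ne'] at hz
    exact inv_ne_zero hc0 hz.symm
  obtain ⟨A, hA⟩ : ∃ A : (V →ₗ[ℂ] V)ˣ,
      A = Units.map (algebraMap ℂ (V →ₗ[ℂ] V)).toMonoidHom (Units.mk0 z hz0) := ⟨_, rfl⟩
  have hAc : ∀ B : V →ₗ[ℂ] V, (A : V →ₗ[ℂ] V) * B = B * A := by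
    intro B
    rw [hA]
    exact Algebra.commutes z B
  have hAp : ((d : T), A * S) ∈ pr hL σ := by
    rw [mem_pr]
    intro l l' h
    change ((A * S : (V →ₗ[ℂ] V)ˣ) : V →ₗ[ℂ] V) * σ l = σ l' * ((A * S : (V →ₗ[ℂ] V)ˣ) : V →ₗ[ℂ] V)
    rw [Units.val_mul, mul_assoc, mem_pr.mp hSp l l' h, ← mul_assoc, hAc, mul_assoc]
  have hAn : (A * S) ^ n = 1 := by
    have h1 : Commute A S := Units.ext (hAc S)
    rw [h1.mul_pow]
    apply Units.ext
    rw [Units.val_mul, hc]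
    have h2 : ((A ^ n : (V →ₗ[ℂ] V)ˣ) : V →ₗ[ℂ] V) = algebraMap ℂ (V →ₗ[ℂ] V) c⁻¹ := by
      rw [Units.val_pow_eq_pow_val, hA, ← hz, map_pow]
      rfl
    rw [h2, Algebra.algebraMap_eq_smul_one, smul_mul_smul_comm, inv_mul_cancel₀ hc0, one_smul]
    rfl
  have hord : ∀ a b : ℤ, d ^ a = d ^ b → (A * S) ^ a = (A * S) ^ b := by
    intro a b hab
    have h1 : orderOf (A * S) ∣ orderOf d := by
      rw [← hn]
      exact orderOf_dvd_of_pow_eq_one hAn
    rw [zpow_eq_zpow_iff_modEq] at hab ⊢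
    exact hab.of_dvd (Int.natCast_dvd_natCast.mpr h1)
  choose k hk using fun x => Subgroup.mem_zpowers_iff.mp (hd x)
  let F : N →* (V →ₗ[ℂ] V)ˣ := MonoidHom.mk' (fun x => (A * S) ^ k x) fun x y => by
    rw [← zpow_add]
    exact hord _ _ (by rw [hk, zpow_add, hk, hk])
  refine ⟨(Units.coeHom (V →ₗ[ℂ] V)).comp F, fun x l l' h v => ?_⟩
  have h1 := mem_pr.mp ((pr hL σ).zpow_mem hAp (k x)) l l' (by
    rw [Prod.pow_fst]
    have h2 : ((d : T) ^ k x) = x := by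
      rw [← Subgroup.coe_zpow, hk]
    rw [h2]
    exact h)
  rw [Prod.pow_snd] at h1
  exact congrArg (fun f : V →ₗ[ℂ] V => f v) h1

end lift

end Pool.Agent.Zk54.MQ.E4

end

end FileA

section FileB

noncomputable section

open scoped BigOperators Classical


namespace Pool.Agent.Zk54.MQ.E4

open Pool.Agent.Helper884 Pool.Agent.H254R3.IN
open Pool.Agent.K3h3.KB Pool.Agent.K3h3.MK
open Pool.Agent.Y63.AWC (cj mult cj_mul cj_one cj_inv_iff cj_irr mult_cj mult_spec)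
open Pool.Agent.R678.MC (inert mem_inert orbit_of_mult exists_under hat)
open IC (Irr)
open Pool.Agent.K3h83.IN (ov wo wo_eq wo_congr ov_iff fixes S1 S3 S3a S3b)

section

variable {Γ : Type} [Group Γ] [Finite Γ]

theorem fixes_iff (L : Subgroup Γ) [L.Normal] (χ : L → ℂ) (x : Γ) :
    fixes L.subtype χ x ↔ cj L x χ = χ := by
  have h := Pool.Agent.K3h51.IN.fixes_iff (N := L) L.subtype (MulEquiv.refl L) (fun _ => rfl) χ x
  exact h

theorem index_eq {L D T : Subgroup Γ} (hL : L.Normal) (hLD : L ⊔ D = ⊤) (hT : L ≤ T) :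
    T.index = T.relIndex D := by
  haveI := hL
  haveI : MulAction.IsPretransitive D (Γ ⧸ T) := by
    rw [MulAction.isPretransitive_iff_base (((1 : Γ) : Γ ⧸ T))]
    intro y
    obtain ⟨g, rfl⟩ := QuotientGroup.mk_surjective y
    have hg : g ∈ L ⊔ D := by rw [hLD]; trivial
    obtain ⟨l, hl, x, hx, rfl⟩ := Subgroup.mem_sup_of_normal_left.mp hg
    refine ⟨⟨x, hx⟩, ?_⟩
    change ((x * 1 : Γ) : Γ ⧸ T) = _
    rw [QuotientGroup.eq, mul_one]
    have h1 : x⁻¹ * l * x⁻¹⁻¹ ∈ L := hL.conj_mem _ hl x⁻¹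
    rw [inv_inv] at h1
    have e : x⁻¹ * (l * x) = x⁻¹ * l * x := by group
    rw [e]
    exact hT h1
  have h2 := MulAction.index_stabilizer_of_transitive D (((1 : Γ) : Γ ⧸ T))
  have h3 : MulAction.stabilizer D (((1 : Γ) : Γ ⧸ T)) = T.subgroupOf D := by
    ext x
    rw [MulAction.mem_stabilizer_iff, Subgroup.mem_subgroupOf]
    change (((x : Γ) * 1 : Γ) : Γ ⧸ T) = ((1 : Γ) : Γ ⧸ T) ↔ _
    rw [mul_one, eq_comm, QuotientGroup.eq, inv_one, one_mul]
  rw [h3] at h2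
  exact h2.symm

/-- `∑ w(β(1))` for an abelian group -/
theorem wt_comm {N : Type} [CommGroup N] [Finite N] {R : Type} [CommRing R] (w : ℕ →* R) :
    wt w N = (Nat.card N : R) := by
  haveI := Fintype.ofFinite N
  rw [wt_eq, Finset.sum_congr rfl fun χ hχ => by rw [ndeg_comm (mem_Irr.mp hχ), map_one],
    Finset.sum_const, nsmul_eq_mul, mul_one, card_Irr_comm]

theorem wt_cyc {N : Type} [Group N] [IsCyclic N] [Finite N] {R : Type} [CommRing R] (w : ℕ →* R) :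
    wt w N = (Nat.card N : R) := by
  letI : CommGroup N := IsCyclic.commGroup
  exact wt_comm w

/-- the characters over a character of the normal subgroup -/
theorem wo_cyc (s1 : S1) (L D : Subgroup Γ) (hL : L.Normal) (hLD : L ⊔ D = ⊤) (hLD' : L ⊓ D = ⊥)
    (hD : IsCyclic D) {χ : L → ℂ} (hχ : IsIrr χ) {R : Type} [CommRing R] (w : ℕ →* R) :
    wo w L.subtype χ = w (Nat.card D / Nat.card {d : D // fixes L.subtype χ d}) *
      (w (ndeg χ) * (Nat.card {d : D // fixes L.subtype χ d} : R)) := by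
  haveI := hL
  haveI := hD
  haveI := Fintype.ofFinite L
  haveI := Fintype.ofFinite Γ
  obtain ⟨T, hTdef⟩ : ∃ T : Subgroup Γ, T = inert L χ := ⟨_, rfl⟩
  have hT : ∀ x, x ∈ T ↔ fixes L.subtype χ x := by
    intro x
    rw [hTdef, fixes_iff]
    exact mem_inert
  have hLT : L ≤ T := by
    intro x hx
    rw [hT]
    rintro l l' hl
    have hl2 : l' = (⟨x, hx⟩ : L) * l * (⟨x, hx⟩ : L)⁻¹ := Subtype.ext hl.symm
    rw [hl2]
    exact IC.IsIrrChar.isClass hχ _ _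
  have hLr : L.subtype.range.Normal := by
    rw [Subgroup.range_subtype]
    exact hL
  have e1 := s1 R w L Γ L.subtype L.subtype_injective hLr χ hχ T hT (Subgroup.inclusion hLT)
    fun _ => rfl
  -- the index
  have hcard : Nat.card (T.subgroupOf D) = Nat.card {d : D // fixes L.subtype χ d} :=
    Nat.card_congr (Equiv.subtypeEquivRight fun d => by
      rw [Subgroup.mem_subgroupOf]
      exact hT _)
  have hidx : T.index = Nat.card D / Nat.card {d : D // fixes L.subtype χ d} := by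
    rw [index_eq hL hLD hLT, ← hcard]
    have h1 := Subgroup.index_mul_card (T.subgroupOf D)
    change (T.subgroupOf D).index = _
    rw [← h1]
    exact (Nat.mul_div_cancel _ Nat.card_pos).symm
  rw [e1, hidx]
  congr 1
  -- the group `T`
  obtain ⟨V, _, _, _, σ, hσ, rfl⟩ := id hχ
  obtain ⟨L', hL'⟩ : ∃ L' : Subgroup T, L' = L.subgroupOf T := ⟨_, rfl⟩
  obtain ⟨N', hN'⟩ : ∃ N' : Subgroup T, N' = D.subgroupOf T := ⟨_, rfl⟩
  subst hL' hN'
  have hLn : (L.subgroupOf T).Normal := hL.subgroupOf T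
  haveI : IsCyclic (D.subgroupOf T) := by
    refine isCyclic_of_injective
      ({ toFun := fun x => ⟨(x : T), Subgroup.mem_subgroupOf.mp x.2⟩
         map_one' := rfl
         map_mul' := fun _ _ => rfl } : D.subgroupOf T →* D) ?_
    intro x y h
    exact Subtype.ext (Subtype.ext (congrArg (fun z : D => (z : Γ)) h))
  let eL : (L.subgroupOf T) ≃* L := Subgroup.subgroupOfEquivOfLe hLT
  have hσ' : Representation.IsIrreducible (σ.comp eL.toMonoidHom : Representation ℂ (L.subgroupOf T) V) :=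
    Pool.Agent.K3h85.IN.irr_comp_surj σ hσ eL.toMonoidHom eL.surjective
  have hchar : ∀ l, Representation.character (σ.comp eL.toMonoidHom : Representation ℂ (L.subgroupOf T) V) l =
      σ.character (eL l) := fun l => rfl
  obtain ⟨W, hW⟩ := exists_lift (L.subgroupOf T) (D.subgroupOf T) hLn
    (σ.comp eL.toMonoidHom : Representation ℂ (L.subgroupOf T) V) hσ' (by
      intro x l l' h
      rw [hchar, hchar]
      exact (hT x).mp x.2 (eL l) (eL l') (congrArg Subtype.val h))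
  have k := Pool.Agent.K3h18.IN.t_G5 R w T (L.subgroupOf T) (D.subgroupOf T) ⊥ bot_le bot_le bot_le hLn (by
      rw [eq_top_iff]
      intro t _
      have ht : (t : Γ) ∈ L ⊔ D := by rw [hLD]; trivial
      obtain ⟨l, hl, x, hx, hlx⟩ := Subgroup.mem_sup_of_normal_left.mp ht
      have hxT : x ∈ T := by
        have h1 : l * x ∈ T := by rw [hlx]; exact t.2
        exact (Subgroup.mul_mem_cancel_left _ (hLT hl)).mp h1
      have ht : t = ⟨l, hLT hl⟩ * ⟨x, hxT⟩ := Subtype.ext hlx.symm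
      rw [ht]
      exact Subgroup.mul_mem_sup (Subgroup.mem_subgroupOf.mpr hl) (Subgroup.mem_subgroupOf.mpr hx))
    (by
      rw [eq_bot_iff]
      rintro t ⟨h1, h2⟩
      have h3 : (t : Γ) ∈ L ⊓ D := ⟨Subgroup.mem_subgroupOf.mp h1, Subgroup.mem_subgroupOf.mp h2⟩
      rw [hLD', Subgroup.mem_bot] at h3
      rw [Subgroup.mem_bot]
      exact Subtype.ext h3)
    1 V (σ.comp eL.toMonoidHom) hσ' (by
      intro z v
      have hz : (⟨(z : T), (bot_le : (⊥ : Subgroup T) ≤ L.subgroupOf T) z.2⟩ : L.subgroupOf T) = 1 :=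
        Subtype.ext (Subgroup.mem_bot.mp z.2)
      rw [hz, map_one]
      simp) W (fun n l l' h v => hW n l l' h v) (by
      intro n hn
      have h1 : n = 1 := Subtype.ext (Subgroup.mem_bot.mp hn)
      rw [h1, map_one])
  have nd : ndeg (Representation.character (σ.comp eL.toMonoidHom : Representation ℂ (L.subgroupOf T) V)) =
      ndeg σ.character := by
    change ⌊(σ.character (eL 1)).re⌋₊ = _
    rw [map_one]
    rfl
  have t1 : wo w (Subgroup.inclusion hLT) σ.character =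
      wo w (L.subgroupOf T).subtype (Representation.character (σ.comp eL.toMonoidHom : Representation ℂ (L.subgroupOf T) V)) := by
    refine wo_congr w eL.symm (MulEquiv.refl T) _ _ (fun l => ?_) _ _ (fun l => ?_)
    · exact Subtype.ext rfl
    · rw [hchar, MulEquiv.apply_symm_apply]
  rw [t1]
  refine k.trans ?_
  rw [nd]
  congr 1
  have t2 := Pool.Agent.K3h18.IN.t_S8 R w (⊥ : Subgroup T) (D.subgroupOf T) (D.subgroupOf T)
    (Subgroup.inclusion (bot_le : (⊥ : Subgroup T) ≤ D.subgroupOf T))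
    (Subgroup.inclusion_injective _) (MonoidHom.id _) Function.surjective_id (by
      rw [MonoidHom.ker_id, eq_comm, eq_bot_iff]
      rintro _ ⟨x, rfl⟩
      rw [Subgroup.mem_bot]
      exact Subtype.ext (Subgroup.mem_bot.mp x.2))
  have t3 : (fun a : (⊥ : Subgroup T) => ((((1 : (⊥ : Subgroup T) →* ℂˣ)) a : ℂˣ) : ℂ)) =
      fun _ => (1 : ℂ) := rfl
  rw [t3, t2, wt_cyc]
  congr 1
  refine Nat.card_congr
    { toFun := fun x => ⟨⟨(x : T), Subgroup.mem_subgroupOf.mp x.2⟩, (hT _).mp (x : T).2⟩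
      invFun := fun d => ⟨⟨(d.1 : Γ), (hT _).mpr d.2⟩, Subgroup.mem_subgroupOf.mpr d.1.2⟩
      left_inv := fun _ => rfl
      right_inv := fun _ => rfl }

end

end Pool.Agent.Zk54.MQ.E4

end

end FileB

section FileC

noncomputable section

open scoped BigOperators Classical


namespace Pool.Agent.Zk54.MQ.E4

open Pool.Agent.Helper884 Pool.Agent.H254R3.IN
open Pool.Agent.K3h3.KB Pool.Agent.K3h3.MK
open Pool.Agent.Y63.AWC (cj mult cj_mul cj_one cj_inv_iff cj_irr mult_cj mult_spec)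
open Pool.Agent.R678.MC (inert mem_inert orbit_of_mult exists_under hat)
open IC (Irr)
open Pool.Agent.K3h83.IN (ov wo wo_eq wo_congr ov_iff fixes S1 S3 S3a S3b)

section

variable {Γ : Type} [Group Γ] [Fintype Γ]

theorem ov_mult (L : Subgroup Γ) [L.Normal] [Fintype L] {ψ : Γ → ℂ} (hψ : IsIrr ψ) {χ : L → ℂ}
    (hχ : IsIrr χ) : ov L.subtype χ ψ ↔ mult L ψ χ ≠ 0 := by
  rw [ov_iff]
  refine not_congr ?_
  rw [← Nat.cast_eq_zero (R := ℂ), ← mult_spec L hψ hχ]
  have h : (fun l : L => ψ (L.subtype l)) = Pool.Agent.Y63.AWC.res L ψ := rfl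
  rw [h]
  unfold IC.B
  constructor
  · intro h1
    rw [← h1]
    congr 1
    refine Finset.sum_congr ?_ fun _ _ => rfl
    exact congrArg (fun i : Fintype L => @Finset.univ L i) (Subsingleton.elim _ _)
  · intro h1
    rw [← h1]
    congr 1
    refine Finset.sum_congr ?_ fun _ _ => rfl
    exact congrArg (fun i : Fintype L => @Finset.univ L i) (Subsingleton.elim _ _)

theorem orbit_sum (L D : Subgroup Γ) [L.Normal] [Fintype L] (hLD : L ⊔ D = ⊤) {ψ : Γ → ℂ}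
    (hψ : IsIrr ψ) :
    ∑ χ ∈ (Irr L).filter (fun χ => ov L.subtype χ ψ), Nat.card {d : D // fixes L.subtype χ d} =
      Nat.card D := by
  obtain ⟨χ₁, hχ₁, hm₁⟩ := exists_under (N := L) hψ
  rw [Nat.card_eq_fintype_card (α := D), ← Finset.card_univ,
    Finset.card_eq_sum_card_fiberwise (f := fun d : D => cj L (d : Γ) χ₁)
      (t := (Irr L).filter (fun χ => ov L.subtype χ ψ))]
  · refine Finset.sum_congr rfl fun χ hχ => ?_
    rw [Finset.mem_filter] at hχ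
    have hχi := mem_Irr.mp hχ.1
    have hmχ := (ov_mult L hψ hχi).mp hχ.2
    obtain ⟨x, hx⟩ := orbit_of_mult hψ hχi hχ₁ hmχ hm₁
    have hxt : x ∈ L ⊔ D := by rw [hLD]; trivial
    obtain ⟨l, hl, d₀, hd₀, rfl⟩ := Subgroup.mem_sup_of_normal_left.mp hxt
    have h1 : cj L l χ₁ = χ₁ := by
      rw [← fixes_iff]
      rintro a b hab
      have hl2 : b = (⟨l, hl⟩ : L) * a * (⟨l, hl⟩ : L)⁻¹ := Subtype.ext hab.symm
      rw [hl2]
      exact IC.IsIrrChar.isClass hχ₁ _ _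
    rw [cj_mul, h1] at hx
    rw [← Fintype.card_subtype, ← Nat.card_eq_fintype_card]
    refine Nat.card_congr ⟨fun y => ⟨(⟨d₀, hd₀⟩ : D) * y.1, ?_⟩,
      fun y => ⟨(⟨d₀, hd₀⟩ : D)⁻¹ * y.1, ?_⟩, ?_, ?_⟩
    · change cj L (d₀ * (y.1 : Γ)) χ₁ = χ
      rw [cj_mul, hx]
      exact (fixes_iff L χ _).mp y.2
    · rw [fixes_iff]
      have h2 : cj L ((y.1 : D) : Γ) χ₁ = χ := y.2
      have h3 : cj L (d₀⁻¹ * ((y.1 : D) : Γ)) (cj L d₀ χ₁) = cj L ((y.1 : D) : Γ) χ₁ := by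
        rw [← cj_mul, mul_inv_cancel_left]
      rw [hx, h2] at h3
      exact h3
    · intro y
      exact Subtype.ext (inv_mul_cancel_left _ _)
    · intro y
      exact Subtype.ext (mul_inv_cancel_left _ _)
  · intro d _
    simp only [Finset.coe_filter, Set.mem_ofPred_eq]
    refine ⟨mem_Irr.mpr (cj_irr L _ hχ₁), ?_⟩
    rw [ov_mult L hψ (cj_irr L _ hχ₁), mult_cj L hψ hχ₁]
    exact hm₁

/-- lying over a character of a central subgroup -/
theorem ov_central {A G : Type} [Group A] [Fintype A] [Group G] (j : A →* G) {ψ : G → ℂ} (hψ : IsIrr ψ) {μ : A →* ℂˣ}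
    (hμ : ∀ a x, ψ (j a * x) = ((μ a : ℂˣ) : ℂ) * ψ x) {nu : A → ℂ} (hnu : IsIrr nu) :
    ov j nu ψ ↔ (fun a => ((μ a : ℂˣ) : ℂ)) = nu := by
  have h1 : (fun a => ψ (j a)) = ψ 1 • fun a => ((μ a : ℂˣ) : ℂ) := by
    funext a
    have h2 := hμ a 1
    rw [mul_one] at h2
    rw [h2, Pi.smul_apply, smul_eq_mul, mul_comm]
  have h3 : ψ 1 ≠ 0 := by
    rw [← ndeg_cast hψ]
    exact_mod_cast (ndeg_pos hψ).ne'
  rw [ov_iff, h1, IC.B_smul_left, IC.B_irr (Pool.Agent.K3h18.IN.lin μ) hnu]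
  by_cases h : (fun a => ((μ a : ℂˣ) : ℂ)) = nu
  · rw [if_pos h]
    simp [h, h3]
  · rw [if_neg h]
    simp [h]

theorem ov_ov (L Z : Subgroup Γ) [L.Normal] [Fintype L] (hZL : Z ≤ L) (hZ : Z ≤ Subgroup.center Γ)
    {nu : Z → ℂ} (hnu : IsIrr nu) {ψ : Γ → ℂ} (hψ : IsIrr ψ) {χ : L → ℂ} (hχ : IsIrr χ)
    (h : ov L.subtype χ ψ) : ov Z.subtype nu ψ ↔ ov (Subgroup.inclusion hZL) nu χ := by
  haveI : Fintype Z := Fintype.ofFinite Z
  obtain ⟨μ, hμ⟩ := Pool.Agent.K3h18.IN.central Z.subtype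
    (by rw [Subgroup.range_subtype]; exact hZ) hψ
  have hc : ∀ (z : Z) (l : L), (Subgroup.inclusion hZL z) * l = l * (Subgroup.inclusion hZL z) := by
    intro z l
    exact Subtype.ext (Subgroup.mem_center_iff.mp (hZ z.2) l).symm
  obtain ⟨μ', hμ'⟩ := Pool.Agent.K3h18.IN.central (Subgroup.inclusion hZL)
    (by
      rintro _ ⟨z, rfl⟩
      rw [Subgroup.mem_center_iff]
      exact fun l => (hc z l).symm) hχ
  rw [ov_central Z.subtype hψ hμ hnu, ov_central (Subgroup.inclusion hZL) hχ hμ' hnu]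
  have key : ∀ z, μ z = μ' z := by
    intro z
    rw [ov_iff] at h
    have h1 : ∑ l : L, ψ (L.subtype l) * χ l⁻¹ ≠ 0 := by
      intro h0
      apply h
      unfold IC.B
      rw [h0, mul_zero]
    have h2 : ∑ l : L, ψ (L.subtype l) * χ l⁻¹ =
        (((μ z : ℂˣ) : ℂ) * ((μ' z⁻¹ : ℂˣ) : ℂ)) * ∑ l : L, ψ (L.subtype l) * χ l⁻¹ := by
      rw [Finset.mul_sum]
      refine (Fintype.sum_equiv (Equiv.mulLeft (Subgroup.inclusion hZL z)) _ _ fun l => ?_).symm
      rw [Equiv.coe_mulLeft, mul_inv_rev]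
      have e1 : ψ (L.subtype (Subgroup.inclusion hZL z * l)) = ((μ z : ℂˣ) : ℂ) * ψ (L.subtype l) :=
        hμ z (L.subtype l)
      have e2 : χ (l⁻¹ * (Subgroup.inclusion hZL z)⁻¹) = ((μ' z⁻¹ : ℂˣ) : ℂ) * χ l⁻¹ := by
        rw [← map_inv, ← hc, hμ']
      rw [e1, e2]
      ring
    have h3 : ((μ z : ℂˣ) : ℂ) * ((μ' z⁻¹ : ℂˣ) : ℂ) = 1 :=
      mul_right_cancel₀ h1 (by rw [← h2, one_mul])
    rw [map_inv] at h3
    have h4 : μ z * (μ' z)⁻¹ = 1 := Units.ext h3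
    exact mul_inv_eq_one.mp h4
  have e : (fun a => ((μ a : ℂˣ) : ℂ)) = fun a => ((μ' a : ℂˣ) : ℂ) := by
    funext a
    rw [key]
  rw [e]

end

end Pool.Agent.Zk54.MQ.E4

namespace Pool.Agent.Zk54.MQ

open Pool.Agent.Helper884 Pool.Agent.H254R3.IN
open Pool.Agent.K3h3.KB Pool.Agent.K3h3.MK
open IC (Irr)
open Pool.Agent.K3h83.IN (ov wo wo_eq fixes S1 S3 S3a S3b)

/-- E4a: the characters over a central character in an extension by a cyclic complement -/
theorem cyc_cliff (s1 : S1) (s3b : S3b) {Γ : Type} [Group Γ] [Finite Γ] (L D Z : Subgroup Γ)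
    (hL : L.Normal) (hLD : L ⊔ D = ⊤) (hLD' : L ⊓ D = ⊥) (hD : IsCyclic D) (hZL : Z ≤ L)
    (hZ : Z ≤ Subgroup.center Γ) (nu : Z → ℂ) (hnu : IsIrr nu) {R : Type} [CommRing R]
    [Fintype L] (w : ℕ →* R) :
    (Nat.card D : R) * wo w Z.subtype nu =
      ∑ χ ∈ (Irr L).filter (ov (Subgroup.inclusion hZL) nu),
        (Nat.card {d : D // fixes L.subtype χ d} : R) ^ 2 *
          (w (Nat.card D / Nat.card {d : D // fixes L.subtype χ d}) * w (ndeg χ)) := by
  haveI := hL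
  haveI := Fintype.ofFinite Γ
  have h1 : ∀ χ ∈ (Irr L).filter (ov (Subgroup.inclusion hZL) nu),
      (Nat.card {d : D // fixes L.subtype χ d} : R) ^ 2 *
          (w (Nat.card D / Nat.card {d : D // fixes L.subtype χ d}) * w (ndeg χ)) =
      ∑ ψ ∈ (Irr Γ).filter (ov L.subtype χ),
        (Nat.card {d : D // fixes L.subtype χ d} : R) * w (ndeg ψ) := by
    intro χ hχ
    rw [← Finset.mul_sum, ← wo_eq,
      E4.wo_cyc s1 L D hL hLD hLD' hD (mem_Irr.mp (Finset.mem_filter.mp hχ).1) w]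
    ring
  rw [Finset.sum_congr rfl h1, wo_eq, Finset.mul_sum]
  have h2 : ∀ ψ ∈ (Irr Γ).filter (ov Z.subtype nu), (Nat.card D : R) * w (ndeg ψ) =
      ∑ χ ∈ (Irr L).filter (fun χ => ov L.subtype χ ψ),
        (Nat.card {d : D // fixes L.subtype χ d} : R) * w (ndeg ψ) := by
    intro ψ hψ
    rw [← Finset.sum_mul, ← E4.orbit_sum L D hLD (mem_Irr.mp (Finset.mem_filter.mp hψ).1),
      Nat.cast_sum]
  rw [Finset.sum_congr rfl h2]
  refine Finset.sum_comm' fun ψ χ => ?_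
  rw [Finset.mem_filter, Finset.mem_filter, Finset.mem_filter, Finset.mem_filter]
  constructor
  · rintro ⟨⟨a, b⟩, c, d⟩
    exact ⟨⟨a, d⟩, c, (E4.ov_ov L Z hZL hZ hnu (mem_Irr.mp a) (mem_Irr.mp c) d).mp b⟩
  · rintro ⟨⟨a, d⟩, c, b⟩
    exact ⟨⟨a, (E4.ov_ov L Z hZL hZ hnu (mem_Irr.mp a) (mem_Irr.mp c) d).mpr b⟩, c, d⟩

end Pool.Agent.Zk54.MQ

end

end FileC

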