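import Pool.Agent.Zk54.MQ.E4a
import Pool.Agent.K3h83.PI.Sub

/-!
# Extensions of a group with cyclic Sylow subgroups by a cyclic group of automorphisms
-/

set_option autoImplicit false
set_option linter.unusedSectionVars false
set_option linter.style.haveILetI false

open scoped BigOperators Classical

noncomputable section

namespace Pool.Agent.Zk54.MQ

open Pool.Agent.Helper884 Pool.Agent.H254R3.IN
open Pool.Agent.K3h3.KB Pool.Agent.K3h3.MK
open IC (Irr)
open Pool.Agent.K3h83.IN (ov wo fixes S1 S3 S3a S3b ov_congr wo_congr a_S1 a_S3 a_S4 a_S5 a_S6)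

section

variable {V C Z : Type} [Group V] [Finite V] [Group C] [Finite C] [Group Z] [Finite Z]

instance finSD (φ : C →* MulAut V) : Finite (V ⋊[φ] C) :=
  Finite.of_equiv _ (SemidirectProduct.equivProd (φ := φ)).symm

theorem card_SD (φ : C →* MulAut V) : Nat.card (V ⋊[φ] C) = Nat.card V * Nat.card C := by
  rw [Nat.card_congr (SemidirectProduct.equivProd (φ := φ)), Nat.card_prod]

theorem conj_SD (φ : C →* MulAut V) (γ : V ⋊[φ] C) (v : V) :
    γ * SemidirectProduct.inl v * γ⁻¹ =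
      SemidirectProduct.inl (γ.left * φ γ.right v * γ.left⁻¹) := by
  refine SemidirectProduct.ext ?_ ?_
  · simp
  · simp

/-- the characters over a central character in a semidirect product with a cyclic group -/
theorem cliffSD [Fintype V] (hC : IsCyclic C) (φ : C →* MulAut V) (i : Z →* V)
    (hi : Function.Injective i) (hZ : i.range ≤ Subgroup.center V) (hφ : ∀ c z, φ c (i z) = i z)
    (nu : Z → ℂ) (hnu : IsIrr nu) {R : Type} [CommRing R] (w : ℕ →* R) :
    (Nat.card C : R) * wo w ((SemidirectProduct.inl : V →* V ⋊[φ] C).comp i) nu =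
      ∑ χ ∈ (Irr V).filter (ov i nu),
        (Nat.card {c : C // ∀ v, χ (φ c v) = χ v} : R) ^ 2 *
          (w (Nat.card C / Nat.card {c : C // ∀ v, χ (φ c v) = χ v}) * w (ndeg χ)) := by
  obtain ⟨L, hL⟩ : ∃ L, L = (SemidirectProduct.inl : V →* V ⋊[φ] C).range := ⟨_, rfl⟩
  obtain ⟨D, hD⟩ : ∃ D, D = (SemidirectProduct.inr : C →* V ⋊[φ] C).range := ⟨_, rfl⟩
  let e : V ≃* L := (MonoidHom.ofInjective SemidirectProduct.inl_injective).trans
    (MulEquiv.subgroupCongr hL.symm)
  let eD : C ≃* D := (MonoidHom.ofInjective SemidirectProduct.inr_injective).trans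
    (MulEquiv.subgroupCongr hD.symm)
  have he : ∀ v, ((e v : L) : V ⋊[φ] C) = SemidirectProduct.inl v := fun v => rfl
  have heD : ∀ c, ((eD c : D) : V ⋊[φ] C) = SemidirectProduct.inr c := fun v => rfl
  have hLn : L.Normal := by
    rw [hL, SemidirectProduct.range_inl_eq_ker_rightHom]
    infer_instance
  have hLD : L ⊔ D = ⊤ := by
    rw [eq_top_iff]
    intro x _
    rw [← SemidirectProduct.inl_left_mul_inr_right x]
    exact Subgroup.mul_mem_sup (hL ▸ ⟨x.left, rfl⟩) (hD ▸ ⟨x.right, rfl⟩)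
  have hLD' : L ⊓ D = ⊥ := by
    rw [eq_bot_iff]
    rintro x ⟨h1, h2⟩
    rw [SetLike.mem_coe, hL] at h1
    rw [SetLike.mem_coe, hD] at h2
    obtain ⟨v, rfl⟩ := h1
    obtain ⟨c, hc⟩ := h2
    have h3 : c = 1 := congrArg SemidirectProduct.right hc
    rw [Subgroup.mem_bot, ← hc, h3, map_one]
  have hDc : IsCyclic D := isCyclic_of_surjective eD.toMonoidHom eD.surjective
  obtain ⟨jj, hjj⟩ : ∃ jj : Z →* V ⋊[φ] C, jj = (SemidirectProduct.inl).comp i := ⟨_, rfl⟩
  have hjinj : Function.Injective jj := by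
    rw [hjj]
    exact SemidirectProduct.inl_injective.comp hi
  have hZc : jj.range ≤ Subgroup.center (V ⋊[φ] C) := by
    rintro _ ⟨z, rfl⟩
    rw [Subgroup.mem_center_iff]
    intro γ
    rw [hjj]
    have h1 := conj_SD φ γ (i z)
    rw [hφ, Subgroup.mem_center_iff.mp (hZ ⟨z, rfl⟩) γ.left, mul_inv_cancel_right] at h1
    rw [← mul_inv_eq_iff_eq_mul]
    exact h1
  have hZL : jj.range ≤ L := by
    rintro _ ⟨z, rfl⟩
    rw [hL, hjj]
    exact ⟨i z, rfl⟩
  let f : Z ≃* jj.range := MonoidHom.ofInjective hjinj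
  have hf : ∀ z, ((f z : jj.range) : V ⋊[φ] C) = SemidirectProduct.inl (i z) := by
    intro z
    show jj z = _
    rw [hjj]
    rfl
  let nu' : jj.range → ℂ := fun x => nu (f.symm x)
  have hnu' : IsIrr nu' := Pool.Agent.Q90.WR.irr_comp f.symm hnu
  haveI : Fintype L := Fintype.ofFinite L
  have main := cyc_cliff a_S1 Pool.Agent.K3h18.IN.t_S3b L D jj.range hLn hLD hLD' hDc hZL hZc nu' hnu' w
  have e1 : wo w jj nu = wo w jj.range.subtype nu' :=
    wo_congr w f (MulEquiv.refl _) jj jj.range.subtype (fun l => rfl) nu nu'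
      (fun l => by simp [nu'])
  have e2 : Nat.card D = Nat.card C := Nat.card_congr eD.symm.toEquiv
  rw [← e1, e2] at main
  rw [← hjj, main]
  have hov : ∀ χ : L → ℂ, ov i nu (fun v => χ (e v)) ↔ ov (Subgroup.inclusion hZL) nu' χ := by
    intro χ
    refine ov_congr f e i (Subgroup.inclusion hZL) (fun l => ?_) nu nu' (fun l => by simp [nu']) χ
    apply Subtype.ext
    rw [he]
    exact (hf l).symm
  have hcard : ∀ χ : L → ℂ, Nat.card {d : D // fixes L.subtype χ d} =
      Nat.card {c : C // ∀ v, χ (e (φ c v)) = χ (e v)} := by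
    intro χ
    refine Nat.card_congr (Equiv.subtypeEquiv eD.symm.toEquiv fun d => ?_)
    obtain ⟨c, rfl⟩ := eD.surjective d
    have h0 : eD.symm.toEquiv (eD c) = c := eD.symm_apply_apply c
    rw [h0]
    have hc : ∀ v, (eD c : V ⋊[φ] C) * L.subtype (e v) * (eD c : V ⋊[φ] C)⁻¹ =
        L.subtype (e (φ c v)) := by
      intro v
      show (eD c : V ⋊[φ] C) * (e v : V ⋊[φ] C) * (eD c : V ⋊[φ] C)⁻¹ = (e (φ c v) : V ⋊[φ] C)
      rw [he, he, heD, conj_SD]
      simp
    constructor
    · intro h v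
      exact h (e v) (e (φ c v)) (hc v)
    · intro h l l' hl
      obtain ⟨v, rfl⟩ := e.surjective l
      rw [hc] at hl
      rw [← h v]
      exact congrArg χ (Subtype.ext hl.symm)
  symm
  refine Finset.sum_bij' (fun χ _ => fun l => χ (e.symm l)) (fun χ _ => fun v => χ (e v))
    ?_ ?_ ?_ ?_ ?_
  · intro χ hχ
    rw [Finset.mem_filter] at hχ ⊢
    refine ⟨mem_Irr.mpr (Pool.Agent.Q90.WR.irr_comp e.symm (mem_Irr.mp hχ.1)), ?_⟩
    rw [← hov]
    have h2 : (fun g => χ (e.symm (e g))) = χ := by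
      funext g
      rw [e.symm_apply_apply]
    rw [h2]
    exact hχ.2
  · intro χ hχ
    rw [Finset.mem_filter] at hχ ⊢
    exact ⟨mem_Irr.mpr (Pool.Agent.Q90.WR.irr_comp e (mem_Irr.mp hχ.1)), (hov χ).mpr hχ.2⟩
  · intro χ _
    funext g
    simp
  · intro χ _
    funext g
    simp
  · intro χ _
    rw [hcard]
    have h3 : ndeg (fun l => χ (e.symm l)) = ndeg χ := by
      unfold ndeg
      simp
    rw [h3]
    simp only [e.symm_apply_apply]

end

section

variable {p : ℕ} [hp : Fact p.Prime]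

/-- the central characters in the extensions of `U` and of the Sylow normalizer -/
theorem relSD {U C : Type} [Group U] [Finite U] [Group C] [Finite C] (hpC : ¬ p ∣ Nat.card C)
    (φ : C →* MulAut U) (hcyc : ∀ Q : Sylow p U, IsCyclic Q) (Q : Sylow p U)
    (hle : Subgroup.center U ≤ NN Q) (hQ : ∀ c, ∀ x ∈ Q, φ c x ∈ Q) (ψ : C →* MulAut (NN Q))
    (hψ : ∀ c x, (ψ c x : U) = φ c x) (hfix : ∀ c, ∀ z ∈ Subgroup.center U, φ c z = z)
    (nu : Subgroup.center U → ℂ) (hnu : IsIrr nu) :
    wo (cl p) ((SemidirectProduct.inl : U →* U ⋊[φ] C).comp (Subgroup.center U).subtype) nu =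
      wo (cl p) ((SemidirectProduct.inl : NN Q →* NN Q ⋊[ψ] C).comp (Subgroup.inclusion hle)) nu := by
  obtain ⟨j, hj⟩ : ∃ j : Subgroup.center U →* U ⋊[φ] C,
    j = (SemidirectProduct.inl).comp (Subgroup.center U).subtype := ⟨_, rfl⟩
  have hjz : ∀ z, j z = SemidirectProduct.inl (z : U) := by
    intro z
    rw [hj]
    rfl
  rw [← hj]
  have hjinj : Function.Injective j := by
    rw [hj]
    exact SemidirectProduct.inl_injective.comp (Subgroup.center U).subtype_injective
  have hZc : j.range ≤ Subgroup.center (U ⋊[φ] C) := by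
    rintro _ ⟨z, rfl⟩
    rw [Subgroup.mem_center_iff]
    intro γ
    rw [hjz]
    have h1 := conj_SD φ γ (z : U)
    rw [hfix _ _ z.2, Subgroup.mem_center_iff.mp z.2 γ.left, mul_inv_cancel_right] at h1
    rw [← mul_inv_eq_iff_eq_mul]
    exact h1
  have hnorm : j.range.Normal := by
    constructor
    intro x hx γ
    rw [Subgroup.mem_center_iff.mp (hZc hx) γ, mul_inv_cancel_right]
    exact hx
  -- the Sylow subgroup
  have hidx : ¬ p ∣ ((Q : Subgroup U).map (SemidirectProduct.inl : U →* U ⋊[φ] C)).index := by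
    rw [Subgroup.index_map_of_injective _ SemidirectProduct.inl_injective,
      SemidirectProduct.range_inl_eq_ker_rightHom, Subgroup.index_ker,
      MonoidHom.range_eq_top_of_surjective _ SemidirectProduct.rightHom_surjective,
      Subgroup.card_top, hp.out.dvd_mul]
    exact fun h => h.elim Q.not_dvd_index hpC
  obtain ⟨P, hP⟩ : ∃ P : Sylow p (U ⋊[φ] C),
      (P : Subgroup (U ⋊[φ] C)) = (Q : Subgroup U).map SemidirectProduct.inl :=
    ⟨(Q.isPGroup'.map _).toSylow hidx, rfl⟩
  have hmemP : ∀ u : U, (SemidirectProduct.inl u : U ⋊[φ] C) ∈ P ↔ u ∈ Q := by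
    intro u
    show (SemidirectProduct.inl u : U ⋊[φ] C) ∈ (P : Subgroup (U ⋊[φ] C)) ↔ u ∈ (Q : Subgroup U)
    rw [hP, Subgroup.mem_map_iff_mem SemidirectProduct.inl_injective]
  have hPc : IsCyclic P := by
    haveI := hcyc Q
    have h1 : IsCyclic ((Q : Subgroup U).map (SemidirectProduct.inl : U →* U ⋊[φ] C)) :=
      isCyclic_of_surjective ((SemidirectProduct.inl : U →* U ⋊[φ] C).subgroupMap Q)
        (MonoidHom.subgroupMap_surjective _ _)
    show IsCyclic (P : Subgroup (U ⋊[φ] C))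
    rw [hP]
    exact h1
  have hG : Pool.Agent.K3h83.PI.SeP p (U ⋊[φ] C) := by
    refine Pool.Agent.K3h83.PI.SeP_of_cyclic fun R => ?_
    haveI := hPc
    exact isCyclic_of_surjective (Sylow.equiv P R).toMonoidHom (Sylow.equiv P R).surjective
  let F : NN Q ⋊[ψ] C →* U ⋊[φ] C := SemidirectProduct.map (NN Q).subtype (MonoidHom.id C) (by
    intro c
    ext x
    exact hψ c x)
  have hFl : ∀ γ, (F γ).left = (γ.left : U) := fun γ => rfl
  have hFr : ∀ γ, (F γ).right = γ.right := fun γ => rfl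
  have hFinj : Function.Injective F := by
    intro x y hxy
    refine SemidirectProduct.ext (Subtype.ext ?_) ?_
    · rw [← hFl, ← hFl, hxy]
    · rw [← hFr, ← hFr, hxy]
  have hFN : F.range = NN P := by
    apply le_antisymm
    · rintro _ ⟨γ, rfl⟩
      refine Subgroup.mem_normalizer_fintype fun x hx => ?_
      have hx' : x ∈ (P : Subgroup (U ⋊[φ] C)) := hx
      rw [hP] at hx'
      obtain ⟨q, hq, rfl⟩ := hx'
      show _ ∈ P
      rw [conj_SD, hmemP, hFl, hFr]
      exact (Subgroup.mem_normalizer_iff.mp γ.left.2 _).mp (hQ _ _ hq)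
    · intro γ hγ
      have h1 : γ.left ∈ NN Q := by
        refine Subgroup.mem_normalizer_fintype fun x hx => ?_
        have h2 : φ γ.right⁻¹ x ∈ Q := hQ _ _ hx
        have h3 := (Subgroup.mem_normalizer_iff.mp hγ _).mp ((hmemP _).mpr h2)
        have h4 : γ * SemidirectProduct.inl (φ γ.right⁻¹ x) * γ⁻¹ ∈ P := h3
        rw [conj_SD, hmemP, ← MulAut.mul_apply, ← map_mul, mul_inv_cancel, map_one,
          MulAut.one_apply] at h4
        exact h4
      exact ⟨⟨⟨γ.left, h1⟩, γ.right⟩, rfl⟩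
  have hjN : j.range ≤ NN P := Pool.Agent.K3h83.IN.le_NN_of_center P hZc
  have hjF : ∀ z, j z ∈ F.range := fun z => hFN ▸ hjN ⟨z, rfl⟩
  let jX : Subgroup.center U →* F.range := j.codRestrict F.range hjF
  have hrel := Pool.Agent.K3h83.PI.rel (p := p) a_S1 a_S6 a_S3 a_S4 a_S5
    (Pool.Agent.K3h83.PI.cls_SeP p) j hjinj hnorm nu hnu P
    (fun x _ l l' hl => by
      have h1 : x * j l * x⁻¹ = j l := by
        rw [Subgroup.mem_center_iff.mp (hZc ⟨l, rfl⟩) x, mul_inv_cancel_right]
      rw [h1] at hl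
      rw [hjinj hl])
    hG (fun Y _ _ hY _ R => Pool.Agent.K3h83.PI.sec_main Y hY R) F.range
    (by rw [hFN]; exact (sup_eq_right.mpr hjN).symm) jX (fun l => rfl)
  rw [hrel]
  symm
  refine wo_congr (cl p) (MulEquiv.refl _) (MonoidHom.ofInjective hFinj) _ jX (fun l => ?_) nu nu
    (fun _ => rfl)
  apply Subtype.ext
  show F (SemidirectProduct.inl (Subgroup.inclusion hle l)) = j l
  rw [hjz]
  refine SemidirectProduct.ext ?_ ?_
  · rfl
  · rfl

end

end Pool.Agent.Zk54.MQ
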