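import Pool.Agent.Zk54.MQ.Def0

/-! # Conjugates of a simple subnormal subgroup -/

set_option autoImplicit false

noncomputable section

open scoped commutatorElement

namespace Pool.Agent.Zk54.MQ

section Y

variable {Y : Type} [Group Y] [Finite Y] {M S : Subgroup Y}

/-- different conjugates of `S` commute -/
theorem comm_conj (hM : M.Normal) (hSM : S ≤ M) (hMS : ∀ m ∈ M, ∀ s ∈ S, m * s * m⁻¹ ∈ S)
    (hs : IsSimpleGroup S) (h : Y) (hn : ¬ ∀ s ∈ S, h * s * h⁻¹ ∈ S) (s s' : Y) (hs1 : s ∈ S)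
    (hs2 : s' ∈ S) : s * (h * s' * h⁻¹) = (h * s' * h⁻¹) * s := by
  have hconj : ∀ g ∈ S, h⁻¹ * g * h ∈ M := by
    intro g hg
    have h1 := hM.conj_mem g (hSM hg) h⁻¹
    rwa [inv_inv] at h1
  have hconj' : ∀ g ∈ S, h * g * h⁻¹ ∈ M := fun g hg => hM.conj_mem g (hSM hg) h
  let K : Subgroup S :=
    { carrier := {k | h⁻¹ * (k : Y) * h ∈ S}
      mul_mem' := by
        intro a b ha hb
        change h⁻¹ * ((a : Y) * b) * h ∈ S
        have : h⁻¹ * ((a : Y) * b) * h = (h⁻¹ * a * h) * (h⁻¹ * b * h) := by group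
        rw [this]
        exact S.mul_mem ha hb
      one_mem' := by
        change h⁻¹ * (1 : Y) * h ∈ S
        rw [mul_one, inv_mul_cancel]
        exact S.one_mem
      inv_mem' := by
        intro a ha
        change h⁻¹ * ((a : Y)⁻¹) * h ∈ S
        have : h⁻¹ * ((a : Y)⁻¹) * h = (h⁻¹ * a * h)⁻¹ := by group
        rw [this]
        exact S.inv_mem ha }
  have hKmem : ∀ k : S, k ∈ K ↔ h⁻¹ * (k : Y) * h ∈ S := fun k => Iff.rfl
  have hK : K.Normal := by
    constructor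
    intro k hk g
    rw [hKmem] at hk ⊢
    have : h⁻¹ * ((g * k * g⁻¹ : S) : Y) * h =
        (h⁻¹ * (g : Y) * h) * (h⁻¹ * (k : Y) * h) * (h⁻¹ * (g : Y) * h)⁻¹ := by
      push_cast
      group
    rw [this]
    exact hMS _ (hconj _ g.2) _ hk
  rcases hs.eq_bot_or_eq_top_of_normal K hK with h1 | h1
  · have h2 : ∀ c ∈ S, h⁻¹ * c * h ∈ S → c = 1 := by
      intro c hc hc'
      have h3 : (⟨c, hc⟩ : S) ∈ K := hc'
      rw [h1, Subgroup.mem_bot] at h3
      exact congrArg Subtype.val h3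
    have h3 : s * (h * s' * h⁻¹) * s⁻¹ * (h * s' * h⁻¹)⁻¹ = 1 := by
      apply h2
      · have : s * (h * s' * h⁻¹) * s⁻¹ * (h * s' * h⁻¹)⁻¹ =
            s * ((h * s' * h⁻¹) * s⁻¹ * (h * s' * h⁻¹)⁻¹) := by group
        rw [this]
        exact S.mul_mem hs1 (hMS _ (hconj' _ hs2) _ (S.inv_mem hs1))
      · have : h⁻¹ * (s * (h * s' * h⁻¹) * s⁻¹ * (h * s' * h⁻¹)⁻¹) * h =
            ((h⁻¹ * s * h) * s' * (h⁻¹ * s * h)⁻¹) * s'⁻¹ := by group
        rw [this]
        exact S.mul_mem (hMS _ (hconj _ hs1) _ hs2) (S.inv_mem hs2)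
    calc s * (h * s' * h⁻¹) = (s * (h * s' * h⁻¹) * s⁻¹ * (h * s' * h⁻¹)⁻¹) *
          ((h * s' * h⁻¹) * s) := by group
      _ = _ := by rw [h3, one_mul]
  · exfalso
    apply hn
    have h2 : h⁻¹ ∈ Subgroup.normalizer (S : Set Y) := by
      apply Subgroup.mem_normalizer_fintype
      intro n hn'
      have h3 : (⟨n, hn'⟩ : S) ∈ K := by rw [h1]; trivial
      rw [hKmem] at h3
      rw [inv_inv]
      exact h3
    have h3 := (Subgroup.normalizer (S : Set Y)).inv_mem h2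
    rw [inv_inv] at h3
    intro s hs
    exact (h3 s).1 hs

/-- `S` is not abelian -/
theorem exists_noncomm (hM : M.Normal) (hmin : ∀ L : Subgroup Y, L.Normal → L ≠ ⊥ → M ≤ L)
    (hSM : S ≤ M) (hMS : ∀ m ∈ M, ∀ s ∈ S, m * s * m⁻¹ ∈ S) (hs : IsSimpleGroup S)
    (hna : ∃ a ∈ M, ∃ b ∈ M, a * b ≠ b * a) : ∃ s ∈ S, ∃ s' ∈ S, s * s' ≠ s' * s := by
  by_contra hcon
  push Not at hcon
  have h1 : ∀ h s s' : Y, s ∈ S → s' ∈ S → s * (h * s' * h⁻¹) = (h * s' * h⁻¹) * s := by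
    intro h s s' hs1 hs2
    by_cases hn : ∀ s ∈ S, h * s * h⁻¹ ∈ S
    · exact hcon _ hs1 _ (hn _ hs2)
    · exact comm_conj hM hSM hMS hs h hn s s' hs1 hs2
  have hne : Subgroup.normalClosure (S : Set Y) ≠ ⊥ := by
    intro h
    rw [Subgroup.normalClosure_eq_bot_iff] at h
    have := hs.toNontrivial
    obtain ⟨a, ha⟩ := exists_ne (1 : S)
    apply ha
    exact Subtype.ext (h a.2)
  have hle := hmin _ Subgroup.normalClosure_normal hne
  have hK : ∀ a ∈ Group.conjugatesOfSet (S : Set Y), ∀ b ∈ Group.conjugatesOfSet (S : Set Y),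
      a * b = b * a := by
    intro a ha b hb
    rw [Group.mem_conjugatesOfSet_iff] at ha hb
    obtain ⟨s, hs1, hsa⟩ := ha
    obtain ⟨s', hs2, hsb⟩ := hb
    rw [isConj_iff] at hsa hsb
    obtain ⟨y, rfl⟩ := hsa
    obtain ⟨z, rfl⟩ := hsb
    have h2 := h1 (y⁻¹ * z) s s' hs1 hs2
    calc y * s * y⁻¹ * (z * s' * z⁻¹) = y * (s * ((y⁻¹ * z) * s' * (y⁻¹ * z)⁻¹)) * y⁻¹ := by group
      _ = y * (((y⁻¹ * z) * s' * (y⁻¹ * z)⁻¹) * s) * y⁻¹ := by rw [h2]
      _ = _ := by group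
  have h2 : Subgroup.closure (Group.conjugatesOfSet (S : Set Y)) ≤
      Subgroup.centralizer (Group.conjugatesOfSet (S : Set Y)) := by
    rw [Subgroup.closure_le]
    intro a ha
    rw [SetLike.mem_coe, Subgroup.mem_centralizer_iff]
    intro b hb
    exact hK b hb a ha
  have h3 : Subgroup.closure (Group.conjugatesOfSet (S : Set Y)) ≤
      Subgroup.centralizer (Subgroup.closure (Group.conjugatesOfSet (S : Set Y)) : Set Y) := by
    rw [Subgroup.closure_le]
    intro a ha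
    rw [SetLike.mem_coe, Subgroup.mem_centralizer_iff]
    intro b hb
    have h4 := h2 hb
    rw [Subgroup.mem_centralizer_iff] at h4
    exact (h4 a ha).symm
  obtain ⟨a, ha, b, hb, hab⟩ := hna
  apply hab
  have h5 := h3 (hle ha)
  rw [Subgroup.mem_centralizer_iff] at h5
  exact (h5 b (hle hb)).symm

end Y

section S

variable {Y : Type} [Group Y] {S : Subgroup Y}

theorem S_perfect (hs : IsSimpleGroup S) (hn : ∃ s ∈ S, ∃ s' ∈ S, s * s' ≠ s' * s) :
    ⁅S, S⁆ = S := by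
  rw [← Subgroup.map_subtype_commutator]
  rcases hs.eq_bot_or_eq_top_of_normal (commutator S) inferInstance with h | h
  · exfalso
    obtain ⟨s, hs1, s', hs2, h1⟩ := hn
    apply h1
    rw [commutator_eq_bot_iff_center_eq_top] at h
    have h2 : (⟨s, hs1⟩ : S) ∈ Subgroup.center S := by rw [h]; trivial
    rw [Subgroup.mem_center_iff] at h2
    exact (congrArg Subtype.val (h2 ⟨s', hs2⟩)).symm
  · rw [h, ← MonoidHom.range_eq_map, Subgroup.range_subtype]

theorem S_center (hs : IsSimpleGroup S) (hn : ∃ s ∈ S, ∃ s' ∈ S, s * s' ≠ s' * s) (s : Y)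
    (hs1 : s ∈ S) (h : ∀ s' ∈ S, s * s' = s' * s) : s = 1 := by
  rcases hs.eq_bot_or_eq_top_of_normal (Subgroup.center S) inferInstance with h1 | h1
  · have h2 : (⟨s, hs1⟩ : S) ∈ Subgroup.center S := by
      rw [Subgroup.mem_center_iff]
      intro g
      exact Subtype.ext (h g g.2).symm
    rw [h1, Subgroup.mem_bot] at h2
    exact congrArg Subtype.val h2
  · exfalso
    obtain ⟨a, ha, b, hb, hab⟩ := hn
    apply hab
    have h2 : (⟨a, ha⟩ : S) ∈ Subgroup.center S := by rw [h1]; trivial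
    rw [Subgroup.mem_center_iff] at h2
    exact (congrArg Subtype.val (h2 ⟨b, hb⟩)).symm

end S

section G

variable {G : Type} [Group G]

theorem key_id (a x y : G) (h : x⁻¹ * (a * y * a⁻¹ * y⁻¹) = (a * y * a⁻¹ * y⁻¹) * x⁻¹) :
    a * (x * y) * a⁻¹ * (x * y)⁻¹ = (a * x * a⁻¹ * x⁻¹) * (a * y * a⁻¹ * y⁻¹) := by
  calc a * (x * y) * a⁻¹ * (x * y)⁻¹ = (a * x * a⁻¹) * ((a * y * a⁻¹ * y⁻¹) * x⁻¹) := by
        simp only [mul_inv_rev, mul_assoc, inv_mul_cancel_left]
    _ = (a * x * a⁻¹) * (x⁻¹ * (a * y * a⁻¹ * y⁻¹)) := by rw [h]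
    _ = _ := by simp only [mul_assoc]

/-- the commutator with `a` -/
def keyHom (U₀ : Subgroup G) (a : G) (h : ∀ x ∈ U₀, a * x * a⁻¹ * x⁻¹ ∈ Subgroup.center G) :
    U₀ →* Subgroup.center G :=
  MonoidHom.mk' (fun x => ⟨a * x * a⁻¹ * (x : G)⁻¹, h x x.2⟩) fun x y =>
    Subtype.ext (key_id a x y (Subgroup.mem_center_iff.1 (h y y.2) (x : G)⁻¹))

theorem keyHom_coe (U₀ : Subgroup G) (a : G)
    (h : ∀ x ∈ U₀, a * x * a⁻¹ * x⁻¹ ∈ Subgroup.center G) (x : U₀) :
    ((keyHom U₀ a h x : Subgroup.center G) : G) = a * x * a⁻¹ * (x : G)⁻¹ := rfl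

/-- an element which commutes modulo the center with a perfect group commutes with it -/
theorem key (U₀ : Subgroup G) (hperf : commutator U₀ = ⊤) (a : G)
    (h : ∀ x ∈ U₀, a * x * a⁻¹ * x⁻¹ ∈ Subgroup.center G) (x : G) (hx : x ∈ U₀) :
    a * x * a⁻¹ = x := by
  have h1 : (⟨x, hx⟩ : U₀) ∈ commutator U₀ := by
    rw [hperf]
    exact Subgroup.mem_top _
  have h2 : keyHom U₀ a h ⟨x, hx⟩ = 1 := by
    have h3 : commutator U₀ ≤ (keyHom U₀ a h).ker := by
      rw [commutator_def, Subgroup.commutator_le]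
      intro g₁ _ g₂ _
      rw [MonoidHom.mem_ker, map_commutatorElement, commutatorElement_eq_one_iff_mul_comm]
      apply Subtype.ext
      exact Subgroup.mem_center_iff.1 (keyHom U₀ a h g₂).2 _
    exact h3 h1
  have h3 := keyHom_coe U₀ a h ⟨x, hx⟩
  rw [h2, OneMemClass.coe_one] at h3
  exact mul_inv_eq_one.1 h3.symm

end G

open Classical in
/-- the abstract form -/
theorem datum_aux {G U Ω : Type} [Group G] [Group U] [MulAction G Ω] [Fintype Ω]
    (ι : Ω → U →* G) (hinj : ∀ ω u, ι ω u = 1 → u = 1)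
    (hcomm : ∀ ω ω', ω ≠ ω' → ∀ u v, Commute (ι ω u) (ι ω' v))
    (K : Subgroup G) (hιK : ∀ ω u, ι ω u ∈ K) (hK : ∀ g ∈ K, ∀ ω : Ω, g • ω = ω)
    (hcen : ∀ ω, ∀ u ∈ Subgroup.center U, ι ω u ∈ Subgroup.center G)
    (hconj : ∀ (g : G) (ω : Ω), ∃ w : U, ∀ v : U,
      g * ι ω v * g⁻¹ = ι (g • ω) (w * v * w⁻¹)) :
    ∃ (m : (Ω → U) →* G) (X : Subgroup G), WD m (Subgroup.center U) X := by
  have hc : Pairwise fun i j : Ω => ∀ (x y : U), Commute (ι i x) (ι j y) :=
    fun i j hij x y => hcomm i j hij x y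
  let m : (Ω → U) →* G := MonoidHom.noncommPiCoprod ι hc
  have hm : ∀ ω v, m (Pi.mulSingle ω v) = ι ω v := fun ω v =>
    MonoidHom.noncommPiCoprod_mulSingle ι ω v
  have hmK : ∀ u, m u ∈ K := by
    intro u
    have h1 : m.range ≤ K := by
      have h2 : m.range = ⨆ i : Ω, (ι i).range := MonoidHom.noncommPiCoprod_range ι
      rw [h2]
      refine iSup_le fun i => ?_
      rintro _ ⟨v, rfl⟩
      exact hιK i v
    exact h1 ⟨u, rfl⟩
  have hact : ∀ u (ω : Ω), m u • ω = ω := fun u ω => hK _ (hmK u) ω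
  -- conjugation of a single coordinate
  have hsing : ∀ (u : Ω → U) (ω : Ω) (v : U),
      m u * ι ω v * (m u)⁻¹ = ι ω (u ω * v * (u ω)⁻¹) := by
    intro u ω v
    rw [← hm, ← hm, ← map_mul, ← map_inv, ← map_mul]
    congr 1
    funext ω'
    by_cases h : ω' = ω
    · subst h
      simp
    · simp [Pi.mulSingle_eq_of_ne h]
  let X : Subgroup G :=
    { carrier := {x | ∀ ω v, x * ι ω v * x⁻¹ = ι (x • ω) v}
      mul_mem' := by
        intro a b ha hb ω v
        rw [mul_smul, ← ha, ← hb]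
        group
      one_mem' := by
        intro ω v
        rw [one_smul]
        group
      inv_mem' := by
        intro a ha ω v
        have h1 := ha (a⁻¹ • ω) v
        rw [smul_inv_smul] at h1
        rw [← h1]
        group }
  have hX : ∀ x, x ∈ X ↔ ∀ ω v, x * ι ω v * x⁻¹ = ι (x • ω) v := fun x => Iff.rfl
  refine ⟨m, X, le_rfl, ?_, hact, ?_, ?_, ?_⟩
  · -- eqv
    intro x hx u
    let pre : (Ω → U) →* (Ω → U) :=
      { toFun := fun u ω => u (x⁻¹ • ω)
        map_one' := rfl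
        map_mul' := fun _ _ => rfl }
    have h1 : (MulAut.conj x).toMonoidHom.comp m = m.comp pre := by
      apply MonoidHom.pi_ext
      intro ω v
      change x * m (Pi.mulSingle ω v) * x⁻¹ = m (fun ω' => (Pi.mulSingle ω v : Ω → U) (x⁻¹ • ω'))
      have h2 : (fun ω' => (Pi.mulSingle ω v : Ω → U) (x⁻¹ • ω')) = Pi.mulSingle (x • ω) v := by
        funext ω'
        by_cases h : ω' = x • ω
        · subst h
          simp
        · rw [Pi.mulSingle_eq_of_ne h, Pi.mulSingle_eq_of_ne]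
          intro h3
          apply h
          rw [← h3, smul_inv_smul]
      rw [h2, hm, hm]
      exact hx ω v
    exact DFunLike.congr_fun h1 u
  · -- ker
    intro u hu ω
    rw [Subgroup.mem_center_iff]
    intro v
    have h1 := (hX _).1 hu ω v
    rw [hact, hsing] at h1
    have h2 : u ω * v * (u ω)⁻¹ * v⁻¹ = 1 := by
      apply hinj ω
      rw [map_mul, h1, ← map_mul, mul_inv_cancel, map_one]
    have h3 : u ω * v * (u ω)⁻¹ = v := mul_inv_eq_one.1 h2
    calc v * u ω = (u ω * v * (u ω)⁻¹) * u ω := by rw [h3]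
      _ = u ω * v := by group
  · -- cen
    intro u hu
    let f : (Ω → Subgroup.center U) →* G := m.comp
      { toFun := fun c ω => (c ω : U)
        map_one' := rfl
        map_mul' := fun _ _ => rfl }
    rw [Subgroup.mem_center_iff]
    intro g
    have h1 : (MulAut.conj g).toMonoidHom.comp f = f := by
      apply MonoidHom.pi_ext
      intro ω c
      change g * m (fun ω' => ((Pi.mulSingle ω c : Ω → Subgroup.center U) ω' : U)) * g⁻¹ =
        m (fun ω' => ((Pi.mulSingle ω c : Ω → Subgroup.center U) ω' : U))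
      have h2 : (fun ω' => ((Pi.mulSingle ω c : Ω → Subgroup.center U) ω' : U)) =
          Pi.mulSingle ω (c : U) := by
        funext ω'
        by_cases h : ω' = ω
        · subst h
          simp
        · rw [Pi.mulSingle_eq_of_ne h, Pi.mulSingle_eq_of_ne h]
          rfl
      rw [h2, hm]
      have h3 := Subgroup.mem_center_iff.1 (hcen ω c c.2) g
      rw [h3, mul_assoc, mul_inv_cancel, mul_one]
    have h2 := DFunLike.congr_fun h1 (fun ω => ⟨u ω, hu ω⟩)
    change g * m u * g⁻¹ = m u at h2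
    calc g * m u = (g * m u * g⁻¹) * g := by group
      _ = m u * g := by rw [h2]
  · -- sup
    rw [eq_top_iff]
    intro g _
    choose w hw using hconj g
    have h1 : (m (fun ω => w (g⁻¹ • ω)))⁻¹ * g ∈ X := by
      rw [hX]
      intro ω v
      have h2 : ((m (fun ω => w (g⁻¹ • ω)))⁻¹ * g) • ω = g • ω := by
        rw [mul_smul, ← map_inv, hact]
      rw [h2]
      have h3 := hsing (fun ω => (w (g⁻¹ • ω)))⁻¹ (g • ω) (w ω * v * (w ω)⁻¹)
      rw [map_inv, inv_inv, ← hw ω v] at h3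
      have h4 : ((fun ω => (w (g⁻¹ • ω)))⁻¹ : Ω → U) (g • ω) = (w ω)⁻¹ := by
        rw [Pi.inv_apply, inv_smul_smul]
      rw [h4] at h3
      have h5 : (w ω)⁻¹ * (w ω * v * (w ω)⁻¹) * ((w ω)⁻¹)⁻¹ = v := by group
      rw [h5] at h3
      rw [← h3]
      group
    have h2 : g = m (fun ω => w (g⁻¹ • ω)) * ((m (fun ω => w (g⁻¹ • ω)))⁻¹ * g) := by group
    rw [h2]
    exact Subgroup.mul_mem_sup ⟨_, rfl⟩ h1

/-- from a simple factor of the minimal normal subgroup on which only inner automorphisms are induced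
to the decomposition of the group -/
theorem exists_datum {G : Type} [Group G] [Finite G] (M S : Subgroup (G ⧸ Subgroup.center G))
    (hM : M.Normal) (hmin : ∀ L : Subgroup (G ⧸ Subgroup.center G), L.Normal → L ≠ ⊥ → M ≤ L)
    (hSM : S ≤ M) (hMS : ∀ m ∈ M, ∀ s ∈ S, m * s * m⁻¹ ∈ S) (hs : IsSimpleGroup S)
    (hna : ∃ a ∈ M, ∃ b ∈ M, a * b ≠ b * a)
    (hin : ∀ y : G ⧸ Subgroup.center G, (∀ s ∈ S, y * s * y⁻¹ ∈ S) →
      ∃ s ∈ S, ∀ t ∈ S, y * t * y⁻¹ = s * t * s⁻¹) :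
    ∃ (U : Type) (_ : Group U) (_ : Finite U) (Ω : Type) (_ : Fintype Ω) (_ : Nonempty Ω)
      (_ : MulAction G Ω) (m : (Ω → U) →* G) (X : Subgroup G),
      commutator U = ⊤ ∧ Nonempty (U ⧸ Subgroup.center U ≃* S) ∧ WD m (Subgroup.center U) X ∧
      Nat.card (Subgroup.center U) ∣ Nat.card (Subgroup.center G) := by
  classical
  obtain ⟨q, hq⟩ : ∃ q : G →* G ⧸ Subgroup.center G, q = QuotientGroup.mk' (Subgroup.center G) :=
    ⟨_, rfl⟩
  have hqs : Function.Surjective q := by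
    rw [hq]
    exact QuotientGroup.mk'_surjective _
  have hker : ∀ g, q g = 1 ↔ g ∈ Subgroup.center G := by
    intro g
    rw [← MonoidHom.mem_ker, hq, QuotientGroup.ker_mk']
  have hnc := exists_noncomm hM hmin hSM hMS hs hna
  have hMn : ∀ y ∈ M, y ∈ Subgroup.normalizer (S : Set (G ⧸ Subgroup.center G)) := fun y hy =>
    Subgroup.mem_normalizer_fintype (hMS y hy)
  -- the subgroup `U`
  obtain ⟨T, hT⟩ : ∃ T : Subgroup G, T = S.comap q := ⟨_, rfl⟩
  obtain ⟨U₀, hU₀⟩ : ∃ U₀ : Subgroup G, U₀ = ⁅T, T⁆ := ⟨_, rfl⟩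
  have hmapU : U₀.map q = S := by
    rw [hU₀, Subgroup.map_commutator, hT, Subgroup.map_comap_eq_self_of_surjective hqs]
    exact S_perfect hs hnc
  have hUS : ∀ u ∈ U₀, q u ∈ S := by
    intro u hu
    rw [← hmapU]
    exact ⟨u, hu, rfl⟩
  have hSU : ∀ s ∈ S, ∃ u ∈ U₀, q u = s := by
    intro s hs
    rw [← hmapU] at hs
    exact hs
  have hUU : ⁅U₀, U₀⁆ = U₀ := by
    apply le_antisymm (Subgroup.commutator_le_self U₀)
    conv_lhs => rw [hU₀]
    rw [Subgroup.commutator_le]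
    intro g₁ hg₁ g₂ hg₂
    have hdec : ∀ g ∈ T, ∃ u ∈ U₀, ∃ z ∈ Subgroup.center G, g = u * z := by
      intro g hg
      rw [hT, Subgroup.mem_comap] at hg
      obtain ⟨u, hu, hu'⟩ := hSU _ hg
      refine ⟨u, hu, u⁻¹ * g, ?_, by group⟩
      rw [← hker, map_mul, map_inv, hu', inv_mul_cancel]
    obtain ⟨u₁, hu₁, z₁, hz₁, rfl⟩ := hdec g₁ hg₁
    obtain ⟨u₂, hu₂, z₂, hz₂, rfl⟩ := hdec g₂ hg₂
    have h1 : ⁅u₁ * z₁, u₂ * z₂⁆ = ⁅u₁, u₂⁆ := by
      rw [Subgroup.mem_center_iff] at hz₁ hz₂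
      rw [commutatorElement_def, commutatorElement_def, mul_inv_rev, mul_inv_rev]
      calc u₁ * z₁ * (u₂ * z₂) * (z₁⁻¹ * u₁⁻¹) * (z₂⁻¹ * u₂⁻¹)
          = u₁ * (z₁ * (u₂ * z₂)) * z₁⁻¹ * u₁⁻¹ * z₂⁻¹ * u₂⁻¹ := by group
        _ = u₁ * ((u₂ * z₂) * z₁) * z₁⁻¹ * u₁⁻¹ * z₂⁻¹ * u₂⁻¹ := by rw [hz₁ (u₂ * z₂)]
        _ = (u₁ * u₂) * (z₂ * u₁⁻¹) * z₂⁻¹ * u₂⁻¹ := by group
        _ = (u₁ * u₂) * (u₁⁻¹ * z₂) * z₂⁻¹ * u₂⁻¹ := by rw [hz₂ u₁⁻¹]
        _ = u₁ * u₂ * u₁⁻¹ * u₂⁻¹ := by group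
    rw [h1]
    exact Subgroup.commutator_mem_commutator hu₁ hu₂
  have hperf : commutator U₀ = ⊤ := by
    apply Subgroup.map_injective U₀.subtype_injective
    rw [Subgroup.map_subtype_commutator, hUU, ← MonoidHom.range_eq_map, Subgroup.range_subtype]
  have hcenU : ∀ u : U₀, u ∈ Subgroup.center U₀ ↔ (u : G) ∈ Subgroup.center G := by
    intro u
    constructor
    · intro hu
      rw [← hker]
      apply S_center hs hnc _ (hUS _ u.2)
      intro s' hs'
      obtain ⟨v, hv, rfl⟩ := hSU s' hs'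
      rw [← map_mul, ← map_mul]
      congr 1
      exact (congrArg Subtype.val (Subgroup.mem_center_iff.1 hu ⟨v, hv⟩)).symm
    · intro hu
      rw [Subgroup.mem_center_iff] at hu ⊢
      intro g
      exact Subtype.ext (hu g)
  -- the set `Ω`
  obtain ⟨N, hN⟩ : ∃ N : Subgroup G,
      N = (Subgroup.normalizer (S : Set (G ⧸ Subgroup.center G))).comap q := ⟨_, rfl⟩
  have hNmem : ∀ g, g ∈ N ↔ q g ∈ Subgroup.normalizer (S : Set (G ⧸ Subgroup.center G)) := by
    intro g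
    rw [hN, Subgroup.mem_comap]
  have hNdec : ∀ g ∈ N, ∃ w : U₀, ∀ v : U₀, g * v * g⁻¹ = w * v * (w : G)⁻¹ := by
    intro g hg
    rw [hNmem] at hg
    obtain ⟨s, hs1, hs2⟩ := hin (q g) (fun s hs => (hg s).1 hs)
    obtain ⟨w, hw, rfl⟩ := hSU s hs1
    refine ⟨⟨w, hw⟩, fun v => ?_⟩
    have h1 := key U₀ hperf (w⁻¹ * g) (by
      intro x hx
      rw [← hker]
      have h2 := hs2 (q x) (hUS x hx)
      simp only [map_mul, map_inv, mul_inv_rev, inv_inv]
      calc (q w)⁻¹ * q g * q x * ((q g)⁻¹ * q w) * (q x)⁻¹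
          = (q w)⁻¹ * (q g * q x * (q g)⁻¹) * q w * (q x)⁻¹ := by group
        _ = (q w)⁻¹ * (q w * q x * (q w)⁻¹) * q w * (q x)⁻¹ := by rw [h2]
        _ = 1 := by group) v v.2
    change g * v * g⁻¹ = w * v * w⁻¹
    calc g * v * g⁻¹ = w * (w⁻¹ * g * v * (w⁻¹ * g)⁻¹) * w⁻¹ := by group
      _ = w * v * w⁻¹ := by rw [h1]
  let iF : Fintype (G ⧸ N) := Fintype.ofFinite _
  have hsurj : Function.Surjective (QuotientGroup.mk : G → G ⧸ N) := QuotientGroup.mk_surjective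
  choose t ht using hsurj
  have htg : ∀ (g : G) (ω : G ⧸ N), (t (g • ω))⁻¹ * (g * t ω) ∈ N := by
    intro g ω
    rw [← QuotientGroup.eq, ht]
    conv_lhs => rw [← ht ω]
    rfl
  let ι : (G ⧸ N) → U₀ →* G := fun ω => (MulAut.conj (t ω)).toMonoidHom.comp U₀.subtype
  have hι : ∀ ω u, ι ω u = t ω * u * (t ω)⁻¹ := fun ω u => rfl
  obtain ⟨m, X, hWD⟩ := datum_aux ι (by
      intro ω u hu
      rw [hι, conj_eq_one_iff] at hu
      exact Subtype.ext hu) (by
      intro ω ω' hne u v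
      have hn : ¬ ∀ s ∈ S, q ((t ω)⁻¹ * t ω') * s * (q ((t ω)⁻¹ * t ω'))⁻¹ ∈ S := by
        intro h
        apply hne
        rw [← ht ω, ← ht ω', QuotientGroup.eq, hNmem]
        exact Subgroup.mem_normalizer_fintype h
      -- `a := h⁻¹ u h` centralises `U₀`
      have h1 := key U₀ hperf (((t ω)⁻¹ * t ω')⁻¹ * u * ((t ω)⁻¹ * t ω')) (by
        intro x hx
        rw [← hker]
        have h2 := comm_conj hM hSM hMS hs (q ((t ω)⁻¹ * t ω')) hn (q u) (q x) (hUS _ u.2)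
          (hUS x hx)
        obtain ⟨y, hy⟩ : ∃ y, y = q ((t ω)⁻¹ * t ω') := ⟨_, rfl⟩
        rw [← hy] at h2
        have h3 : q (((t ω)⁻¹ * t ω')⁻¹ * u * ((t ω)⁻¹ * t ω')) = y⁻¹ * q u * y := by
          rw [map_mul, map_mul, map_inv, hy]
        rw [map_mul, map_mul, map_mul, map_inv, map_inv, h3]
        calc y⁻¹ * q u * y * q x * (y⁻¹ * q u * y)⁻¹ * (q x)⁻¹
            = y⁻¹ * (q u * (y * q x * y⁻¹)) * (q u)⁻¹ * y * (q x)⁻¹ := by group
          _ = y⁻¹ * ((y * q x * y⁻¹) * q u) * (q u)⁻¹ * y * (q x)⁻¹ := by rw [h2]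
          _ = 1 := by group) v v.2
      rw [hι, hι, Commute, SemiconjBy]
      calc t ω * u * (t ω)⁻¹ * (t ω' * v * (t ω')⁻¹)
          = t ω' * ((((t ω)⁻¹ * t ω')⁻¹ * u * ((t ω)⁻¹ * t ω')) * v *
            (((t ω)⁻¹ * t ω')⁻¹ * u * ((t ω)⁻¹ * t ω'))⁻¹) * (t ω')⁻¹ *
              (t ω * u * (t ω)⁻¹) := by group
        _ = _ := by rw [h1]) (M.comap q) (by
      intro ω u
      rw [Subgroup.mem_comap, hι, map_mul, map_mul, map_inv]
      exact hM.conj_mem _ (hSM (hUS _ u.2)) _) (by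
      intro g hg ω
      rw [Subgroup.mem_comap] at hg
      rw [← ht ω]
      change ((g * t ω : G) : G ⧸ N) = (t ω : G ⧸ N)
      rw [QuotientGroup.eq, hNmem]
      apply hMn
      rw [map_mul, map_inv, map_mul, mul_inv_rev]
      have h1 := hM.conj_mem _ (M.inv_mem hg) (q (t ω))⁻¹
      rwa [inv_inv] at h1) (by
      intro ω u hu
      rw [hcenU] at hu
      rw [hι]
      have h1 := Subgroup.mem_center_iff.1 hu (t ω)
      rw [h1, mul_assoc, mul_inv_cancel, mul_one]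
      exact hu) (by
      intro g ω
      obtain ⟨w, hw⟩ := hNdec _ (htg g ω)
      refine ⟨w, fun v => ?_⟩
      have h1 := hw v
      rw [hι, hι]
      calc g * (t ω * v * (t ω)⁻¹) * g⁻¹ =
          t (g • ω) * ((t (g • ω))⁻¹ * (g * t ω) * v * ((t (g • ω))⁻¹ * (g * t ω))⁻¹) *
            (t (g • ω))⁻¹ := by group
        _ = _ := by
          rw [h1]
          push_cast
          rfl)
  refine ⟨U₀, inferInstance, inferInstance, G ⧸ N, inferInstance, inferInstance, inferInstance,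
    m, X, hperf, ?_, hWD, ?_⟩
  · -- the quotient
    let f : U₀ →* S := (q.comp U₀.subtype).codRestrict S (fun u => hUS _ u.2)
    have hf : Function.Surjective f := by
      rintro ⟨s, hs⟩
      obtain ⟨u, hu, hu'⟩ := hSU s hs
      exact ⟨⟨u, hu⟩, Subtype.ext hu'⟩
    have hfk : Subgroup.center U₀ = f.ker := by
      ext u
      rw [hcenU, ← hker, MonoidHom.mem_ker]
      constructor
      · intro h
        exact Subtype.ext h
      · intro h
        exact congrArg Subtype.val h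
    exact ⟨(QuotientGroup.quotientMulEquivOfEq hfk).trans
      (QuotientGroup.quotientKerEquivOfSurjective f hf)⟩
  · have h1 : (Subgroup.center U₀).map U₀.subtype ≤ Subgroup.center G := by
      rintro _ ⟨u, hu, rfl⟩
      exact (hcenU u).1 hu
    have h2 := Subgroup.card_dvd_of_le h1
    rwa [Subgroup.card_map_of_injective U₀.subtype_injective] at h2

end Pool.Agent.Zk54.MQ
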