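import Pool.Agent.Zk54.MQ.DefE
import Pool.Agent.Zk54.MQ.M6

/-! # The decomposition when the outer automorphisms induced on a simple factor form a cyclic group -/

set_option autoImplicit false

noncomputable section

open scoped commutatorElement

namespace Pool.Agent.Zk54.MQ

open Classical in
/-- the abstract form -/
theorem datum_aux2 {G U Ω : Type} [Group G] [Group U] [MulAction G Ω] [Fintype Ω]
    (ι : Ω → U →* G) (hinj : ∀ ω u, ι ω u = 1 → u = 1)
    (hcomm : ∀ ω ω', ω ≠ ω' → ∀ u v, Commute (ι ω u) (ι ω' v))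
    (K : Subgroup G) (hιK : ∀ ω u, ι ω u ∈ K) (hK : ∀ g ∈ K, ∀ ω : Ω, g • ω = ω)
    (hcen : ∀ ω, ∀ u ∈ Subgroup.center U, ι ω u ∈ Subgroup.center G)
    (hcen2 : ∀ ω ω', ∀ u ∈ Subgroup.center U, ι ω u = ι ω' u)
    (α : G → Ω → MulAut U)
    (hα : ∀ (g : G) (ω : Ω) (v : U), g * ι ω v * g⁻¹ = ι (g • ω) (α g ω v)) :
    ∃ m : (Ω → U) →* G, WE m α := by
  have hc : Pairwise fun i j : Ω => ∀ (x y : U), Commute (ι i x) (ι j y) :=
    fun i j hij x y => hcomm i j hij x y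
  have hinj' : ∀ ω, Function.Injective (ι ω) := fun ω =>
    (injective_iff_map_eq_one _).mpr (hinj ω)
  let m : (Ω → U) →* G := MonoidHom.noncommPiCoprod ι hc
  have hm : ∀ ω v, m (Pi.mulSingle ω v) = ι ω v := fun ω v =>
    MonoidHom.noncommPiCoprod_mulSingle ι ω v
  have hmK : ∀ u, m u ∈ K := by
    intro u
    have h1 : m.range ≤ K := by
      have h2 : m.range = ⨆ i : Ω, (ι i).range := MonoidHom.noncommPiCoprod_range ι
      rw [h2]
      refine iSup_le fun i => ?_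
      rintro _ ⟨v, rfl⟩
      exact hιK i v
    exact h1 ⟨u, rfl⟩
  have hact : ∀ u (ω : Ω), m u • ω = ω := fun u ω => hK _ (hmK u) ω
  -- conjugation of a single coordinate
  have hsing : ∀ (u : Ω → U) (ω : Ω) (v : U),
      m u * ι ω v * (m u)⁻¹ = ι ω (u ω * v * (u ω)⁻¹) := by
    intro u ω v
    rw [← hm, ← hm, ← map_mul, ← map_inv, ← map_mul]
    congr 1
    funext ω'
    by_cases h : ω' = ω
    · subst h
      simp
    · simp [Pi.mulSingle_eq_of_ne h]
  refine ⟨m, ?_, ?_, hact, ?_, ?_, ?_, ?_⟩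
  · -- eqv
    intro g u
    let pre : (Ω → U) →* (Ω → U) :=
      { toFun := fun u ω => α g (g⁻¹ • ω) (u (g⁻¹ • ω))
        map_one' := funext fun ω => map_one _
        map_mul' := fun _ _ => funext fun ω => map_mul _ _ _ }
    have h1 : (MulAut.conj g).toMonoidHom.comp m = m.comp pre := by
      apply MonoidHom.pi_ext
      intro ω v
      change g * m (Pi.mulSingle ω v) * g⁻¹ =
        m (fun ω' => α g (g⁻¹ • ω') ((Pi.mulSingle ω v : Ω → U) (g⁻¹ • ω')))
      have h2 : (fun ω' => α g (g⁻¹ • ω') ((Pi.mulSingle ω v : Ω → U) (g⁻¹ • ω'))) =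
          Pi.mulSingle (g • ω) (α g ω v) := by
        funext ω'
        by_cases h : ω' = g • ω
        · subst h
          rw [inv_smul_smul]
          simp
        · rw [Pi.mulSingle_eq_of_ne h, Pi.mulSingle_eq_of_ne, map_one]
          intro h3
          apply h
          rw [← h3, smul_inv_smul]
      rw [h2, hm, hm]
      exact hα g ω v
    exact DFunLike.congr_fun h1 u
  · -- mul
    intro g h ω
    ext v
    apply hinj' ((g * h) • ω)
    rw [← hα, MulAut.mul_apply]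
    have h1 := hα g (h • ω) (α h ω v)
    rw [smul_smul] at h1
    rw [← h1, ← hα h ω v]
    group
  · -- inn
    intro u ω v
    apply hinj' (m u • ω)
    rw [← hα, hsing, hact]
  · -- ker
    intro u hu ω
    rw [Subgroup.mem_center_iff]
    intro v
    have h1 := hsing u ω v
    rw [hu, one_mul, inv_one, mul_one] at h1
    have h2 := hinj' ω h1
    calc v * u ω = (u ω * v * (u ω)⁻¹) * u ω := by rw [← h2]
      _ = u ω * v := by group
  · -- cen
    intro u hu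
    let f : (Ω → Subgroup.center U) →* G := m.comp
      { toFun := fun c ω => (c ω : U)
        map_one' := rfl
        map_mul' := fun _ _ => rfl }
    rw [Subgroup.mem_center_iff]
    intro g
    have h1 : (MulAut.conj g).toMonoidHom.comp f = f := by
      apply MonoidHom.pi_ext
      intro ω c
      change g * m (fun ω' => ((Pi.mulSingle ω c : Ω → Subgroup.center U) ω' : U)) * g⁻¹ =
        m (fun ω' => ((Pi.mulSingle ω c : Ω → Subgroup.center U) ω' : U))
      have h2 : (fun ω' => ((Pi.mulSingle ω c : Ω → Subgroup.center U) ω' : U)) =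
          Pi.mulSingle ω (c : U) := by
        funext ω'
        by_cases h : ω' = ω
        · subst h
          simp
        · rw [Pi.mulSingle_eq_of_ne h, Pi.mulSingle_eq_of_ne h]
          rfl
      rw [h2, hm]
      have h3 := Subgroup.mem_center_iff.1 (hcen ω c c.2) g
      rw [h3, mul_assoc, mul_inv_cancel, mul_one]
    have h2 := DFunLike.congr_fun h1 (fun ω => ⟨u ω, hu ω⟩)
    change g * m u * g⁻¹ = m u at h2
    calc g * m u = (g * m u * g⁻¹) * g := by group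
      _ = m u * g := by rw [h2]
  · -- fixc
    intro g ω z hz
    apply hinj' (g • ω)
    rw [← hα, Subgroup.mem_center_iff.1 (hcen ω z hz) g, mul_inv_cancel_right]
    exact hcen2 _ _ z hz

/-- E5: the decomposition when the outer automorphisms induced on a simple factor form a cyclic group -/
theorem exists_datum2 {G : Type} [Group G] [Finite G] (M S : Subgroup (G ⧸ Subgroup.center G))
    (hM : M.Normal) (hmin : ∀ L : Subgroup (G ⧸ Subgroup.center G), L.Normal → L ≠ ⊥ → M ≤ L)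
    (hSM : S ≤ M) (hMS : ∀ m ∈ M, ∀ s ∈ S, m * s * m⁻¹ ∈ S) (hs : IsSimpleGroup S)
    (hna : ∃ a ∈ M, ∃ b ∈ M, a * b ≠ b * a) (y₀ : G ⧸ Subgroup.center G) (b : ℕ)
    (hy₀ : ∀ s ∈ S, y₀ * s * y₀⁻¹ ∈ S)
    (hb : ∃ s ∈ S, ∀ t ∈ S, y₀ ^ b * t * (y₀ ^ b)⁻¹ = s * t * s⁻¹)
    (hin : ∀ y : G ⧸ Subgroup.center G, (∀ s ∈ S, y * s * y⁻¹ ∈ S) →
      ∃ i : ℕ, ∃ s ∈ S, ∀ t ∈ S, y * t * y⁻¹ = s * (y₀ ^ i * t * (y₀ ^ i)⁻¹) * s⁻¹) :
    ∃ (U : Type) (_ : Group U) (_ : Finite U) (Ω : Type) (_ : Fintype Ω) (_ : Nonempty Ω)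
      (_ : MulAction G Ω) (m : (Ω → U) →* G) (α : G → Ω → MulAut U) (a : MulAut U),
      commutator U = ⊤ ∧ Nonempty (U ⧸ Subgroup.center U ≃* S) ∧ WE m α ∧
      Nat.card (Subgroup.center U) ∣ Nat.card (Subgroup.center G) ∧
      (∀ z ∈ Subgroup.center U, a z = z) ∧ (∃ u₁ : U, ∀ v, (a ^ b) v = u₁ * v * u₁⁻¹) ∧
      ∀ (g : G) (ω : Ω), ∃ (i : ℕ) (u : U), ∀ v, α g ω v = u * (a ^ i) v * u⁻¹ := by
  classical
  obtain ⟨q, hq⟩ : ∃ q : G →* G ⧸ Subgroup.center G, q = QuotientGroup.mk' (Subgroup.center G) :=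
    ⟨_, rfl⟩
  have hqs : Function.Surjective q := by
    rw [hq]
    exact QuotientGroup.mk'_surjective _
  have hker : ∀ g, q g = 1 ↔ g ∈ Subgroup.center G := by
    intro g
    rw [← MonoidHom.mem_ker, hq, QuotientGroup.ker_mk']
  have hnc := exists_noncomm hM hmin hSM hMS hs hna
  have hMn : ∀ y ∈ M, y ∈ Subgroup.normalizer (S : Set (G ⧸ Subgroup.center G)) := fun y hy =>
    Subgroup.mem_normalizer_fintype (hMS y hy)
  -- the subgroup `U`
  obtain ⟨T, hT⟩ : ∃ T : Subgroup G, T = S.comap q := ⟨_, rfl⟩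
  obtain ⟨U₀, hU₀⟩ : ∃ U₀ : Subgroup G, U₀ = ⁅T, T⁆ := ⟨_, rfl⟩
  have hmapU : U₀.map q = S := by
    rw [hU₀, Subgroup.map_commutator, hT, Subgroup.map_comap_eq_self_of_surjective hqs]
    exact S_perfect hs hnc
  have hUS : ∀ u ∈ U₀, q u ∈ S := by
    intro u hu
    rw [← hmapU]
    exact ⟨u, hu, rfl⟩
  have hSU : ∀ s ∈ S, ∃ u ∈ U₀, q u = s := by
    intro s hs
    rw [← hmapU] at hs
    exact hs
  have hUU : ⁅U₀, U₀⁆ = U₀ := by
    apply le_antisymm (Subgroup.commutator_le_self U₀)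
    conv_lhs => rw [hU₀]
    rw [Subgroup.commutator_le]
    intro g₁ hg₁ g₂ hg₂
    have hdec : ∀ g ∈ T, ∃ u ∈ U₀, ∃ z ∈ Subgroup.center G, g = u * z := by
      intro g hg
      rw [hT, Subgroup.mem_comap] at hg
      obtain ⟨u, hu, hu'⟩ := hSU _ hg
      refine ⟨u, hu, u⁻¹ * g, ?_, by group⟩
      rw [← hker, map_mul, map_inv, hu', inv_mul_cancel]
    obtain ⟨u₁, hu₁, z₁, hz₁, rfl⟩ := hdec g₁ hg₁
    obtain ⟨u₂, hu₂, z₂, hz₂, rfl⟩ := hdec g₂ hg₂
    have h1 : ⁅u₁ * z₁, u₂ * z₂⁆ = ⁅u₁, u₂⁆ := by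
      rw [Subgroup.mem_center_iff] at hz₁ hz₂
      rw [commutatorElement_def, commutatorElement_def, mul_inv_rev, mul_inv_rev]
      calc u₁ * z₁ * (u₂ * z₂) * (z₁⁻¹ * u₁⁻¹) * (z₂⁻¹ * u₂⁻¹)
          = u₁ * (z₁ * (u₂ * z₂)) * z₁⁻¹ * u₁⁻¹ * z₂⁻¹ * u₂⁻¹ := by group
        _ = u₁ * ((u₂ * z₂) * z₁) * z₁⁻¹ * u₁⁻¹ * z₂⁻¹ * u₂⁻¹ := by rw [hz₁ (u₂ * z₂)]
        _ = (u₁ * u₂) * (z₂ * u₁⁻¹) * z₂⁻¹ * u₂⁻¹ := by group
        _ = (u₁ * u₂) * (u₁⁻¹ * z₂) * z₂⁻¹ * u₂⁻¹ := by rw [hz₂ u₁⁻¹]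
        _ = u₁ * u₂ * u₁⁻¹ * u₂⁻¹ := by group
    rw [h1]
    exact Subgroup.commutator_mem_commutator hu₁ hu₂
  have hperf : commutator U₀ = ⊤ := by
    apply Subgroup.map_injective U₀.subtype_injective
    rw [Subgroup.map_subtype_commutator, hUU, ← MonoidHom.range_eq_map, Subgroup.range_subtype]
  have hcenU : ∀ u : U₀, u ∈ Subgroup.center U₀ ↔ (u : G) ∈ Subgroup.center G := by
    intro u
    constructor
    · intro hu
      rw [← hker]
      apply S_center hs hnc _ (hUS _ u.2)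
      intro s' hs'
      obtain ⟨v, hv, rfl⟩ := hSU s' hs'
      rw [← map_mul, ← map_mul]
      congr 1
      exact (congrArg Subtype.val (Subgroup.mem_center_iff.1 hu ⟨v, hv⟩)).symm
    · intro hu
      rw [Subgroup.mem_center_iff] at hu ⊢
      intro g
      exact Subtype.ext (hu g)
  -- the set `Ω`
  obtain ⟨N, hN⟩ : ∃ N : Subgroup G,
      N = (Subgroup.normalizer (S : Set (G ⧸ Subgroup.center G))).comap q := ⟨_, rfl⟩
  have hNmem : ∀ g, g ∈ N ↔ q g ∈ Subgroup.normalizer (S : Set (G ⧸ Subgroup.center G)) := by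
    intro g
    rw [hN, Subgroup.mem_comap]
  have hNU : ∀ g ∈ N, g ∈ Subgroup.normalizer (U₀ : Set G) := by
    intro g hg
    rw [hNmem] at hg
    have h1 : U₀.map (MulAut.conj g).toMonoidHom = U₀ := by
      rw [hU₀, Subgroup.map_commutator]
      have h2 : T.map (MulAut.conj g).toMonoidHom = T := by
        ext x
        rw [Subgroup.mem_map]
        constructor
        · rintro ⟨y, hy, rfl⟩
          rw [hT, Subgroup.mem_comap] at hy ⊢
          change q (g * y * g⁻¹) ∈ S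
          rw [map_mul, map_mul, map_inv]
          exact (hg _).1 hy
        · intro hx
          refine ⟨g⁻¹ * x * g, ?_, ?_⟩
          · rw [hT, Subgroup.mem_comap] at hx ⊢
            apply (hg _).2
            rw [← map_inv, ← map_mul, ← map_mul]
            have e : g * (g⁻¹ * x * g) * g⁻¹ = x := by group
            rw [e]
            exact hx
          · change g * (g⁻¹ * x * g) * g⁻¹ = x
            group
      rw [h2]
    refine Subgroup.mem_normalizer_fintype fun u hu => ?_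
    have h3 : g * u * g⁻¹ ∈ U₀.map (MulAut.conj g).toMonoidHom := ⟨u, hu, rfl⟩
    rw [h1] at h3
    exact h3
  -- two elements with the same action modulo `U₀`
  have hcmp : ∀ n n' w : G, w ∈ U₀ → (∀ x ∈ S, q n * x * (q n)⁻¹ =
      q w * (q n' * x * (q n')⁻¹) * (q w)⁻¹) → ∀ v ∈ U₀, n * v * n⁻¹ = w * (n' * v * n'⁻¹) * w⁻¹ := by
    intro n n' w hw hh v hv
    have h1 := key U₀ hperf ((w * n')⁻¹ * n) (by
      intro x hx
      rw [← hker]
      have h2 := hh (q x) (hUS x hx)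
      simp only [map_mul, map_inv, mul_inv_rev, inv_inv]
      calc (q n')⁻¹ * (q w)⁻¹ * q n * q x * ((q n)⁻¹ * (q w * q n')) * (q x)⁻¹
          = (q n')⁻¹ * (q w)⁻¹ * (q n * q x * (q n)⁻¹) * (q w * q n') * (q x)⁻¹ := by group
        _ = (q n')⁻¹ * (q w)⁻¹ * (q w * (q n' * q x * (q n')⁻¹) * (q w)⁻¹) *
              (q w * q n') * (q x)⁻¹ := by rw [h2]
        _ = 1 := by group) v hv
    calc n * v * n⁻¹ = (w * n') * ((w * n')⁻¹ * n * v * ((w * n')⁻¹ * n)⁻¹) * (w * n')⁻¹ := by group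
      _ = w * (n' * v * n'⁻¹) * w⁻¹ := by rw [h1]; group
  let iF : Fintype (G ⧸ N) := Fintype.ofFinite _
  have hsurj : Function.Surjective (QuotientGroup.mk : G → G ⧸ N) := QuotientGroup.mk_surjective
  choose t ht using hsurj
  have htg : ∀ (g : G) (ω : G ⧸ N), (t (g • ω))⁻¹ * (g * t ω) ∈ N := by
    intro g ω
    rw [← QuotientGroup.eq, ht]
    conv_lhs => rw [← ht ω]
    rfl
  let c : Subgroup.normalizer (U₀ : Set G) →* MulAut U₀ := Subgroup.normalizerMonoidHom U₀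
  have hc : ∀ (n : Subgroup.normalizer (U₀ : Set G)) (u : U₀), ((c n u : U₀) : G) = n * u * (n : G)⁻¹ :=
    fun n u => rfl
  let α : G → (G ⧸ N) → MulAut U₀ := fun g ω => c ⟨_, hNU _ (htg g ω)⟩
  have hα : ∀ g ω u, ((α g ω u : U₀) : G) =
      ((t (g • ω))⁻¹ * (g * t ω)) * u * ((t (g • ω))⁻¹ * (g * t ω))⁻¹ := fun g ω u => rfl
  obtain ⟨g₀, hg₀⟩ := hqs y₀
  have hg₀N : g₀ ∈ N := by
    rw [hNmem, hg₀]
    exact Subgroup.mem_normalizer_fintype hy₀
  let a : MulAut U₀ := c ⟨g₀, hNU _ hg₀N⟩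
  have ha : ∀ (i : ℕ) (u : U₀), (((a ^ i) u : U₀) : G) = g₀ ^ i * u * (g₀ ^ i)⁻¹ := by
    intro i u
    have h1 : a ^ i = c (⟨g₀, hNU _ hg₀N⟩ ^ i) := (map_pow c _ i).symm
    rw [h1, hc]
    rfl
  let ι : (G ⧸ N) → U₀ →* G := fun ω => (MulAut.conj (t ω)).toMonoidHom.comp U₀.subtype
  have hι : ∀ ω u, ι ω u = t ω * u * (t ω)⁻¹ := fun ω u => rfl
  have hιc : ∀ ω, ∀ u ∈ Subgroup.center U₀, ι ω u = u := by
    intro ω u hu
    rw [hcenU] at hu
    rw [hι]
    have h1 := Subgroup.mem_center_iff.1 hu (t ω)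
    rw [h1, mul_assoc, mul_inv_cancel, mul_one]
  obtain ⟨m, hWE⟩ := datum_aux2 ι (by
      intro ω u hu
      rw [hι, conj_eq_one_iff] at hu
      exact Subtype.ext hu) (by
      intro ω ω' hne u v
      have hn : ¬ ∀ s ∈ S, q ((t ω)⁻¹ * t ω') * s * (q ((t ω)⁻¹ * t ω'))⁻¹ ∈ S := by
        intro h
        apply hne
        rw [← ht ω, ← ht ω', QuotientGroup.eq, hNmem]
        exact Subgroup.mem_normalizer_fintype h
      -- `a := h⁻¹ u h` centralises `U₀`
      have h1 := key U₀ hperf (((t ω)⁻¹ * t ω')⁻¹ * u * ((t ω)⁻¹ * t ω')) (by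
        intro x hx
        rw [← hker]
        have h2 := comm_conj hM hSM hMS hs (q ((t ω)⁻¹ * t ω')) hn (q u) (q x) (hUS _ u.2)
          (hUS x hx)
        obtain ⟨y, hy⟩ : ∃ y, y = q ((t ω)⁻¹ * t ω') := ⟨_, rfl⟩
        rw [← hy] at h2
        have h3 : q (((t ω)⁻¹ * t ω')⁻¹ * u * ((t ω)⁻¹ * t ω')) = y⁻¹ * q u * y := by
          rw [map_mul, map_mul, map_inv, hy]
        rw [map_mul, map_mul, map_mul, map_inv, map_inv, h3]
        calc y⁻¹ * q u * y * q x * (y⁻¹ * q u * y)⁻¹ * (q x)⁻¹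
            = y⁻¹ * (q u * (y * q x * y⁻¹)) * (q u)⁻¹ * y * (q x)⁻¹ := by group
          _ = y⁻¹ * ((y * q x * y⁻¹) * q u) * (q u)⁻¹ * y * (q x)⁻¹ := by rw [h2]
          _ = 1 := by group) v v.2
      rw [hι, hι, Commute, SemiconjBy]
      calc t ω * u * (t ω)⁻¹ * (t ω' * v * (t ω')⁻¹)
          = t ω' * ((((t ω)⁻¹ * t ω')⁻¹ * u * ((t ω)⁻¹ * t ω')) * v *
            (((t ω)⁻¹ * t ω')⁻¹ * u * ((t ω)⁻¹ * t ω'))⁻¹) * (t ω')⁻¹ *
              (t ω * u * (t ω)⁻¹) := by group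
        _ = _ := by rw [h1]) (M.comap q) (by
      intro ω u
      rw [Subgroup.mem_comap, hι, map_mul, map_mul, map_inv]
      exact hM.conj_mem _ (hSM (hUS _ u.2)) _) (by
      intro g hg ω
      rw [Subgroup.mem_comap] at hg
      rw [← ht ω]
      change ((g * t ω : G) : G ⧸ N) = (t ω : G ⧸ N)
      rw [QuotientGroup.eq, hNmem]
      apply hMn
      rw [map_mul, map_inv, map_mul, mul_inv_rev]
      have h1 := hM.conj_mem _ (M.inv_mem hg) (q (t ω))⁻¹
      rwa [inv_inv] at h1) (by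
      intro ω u hu
      rw [hιc ω u hu]
      exact (hcenU u).1 hu) (by
      intro ω ω' u hu
      rw [hιc ω u hu, hιc ω' u hu]) α (by
      intro g ω v
      rw [hι, hι, hα]
      group)
  refine ⟨U₀, inferInstance, inferInstance, G ⧸ N, inferInstance, inferInstance, inferInstance,
    m, α, a, hperf, ?_, hWE, ?_, ?_, ?_, ?_⟩
  · -- the quotient
    let f : U₀ →* S := (q.comp U₀.subtype).codRestrict S (fun u => hUS _ u.2)
    have hf : Function.Surjective f := by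
      rintro ⟨s, hs⟩
      obtain ⟨u, hu, hu'⟩ := hSU s hs
      exact ⟨⟨u, hu⟩, Subtype.ext hu'⟩
    have hfk : Subgroup.center U₀ = f.ker := by
      ext u
      rw [hcenU, ← hker, MonoidHom.mem_ker]
      constructor
      · intro h
        exact Subtype.ext h
      · intro h
        exact congrArg Subtype.val h
    exact ⟨(QuotientGroup.quotientMulEquivOfEq hfk).trans
      (QuotientGroup.quotientKerEquivOfSurjective f hf)⟩
  · have h1 : (Subgroup.center U₀).map U₀.subtype ≤ Subgroup.center G := by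
      rintro _ ⟨u, hu, rfl⟩
      exact (hcenU u).1 hu
    have h2 := Subgroup.card_dvd_of_le h1
    rwa [Subgroup.card_map_of_injective U₀.subtype_injective] at h2
  · intro z hz
    apply Subtype.ext
    have h1 := ha 1 z
    rw [pow_one, pow_one] at h1
    rw [h1, Subgroup.mem_center_iff.1 ((hcenU z).1 hz) g₀, mul_inv_cancel_right]
  · obtain ⟨s, hs1, hs2⟩ := hb
    obtain ⟨w, hw, rfl⟩ := hSU s hs1
    refine ⟨⟨w, hw⟩, fun v => Subtype.ext ?_⟩
    rw [ha]
    have h1 := hcmp (g₀ ^ b) 1 w hw (by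
      intro x hx
      rw [map_pow, hg₀, hs2 x hx, map_one]
      group) v v.2
    rw [h1]
    push_cast
    group
  · intro g ω
    obtain ⟨n, hn⟩ : ∃ n, n = (t (g • ω))⁻¹ * (g * t ω) := ⟨_, rfl⟩
    have hnN : n ∈ N := by rw [hn]; exact htg g ω
    have h1 := (hNmem n).1 hnN
    obtain ⟨i, s, hs1, hs2⟩ := hin (q n) fun s hs => (h1 s).1 hs
    obtain ⟨w, hw, rfl⟩ := hSU s hs1
    refine ⟨i, ⟨w, hw⟩, fun v => Subtype.ext ?_⟩
    have h2 := hcmp n (g₀ ^ i) w hw (by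
      intro x hx
      rw [hs2 x hx, map_pow, hg₀]) v v.2
    rw [hα, ← hn, h2]
    push_cast
    rw [ha]

end Pool.Agent.Zk54.MQ
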