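import Pool.Agent.Zk54.MQ.DefE
import Pool.Agent.Zk54.MQ.M7

/-! # The normalizer of a Sylow subgroup of `m(U^Ω)` -/

set_option autoImplicit false
set_option linter.unusedSectionVars false
noncomputable section
namespace Pool.Agent.Zk54.MQ

/-- `b = u k` with `b` of order a power of `p`, `u` in a `p`-subgroup, `k` central of order prime to `p` -/
theorem central_part' {p : ℕ} [hp : Fact p.Prime] {U : Type} [Group U] [Finite U] {C : Subgroup U}
    (hCc : C ≤ Subgroup.center U) (hC : ¬ p ∣ Nat.card C) (PU : Sylow p U) {y u k : U} {i : ℕ}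
    (hy : y ^ p ^ i = 1) (hu : u ∈ (PU : Subgroup U)) (hk : k ∈ C) (h : y = u * k) : y = u := by
  obtain ⟨j, hj⟩ := PU.2 ⟨u, hu⟩
  have hj' : u ^ p ^ j = 1 := by
    have := congrArg Subtype.val hj
    simpa using this
  have hcomm : Commute u k := Subgroup.mem_center_iff.mp (hCc hk) u
  have h1 : y ^ p ^ (i + j) = 1 := by
    rw [pow_add, pow_mul, hy, one_pow]
  have h2 : (u * k) ^ p ^ (i + j) = k ^ p ^ (i + j) := by
    rw [hcomm.mul_pow, add_comm i j, pow_add p j i, pow_mul u, hj', one_pow, one_mul]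
  rw [h, h2] at h1
  have h3 := eq_one_of_pow hC hk h1
  rw [h, h3, mul_one]

/-- E6: the normalizer of a Sylow subgroup of `m(U^Ω)` -/
theorem sylow_part2 {p : ℕ} [hp : Fact p.Prime] {G U Ω : Type} [Group G] [Finite G] [Group U] [Finite U]
    [Fintype Ω] [Nonempty Ω] [MulAction G Ω] {m : (Ω → U) →* G} {α : G → Ω → MulAut U}
    (h : WE m α) (hC : ¬ p ∣ Nat.card (Subgroup.center U)) (PU : Sylow p U) :
    ∃ (P : Sylow p G) (R : Subgroup G),
      Subgroup.normalizer ((P : Subgroup G) : Set G) ≤ Subgroup.normalizer (R : Set G) ∧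
      IsPGroup p R ∧ (p ∣ Nat.card U → R ≠ ⊥) ∧
      m.range ⊔ Subgroup.normalizer (R : Set G) = ⊤ ∧
      (∀ u : Ω → U, m u ∈ Subgroup.normalizer (R : Set G) ↔
        ∀ ω, u ω ∈ Subgroup.normalizer ((PU : Subgroup U) : Set U)) ∧
      ∀ g ∈ Subgroup.normalizer (R : Set G), ∀ (ω : Ω), ∀ x ∈ PU, α g ω x ∈ PU := by
  classical
  obtain ⟨E, hE⟩ : ∃ E : Subgroup G, E = m.range := ⟨_, rfl⟩
  obtain ⟨R, hR⟩ : ∃ R : Subgroup G, R = (piSub Ω (PU : Subgroup U)).map m := ⟨_, rfl⟩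
  have hmemR : ∀ g, g ∈ R ↔ ∃ u : Ω → U, (∀ ω, u ω ∈ (PU : Subgroup U)) ∧ m u = g := by
    intro g
    rw [hR, Subgroup.mem_map]
    rfl
  have hEn : E.Normal := by
    constructor
    intro e he g
    rw [hE] at he ⊢
    obtain ⟨u, rfl⟩ := he
    rw [h.eqv]
    exact ⟨_, rfl⟩
  have hRp : IsPGroup p R := by
    rw [hR]
    have h1 := (piSylow Ω PU).2.map m
    rwa [coe_piSylow] at h1
  have hRE : R ≤ E := by
    intro g hg
    obtain ⟨u, -, rfl⟩ := (hmemR g).mp hg
    rw [hE]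
    exact ⟨u, rfl⟩
  -- `R` is a Sylow subgroup of `E`
  have hRS : ∃ RE : Sylow p E, (RE : Subgroup E).map E.subtype = R := by
    subst hE
    let RE : Sylow p m.range := (piSylow Ω PU).mapSurjective m.rangeRestrict_surjective
    have h1 : (RE : Subgroup m.range) = (piSub Ω (PU : Subgroup U)).map m.rangeRestrict := rfl
    refine ⟨RE, ?_⟩
    rw [h1, Subgroup.map_map, hR]
    rfl
  obtain ⟨RE, hRE2⟩ := hRS
  have hmax : ∀ Q : Subgroup G, IsPGroup p Q → R ≤ Q → Q ≤ E → Q = R := by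
    intro Q hQ hRQ hQE
    have h2 : IsPGroup p (Q.subgroupOf E) := by
      rw [Subgroup.subgroupOf]
      exact hQ.comap_of_injective _ (Subgroup.subtype_injective _)
    have h3 : (RE : Subgroup E) ≤ Q.subgroupOf E := by
      intro x hx
      rw [Subgroup.mem_subgroupOf]
      apply hRQ
      rw [← hRE2]
      exact ⟨x, hx, rfl⟩
    have h4 := RE.is_maximal' h2 h3
    refine le_antisymm (fun q hq => ?_) hRQ
    have h5 : (⟨q, hQE hq⟩ : E) ∈ Q.subgroupOf E := by
      rw [Subgroup.mem_subgroupOf]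
      exact hq
    rw [h4] at h5
    rw [← hRE2]
    exact ⟨⟨q, hQE hq⟩, h5, rfl⟩
  obtain ⟨P, hP⟩ := hRp.exists_le_sylow
  have hPE : (P : Subgroup G) ⊓ E = R :=
    hmax _ (P.2.to_le inf_le_left) (le_inf hP hRE) inf_le_right
  have hsing : ∀ (ω : Ω) (a : U), a ∈ PU → m (Pi.mulSingle ω a) ∈ R := by
    intro ω a ha
    refine (hmemR _).mpr ⟨_, fun ω' => ?_, rfl⟩
    by_cases hω : ω' = ω
    · subst hω
      rw [Pi.mulSingle_eq_same]
      exact ha
    · rw [Pi.mulSingle_eq_of_ne hω]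
      exact Subgroup.one_mem _
  have hord : ∀ a ∈ PU, ∃ i : ℕ, a ^ p ^ i = 1 := by
    intro a ha
    obtain ⟨i, hi⟩ := PU.2 ⟨a, ha⟩
    refine ⟨i, ?_⟩
    have := congrArg Subtype.val hi
    simpa using this
  -- the coordinates of an element of `m⁻¹(R)`
  have hcoord : ∀ (w : Ω → U) (ω : Ω) (i : ℕ), m w ∈ R → (w ω) ^ p ^ i = 1 → w ω ∈ PU := by
    intro w ω i hw hi
    obtain ⟨u, hu, hu'⟩ := (hmemR _).mp hw
    have h3 : m (u⁻¹ * w) = 1 := by
      rw [map_mul, map_inv, hu', inv_mul_cancel]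
    have h4 := h.ker _ h3 ω
    have h5 : w ω = u ω * (u⁻¹ * w) ω := by
      simp only [Pi.mul_apply, Pi.inv_apply]
      group
    have h6 := central_part' le_rfl hC PU hi (hu ω) h4 h5
    rw [h6]
    exact hu ω
  refine ⟨P, R, ?_, hRp, ?_, ?_, ?_, ?_⟩
  · intro g hg
    refine Subgroup.mem_normalizer_fintype fun r hr => ?_
    rw [← hPE] at hr ⊢
    refine ⟨?_, hEn.conj_mem r hr.2 g⟩
    rw [Subgroup.mem_normalizer_iff] at hg
    exact (hg r).mp hr.1
  · intro hdvd hbot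
    have h1 := PU.ne_bot_of_dvd_card hdvd
    obtain ⟨a, ha, ha1⟩ := (Subgroup.ne_bot_iff_exists_ne_one (H := (PU : Subgroup U))).mp h1 |>.elim
      fun a ha => (⟨(a : U), a.2, fun h0 => ha (Subtype.ext h0)⟩ :
        ∃ a : U, a ∈ (PU : Subgroup U) ∧ a ≠ 1)
    obtain ⟨ω⟩ := ‹Nonempty Ω›
    have h2 := hsing ω a ha
    rw [hbot, Subgroup.mem_bot] at h2
    have h3 := h.ker _ h2 ω
    rw [Pi.mulSingle_eq_same] at h3
    obtain ⟨i, hi⟩ := hord a ha
    exact ha1 (eq_one_of_pow hC h3 hi)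
  · have h1 := Sylow.normalizer_sup_eq_top RE
    rw [hRE2] at h1
    rw [← hE, sup_comm]
    exact h1
  · intro u
    constructor
    · intro hu ω
      refine Subgroup.mem_normalizer_fintype fun a ha => ?_
      have h1 := (Subgroup.mem_normalizer_iff.mp hu _).mp (hsing ω a ha)
      rw [← map_mul, ← map_inv, ← map_mul] at h1
      obtain ⟨i, hi⟩ := hord a ha
      have e : (u * (Pi.mulSingle ω a : Ω → U) * u⁻¹ : Ω → U) ω = u ω * a * (u ω)⁻¹ := by
        simp only [Pi.mul_apply, Pi.inv_apply, Pi.mulSingle_eq_same]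
      have h2 := hcoord _ ω i h1 (by rw [e, conj_pow, hi, mul_one, mul_inv_cancel])
      rw [e] at h2
      exact h2
    · intro hu
      refine Subgroup.mem_normalizer_fintype fun r hr => ?_
      obtain ⟨v, hv, rfl⟩ := (hmemR r).mp hr
      rw [← map_inv, ← map_mul, ← map_mul]
      refine (hmemR _).mpr ⟨_, fun ω => ?_, rfl⟩
      have h1 := hu ω
      rw [Subgroup.mem_normalizer_iff] at h1
      exact (h1 (v ω)).mp (hv ω)
  · intro g hg ω x hx
    have h1 := (Subgroup.mem_normalizer_iff.mp hg _).mp (hsing ω x hx)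
    rw [h.eqv] at h1
    obtain ⟨i, hi⟩ := hord x hx
    have e : α g (g⁻¹ • g • ω) ((Pi.mulSingle ω x : Ω → U) (g⁻¹ • g • ω)) = α g ω x := by
      rw [inv_smul_smul, Pi.mulSingle_eq_same]
    have h2 := hcoord _ (g • ω) i h1 (by
      rw [e, ← map_pow, hi, map_one])
    rw [e] at h2
    exact h2

end Pool.Agent.Zk54.MQ
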