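import Pool.Agent.Zk54.MQ.E7d
import Pool.Agent.K3h83.IN.Asm

set_option autoImplicit false
set_option linter.unusedSectionVars false
set_option linter.style.haveILetI false

open scoped BigOperators Classical

noncomputable section

namespace Pool.Agent.Zk54.MQ

open Pool.Agent.Helper884 Pool.Agent.H254R3.IN Pool.Agent.Q288.MB
open Pool.Agent.K3h3.KB Pool.Agent.K3h3.MK
open IC (Irr)
open Pool.Agent.K3h83.IN (ov wo wo_eq wo_congr fixes S1 S2 S3b G5 Tst mem_Tst range_le_Tst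
  mem_NN_subtype cod cod_coe)

/-- the character with given factors exists -/
theorem exists_thetaG {G' U₁ Ω : Type} [Group G'] [Group U₁] [Finite U₁] [Fintype Ω]
    (m₁ : (Ω → U₁) →* G') (hker : ∀ u, m₁ u = 1 → ∀ ω, u ω ∈ Subgroup.center U₁)
    {f : Ω → (U₁ → ℂ)} (hf : ∀ ω, IsIrr (f ω))
    (hk : ∀ u, m₁ u = 1 → ∏ ω, f ω (u ω) = ∏ ω, f ω 1) :
    ∃ θ : m₁.range → ℂ, ∀ u, θ ⟨m₁ u, ⟨u, rfl⟩⟩ = ∏ ω, f ω (u ω) := by
  haveI := Fintype.ofFinite U₁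
  have hcen : ∀ ω, ∃ μ : Subgroup.center U₁ →* ℂˣ, ∀ (a : Subgroup.center U₁) (x : U₁),
      f ω ((a : U₁) * x) = ((μ a : ℂˣ) : ℂ) * f ω x := fun ω => by
    have := Pool.Agent.K3h18.IN.central (Subgroup.center U₁).subtype
      (by rw [Subgroup.range_subtype]) (hf ω)
    exact this
  choose μ hμ using hcen
  have key : ∀ u v : Ω → U₁, m₁ u = m₁ v → ∏ ω, f ω (u ω) = ∏ ω, f ω (v ω) := by
    intro u v huv
    have h1 : m₁ (u * v⁻¹) = 1 := by rw [map_mul, map_inv, huv, mul_inv_cancel]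
    have h2 : ∀ ω, (u * v⁻¹) ω ∈ Subgroup.center U₁ := hker _ h1
    have h3 := hk _ h1
    have h4 : ∀ ω, f ω (u ω) = ((μ ω ⟨_, h2 ω⟩ : ℂˣ) : ℂ) * f ω (v ω) := by
      intro ω
      rw [← hμ ω ⟨_, h2 ω⟩ (v ω)]
      congr 1
      simp
    have h5 : ∀ ω, f ω ((u * v⁻¹) ω) = ((μ ω ⟨_, h2 ω⟩ : ℂˣ) : ℂ) * f ω 1 := by
      intro ω
      rw [← hμ ω ⟨_, h2 ω⟩ 1, mul_one]
    have h6 : ∏ ω, f ω 1 ≠ 0 := Finset.prod_ne_zero_iff.mpr fun ω _ => by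
      rw [← ndeg_cast (hf ω)]
      exact_mod_cast (ndeg_pos (hf ω)).ne'
    have h7 : ∏ ω, ((μ ω ⟨_, h2 ω⟩ : ℂˣ) : ℂ) = 1 := by
      simp_rw [h5] at h3
      rw [Finset.prod_mul_distrib] at h3
      exact mul_right_cancel₀ h6 (by rw [h3, one_mul])
    simp_rw [h4]
    rw [Finset.prod_mul_distrib, h7, one_mul]
  refine ⟨fun l => ∏ ω, f ω (l.2.choose ω), fun u => ?_⟩
  exact key _ _ (⟨u, rfl⟩ : ∃ v, m₁ v = m₁ u).choose_spec

/-- no characters of degree prime to `p` over a character of degree divisible by `p` -/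
theorem wo_zero {p : ℕ} [hp : Fact p.Prime] {L G : Type} [Group L] [Finite L] [Group G] [Finite G]
    (j : L →* G) (hj : Function.Injective j) (hn : j.range.Normal) {θ : L → ℂ} (hθ : IsIrr θ)
    (hz : (ndeg θ : ZMod p) = 0) : wo (cl p) j θ = 0 := by
  have h1 := Pool.Agent.K3h83.IN.a_S1 (RR p) (cl p) L G j hj hn θ hθ (Tst j hj hn θ)
    (fun _ => mem_Tst) (cod j _ (range_le_Tst j hj hn hθ)) fun _ => rfl
  rw [h1]
  have hT : ∀ x : Tst j hj hn θ, fixes (cod j _ (range_le_Tst j hj hn hθ)) θ x := by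
    intro x l l' hl
    exact mem_Tst.mp x.2 l l' (congrArg Subtype.val hl)
  haveI := Pool.Agent.K3h83.IN.cod_normal j hn _ (range_le_Tst j hj hn hθ)
  obtain ⟨S, _, _, q, lam, -, -, -, key⟩ := Pool.Agent.K3h83.IN.a_S3 L (Tst j hj hn θ) _
    (cod j _ (range_le_Tst j hj hn hθ)) (Pool.Agent.K3h83.IN.cod_inj hj _ _) θ hθ hT
    (QuotientGroup.mk' (cod j _ (range_le_Tst j hj hn hθ)).range)
    (QuotientGroup.mk'_surjective _) (QuotientGroup.ker_mk' _)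
  have k2 := key (RR p) (cl p) ⊤ (cod (cod j _ (range_le_Tst j hj hn hθ)) ⊤ le_top) fun _ => rfl
  have t1 : wo (cl p) (cod j _ (range_le_Tst j hj hn hθ)) θ =
      wo (cl p) (cod (cod j _ (range_le_Tst j hj hn hθ)) ⊤ le_top) θ :=
    wo_congr (cl p) (MulEquiv.refl L) Subgroup.topEquiv.symm _ _ (fun l => rfl) θ θ fun _ => rfl
  rw [t1, k2, cl_zero hz, zero_mul, mul_zero]

/-- E7: comparison of `G` and `B` -/
theorem compare2 {p : ℕ} [hp : Fact p.Prime] {G U Ω : Type} [Group G] [Finite G] [Group U] [Finite U]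
    [Fintype Ω] [MulAction G Ω] {m : (Ω → U) →* G} {α : G → Ω → MulAut U}
    (s1 : S1) (s2 : S2) (s3b : S3b) (h : WE m α) (U₀ : Subgroup U) (hZ : Subgroup.center U ≤ U₀)
    (B : Subgroup G) (hLB : m.range ⊔ B = ⊤) (hmB : ∀ u : Ω → U, m u ∈ B ↔ ∀ ω, u ω ∈ U₀)
    (a : MulAut U) (b : ℕ) (hb : 0 < b) (u₁ : U) (hu₁ : u₁ ∈ U₀)
    (hab : ∀ v, (a ^ b) v = u₁ * v * u₁⁻¹)
    (hord : ∀ (k : ℕ) (w : U), (∀ v, (a ^ k) v = w * v * w⁻¹) → b ∣ k)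
    (ha0 : ∀ u, u ∈ U₀ → a u ∈ U₀) (hfix : ∀ z ∈ Subgroup.center U, a z = z)
    (hα : ∀ g ∈ B, ∀ ω, ∃ (i : ℕ), ∃ u ∈ U₀, ∀ v, α g ω v = u * (a ^ i) v * u⁻¹)
    (e : {χ : U → ℂ // IsIrr χ ∧ (ndeg χ : ZMod p) ≠ 0} ≃
      {χ : U₀ → ℂ // IsIrr χ ∧ (ndeg χ : ZMod p) ≠ 0})
    (he1 : ∀ χ, (ndeg χ.1 : ZMod p) ^ 2 = (ndeg (e χ).1 : ZMod p) ^ 2)
    (he2 : ∀ χ (c : U) (hc : c ∈ Subgroup.center U),
      χ.1 c / χ.1 1 = (e χ).1 ⟨c, hZ hc⟩ / (e χ).1 1)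
    (he3 : ∀ χ χ₁, (∀ u, χ₁.1 (a u) = χ.1 u) →
      ∀ u : U₀, (e χ₁).1 ⟨a u, ha0 u u.2⟩ = (e χ).1 u)
    (P : Sylow p G) (hP : NN P ≤ B) :
    wt (cl p) G = wt (cl p) B := by
  have d : PD m α U₀ B a b u₁ := ⟨h, hZ, hLB, hmB, hb, hu₁, hab, hord, ha0, hfix, hα⟩
  obtain ⟨MC, hMC⟩ : ∃ MC : (Ω → U₀) →* B, MC = mC m U₀ B d.hmB := ⟨_, rfl⟩
  have hn0 : m.range.Normal := h.normal
  have hnB0 : MC.range.Normal := by rw [hMC]; exact mC_normal h U₀ B hmB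
  have hkB : ∀ u, MC u = 1 → ∀ ω, u ω ∈ Subgroup.center U₀ := by
    intro u hu ω
    rw [hMC] at hu
    have h1 := h.ker (fun ω => (u ω : U)) (congrArg Subtype.val hu) ω
    rw [Subgroup.mem_center_iff] at h1 ⊢
    intro y
    exact Subtype.ext (h1 y)
  -- the set of characters and its permutation
  haveI : Fintype {χ : U → ℂ // IsIrr χ ∧ (ndeg χ : ZMod p) ≠ 0} := by
    haveI := Fintype.ofFinite U
    exact Fintype.subtype ((Irr U).filter fun χ => (ndeg χ : ZMod p) ≠ 0) fun χ => by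
      rw [Finset.mem_filter, mem_Irr]
  have nda : ∀ (c : U ≃* U) (χ : U → ℂ), ndeg (fun u => χ (c u)) = ndeg χ := by
    intro c χ
    change ⌊(χ (c 1)).re⌋₊ = _
    rw [map_one]
    rfl
  let τ : Equiv.Perm {χ : U → ℂ // IsIrr χ ∧ (ndeg χ : ZMod p) ≠ 0} :=
    { toFun := fun χ => ⟨fun u => χ.1 (a.symm u), Pool.Agent.Q90.WR.irr_comp a.symm χ.2.1, by
        rw [nda a.symm]; exact χ.2.2⟩
      invFun := fun χ => ⟨fun u => χ.1 (a u), Pool.Agent.Q90.WR.irr_comp a χ.2.1, by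
        rw [nda a]; exact χ.2.2⟩
      left_inv := fun χ => Subtype.ext (funext fun u => by
        change χ.1 (a.symm (a u)) = _
        rw [MulEquiv.symm_apply_apply])
      right_inv := fun χ => Subtype.ext (funext fun u => by
        change χ.1 (a (a.symm u)) = _
        rw [MulEquiv.apply_symm_apply]) }
  have hτ : ∀ j u, (fun χ : {χ : U → ℂ // IsIrr χ ∧ (ndeg χ : ZMod p) ≠ 0} => χ.1) (τ j) (a u) =
      (fun χ : {χ : U → ℂ // IsIrr χ ∧ (ndeg χ : ZMod p) ≠ 0} => χ.1) j u := by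
    intro j u
    change j.1 (a.symm (a u)) = j.1 u
    rw [MulEquiv.symm_apply_apply]
  have hτ' : ∀ j (u : U₀),
      (fun χ : {χ : U → ℂ // IsIrr χ ∧ (ndeg χ : ZMod p) ≠ 0} => (e χ).1) (τ j)
        ⟨a u, d.ha0 u u.2⟩ =
      (fun χ : {χ : U → ℂ // IsIrr χ ∧ (ndeg χ : ZMod p) ≠ 0} => (e χ).1) j u :=
    fun j u => he3 j (τ j) (hτ j) u
  have hinj : Function.Injective
      (fun χ : {χ : U → ℂ // IsIrr χ ∧ (ndeg χ : ZMod p) ≠ 0} => χ.1) := Subtype.val_injective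
  have hinj' : Function.Injective
      (fun χ : {χ : U → ℂ // IsIrr χ ∧ (ndeg χ : ZMod p) ≠ 0} => (e χ).1) :=
    Subtype.val_injective.comp e.injective
  have hPB : (P : Subgroup G) ≤ B := Subgroup.le_normalizer.trans hP
  have hr : m.range.subtype.range = m.range := Subgroup.range_subtype _
  have hrB : MC.range.subtype.range = MC.range := Subgroup.range_subtype _
  have hn : m.range.subtype.range.Normal := by rw [hr]; exact h.normal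
  have hnB : MC.range.subtype.range.Normal := by rw [hrB]; exact hnB0
  haveI := Fintype.ofFinite m.range
  haveI := Fintype.ofFinite MC.range
  have e1 := s2 p m.range G m.range.subtype m.range.subtype_injective hn P
  have e2 := s2 p MC.range (B) MC.range.subtype
    MC.range.subtype_injective hnB (P.subtype hPB)
  have c1 : Nat.card (NN (P.subtype hPB)) = Nat.card (NN P) := by
    refine Nat.card_congr
      { toFun := fun x => ⟨x.1.1, (mem_NN_subtype P hPB x.1).mp x.2⟩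
        invFun := fun x => ⟨⟨x.1, hP x.2⟩, (mem_NN_subtype P hPB ⟨x.1, hP x.2⟩).mpr x.2⟩
        left_inv := fun _ => rfl
        right_inv := fun _ => rfl }
  have cm : ∀ f : Ω → {χ : U → ℂ // IsIrr χ ∧ (ndeg χ : ZMod p) ≠ 0},
      Cmp p (Subgroup.center U) U₀ (fun ω => (f ω).1) (fun ω => (e (f ω)).1) := fun f =>
    { hC := hZ
      hF := fun ω => (f ω).2.1
      hF' := fun ω => (e (f ω)).2.1
      ne := fun ω => (f ω).2.2
      sq := fun ω => he1 _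
      cen := fun ω c hc => he2 _ c hc
      st := fun ω ω' => by
        rw [← Subtype.ext_iff, ← Subtype.ext_iff, e.apply_eq_iff_eq] }
  have ker : ∀ f : Ω → {χ : U → ℂ // IsIrr χ ∧ (ndeg χ : ZMod p) ≠ 0},
      (∀ u, m u = 1 → ∏ ω, (f ω).1 (u ω) = ∏ ω, (f ω).1 1) ↔
        ∀ u, MC u = 1 → ∏ ω, (e (f ω)).1 (u ω) = ∏ ω, (e (f ω)).1 1 := by
    intro f
    have h1 : ∏ ω, (f ω).1 1 ≠ 0 := Finset.prod_ne_zero_iff.mpr fun ω _ => one_ne (f ω).2.1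
    have h2 : ∏ ω, (e (f ω)).1 1 ≠ 0 :=
      Finset.prod_ne_zero_iff.mpr fun ω _ => one_ne (e (f ω)).2.1
    constructor
    · intro H u hu
      have h3 : m (fun ω => (u ω : U)) = 1 := by
        rw [hMC] at hu
        exact congrArg Subtype.val hu
      have h4 : ∀ ω, (u ω : U) ∈ Subgroup.center U := h.ker _ h3
      have h5 := (cm f).prod (fun ω => (u ω : U)) h4
      have h6 := H (fun ω => (u ω : U)) h3
      rw [h6, div_self h1, eq_comm, div_eq_one_iff_eq h2] at h5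
      exact h5
    · intro H u hu
      have h4 : ∀ ω, u ω ∈ Subgroup.center U := h.ker _ hu
      have h5 := (cm f).prod u h4
      have h6 := H (fun ω => ⟨u ω, hZ (h4 ω)⟩) (by
        rw [hMC]
        exact Subtype.ext hu)
      rw [h6, div_self h2, div_eq_one_iff_eq h1] at h5
      exact h5
  have fxi : ∀ (f : Ω → {χ : U → ℂ // IsIrr χ ∧ (ndeg χ : ZMod p) ≠ 0}) (θ : m.range → ℂ)
      (θ' : MC.range → ℂ), (∀ u, θ ⟨m u, ⟨u, rfl⟩⟩ = ∏ ω, (f ω).1 (u ω)) →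
      (∀ u, θ' ⟨MC u, ⟨u, rfl⟩⟩ = ∏ ω, (e (f ω)).1 (u ω)) → ∀ x : B,
      (fixes MC.range.subtype θ' x ↔ fixes m.range.subtype θ (x : G)) := by
    subst hMC
    intro f θ θ' h1 h2 x
    choose i u hu hiu using d.hα x x.2
    have := d.fixes_iff (χ := fun χ : {χ : U → ℂ // IsIrr χ ∧ (ndeg χ : ZMod p) ≠ 0} => χ.1)
      (χ' := fun χ : {χ : U → ℂ // IsIrr χ ∧ (ndeg χ : ZMod p) ≠ 0} => (e χ).1)
      (fun χ => χ.2.1) (fun χ => (e χ).2.1) hinj hinj' hτ hτ' f h1 h2 x i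
      (fun ω => ⟨u ω, hu ω⟩) hiu
    exact this.2.trans this.1.symm
  have woe : ∀ (f : Ω → {χ : U → ℂ // IsIrr χ ∧ (ndeg χ : ZMod p) ≠ 0}) (θ : m.range → ℂ)
      (θ' : MC.range → ℂ), (∀ u, θ ⟨m u, ⟨u, rfl⟩⟩ = ∏ ω, (f ω).1 (u ω)) →
      (∀ u, θ' ⟨MC u, ⟨u, rfl⟩⟩ = ∏ ω, (e (f ω)).1 (u ω)) →
      wo (cl p) m.range.subtype θ = wo (cl p) MC.range.subtype θ' := by
    subst hMC
    intro f θ θ' h1 h2
    obtain ⟨k, κ, h3, h4⟩ := d.wo_pair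
      (χ := fun χ : {χ : U → ℂ // IsIrr χ ∧ (ndeg χ : ZMod p) ≠ 0} => χ.1)
      (χ' := fun χ : {χ : U → ℂ // IsIrr χ ∧ (ndeg χ : ZMod p) ≠ 0} => (e χ).1) s1 s3b
      (fun χ => χ.2.1) (fun χ => (e χ).2.1) hinj hinj' hτ hτ' he2 f h1 h2 (cl p)
    have h5 : cl p (ndeg θ) = cl p (ndeg θ') := by
      rw [ndeg_theta (f := fun ω => (f ω).1) (fun ω => (f ω).2.1) h1,
        ndeg_theta (f := fun ω => (e (f ω)).1) (fun ω => (e (f ω)).2.1) h2, map_prod, map_prod]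
      exact Finset.prod_congr rfl fun ω _ => cl_sq (f ω).2.2 (he1 _)
    rw [h3, h4, h5]
  -- the characters of degree prime to `p` come from functions `f`
  have exf : ∀ θ : m.range → ℂ, IsIrr θ → (ndeg θ : ZMod p) ≠ 0 →
      ∃ f : Ω → {χ : U → ℂ // IsIrr χ ∧ (ndeg χ : ZMod p) ≠ 0},
        ∀ u, θ ⟨m u, ⟨u, rfl⟩⟩ = ∏ ω, (f ω).1 (u ω) := by
    intro θ hθ hne
    obtain ⟨f, hf, hf2⟩ := exists_f hθ
    rw [ndeg_theta hf hf2, Nat.cast_prod, Finset.prod_ne_zero_iff] at hne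
    exact ⟨fun ω => ⟨f ω, hf ω, hne ω (Finset.mem_univ _)⟩, hf2⟩
  have exf' : ∀ θ : MC.range → ℂ, IsIrr θ → (ndeg θ : ZMod p) ≠ 0 →
      ∃ f : Ω → {χ : U → ℂ // IsIrr χ ∧ (ndeg χ : ZMod p) ≠ 0},
        ∀ u, θ ⟨MC u, ⟨u, rfl⟩⟩ = ∏ ω, (e (f ω)).1 (u ω) := by
    intro θ hθ hne
    obtain ⟨f, hf, hf2⟩ := exists_f hθ
    rw [ndeg_theta hf hf2, Nat.cast_prod, Finset.prod_ne_zero_iff] at hne
    refine ⟨fun ω => e.symm ⟨f ω, hf ω, hne ω (Finset.mem_univ _)⟩, fun u => ?_⟩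
    rw [hf2]
    exact Finset.prod_congr rfl fun ω _ => by rw [Equiv.apply_symm_apply]
  have hker : ∀ (f : Ω → {χ : U → ℂ // IsIrr χ ∧ (ndeg χ : ZMod p) ≠ 0}) (θ : m.range → ℂ),
      (∀ u, θ ⟨m u, ⟨u, rfl⟩⟩ = ∏ ω, (f ω).1 (u ω)) →
      ∀ u, m u = 1 → ∏ ω, (f ω).1 (u ω) = ∏ ω, (f ω).1 1 := by
    intro f θ hθ u hu
    have h1 := hθ u
    have h2 := hθ 1
    have e3 : (⟨m u, ⟨u, rfl⟩⟩ : m.range) = ⟨m 1, ⟨1, rfl⟩⟩ :=
      Subtype.ext (hu.trans (map_one m).symm)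
    rw [← h1, e3, h2]
    rfl
  have hker' : ∀ (f : Ω → {χ : U → ℂ // IsIrr χ ∧ (ndeg χ : ZMod p) ≠ 0})
      (θ : MC.range → ℂ),
      (∀ u, θ ⟨MC u, ⟨u, rfl⟩⟩ = ∏ ω, (e (f ω)).1 (u ω)) →
      ∀ u, MC u = 1 → ∏ ω, (e (f ω)).1 (u ω) = ∏ ω, (e (f ω)).1 1 := by
    intro f θ hθ u hu
    have h1 := hθ u
    have h2 := hθ 1
    have e3 : (⟨MC u, ⟨u, rfl⟩⟩ : MC.range) = ⟨MC 1, ⟨1, rfl⟩⟩ :=
      Subtype.ext (hu.trans (map_one _).symm)
    rw [← h1, e3, h2]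
    rfl
  -- the two sums
  have key : ∑ θ ∈ (Irr m.range).filter (fun θ => ∀ x ∈ P, fixes m.range.subtype θ x),
      (Nat.card {x : G // x ∈ NN P ∧ fixes m.range.subtype θ x} : RR p) *
        wo (cl p) m.range.subtype θ =
      ∑ θ ∈ (Irr MC.range).filter
        (fun θ => ∀ x ∈ P.subtype hPB, fixes MC.range.subtype θ x),
      (Nat.card {x : B // x ∈ NN (P.subtype hPB) ∧
        fixes MC.range.subtype θ x} : RR p) * wo (cl p) MC.range.subtype θ := by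
    have z1 : ∀ θ : m.range → ℂ, IsIrr θ → (ndeg θ : ZMod p) = 0 →
        wo (cl p) m.range.subtype θ = 0 := by
      intro θ hθ hz
      exact wo_zero m.range.subtype m.range.subtype_injective hn hθ hz
    have z2 : ∀ θ : MC.range → ℂ, IsIrr θ → (ndeg θ : ZMod p) = 0 →
        wo (cl p) MC.range.subtype θ = 0 := by
      intro θ hθ hz
      exact wo_zero MC.range.subtype MC.range.subtype_injective hnB hθ hz
    -- the partner
    have ex : ∀ θ : m.range → ℂ, IsIrr θ → (ndeg θ : ZMod p) ≠ 0 →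
        ∃ (f : Ω → {χ : U → ℂ // IsIrr χ ∧ (ndeg χ : ZMod p) ≠ 0}) (θ' : MC.range → ℂ),
          (∀ u, θ ⟨m u, ⟨u, rfl⟩⟩ = ∏ ω, (f ω).1 (u ω)) ∧
          ∀ u, θ' ⟨MC u, ⟨u, rfl⟩⟩ = ∏ ω, (e (f ω)).1 (u ω) := by
      intro θ hθ hne
      obtain ⟨f, hf⟩ := exf θ hθ hne
      obtain ⟨θ', hθ'⟩ := exists_thetaG MC hkB (fun ω => (e (f ω)).2.1)
        ((ker f).mp (hker f θ hf))
      exact ⟨f, θ', hf, hθ'⟩
    have fx : ∀ (f : Ω → {χ : U → ℂ // IsIrr χ ∧ (ndeg χ : ZMod p) ≠ 0}) (θ : m.range → ℂ)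
        (θ' : MC.range → ℂ), (∀ u, θ ⟨m u, ⟨u, rfl⟩⟩ = ∏ ω, (f ω).1 (u ω)) →
        (∀ u, θ' ⟨MC u, ⟨u, rfl⟩⟩ = ∏ ω, (e (f ω)).1 (u ω)) →
        ((∀ x ∈ P, fixes m.range.subtype θ x) ↔
          ∀ x ∈ P.subtype hPB, fixes MC.range.subtype θ' x) := by
      intro f θ θ' h1 h2
      constructor
      · intro H x hx
        exact (fxi f _ _ h1 h2 x).mpr (H x hx)
      · intro H x hx
        exact (fxi f _ _ h1 h2 ⟨x, hPB hx⟩).mp (H ⟨x, hPB hx⟩ hx)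
    have val : ∀ (f : Ω → {χ : U → ℂ // IsIrr χ ∧ (ndeg χ : ZMod p) ≠ 0}) (θ : m.range → ℂ)
        (θ' : MC.range → ℂ), (∀ u, θ ⟨m u, ⟨u, rfl⟩⟩ = ∏ ω, (f ω).1 (u ω)) →
        (∀ u, θ' ⟨MC u, ⟨u, rfl⟩⟩ = ∏ ω, (e (f ω)).1 (u ω)) →
        (Nat.card {x : G // x ∈ NN P ∧ fixes m.range.subtype θ x} : RR p) *
          wo (cl p) m.range.subtype θ =
        (Nat.card {x : B // x ∈ NN (P.subtype hPB) ∧
          fixes MC.range.subtype θ' x} : RR p) *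
            wo (cl p) MC.range.subtype θ' := by
      intro f θ θ' h1 h2
      rw [woe f _ _ h1 h2]
      congr 2
      refine Nat.card_congr
        { toFun := fun x => ⟨⟨x.1, hP x.2.1⟩, (mem_NN_subtype P hPB ⟨x.1, hP x.2.1⟩).mpr x.2.1,
            (fxi f _ _ h1 h2 ⟨x.1, hP x.2.1⟩).mpr x.2.2⟩
          invFun := fun x => ⟨x.1.1, (mem_NN_subtype P hPB x.1).mp x.2.1,
            (fxi f _ _ h1 h2 x.1).mp x.2.2⟩
          left_inv := fun _ => rfl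
          right_inv := fun _ => rfl }
    have nd : ∀ (f : Ω → {χ : U → ℂ // IsIrr χ ∧ (ndeg χ : ZMod p) ≠ 0}) (θ : m.range → ℂ),
        (∀ u, θ ⟨m u, ⟨u, rfl⟩⟩ = ∏ ω, (f ω).1 (u ω)) → (ndeg θ : ZMod p) ≠ 0 := by
      intro f θ h1
      rw [ndeg_theta (fun ω => (f ω).2.1) h1, Nat.cast_prod, Finset.prod_ne_zero_iff]
      exact fun ω _ => (f ω).2.2
    have nd' : ∀ (f : Ω → {χ : U → ℂ // IsIrr χ ∧ (ndeg χ : ZMod p) ≠ 0})
        (θ : MC.range → ℂ),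
        (∀ u, θ ⟨MC u, ⟨u, rfl⟩⟩ = ∏ ω, (e (f ω)).1 (u ω)) → (ndeg θ : ZMod p) ≠ 0 := by
      intro f θ h1
      rw [ndeg_theta (fun ω => (e (f ω)).2.1) h1, Nat.cast_prod, Finset.prod_ne_zero_iff]
      exact fun ω _ => (e (f ω)).2.2
    have q1 : ∑ θ ∈ (Irr m.range).filter (fun θ => ∀ x ∈ P, fixes m.range.subtype θ x),
        (Nat.card {x : G // x ∈ NN P ∧ fixes m.range.subtype θ x} : RR p) *
          wo (cl p) m.range.subtype θ =
        ∑ θ ∈ (Irr m.range).filter (fun θ => (∀ x ∈ P, fixes m.range.subtype θ x) ∧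
          (ndeg θ : ZMod p) ≠ 0),
        (Nat.card {x : G // x ∈ NN P ∧ fixes m.range.subtype θ x} : RR p) *
          wo (cl p) m.range.subtype θ := by
      symm
      apply Finset.sum_subset
      · intro θ hθ
        rw [Finset.mem_filter] at hθ ⊢
        exact ⟨hθ.1, hθ.2.1⟩
      · intro θ hθ hθ2
        rw [Finset.mem_filter] at hθ hθ2
        have hz : (ndeg θ : ZMod p) = 0 := by
          by_contra hne
          exact hθ2 ⟨hθ.1, hθ.2, hne⟩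
        rw [z1 θ (mem_Irr.mp hθ.1) hz, mul_zero]
    have q2 : ∑ θ ∈ (Irr MC.range).filter
          (fun θ => ∀ x ∈ P.subtype hPB, fixes MC.range.subtype θ x),
        (Nat.card {x : B // x ∈ NN (P.subtype hPB) ∧
          fixes MC.range.subtype θ x} : RR p) * wo (cl p) MC.range.subtype θ =
        ∑ θ ∈ (Irr MC.range).filter
          (fun θ => (∀ x ∈ P.subtype hPB, fixes MC.range.subtype θ x) ∧
            (ndeg θ : ZMod p) ≠ 0),
        (Nat.card {x : B // x ∈ NN (P.subtype hPB) ∧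
          fixes MC.range.subtype θ x} : RR p) *
            wo (cl p) MC.range.subtype θ := by
      symm
      apply Finset.sum_subset
      · intro θ hθ
        rw [Finset.mem_filter] at hθ ⊢
        exact ⟨hθ.1, hθ.2.1⟩
      · intro θ hθ hθ2
        rw [Finset.mem_filter] at hθ hθ2
        have hz : (ndeg θ : ZMod p) = 0 := by
          by_contra hne
          exact hθ2 ⟨hθ.1, hθ.2, hne⟩
        rw [z2 θ (mem_Irr.mp hθ.1) hz, mul_zero]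
    rw [q1, q2]
    let pr : (m.range → ℂ) → MC.range → ℂ := fun θ =>
      if hh : ∃ (f : Ω → {χ : U → ℂ // IsIrr χ ∧ (ndeg χ : ZMod p) ≠ 0})
          (θ' : MC.range → ℂ),
          (∀ u, θ ⟨m u, ⟨u, rfl⟩⟩ = ∏ ω, (f ω).1 (u ω)) ∧
          ∀ u, θ' ⟨MC u, ⟨u, rfl⟩⟩ = ∏ ω, (e (f ω)).1 (u ω) then hh.choose_spec.choose
      else 0
    have hpr : ∀ θ : m.range → ℂ, IsIrr θ → (ndeg θ : ZMod p) ≠ 0 →
        ∃ f : Ω → {χ : U → ℂ // IsIrr χ ∧ (ndeg χ : ZMod p) ≠ 0},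
          (∀ u, θ ⟨m u, ⟨u, rfl⟩⟩ = ∏ ω, (f ω).1 (u ω)) ∧
          ∀ u, pr θ ⟨MC u, ⟨u, rfl⟩⟩ = ∏ ω, (e (f ω)).1 (u ω) := by
      intro θ hθ hne
      have hh := ex θ hθ hne
      have e4 : pr θ = hh.choose_spec.choose := dif_pos hh
      rw [e4]
      exact ⟨hh.choose, hh.choose_spec.choose_spec⟩
    have ext1 : ∀ θ₁ θ₂ : m.range → ℂ, (∀ u, θ₁ ⟨m u, ⟨u, rfl⟩⟩ = θ₂ ⟨m u, ⟨u, rfl⟩⟩) →
        θ₁ = θ₂ := by
      intro θ₁ θ₂ H
      funext x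
      obtain ⟨_, u, rfl⟩ := x
      exact H u
    have ext2 : ∀ θ₁ θ₂ : MC.range → ℂ,
        (∀ u, θ₁ ⟨MC u, ⟨u, rfl⟩⟩ = θ₂ ⟨MC u, ⟨u, rfl⟩⟩) → θ₁ = θ₂ := by
      intro θ₁ θ₂ H
      funext x
      obtain ⟨_, u, rfl⟩ := x
      exact H u
    refine Finset.sum_bij (fun θ _ => pr θ) ?_ ?_ ?_ ?_
    · intro θ hθ
      rw [Finset.mem_filter] at hθ
      obtain ⟨f, h1, h2⟩ := hpr θ (mem_Irr.mp hθ.1) hθ.2.2
      rw [Finset.mem_filter]
      exact ⟨mem_Irr.mpr (theta_irr (fun ω => (e (f ω)).2.1) h2), (fx f θ _ h1 h2).mp hθ.2.1,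
        nd' f _ h2⟩
    · intro θ₁ hθ₁ θ₂ hθ₂ heq
      rw [Finset.mem_filter] at hθ₁ hθ₂
      obtain ⟨f₁, h1, h2⟩ := hpr θ₁ (mem_Irr.mp hθ₁.1) hθ₁.2.2
      obtain ⟨f₂, h3, h4⟩ := hpr θ₂ (mem_Irr.mp hθ₂.1) hθ₂.2.2
      have hf : (fun ω => (e (f₁ ω)).1) = fun ω => (e (f₂ ω)).1 := by
        refine f_unique (fun ω => (e (f₁ ω)).2.1) (fun ω => (e (f₂ ω)).2.1) fun u => ?_
        rw [← h2, ← h4]
        exact congrFun heq _
      have hf2 : f₁ = f₂ := by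
        funext ω
        exact e.injective (Subtype.ext (congrFun hf ω))
      apply ext1
      intro u
      rw [h1, h3, hf2]
    · intro θ' hθ'
      rw [Finset.mem_filter] at hθ'
      obtain ⟨f, hf⟩ := exf' θ' (mem_Irr.mp hθ'.1) hθ'.2.2
      obtain ⟨θ, hθ⟩ := exists_thetaG m h.ker (fun ω => (f ω).2.1) ((ker f).mpr (hker' f θ' hf))
      have hθi : IsIrr θ := theta_irr (fun ω => (f ω).2.1) hθ
      refine ⟨θ, ?_, ?_⟩
      · rw [Finset.mem_filter]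
        exact ⟨mem_Irr.mpr hθi, (fx f θ θ' hθ hf).mpr hθ'.2.1, nd f θ hθ⟩
      · obtain ⟨f₂, h3, h4⟩ := hpr θ hθi (nd f θ hθ)
        have hf2 : f = f₂ := by
          funext ω
          have := f_unique (fun ω => (f ω).2.1) (fun ω => (f₂ ω).2.1) fun u => by
            rw [← hθ, ← h3]
          exact Subtype.ext (congrFun this ω)
        apply ext2
        intro u
        rw [h4, hf, hf2]
    · intro θ hθ
      rw [Finset.mem_filter] at hθ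
      obtain ⟨f, h1, h2⟩ := hpr θ (mem_Irr.mp hθ.1) hθ.2.2
      exact val f θ _ h1 h2
  rw [c1, ← key, ← e1] at e2
  exact (natCast_mul_inj p Nat.card_pos.ne' e2).symm


end Pool.Agent.Zk54.MQ
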