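import Mathlib
set_option autoImplicit false
set_option linter.unusedSectionVars false
open scoped BigOperators Classical
noncomputable section
namespace Pool.Agent.Zk54.MQ

namespace Tens

variable {U X Ω J : Type} [Group U] [Group X] [Fintype Ω] [MulAction X Ω] {n : J → ℕ}
    (R : ∀ j, U →* Matrix (Fin (n j)) (Fin (n j)) ℂ) {g : Ω → J}

/-- the index set of the basis -/
abbrev Idx (n : J → ℕ) (g : Ω → J) : Type := ∀ ω : Ω, Fin (n (g ω))

/-- the matrix of the tensor product -/
def mat (g : Ω → J) (u : Ω → U) : Matrix (Idx n g) (Idx n g) ℂ :=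
  fun a b => ∏ ω, R (g ω) (u ω) (a ω) (b ω)

theorem mat_mul (u v : Ω → U) : mat R g (u * v) = mat R g u * mat R g v := by
  ext a c
  rw [Matrix.mul_apply]
  unfold mat
  simp_rw [← Finset.prod_mul_distrib]
  have h3 := Finset.prod_univ_sum (fun ω : Ω => (Finset.univ : Finset (Fin (n (g ω))))) fun i b =>
    R (g i) (u i) (a i) b * R (g i) (v i) b (c i)
  rw [Fintype.piFinset_univ] at h3
  rw [← h3]
  refine Finset.prod_congr rfl fun i _ => ?_
  rw [Pi.mul_apply, map_mul, Matrix.mul_apply]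

theorem mat_one : mat R g (1 : Ω → U) = 1 := by
  ext a b
  unfold mat
  simp only [Pi.one_apply, map_one, Matrix.one_apply]
  by_cases h : a = b
  · subst h
    simp
  · rw [if_neg h]
    obtain ⟨i, hi⟩ := Function.ne_iff.mp h
    exact Finset.prod_eq_zero (Finset.mem_univ i) (by rw [if_neg hi])

/-- the tensor product -/
def rep (g : Ω → J) : Representation ℂ (Ω → U) (Idx n g → ℂ) where
  toFun u := Matrix.toLin' (mat R g u)
  map_one' := by
    rw [mat_one, Matrix.toLin'_one]
    rfl
  map_mul' x y := by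
    rw [mat_mul, Matrix.toLin'_mul]
    rfl

theorem rep_apply (u : Ω → U) (v : Idx n g → ℂ) (a : Idx n g) :
    rep R g u v a = ∑ b, (∏ ω, R (g ω) (u ω) (a ω) (b ω)) * v b := by
  change Matrix.toLin' (mat R g u) v a = _
  rw [Matrix.toLin'_apply]
  rfl

theorem rep_char (u : Ω → U) : (rep R g).character u = ∏ ω, (R (g ω) (u ω)).trace := by
  change LinearMap.trace ℂ _ (Matrix.toLin' (mat R g u)) = _
  rw [Matrix.trace_toLin'_eq]
  unfold Matrix.trace Matrix.diag mat
  have h3 := Finset.prod_univ_sum (fun ω : Ω => (Finset.univ : Finset (Fin (n (g ω))))) fun i b =>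
    R (g i) (u i) b b
  rw [Fintype.piFinset_univ] at h3
  rw [← h3]

theorem val_congr (a : Idx n g) {ω ω' : Ω} (h : ω = ω') : (a ω : ℕ) = (a ω' : ℕ) := by
  subst h
  rfl

theorem R_congr {j j' : J} (h : j = j') (u : U) (a b : Fin (n j)) (a' b' : Fin (n j'))
    (ha : (a : ℕ) = a') (hb : (b : ℕ) = b') : R j u a b = R j' u a' b' := by
  subst h
  rw [Fin.ext ha, Fin.ext hb]

/-- the permutation of the indices -/
def P (hg : ∀ (x : X) (ω : Ω), g (x • ω) = g ω) (x : X) (a : Idx n g) : Idx n g :=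
  fun ω => Fin.cast (congrArg n (hg x ω)) (a (x • ω))

theorem P_val (hg : ∀ (x : X) (ω : Ω), g (x • ω) = g ω) (x : X) (a : Idx n g) (ω : Ω) :
    (P hg x a ω : ℕ) = a (x • ω) := rfl

theorem P_mul (hg : ∀ (x : X) (ω : Ω), g (x • ω) = g ω) (x y : X) (a : Idx n g) :
    P hg y (P hg x a) = P hg (x * y) a := by
  funext ω
  apply Fin.ext
  rw [P_val, P_val, P_val]
  exact val_congr a (smul_smul x y ω)

theorem P_triv (hg : ∀ (x : X) (ω : Ω), g (x • ω) = g ω) {x : X} (hx : ∀ ω : Ω, x • ω = ω)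
    (a : Idx n g) : P hg x a = a := by
  funext ω
  apply Fin.ext
  rw [P_val]
  exact val_congr a (hx ω)

theorem P_one (hg : ∀ (x : X) (ω : Ω), g (x • ω) = g ω) (a : Idx n g) : P hg 1 a = a :=
  P_triv hg (one_smul X) a

/-- the permutation operators -/
def perm (hg : ∀ (x : X) (ω : Ω), g (x • ω) = g ω) : Representation ℂ X (Idx n g → ℂ) where
  toFun x := LinearMap.funLeft ℂ ℂ (P hg x)
  map_one' := by
    ext v a
    simp [LinearMap.funLeft, P_one]
  map_mul' x y := by
    refine LinearMap.ext fun v => funext fun a => ?_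
    change v (P hg (x * y) a) = v (P hg y (P hg x a))
    rw [P_mul]

theorem perm_apply (hg : ∀ (x : X) (ω : Ω), g (x • ω) = g ω) (x : X) (v : Idx n g → ℂ)
    (a : Idx n g) : perm hg x v a = v (P hg x a) := rfl

end Tens

open Tens in
/-- tensor products of matrix representations with permutation of the factors -/
theorem tens {U X Ω J : Type} [Group U] [Group X] [Fintype Ω] [Finite J] [MulAction X Ω] (n : J → ℕ)
    (R : ∀ j, U →* Matrix (Fin (n j)) (Fin (n j)) ℂ) (g : Ω → J)
    (hg : ∀ (x : X) (ω : Ω), g (x • ω) = g ω) :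
    ∃ (V : Type) (_ : AddCommGroup V) (_ : Module ℂ V) (_ : FiniteDimensional ℂ V)
      (σ : Representation ℂ (Ω → U) V) (W : Representation ℂ X V),
      (∀ u : Ω → U, σ.character u = ∏ ω, (R (g ω) (u ω)).trace) ∧
      (∀ (x : X) (u : Ω → U) (v : V), W x (σ u v) = σ (fun ω => u (x⁻¹ • ω)) (W x v)) ∧
      (∀ x : X, (∀ ω : Ω, x • ω = ω) → W x = 1) ∧
      ∀ (z : Ω → U) (c : Ω → ℂ),
        (∀ ω, R (g ω) (z ω) = c ω • (1 : Matrix (Fin (n (g ω))) (Fin (n (g ω))) ℂ)) →
        ∀ v, σ z v = (∏ ω, c ω) • v := by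
  refine ⟨Idx n g → ℂ, inferInstance, inferInstance, inferInstance, rep R g, perm hg,
    rep_char R, ?_, ?_, ?_⟩
  · intro x u v
    funext a
    rw [perm_apply, rep_apply, rep_apply]
    let e : Idx n g ≃ Idx n g :=
      { toFun := P hg x
        invFun := P hg x⁻¹
        left_inv := fun a => by rw [P_mul, mul_inv_cancel, P_one]
        right_inv := fun a => by rw [P_mul, inv_mul_cancel, P_one] }
    refine (Fintype.sum_equiv e _ _ fun b => ?_).symm
    rw [perm_apply]
    change _ = _ * v (P hg x b)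
    congr 1
    refine (Fintype.prod_equiv (MulAction.toPerm x) _ _ fun ω => ?_).symm
    have h1 : u (x⁻¹ • (MulAction.toPerm x) ω) = u ω := by
      rw [MulAction.toPerm_apply, inv_smul_smul]
    rw [h1]
    exact R_congr R (hg x ω).symm (u ω) (P hg x a ω) (P hg x b ω) (a (x • ω)) (b (x • ω)) rfl rfl
  · intro x hx
    refine LinearMap.ext fun v => funext fun a => ?_
    rw [perm_apply, P_triv hg hx]
    rfl
  · intro z c hz v
    funext a
    rw [rep_apply]
    simp only [hz, Matrix.smul_apply, Matrix.one_apply, smul_eq_mul, mul_ite, mul_one, mul_zero]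
    rw [Finset.sum_eq_single a]
    · simp
    · intro b _ hb
      obtain ⟨i, hi⟩ := Function.ne_iff.mp (Ne.symm hb)
      rw [Finset.prod_eq_zero (Finset.mem_univ i) (by rw [if_neg hi]), zero_mul]
    · simp

end Pool.Agent.Zk54.MQ
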