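import Pool.Agent.Zk54.MQ.M3
import Pool.Agent.Zk54.MQ.M1

/-!
# The representation of `m(U^Ω)` with the action of the stabilizer
-/

set_option autoImplicit false
set_option linter.unusedSectionVars false
set_option linter.style.haveILetI false

open scoped BigOperators Classical

noncomputable section

namespace Pool.Agent.Zk54.MQ

open Pool.Agent.Helper884 Pool.Agent.H254R3.IN Pool.Agent.Q288.MB
open Pool.Agent.K3h3.KB Pool.Agent.K3h3.MK
open Representation

/-- a representation with an irreducible character is irreducible -/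
theorem irr_rep {H V : Type} [Group H] [Finite H] [AddCommGroup V] [Module ℂ V]
    [FiniteDimensional ℂ V] (σ : Representation ℂ H V) (h : IsIrr σ.character) :
    σ.IsIrreducible := by
  letI := Fintype.ofFinite H
  obtain ⟨V', _, _, _, ρ, hρ, hchar⟩ := id h
  have h1 : Module.finrank ℂ (IntertwiningMap ρ σ) = 1 := by
    have h2 : (Module.finrank ℂ (IntertwiningMap ρ σ) : ℂ) = 1 := by
      letI : Invertible (Nat.card H : ℂ) := invertibleOfNonzero IC.cardG_ne
      rw [← card_inv_mul_sum_char_mul_char_eq_finrank]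
      have h3 := IC.B_irr h h
      rw [if_pos rfl] at h3
      rw [← hchar]
      exact h3
    exact_mod_cast h2
  have hne : ∃ F : IntertwiningMap ρ σ, F ≠ 0 := by
    by_contra hcon
    push Not at hcon
    have h2 : Subsingleton (IntertwiningMap ρ σ) := ⟨fun a b => by rw [hcon a, hcon b]⟩
    rw [Module.finrank_zero_of_subsingleton] at h1
    exact absurd h1 (by norm_num)
  obtain ⟨F, hF⟩ := hne
  have hinj : Function.Injective F :=
    (Representation.IsIrreducible.injective_or_eq_zero F).resolve_right hF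
  have hdim : Module.finrank ℂ V' = Module.finrank ℂ V := by
    have h2 := congrFun hchar 1
    rw [char_one, char_one] at h2
    exact_mod_cast h2.symm
  have hsurj : Function.Surjective F := by
    have h2 := (LinearMap.injective_iff_surjective_of_finrank_eq_finrank
      (f := F.toLinearMap) hdim).1 hinj
    exact h2
  have hcommF : ∀ g v, F (ρ g v) = σ g (F v) := fun g v => by
    have h2 := F.2 g
    exact congrArg (fun L : V' →ₗ[ℂ] V => L v) h2
  haveI := irr_nontrivial ρ hρ
  haveI hVn : Nontrivial V := hinj.nontrivial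
  refine { exists_pair_ne := ⟨⊥, ⊤, ?_⟩, eq_bot_or_eq_top := ?_ }
  · intro h2
    obtain ⟨v, hv⟩ := exists_ne (0 : V)
    apply hv
    have h3 : v ∈ (⊤ : Subrepresentation σ) := trivial
    rw [← h2] at h3
    exact h3
  · intro P
    let Q : Subrepresentation ρ :=
      { toSubmodule := P.toSubmodule.comap F.toLinearMap
        apply_mem_toSubmodule := by
          intro g v hv
          change F (ρ g v) ∈ P.toSubmodule
          rw [hcommF]
          exact P.apply_mem_toSubmodule g hv }
    have hQ : ∀ v, v ∈ Q ↔ F v ∈ P := fun v => Iff.rfl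
    rcases hρ.eq_bot_or_eq_top Q with h2 | h2
    · left
      apply SetLike.ext
      intro p
      constructor
      · intro hp
        obtain ⟨v, rfl⟩ := hsurj p
        have h3 : v ∈ Q := (hQ v).2 hp
        rw [h2] at h3
        have h4 : v = 0 := h3
        rw [h4]
        have h5 : F 0 = 0 := map_zero F.toLinearMap
        rw [h5]
        exact Submodule.zero_mem _
      · intro hp
        have h4 : p = 0 := hp
        rw [h4]
        exact P.toSubmodule.zero_mem
    · right
      apply SetLike.ext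
      intro p
      constructor
      · intro _
        exact trivial
      · intro _
        obtain ⟨v, rfl⟩ := hsurj p
        rw [← hQ, h2]
        exact trivial

/-- the matrix form of an irreducible character -/
theorem exists_mat {U : Type} [Group U] {χ : U → ℂ} (hχ : IsIrr χ) :
    ∃ (n : ℕ) (R : U →* Matrix (Fin n) (Fin n) ℂ), (∀ u, (R u).trace = χ u) ∧
      ∀ z ∈ Subgroup.center U, R z = (χ z / χ 1) • (1 : Matrix (Fin n) (Fin n) ℂ) := by
  obtain ⟨V, _, _, _, ρ, hr, rfl⟩ := id hχ
  let b := Module.finBasis ℂ V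
  let R : U →* Matrix (Fin (Module.finrank ℂ V)) (Fin (Module.finrank ℂ V)) ℂ :=
    ((LinearMap.toMatrixAlgEquiv b).toAlgHom.toMonoidHom : (V →ₗ[ℂ] V) →* _).comp ρ
  have hR0 : ∀ u, R u = LinearMap.toMatrix b b (ρ u) := fun u => rfl
  have hR : ∀ u, (R u).trace = ρ.character u := by
    intro u
    change (LinearMap.toMatrix b b (ρ u)).trace = LinearMap.trace ℂ V (ρ u)
    rw [LinearMap.trace_eq_matrix_trace ℂ b]
  refine ⟨_, R, hR, fun z hz => ?_⟩
  obtain ⟨c, hc⟩ := schur ρ hr (ρ z) (by
    intro g v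
    have h1 : ρ z (ρ g v) = ρ (z * g) v := by rw [map_mul]; rfl
    have h2 : ρ g (ρ z v) = ρ (g * z) v := by rw [map_mul]; rfl
    rw [h1, h2, Subgroup.mem_center_iff.1 hz g])
  have h1 : ρ.character z = c * ρ.character 1 := by
    change LinearMap.trace ℂ V (ρ z) = c * LinearMap.trace ℂ V (ρ 1)
    rw [hc, map_smul, map_one]
    rfl
  have h2 : ρ.character 1 ≠ 0 := hχ.one_ne
  rw [h1, mul_div_cancel_right₀ _ h2, hR0, hc, map_smul, LinearMap.toMatrix_id]

section

variable {G U Ω : Type} [Group G] [Finite G] [Group U] [Finite U] [Fintype Ω] [MulAction G Ω]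
  {m : (Ω → U) →* G} {C : Subgroup U} {X : Subgroup G}

/-- M2a: the representation with the action of the stabilizer -/
theorem exists_rep_theta (h : WD m C X) {f : Ω → (U → ℂ)} (hf : ∀ ω, IsIrr (f ω))
    {θ : m.range → ℂ} (hθ : ∀ u, θ ⟨m u, ⟨u, rfl⟩⟩ = ∏ ω, f ω (u ω)) :
    ∃ (V : Type) (_ : AddCommGroup V) (_ : Module ℂ V) (_ : FiniteDimensional ℂ V)
      (σ : Representation ℂ m.range V) (W : Representation ℂ (Xf X f) V),
      σ.IsIrreducible ∧ σ.character = θ ∧
      (∀ (x : Xf X f) (l l' : m.range), (x : G) * l * (x : G)⁻¹ = l' →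
        ∀ v, W x (σ l v) = σ l' (W x v)) ∧
      (∀ x : Xf X f, (x : G) ∈ m.range → W x = 1) ∧
      ∀ d : m.range, (d : G) ∈ X → ∀ v, σ d v = (θ d / θ 1) • v := by
  have hθ1 : θ 1 = ∏ ω, f ω 1 := by
    have h1 := hθ 1
    have h2 : (⟨m 1, ⟨1, rfl⟩⟩ : m.range) = 1 := Subtype.ext (map_one m)
    rw [h2] at h1
    exact h1
  have hf1 : ∏ ω, f ω 1 ≠ 0 := Finset.prod_ne_zero_iff.2 fun ω _ => (hf ω).one_ne
  -- matrices
  have hJ : ∀ j : Set.range f, IsIrr (j : U → ℂ) := by
    rintro ⟨_, ω, rfl⟩
    exact hf ω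
  choose n R hR1 hR2 using fun j : Set.range f => exists_mat (hJ j)
  let g : Ω → Set.range f := fun ω => ⟨f ω, ω, rfl⟩
  have hg : ∀ (x : Xf X f) (ω : Ω), g (x • ω) = g ω := fun x ω => Subtype.ext (x.2.2 ω)
  obtain ⟨V, iV1, iV2, iV3, σ₀, W, h1, h2, h3, h4⟩ := tens n R g hg
  have hchar₀ : ∀ u, σ₀.character u = ∏ ω, f ω (u ω) := by
    intro u
    rw [h1]
    exact Finset.prod_congr rfl fun ω _ => hR1 (g ω) (u ω)
  have hscal : ∀ z : Ω → U, (∀ ω, z ω ∈ C) →
      ∀ v, σ₀ z v = ((∏ ω, f ω (z ω)) / ∏ ω, f ω 1) • v := by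
    intro z hz v
    rw [h4 z (fun ω => f ω (z ω) / f ω 1) (fun ω => hR2 (g ω) (z ω) (h.Cc (hz ω))) v,
      Finset.prod_div_distrib]
  have key : ∀ u v : Ω → U, m u = m v → σ₀ u = σ₀ v := by
    intro u v huv
    have h5 : m (u * v⁻¹) = 1 := by rw [map_mul, map_inv, huv, mul_inv_cancel]
    have h6 : ∀ ω, (u * v⁻¹) ω ∈ C := h.ker _ (by rw [h5]; exact X.one_mem)
    have h7 : ∏ ω, f ω ((u * v⁻¹) ω) = ∏ ω, f ω 1 := by
      rw [← hθ1, ← hθ]
      congr 1
      exact Subtype.ext h5
    have h8 : σ₀ (u * v⁻¹) = 1 := by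
      ext w
      rw [hscal _ h6, h7, div_self hf1, one_smul]
      rfl
    have h9 : u = (u * v⁻¹) * v := by group
    rw [h9, map_mul, h8, one_mul]
  let s : m.range → (Ω → U) := fun l => l.2.choose
  have hs : ∀ l : m.range, m (s l) = l := fun l => l.2.choose_spec
  let σ : Representation ℂ m.range V :=
    { toFun := fun l => σ₀ (s l)
      map_one' := by
        rw [← map_one σ₀]
        apply key
        rw [hs, map_one]
        rfl
      map_mul' := by
        intro l l'
        rw [← map_mul σ₀]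
        apply key
        rw [hs, map_mul, hs, hs]
        rfl }
  have hσ : ∀ l, σ l = σ₀ (s l) := fun l => rfl
  have hchar : σ.character = θ := by
    funext l
    change σ₀.character (s l) = θ l
    rw [hchar₀, ← hθ]
    congr 1
    exact Subtype.ext (hs l)
  refine ⟨V, iV1, iV2, iV3, σ, W, ?_, hchar, ?_, ?_, ?_⟩
  · apply irr_rep
    rw [hchar]
    exact theta_irr hf hθ
  · intro x l l' hl v
    rw [hσ, hσ, h2]
    congr 1
    have h5 : σ₀ (fun ω => s l (x⁻¹ • ω)) = σ₀ (s l') := by
      apply key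
      rw [hs, ← hl, ← hs l]
      exact (h.eqv (x : G) x.2.1 (s l)).symm
    rw [h5]
  · rintro x ⟨u, hu⟩
    apply h3
    intro ω
    change (x : G) • ω = ω
    rw [← hu]
    exact h.triv u ω
  · intro d hd v
    have h5 : ∀ ω, s d ω ∈ C := h.ker _ (by rw [hs]; exact hd)
    rw [hσ, hscal _ h5, ← hθ1, ← hθ]
    congr 3
    exact Subtype.ext (hs d)

end

end Pool.Agent.Zk54.MQ
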