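import Pool.Agent.Zk54.MQ.E2
import Pool.Agent.Zk54.MQ.M2a

set_option autoImplicit false
set_option linter.unusedSectionVars false
set_option linter.style.haveILetI false

open scoped BigOperators Classical

noncomputable section

namespace Pool.Agent.Zk54.MQ

open Pool.Agent.Helper884 Pool.Agent.H254R3.IN Pool.Agent.Q288.MB
open Pool.Agent.K3h3.KB Pool.Agent.K3h3.MK
open IC (Irr)

/-- the block diagonal matrix of a family of representations -/
abbrev bd {U J : Type} [Group U] [Fintype J] {n : J → ℕ}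
    (R : ∀ j, U →* Matrix (Fin (n j)) (Fin (n j)) ℂ) (u : U) :
    Matrix (Σ j, Fin (n j)) (Σ j, Fin (n j)) ℂ := Matrix.blockDiagonal' fun j => R j u

theorem bd_mul {U J : Type} [Group U] [Fintype J] {n : J → ℕ}
    (R : ∀ j, U →* Matrix (Fin (n j)) (Fin (n j)) ℂ) (u v : U) : bd R (u * v) = bd R u * bd R v := by
  unfold bd
  rw [← Matrix.blockDiagonal'_mul]
  congr 1
  funext j
  exact map_mul _ _ _

theorem bd_one {U J : Type} [Group U] [Fintype J] {n : J → ℕ}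
    (R : ∀ j, U →* Matrix (Fin (n j)) (Fin (n j)) ℂ) : bd R 1 = 1 := by
  unfold bd
  rw [← Matrix.blockDiagonal'_one]
  congr 1
  funext j
  exact map_one _

theorem bd_blk {U J : Type} [Group U] [Fintype J] {n : J → ℕ}
    (R : ∀ j, U →* Matrix (Fin (n j)) (Fin (n j)) ℂ) (u : U) (j : J) : Blk j j (bd R u) := by
  rintro ⟨k, x⟩ ⟨l, y⟩ h1 h2
  refine Matrix.blockDiagonal'_apply_ne _ _ _ ?_
  simp only at h1 h2
  rw [h1]
  exact h2

/-- the operators on the tensor product -/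
theorem ops {E₁ U₁ N Ω J : Type} [Group E₁] [Finite E₁] [Group U₁] [Finite U₁] [Group N] [Fintype Ω]
    [Fintype J] [MulAction N Ω] (m₁ : (Ω → U₁) →* E₁) (hm₁ : Function.Surjective m₁)
    (n : J → ℕ) (R : ∀ j, U₁ →* Matrix (Fin (n j)) (Fin (n j)) ℂ) (f : Ω → J)
    (θ : E₁ → ℂ) (hθ : IsIrr θ) (hθf : ∀ u, θ (m₁ u) = ∏ ω, (R (f ω) (u ω)).trace)
    (hker : ∀ u, m₁ u = 1 → ∀ ω, ∃ c : ℂ, R (f ω) (u ω) = c • 1)
    (T : N → Ω → Matrix (Σ j, Fin (n j)) (Σ j, Fin (n j)) ℂ)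
    (hb : ∀ x ω, Blk (f ω) (f (x • ω)) (T x ω)) (c : N → N → Ω → ℂ)
    (hmul : ∀ x y ω p q, q.1 = f ω → (T x (y • ω) * T y ω) p q = c x y ω * T (x * y) ω p q)
    (β : N → Ω → U₁ → U₁) (hconj : ∀ x ω u, T x ω * bd R u = bd R (β x ω u) * T x ω) :
    ∃ (V : Type) (_ : AddCommGroup V) (_ : Module ℂ V) (_ : FiniteDimensional ℂ V)
      (σ : Representation ℂ E₁ V) (W : N → (V →ₗ[ℂ] V)),
      σ.IsIrreducible ∧ σ.character = θ ∧
      (∀ x y, W x ∘ₗ W y = (∏ ω, c x y ω) • W (x * y)) ∧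
      (∀ x (u v : Ω → U₁), (∀ ω, v (x • ω) = β x ω (u ω)) → W x ∘ₗ σ (m₁ u) = σ (m₁ v) ∘ₗ W x) ∧
      ∀ x (u : Ω → U₁) (l : Ω → ℂ), (∀ ω : Ω, x • ω = ω) →
        (∀ ω p q, q.1 = f ω → T x ω p q = l ω * bd R (u ω) p q) →
        W x = (∏ ω, l ω) • σ (m₁ u) := by
  obtain ⟨V, _, _, _, M, hM1, hM2, hM3, hM4⟩ := tensM (Ω := Ω) n f
  have hb1 : ∀ (u : Ω → U₁) (ω : Ω), Blk (f ω) (f ((1 : Equiv.Perm Ω) ω)) (bd R (u ω)) :=
    fun u ω => bd_blk R (u ω) (f ω)
  let σ₀ : (Ω → U₁) →* (V →ₗ[ℂ] V) :=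
    { toFun := fun u => M 1 fun ω => bd R (u ω)
      map_one' := by
        rw [← Module.End.one_eq_id] at hM1
        rw [← hM1]
        congr 1
        funext ω
        exact bd_one R
      map_mul' := fun u v => by
        rw [Module.End.mul_eq_comp, hM2 1 1 _ _ (hb1 v), one_mul]
        congr 1
        funext ω
        exact bd_mul R _ _ }
  have tr : ∀ u, LinearMap.trace ℂ V (σ₀ u) = ∏ ω, (R (f ω) (u ω)).trace := by
    intro u
    change LinearMap.trace ℂ V (M 1 fun ω => bd R (u ω)) = _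
    rw [hM4]
    refine Finset.prod_congr rfl fun ω _ => ?_
    unfold Matrix.trace
    refine Finset.sum_congr rfl fun i _ => ?_
    exact Matrix.blockDiagonal'_apply_eq _ _ _ _
  have hk : m₁.ker ≤ σ₀.ker := by
    intro u hu
    have hu1 : m₁ u = 1 := hu
    choose d hd using hker u hu1
    have h1 : σ₀ u = (∏ ω, d ω) • LinearMap.id := by
      change M 1 (fun ω => bd R (u ω)) = _
      rw [hM3 1 d _ (fun _ => 1) ?_, hM1]
      rintro ω ⟨j, x⟩ ⟨k, y⟩ hq
      simp only at hq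
      subst hq
      change Matrix.blockDiagonal' _ _ _ = _
      by_cases hjk : j = f ω
      · subst hjk
        rw [Matrix.blockDiagonal'_apply_eq, hd ω]
        by_cases hxy : x = y
        · subst hxy
          simp
        · have h2 : ((⟨f ω, x⟩ : Σ j, Fin (n j)) ≠ ⟨f ω, y⟩) := by
            intro h
            exact hxy (eq_of_heq (Sigma.mk.inj h).2)
          rw [Matrix.one_apply_ne h2]
          simp [Matrix.one_apply_ne hxy]
      · rw [Matrix.blockDiagonal'_apply_ne _ _ _ hjk]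
        have h2 : ((⟨j, x⟩ : Σ j, Fin (n j)) ≠ ⟨f ω, y⟩) := by
          intro h
          exact hjk (Sigma.mk.inj h).1
        rw [Matrix.one_apply_ne h2, mul_zero]
    have h2 : θ 1 ≠ 0 := by
      rw [← ndeg_cast hθ]
      exact_mod_cast (ndeg_pos hθ).ne'
    have h3 : LinearMap.trace ℂ V (σ₀ u) = θ 1 := by rw [tr, ← hθf, hu1]
    have h4 : LinearMap.trace ℂ V (σ₀ 1) = θ 1 := by rw [tr, ← hθf, map_one]
    rw [h1, map_smul] at h3
    rw [map_one] at h4
    have h5 : LinearMap.trace ℂ V (LinearMap.id : V →ₗ[ℂ] V) = θ 1 := h4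
    rw [h5, smul_eq_mul] at h3
    have h6 : ∏ ω, d ω = 1 := mul_right_cancel₀ h2 (by rw [h3, one_mul])
    rw [MonoidHom.mem_ker, h1, h6, one_smul]
    rfl
  have key : ∀ u v : Ω → U₁, m₁ u = m₁ v → σ₀ u = σ₀ v := by
    intro u v huv
    have h5 : u * v⁻¹ ∈ m₁.ker := by
      rw [MonoidHom.mem_ker, map_mul, map_inv, huv, mul_inv_cancel]
    have h6 : σ₀ (u * v⁻¹) = 1 := hk h5
    have h9 : u = (u * v⁻¹) * v := by group
    rw [h9, map_mul, h6, one_mul]
  let s : E₁ → (Ω → U₁) := fun l => (hm₁ l).choose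
  have hs : ∀ l : E₁, m₁ (s l) = l := fun l => (hm₁ l).choose_spec
  let σ : Representation ℂ E₁ V :=
    { toFun := fun l => σ₀ (s l)
      map_one' := by
        rw [← map_one σ₀]
        apply key
        rw [hs, map_one]
      map_mul' := by
        intro l l'
        rw [← map_mul σ₀]
        apply key
        rw [hs, map_mul, hs, hs] }
  have hσ : ∀ u, σ (m₁ u) = σ₀ u := fun u => key _ _ (hs _)
  have hσc : σ.character = θ := by
    funext x
    obtain ⟨u, rfl⟩ := hm₁ x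
    change LinearMap.trace ℂ V (σ (m₁ u)) = _
    rw [hσ, tr, hθf]
  refine ⟨V, inferInstance, inferInstance, inferInstance, σ,
    fun x => M (MulAction.toPerm x) (T x), irr_rep σ (by rw [hσc]; exact hθ), hσc, ?_, ?_, ?_⟩
  · intro x y
    rw [hM2 _ _ _ _ (fun ω => hb y ω)]
    have e : MulAction.toPerm x * MulAction.toPerm y = (MulAction.toPerm (x * y) : Equiv.Perm Ω) :=
      (map_mul (MulAction.toPermHom N Ω) x y).symm
    rw [e]
    exact hM3 _ _ _ _ fun ω p q hq => hmul x y ω p q hq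
  · intro x u v huv
    rw [hσ, hσ]
    change M _ _ ∘ₗ M 1 _ = M 1 _ ∘ₗ M _ _
    rw [hM2 _ _ _ _ (hb1 u), hM2 _ _ _ _ (fun ω => hb x ω), mul_one, one_mul]
    congr 1
    funext ω
    change T x ω * bd R (u ω) = bd R (v (x • ω)) * T x ω
    rw [huv, hconj]
  · intro x u l hx hT
    rw [hσ]
    change M _ _ = _ • M 1 _
    have e : (MulAction.toPerm x : Equiv.Perm Ω) = 1 := Equiv.ext hx
    rw [e]
    exact hM3 _ _ _ _ hT

end Pool.Agent.Zk54.MQ
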