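import Pool.Agent.Zk54.MQ.E7a
import Pool.Agent.Zk54.MQ.E3

set_option autoImplicit false
set_option linter.unusedSectionVars false
set_option linter.style.haveILetI false

open scoped BigOperators Classical

noncomputable section

namespace Pool.Agent.Zk54.MQ

open Pool.Agent.Helper884 Pool.Agent.H254R3.IN Pool.Agent.Q288.MB
open Pool.Agent.K3h3.KB Pool.Agent.K3h3.MK
open IC (Irr)

section pw

variable {U₁ J : Type} [Group U₁] [Fintype J] {n : J → ℕ}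
  {R : ∀ j, U₁ →* Matrix (Fin (n j)) (Fin (n j)) ℂ}
  {t : Matrix (Σ j, Fin (n j)) (Σ j, Fin (n j)) ℂ} {c : U₁ → U₁}

theorem pow_conj (h : ∀ u, t * bd R u = bd R (c u) * t) (i : ℕ) (u : U₁) :
    t ^ i * bd R u = bd R (c^[i] u) * t ^ i := by
  induction i generalizing u with
  | zero => simp
  | succ i ih =>
    rw [pow_succ, mul_assoc, h, ← mul_assoc, ih, mul_assoc, Function.iterate_succ_apply]

theorem Blk.mul {j k l : J} {A B : Matrix (Σ j, Fin (n j)) (Σ j, Fin (n j)) ℂ}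
    (hB : Blk j k B) (hA : Blk k l A) : Blk j l (A * B) := by
  intro x y hy hx
  rw [Matrix.mul_apply]
  refine Finset.sum_eq_zero fun z _ => ?_
  by_cases hz : z.1 = k
  · rw [hA x z hz hx, zero_mul]
  · rw [hB z y hy hz, mul_zero]

theorem Blk.pow {τ : Equiv.Perm J} (h : ∀ j, Blk j (τ j) t) (i : ℕ) (j : J) :
    Blk j ((τ ^ i) j) (t ^ i) := by
  induction i generalizing j with
  | zero =>
    intro x y hy hx
    rw [pow_zero]
    apply Matrix.one_apply_ne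
    rintro rfl
    exact hx hy
  | succ i ih =>
    rw [pow_succ, pow_succ]
    exact (h j).mul (ih (τ j))

theorem loc_mul (h : ∀ u, t * bd R u = bd R (c u) * t) (i k : ℕ) (u w : U₁) :
    (bd R u * t ^ i) * (bd R w * t ^ k) = bd R (u * c^[i] w) * t ^ (i + k) := by
  rw [mul_assoc, ← mul_assoc (t ^ i), pow_conj h, mul_assoc, ← pow_add, ← mul_assoc, ← bd_mul]

theorem loc_conj (h : ∀ u, t * bd R u = bd R (c u) * t) (i : ℕ) (u v : U₁) :
    bd R u * t ^ i * bd R v = bd R (u * c^[i] v * u⁻¹) * (bd R u * t ^ i) := by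
  rw [mul_assoc, pow_conj h, ← mul_assoc, ← mul_assoc, ← bd_mul, ← bd_mul, inv_mul_cancel_right]

theorem loc_blk {τ : Equiv.Perm J} (h : ∀ j, Blk j (τ j) t) (i : ℕ) (u : U₁) (j : J) :
    Blk j ((τ ^ i) j) (bd R u * t ^ i) :=
  (Blk.pow h i j).mul (bd_blk R u _)

theorem mul_sc (A : Matrix (Σ j, Fin (n j)) (Σ j, Fin (n j)) ℂ) (l : J → ℂ)
    (p q : Σ j, Fin (n j)) :
    (A * Matrix.blockDiagonal' fun j => l j • (1 : Matrix (Fin (n j)) (Fin (n j)) ℂ)) p q =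
      l q.1 * A p q := by
  rw [Matrix.mul_apply, Finset.sum_eq_single q]
  · obtain ⟨j, x⟩ := q
    rw [Matrix.blockDiagonal'_apply_eq]
    simp [mul_comm]
  · rintro ⟨k, y⟩ _ hne
    obtain ⟨j, x⟩ := q
    by_cases hkj : k = j
    · subst hkj
      rw [Matrix.blockDiagonal'_apply_eq]
      have hxy : y ≠ x := by
        rintro rfl
        exact hne rfl
      simp [Matrix.one_apply_ne hxy]
    · rw [Matrix.blockDiagonal'_apply_ne _ _ _ hkj, mul_zero]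
  · intro h
    exact absurd (Finset.mem_univ _) h

end pw

/-- **The operators for one of the two sides.** -/
theorem side {E₁ U₁ N Ω J : Type} [Group E₁] [Finite E₁] [Group U₁] [Finite U₁] [Group N]
    [Fintype Ω] [Fintype J] [MulAction N Ω] (m₁ : (Ω → U₁) →* E₁) (hm₁ : Function.Surjective m₁)
    (hk : ∀ u, m₁ u = 1 → ∀ ω, u ω ∈ Subgroup.center U₁)
    (n : J → ℕ) (R : ∀ j, U₁ →* Matrix (Fin (n j)) (Fin (n j)) ℂ) (f : Ω → J)
    (t : Matrix (Σ j, Fin (n j)) (Σ j, Fin (n j)) ℂ) (c : U₁ → U₁)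
    (ht : ∀ u, t * bd R u = bd R (c u) * t) (τ : Equiv.Perm J) (hτ : ∀ j, Blk j (τ j) t)
    (χ : J → U₁ → ℂ) (hχ : ∀ j, IsIrr (χ j)) (hR : ∀ j u, (R j u).trace = χ j u)
    (θ : E₁ → ℂ) (hθ : IsIrr θ) (hθf : ∀ u, θ (m₁ u) = ∏ ω, χ (f ω) (u ω))
    (i : N → Ω → ℕ) (u : N → Ω → U₁) (hf : ∀ x ω, f (x • ω) = (τ ^ i x ω) (f ω))
    (l : N → N → Ω → J → ℂ)
    (hl : ∀ x y ω, bd R (u x (y • ω) * c^[i x (y • ω)] (u y ω)) * t ^ (i x (y • ω) + i y ω) =
      bd R (u (x * y) ω) * t ^ i (x * y) ω *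
        Matrix.blockDiagonal' fun j => l x y ω j • (1 : Matrix (Fin (n j)) (Fin (n j)) ℂ)) :
    ∃ (V : Type) (_ : AddCommGroup V) (_ : Module ℂ V) (_ : FiniteDimensional ℂ V)
      (σ : Representation ℂ E₁ V) (W : N → (V →ₗ[ℂ] V)),
      σ.IsIrreducible ∧ σ.character = θ ∧
      (∀ x y, W x ∘ₗ W y = (∏ ω, l x y ω (f ω)) • W (x * y)) ∧
      (∀ x (v v' : Ω → U₁), (∀ ω, v' (x • ω) = u x ω * c^[i x ω] (v ω) * (u x ω)⁻¹) →
        W x ∘ₗ σ (m₁ v) = σ (m₁ v') ∘ₗ W x) ∧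
      ∀ x (v : Ω → U₁) (r : Ω → J → ℂ), (∀ ω : Ω, x • ω = ω) →
        (∀ ω, bd R (u x ω) * t ^ i x ω = bd R (v ω) *
          Matrix.blockDiagonal' fun j => r ω j • (1 : Matrix (Fin (n j)) (Fin (n j)) ℂ)) →
        W x = (∏ ω, r ω (f ω)) • σ (m₁ v) := by
  obtain ⟨V, i1, i2, i3, σ, W, h1, h2, h3, h4, h5⟩ := ops (N := N) m₁ hm₁ n R f θ hθ
    (fun v => by rw [hθf]; exact Finset.prod_congr rfl fun ω _ => (hR _ _).symm)
    (fun v hv ω => ⟨_, E3.central (R (f ω)) (hχ _) (hR _) _ (hk v hv ω)⟩)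
    (fun x ω => bd R (u x ω) * t ^ i x ω)
    (fun x ω => by rw [hf]; exact loc_blk hτ _ _ _)
    (fun x y ω => l x y ω (f ω))
    (fun x y ω p q hq => by
      rw [loc_mul ht, hl, mul_sc, hq])
    (fun x ω v => u x ω * c^[i x ω] v * (u x ω)⁻¹)
    (fun x ω v => loc_conj ht _ _ _)
  refine ⟨V, i1, i2, i3, σ, W, h1, h2, h3, h4, ?_⟩
  intro x v r hx hr
  refine h5 x v (fun ω => r ω (f ω)) hx fun ω p q hq => ?_
  rw [hr, mul_sc, hq]

end Pool.Agent.Zk54.MQ
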