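import Pool.Agent.Zk54.MQ.M5

set_option autoImplicit false
set_option linter.unusedSectionVars false
set_option linter.style.haveILetI false

open scoped BigOperators Classical

noncomputable section

namespace Pool.Agent.Zk54.MQ

open Pool.Agent.Helper884 Pool.Agent.H254R3.IN Pool.Agent.Q288.MB
open Pool.Agent.K3h3.KB Pool.Agent.K3h3.MK
open IC (Irr)
open Pool.Agent.K3h83.IN (ov wo wo_eq wo_congr fixes S1 S2 G5 Tst mem_Tst range_le_Tst mem_NN_subtype)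

section

variable {G U Ω : Type} [Group G] [Finite G] [Group U] [Finite U] [Fintype Ω] [MulAction G Ω]
  {m : (Ω → U) →* G} {C : Subgroup U} {X : Subgroup G}

theorem fixes_mul (h : WD m C X) {θ : m.range → ℂ} (hθ : IsIrr θ) (u : Ω → U) (x : G) :
    fixes m.range.subtype θ (m u * x) ↔ fixes m.range.subtype θ x := by
  have hr : m.range.subtype.range = m.range := Subgroup.range_subtype _
  have hn : m.range.subtype.range.Normal := by rw [hr]; exact h.normal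
  have h1 : m u ∈ Tst m.range.subtype m.range.subtype_injective hn θ :=
    range_le_Tst _ _ hn hθ (by rw [hr]; exact ⟨u, rfl⟩)
  exact Subgroup.mul_mem_cancel_left _ h1

end

section cmp

variable {p : ℕ} [hp : Fact p.Prime] {G U Ω : Type} [Group G] [Finite G] [Group U] [Finite U]
  [Fintype Ω] [MulAction G Ω] {m : (Ω → U) →* G} {C : Subgroup U} {X : Subgroup G}
  {U₀ : Subgroup U}

/-- the data on the characters of the factors -/
structure Cmp (p : ℕ) (C : Subgroup U) (U₀ : Subgroup U) (F : Ω → U → ℂ) (F' : Ω → U₀ → ℂ) : Prop where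
  hC : C ≤ U₀
  hF : ∀ ω, IsIrr (F ω)
  hF' : ∀ ω, IsIrr (F' ω)
  ne : ∀ ω, (ndeg (F ω) : ZMod p) ≠ 0
  sq : ∀ ω, (ndeg (F ω) : ZMod p) ^ 2 = (ndeg (F' ω) : ZMod p) ^ 2
  cen : ∀ ω (c : U) (hc : c ∈ C), F ω c / F ω 1 = F' ω ⟨c, hC hc⟩ / F' ω 1
  st : ∀ ω ω', F ω = F ω' ↔ F' ω = F' ω'

theorem one_ne {H : Type} [Group H] {χ : H → ℂ} (hχ : IsIrr χ) : χ 1 ≠ 0 := by
  rw [← ndeg_cast hχ]
  exact_mod_cast (ndeg_pos hχ).ne'

variable {F : Ω → U → ℂ} {F' : Ω → U₀ → ℂ}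

theorem Cmp.prod (hc : Cmp p C U₀ F F') (u : Ω → U) (hu : ∀ ω, u ω ∈ C) :
    (∏ ω, F ω (u ω)) / ∏ ω, F ω 1 = (∏ ω, F' ω ⟨u ω, hc.hC (hu ω)⟩) / ∏ ω, F' ω 1 := by
  rw [← Finset.prod_div_distrib, ← Finset.prod_div_distrib]
  exact Finset.prod_congr rfl fun ω _ => hc.cen ω _ (hu ω)

theorem Cmp.ker_iff (h : WD m C X) (hc : Cmp p C U₀ F F') :
    (∀ u, m u = 1 → ∏ ω, F ω (u ω) = ∏ ω, F ω 1) ↔
      ∀ u, mB m U₀ X u = 1 → ∏ ω, F' ω (u ω) = ∏ ω, F' ω 1 := by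
  have h1 : ∏ ω, F ω 1 ≠ 0 := Finset.prod_ne_zero_iff.mpr fun ω _ => one_ne (hc.hF ω)
  have h2 : ∏ ω, F' ω 1 ≠ 0 := Finset.prod_ne_zero_iff.mpr fun ω _ => one_ne (hc.hF' ω)
  constructor
  · intro H u hu
    have h3 : m (fun ω => (u ω : U)) = 1 := congrArg Subtype.val hu
    have h4 : ∀ ω, (u ω : U) ∈ C := h.ker _ (by rw [h3]; exact X.one_mem)
    have h5 := hc.prod (fun ω => (u ω : U)) h4
    have h6 := H (fun ω => (u ω : U)) h3
    rw [h6, div_self h1, eq_comm, div_eq_one_iff_eq h2] at h5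
    exact h5
  · intro H u hu
    have h4 : ∀ ω, u ω ∈ C := h.ker _ (by rw [hu]; exact X.one_mem)
    have h5 := hc.prod u h4
    have h6 := H (fun ω => ⟨u ω, hc.hC (h4 ω)⟩) (Subtype.ext hu)
    rw [h6, div_self h2, div_eq_one_iff_eq h1] at h5
    exact h5

variable {θ : m.range → ℂ} {θ' : (mB m U₀ X).range → ℂ}

theorem Cmp.fixes_iff (h : WD m C X) (hc : Cmp p C U₀ F F')
    (hθ : ∀ u, θ ⟨m u, ⟨u, rfl⟩⟩ = ∏ ω, F ω (u ω))
    (hθ' : ∀ u, θ' ⟨mB m U₀ X u, ⟨u, rfl⟩⟩ = ∏ ω, F' ω (u ω)) (b : BB m U₀ X) :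
    fixes (mB m U₀ X).range.subtype θ' b ↔ fixes m.range.subtype θ (b : G) := by
  have hB := h.toB U₀
  obtain ⟨u, y, hy, rfl⟩ := hB.exists_mul b
  rw [fixes_mul hB (theta_irr hc.hF' hθ') u y, MQ.fixes_iff hB hc.hF' hθ' hy]
  have e : ((mB m U₀ X u * y : BB m U₀ X) : G) = m (fun ω => (u ω : U)) * (y : G) := rfl
  rw [e, fixes_mul h (theta_irr hc.hF hθ), MQ.fixes_iff h hc.hF hθ (Subgroup.mem_subgroupOf.mp hy)]
  exact forall_congr' fun ω => (hc.st _ _).symm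

theorem Cmp.cl_eq (hc : Cmp p C U₀ F F') (hθ : ∀ u, θ ⟨m u, ⟨u, rfl⟩⟩ = ∏ ω, F ω (u ω))
    (hθ' : ∀ u, θ' ⟨mB m U₀ X u, ⟨u, rfl⟩⟩ = ∏ ω, F' ω (u ω)) :
    cl p (ndeg θ) = cl p (ndeg θ') := by
  rw [ndeg_theta hc.hF hθ, ndeg_theta hc.hF' hθ', map_prod, map_prod]
  exact Finset.prod_congr rfl fun ω _ => cl_sq (hc.ne ω) (hc.sq ω)

theorem Cmp.wo_eq (s1 : S1) (g5 : G5) (h : WD m C X) (hc : Cmp p C U₀ F F')
    (hθ : ∀ u, θ ⟨m u, ⟨u, rfl⟩⟩ = ∏ ω, F ω (u ω))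
    (hθ' : ∀ u, θ' ⟨mB m U₀ X u, ⟨u, rfl⟩⟩ = ∏ ω, F' ω (u ω)) :
    wo (cl p) m.range.subtype θ = wo (cl p) (mB m U₀ X).range.subtype θ' := by
  have hB := h.toB U₀
  rw [wo_theta s1 g5 h hc.hF hθ, wo_theta s1 g5 hB hc.hF' hθ', hc.cl_eq hθ hθ']
  have hX : Xf (X.subgroupOf (BB m U₀ X)) F' = (Xf X F).subgroupOf (BB m U₀ X) := by
    ext x
    rw [mem_Xf, Subgroup.mem_subgroupOf, Subgroup.mem_subgroupOf, mem_Xf]
    exact and_congr_right fun _ => forall_congr' fun ω => (hc.st _ _).symm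
  have hXle : X ≤ BB m U₀ X := le_sup_right
  have hXfle : Xf X F ≤ BB m U₀ X := (Xf_le X F).trans hXle
  have hrel : (Xf (X.subgroupOf (BB m U₀ X)) F').relIndex (X.subgroupOf (BB m U₀ X)) =
      (Xf X F).relIndex X := by
    rw [hX, Subgroup.relIndex_subgroupOf hXle]
  rw [hrel]
  congr 2
  have hD : (mB m U₀ X).range ⊓ X.subgroupOf (BB m U₀ X) =
      (m.range ⊓ X).subgroupOf (BB m U₀ X) := by
    ext x
    rw [Subgroup.mem_inf, Subgroup.mem_subgroupOf, Subgroup.mem_subgroupOf, Subgroup.mem_inf]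
    refine and_congr_left fun hx => ⟨?_, ?_⟩
    · rintro ⟨u, rfl⟩
      exact ⟨_, rfl⟩
    · rintro ⟨u, hu⟩
      have h4 : ∀ ω, u ω ∈ C := h.ker _ (by rw [hu]; exact hx)
      exact ⟨fun ω => ⟨u ω, hc.hC (h4 ω)⟩, Subtype.ext hu⟩
  have hDle : m.range ⊓ X ≤ BB m U₀ X := inf_le_right.trans hXle
  refine (wo_congr (cl p) ((MulEquiv.subgroupCongr hD).trans (Subgroup.subgroupOfEquivOfLe hDle))
    ((MulEquiv.subgroupCongr hX).trans (Subgroup.subgroupOfEquivOfLe hXfle)) _ _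
    (fun l => rfl) _ _ ?_).symm
  rintro ⟨x, ⟨u, hu⟩, hx⟩
  have hx' : (x : G) ∈ X := hx
  have hux : m (fun ω => (u ω : U)) = (x : G) := congrArg Subtype.val hu
  have h4 : ∀ ω, (u ω : U) ∈ C := h.ker _ (by rw [hux]; exact hx')
  have h5 := hc.prod (fun ω => (u ω : U)) h4
  have k1 : θ' ⟨x, ⟨u, hu⟩⟩ = ∏ ω, F' ω (u ω) := by
    rw [← hθ' u]
    congr 1
    exact Subtype.ext hu.symm
  have k2 : θ' 1 = ∏ ω, F' ω 1 := by
    have h7 := hθ' 1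
    have e7 : (⟨mB m U₀ X 1, ⟨1, rfl⟩⟩ : (mB m U₀ X).range) = 1 := Subtype.ext (map_one _)
    rw [e7] at h7
    exact h7
  have k3 : θ ⟨(x : G), ⟨_, hux⟩⟩ = ∏ ω, F ω (u ω) := by
    rw [← hθ (fun ω => (u ω : U))]
    congr 1
    exact Subtype.ext hux.symm
  have k4 : θ 1 = ∏ ω, F ω 1 := by
    have h7 := hθ 1
    have e7 : (⟨m 1, ⟨1, rfl⟩⟩ : m.range) = 1 := Subtype.ext (map_one _)
    rw [e7] at h7
    exact h7
  change θ' ⟨x, _⟩ / θ' 1 = θ ⟨(x : G), _⟩ / θ 1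
  rw [k1, k2, k3, k4]
  exact h5.symm

/-- **Comparison of `G` and `B`.** -/
theorem compare (s1 : S1) (s2 : S2) (g5 : G5) (h : WD m C X) (hC : C ≤ U₀)
    (e : {χ : U → ℂ // IsIrr χ ∧ (ndeg χ : ZMod p) ≠ 0} ≃
      {χ : U₀ → ℂ // IsIrr χ ∧ (ndeg χ : ZMod p) ≠ 0})
    (he1 : ∀ χ, (ndeg χ.1 : ZMod p) ^ 2 = (ndeg (e χ).1 : ZMod p) ^ 2)
    (he2 : ∀ χ (c : U) (hc : c ∈ C), χ.1 c / χ.1 1 = (e χ).1 ⟨c, hC hc⟩ / (e χ).1 1)
    (P : Sylow p G) (hP : NN P ≤ BB m U₀ X) :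
    wt (cl p) G = wt (cl p) (BB m U₀ X) := by
  have hB := h.toB U₀
  have hPB : (P : Subgroup G) ≤ BB m U₀ X := Subgroup.le_normalizer.trans hP
  have hr : m.range.subtype.range = m.range := Subgroup.range_subtype _
  have hrB : (mB m U₀ X).range.subtype.range = (mB m U₀ X).range := Subgroup.range_subtype _
  have hn : m.range.subtype.range.Normal := by rw [hr]; exact h.normal
  have hnB : (mB m U₀ X).range.subtype.range.Normal := by rw [hrB]; exact hB.normal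
  haveI := Fintype.ofFinite m.range
  haveI := Fintype.ofFinite (mB m U₀ X).range
  have e1 := s2 p m.range G m.range.subtype m.range.subtype_injective hn P
  have e2 := s2 p (mB m U₀ X).range (BB m U₀ X) (mB m U₀ X).range.subtype
    (mB m U₀ X).range.subtype_injective hnB (P.subtype hPB)
  have c1 : Nat.card (NN (P.subtype hPB)) = Nat.card (NN P) := by
    refine Nat.card_congr
      { toFun := fun x => ⟨x.1.1, (mem_NN_subtype P hPB x.1).mp x.2⟩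
        invFun := fun x => ⟨⟨x.1, hP x.2⟩, (mem_NN_subtype P hPB ⟨x.1, hP x.2⟩).mpr x.2⟩
        left_inv := fun _ => rfl
        right_inv := fun _ => rfl }
  have cm : ∀ f : Ω → {χ : U → ℂ // IsIrr χ ∧ (ndeg χ : ZMod p) ≠ 0},
      Cmp p C U₀ (fun ω => (f ω).1) (fun ω => (e (f ω)).1) := fun f =>
    { hC := hC
      hF := fun ω => (f ω).2.1
      hF' := fun ω => (e (f ω)).2.1
      ne := fun ω => (f ω).2.2
      sq := fun ω => he1 _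
      cen := fun ω c hc => he2 _ c hc
      st := fun ω ω' => by
        rw [← Subtype.ext_iff, ← Subtype.ext_iff, e.apply_eq_iff_eq] }
  -- the characters of degree prime to `p` come from functions `f`
  have exf : ∀ θ : m.range → ℂ, IsIrr θ → (ndeg θ : ZMod p) ≠ 0 →
      ∃ f : Ω → {χ : U → ℂ // IsIrr χ ∧ (ndeg χ : ZMod p) ≠ 0},
        ∀ u, θ ⟨m u, ⟨u, rfl⟩⟩ = ∏ ω, (f ω).1 (u ω) := by
    intro θ hθ hne
    obtain ⟨f, hf, hf2⟩ := exists_f hθ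
    rw [ndeg_theta hf hf2, Nat.cast_prod, Finset.prod_ne_zero_iff] at hne
    exact ⟨fun ω => ⟨f ω, hf ω, hne ω (Finset.mem_univ _)⟩, hf2⟩
  have exf' : ∀ θ : (mB m U₀ X).range → ℂ, IsIrr θ → (ndeg θ : ZMod p) ≠ 0 →
      ∃ f : Ω → {χ : U → ℂ // IsIrr χ ∧ (ndeg χ : ZMod p) ≠ 0},
        ∀ u, θ ⟨mB m U₀ X u, ⟨u, rfl⟩⟩ = ∏ ω, (e (f ω)).1 (u ω) := by
    intro θ hθ hne
    obtain ⟨f, hf, hf2⟩ := exists_f hθ
    rw [ndeg_theta hf hf2, Nat.cast_prod, Finset.prod_ne_zero_iff] at hne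
    refine ⟨fun ω => e.symm ⟨f ω, hf ω, hne ω (Finset.mem_univ _)⟩, fun u => ?_⟩
    rw [hf2]
    exact Finset.prod_congr rfl fun ω _ => by rw [Equiv.apply_symm_apply]
  have hker : ∀ (f : Ω → {χ : U → ℂ // IsIrr χ ∧ (ndeg χ : ZMod p) ≠ 0}) (θ : m.range → ℂ),
      (∀ u, θ ⟨m u, ⟨u, rfl⟩⟩ = ∏ ω, (f ω).1 (u ω)) →
      ∀ u, m u = 1 → ∏ ω, (f ω).1 (u ω) = ∏ ω, (f ω).1 1 := by
    intro f θ hθ u hu
    have h1 := hθ u
    have h2 := hθ 1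
    have e3 : (⟨m u, ⟨u, rfl⟩⟩ : m.range) = ⟨m 1, ⟨1, rfl⟩⟩ :=
      Subtype.ext (hu.trans (map_one m).symm)
    rw [← h1, e3, h2]
    rfl
  have hker' : ∀ (f : Ω → {χ : U → ℂ // IsIrr χ ∧ (ndeg χ : ZMod p) ≠ 0})
      (θ : (mB m U₀ X).range → ℂ),
      (∀ u, θ ⟨mB m U₀ X u, ⟨u, rfl⟩⟩ = ∏ ω, (e (f ω)).1 (u ω)) →
      ∀ u, mB m U₀ X u = 1 → ∏ ω, (e (f ω)).1 (u ω) = ∏ ω, (e (f ω)).1 1 := by
    intro f θ hθ u hu
    have h1 := hθ u
    have h2 := hθ 1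
    have e3 : (⟨mB m U₀ X u, ⟨u, rfl⟩⟩ : (mB m U₀ X).range) = ⟨mB m U₀ X 1, ⟨1, rfl⟩⟩ :=
      Subtype.ext (hu.trans (map_one _).symm)
    rw [← h1, e3, h2]
    rfl
  -- the two sums
  have key : ∑ θ ∈ (Irr m.range).filter (fun θ => ∀ x ∈ P, fixes m.range.subtype θ x),
      (Nat.card {x : G // x ∈ NN P ∧ fixes m.range.subtype θ x} : RR p) *
        wo (cl p) m.range.subtype θ =
      ∑ θ ∈ (Irr (mB m U₀ X).range).filter
        (fun θ => ∀ x ∈ P.subtype hPB, fixes (mB m U₀ X).range.subtype θ x),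
      (Nat.card {x : BB m U₀ X // x ∈ NN (P.subtype hPB) ∧
        fixes (mB m U₀ X).range.subtype θ x} : RR p) * wo (cl p) (mB m U₀ X).range.subtype θ := by
    have z1 : ∀ θ : m.range → ℂ, IsIrr θ → (ndeg θ : ZMod p) = 0 →
        wo (cl p) m.range.subtype θ = 0 := by
      intro θ hθ hz
      obtain ⟨f, hf, hf2⟩ := exists_f hθ
      rw [wo_theta s1 g5 h hf hf2, cl_zero hz, zero_mul, mul_zero]
    have z2 : ∀ θ : (mB m U₀ X).range → ℂ, IsIrr θ → (ndeg θ : ZMod p) = 0 →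
        wo (cl p) (mB m U₀ X).range.subtype θ = 0 := by
      intro θ hθ hz
      obtain ⟨f, hf, hf2⟩ := exists_f hθ
      rw [wo_theta s1 g5 hB hf hf2, cl_zero hz, zero_mul, mul_zero]
    -- the partner
    have ex : ∀ θ : m.range → ℂ, IsIrr θ → (ndeg θ : ZMod p) ≠ 0 →
        ∃ (f : Ω → {χ : U → ℂ // IsIrr χ ∧ (ndeg χ : ZMod p) ≠ 0}) (θ' : (mB m U₀ X).range → ℂ),
          (∀ u, θ ⟨m u, ⟨u, rfl⟩⟩ = ∏ ω, (f ω).1 (u ω)) ∧
          ∀ u, θ' ⟨mB m U₀ X u, ⟨u, rfl⟩⟩ = ∏ ω, (e (f ω)).1 (u ω) := by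
      intro θ hθ hne
      obtain ⟨f, hf⟩ := exf θ hθ hne
      obtain ⟨θ', hθ'⟩ := exists_theta hB (fun ω => (e (f ω)).2.1)
        (((cm f).ker_iff h).mp (hker f θ hf))
      exact ⟨f, θ', hf, hθ'⟩
    have fx : ∀ (f : Ω → {χ : U → ℂ // IsIrr χ ∧ (ndeg χ : ZMod p) ≠ 0}) (θ : m.range → ℂ)
        (θ' : (mB m U₀ X).range → ℂ), (∀ u, θ ⟨m u, ⟨u, rfl⟩⟩ = ∏ ω, (f ω).1 (u ω)) →
        (∀ u, θ' ⟨mB m U₀ X u, ⟨u, rfl⟩⟩ = ∏ ω, (e (f ω)).1 (u ω)) →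
        ((∀ x ∈ P, fixes m.range.subtype θ x) ↔
          ∀ x ∈ P.subtype hPB, fixes (mB m U₀ X).range.subtype θ' x) := by
      intro f θ θ' h1 h2
      constructor
      · intro H x hx
        exact ((cm f).fixes_iff h h1 h2 x).mpr (H x hx)
      · intro H x hx
        exact ((cm f).fixes_iff h h1 h2 ⟨x, hPB hx⟩).mp (H ⟨x, hPB hx⟩ hx)
    have val : ∀ (f : Ω → {χ : U → ℂ // IsIrr χ ∧ (ndeg χ : ZMod p) ≠ 0}) (θ : m.range → ℂ)
        (θ' : (mB m U₀ X).range → ℂ), (∀ u, θ ⟨m u, ⟨u, rfl⟩⟩ = ∏ ω, (f ω).1 (u ω)) →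
        (∀ u, θ' ⟨mB m U₀ X u, ⟨u, rfl⟩⟩ = ∏ ω, (e (f ω)).1 (u ω)) →
        (Nat.card {x : G // x ∈ NN P ∧ fixes m.range.subtype θ x} : RR p) *
          wo (cl p) m.range.subtype θ =
        (Nat.card {x : BB m U₀ X // x ∈ NN (P.subtype hPB) ∧
          fixes (mB m U₀ X).range.subtype θ' x} : RR p) *
            wo (cl p) (mB m U₀ X).range.subtype θ' := by
      intro f θ θ' h1 h2
      rw [(cm f).wo_eq s1 g5 h h1 h2]
      congr 2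
      refine Nat.card_congr
        { toFun := fun x => ⟨⟨x.1, hP x.2.1⟩, (mem_NN_subtype P hPB ⟨x.1, hP x.2.1⟩).mpr x.2.1,
            ((cm f).fixes_iff h h1 h2 ⟨x.1, hP x.2.1⟩).mpr x.2.2⟩
          invFun := fun x => ⟨x.1.1, (mem_NN_subtype P hPB x.1).mp x.2.1,
            ((cm f).fixes_iff h h1 h2 x.1).mp x.2.2⟩
          left_inv := fun _ => rfl
          right_inv := fun _ => rfl }
    have nd : ∀ (f : Ω → {χ : U → ℂ // IsIrr χ ∧ (ndeg χ : ZMod p) ≠ 0}) (θ : m.range → ℂ),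
        (∀ u, θ ⟨m u, ⟨u, rfl⟩⟩ = ∏ ω, (f ω).1 (u ω)) → (ndeg θ : ZMod p) ≠ 0 := by
      intro f θ h1
      rw [ndeg_theta (fun ω => (f ω).2.1) h1, Nat.cast_prod, Finset.prod_ne_zero_iff]
      exact fun ω _ => (f ω).2.2
    have nd' : ∀ (f : Ω → {χ : U → ℂ // IsIrr χ ∧ (ndeg χ : ZMod p) ≠ 0})
        (θ : (mB m U₀ X).range → ℂ),
        (∀ u, θ ⟨mB m U₀ X u, ⟨u, rfl⟩⟩ = ∏ ω, (e (f ω)).1 (u ω)) → (ndeg θ : ZMod p) ≠ 0 := by
      intro f θ h1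
      rw [ndeg_theta (fun ω => (e (f ω)).2.1) h1, Nat.cast_prod, Finset.prod_ne_zero_iff]
      exact fun ω _ => (e (f ω)).2.2
    have q1 : ∑ θ ∈ (Irr m.range).filter (fun θ => ∀ x ∈ P, fixes m.range.subtype θ x),
        (Nat.card {x : G // x ∈ NN P ∧ fixes m.range.subtype θ x} : RR p) *
          wo (cl p) m.range.subtype θ =
        ∑ θ ∈ (Irr m.range).filter (fun θ => (∀ x ∈ P, fixes m.range.subtype θ x) ∧
          (ndeg θ : ZMod p) ≠ 0),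
        (Nat.card {x : G // x ∈ NN P ∧ fixes m.range.subtype θ x} : RR p) *
          wo (cl p) m.range.subtype θ := by
      symm
      apply Finset.sum_subset
      · intro θ hθ
        rw [Finset.mem_filter] at hθ ⊢
        exact ⟨hθ.1, hθ.2.1⟩
      · intro θ hθ hθ2
        rw [Finset.mem_filter] at hθ hθ2
        have hz : (ndeg θ : ZMod p) = 0 := by
          by_contra hne
          exact hθ2 ⟨hθ.1, hθ.2, hne⟩
        rw [z1 θ (mem_Irr.mp hθ.1) hz, mul_zero]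
    have q2 : ∑ θ ∈ (Irr (mB m U₀ X).range).filter
          (fun θ => ∀ x ∈ P.subtype hPB, fixes (mB m U₀ X).range.subtype θ x),
        (Nat.card {x : BB m U₀ X // x ∈ NN (P.subtype hPB) ∧
          fixes (mB m U₀ X).range.subtype θ x} : RR p) * wo (cl p) (mB m U₀ X).range.subtype θ =
        ∑ θ ∈ (Irr (mB m U₀ X).range).filter
          (fun θ => (∀ x ∈ P.subtype hPB, fixes (mB m U₀ X).range.subtype θ x) ∧
            (ndeg θ : ZMod p) ≠ 0),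
        (Nat.card {x : BB m U₀ X // x ∈ NN (P.subtype hPB) ∧
          fixes (mB m U₀ X).range.subtype θ x} : RR p) *
            wo (cl p) (mB m U₀ X).range.subtype θ := by
      symm
      apply Finset.sum_subset
      · intro θ hθ
        rw [Finset.mem_filter] at hθ ⊢
        exact ⟨hθ.1, hθ.2.1⟩
      · intro θ hθ hθ2
        rw [Finset.mem_filter] at hθ hθ2
        have hz : (ndeg θ : ZMod p) = 0 := by
          by_contra hne
          exact hθ2 ⟨hθ.1, hθ.2, hne⟩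
        rw [z2 θ (mem_Irr.mp hθ.1) hz, mul_zero]
    rw [q1, q2]
    let pr : (m.range → ℂ) → (mB m U₀ X).range → ℂ := fun θ =>
      if hh : ∃ (f : Ω → {χ : U → ℂ // IsIrr χ ∧ (ndeg χ : ZMod p) ≠ 0})
          (θ' : (mB m U₀ X).range → ℂ),
          (∀ u, θ ⟨m u, ⟨u, rfl⟩⟩ = ∏ ω, (f ω).1 (u ω)) ∧
          ∀ u, θ' ⟨mB m U₀ X u, ⟨u, rfl⟩⟩ = ∏ ω, (e (f ω)).1 (u ω) then hh.choose_spec.choose
      else 0
    have hpr : ∀ θ : m.range → ℂ, IsIrr θ → (ndeg θ : ZMod p) ≠ 0 →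
        ∃ f : Ω → {χ : U → ℂ // IsIrr χ ∧ (ndeg χ : ZMod p) ≠ 0},
          (∀ u, θ ⟨m u, ⟨u, rfl⟩⟩ = ∏ ω, (f ω).1 (u ω)) ∧
          ∀ u, pr θ ⟨mB m U₀ X u, ⟨u, rfl⟩⟩ = ∏ ω, (e (f ω)).1 (u ω) := by
      intro θ hθ hne
      have hh := ex θ hθ hne
      have e4 : pr θ = hh.choose_spec.choose := dif_pos hh
      rw [e4]
      exact ⟨hh.choose, hh.choose_spec.choose_spec⟩
    have ext1 : ∀ θ₁ θ₂ : m.range → ℂ, (∀ u, θ₁ ⟨m u, ⟨u, rfl⟩⟩ = θ₂ ⟨m u, ⟨u, rfl⟩⟩) →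
        θ₁ = θ₂ := by
      intro θ₁ θ₂ H
      funext x
      obtain ⟨_, u, rfl⟩ := x
      exact H u
    have ext2 : ∀ θ₁ θ₂ : (mB m U₀ X).range → ℂ,
        (∀ u, θ₁ ⟨mB m U₀ X u, ⟨u, rfl⟩⟩ = θ₂ ⟨mB m U₀ X u, ⟨u, rfl⟩⟩) → θ₁ = θ₂ := by
      intro θ₁ θ₂ H
      funext x
      obtain ⟨_, u, rfl⟩ := x
      exact H u
    refine Finset.sum_bij (fun θ _ => pr θ) ?_ ?_ ?_ ?_
    · intro θ hθ
      rw [Finset.mem_filter] at hθ
      obtain ⟨f, h1, h2⟩ := hpr θ (mem_Irr.mp hθ.1) hθ.2.2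
      rw [Finset.mem_filter]
      exact ⟨mem_Irr.mpr (theta_irr (fun ω => (e (f ω)).2.1) h2), (fx f θ _ h1 h2).mp hθ.2.1,
        nd' f _ h2⟩
    · intro θ₁ hθ₁ θ₂ hθ₂ heq
      rw [Finset.mem_filter] at hθ₁ hθ₂
      obtain ⟨f₁, h1, h2⟩ := hpr θ₁ (mem_Irr.mp hθ₁.1) hθ₁.2.2
      obtain ⟨f₂, h3, h4⟩ := hpr θ₂ (mem_Irr.mp hθ₂.1) hθ₂.2.2
      have hf : (fun ω => (e (f₁ ω)).1) = fun ω => (e (f₂ ω)).1 := by
        refine f_unique (fun ω => (e (f₁ ω)).2.1) (fun ω => (e (f₂ ω)).2.1) fun u => ?_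
        rw [← h2, ← h4]
        exact congrFun heq _
      have hf2 : f₁ = f₂ := by
        funext ω
        exact e.injective (Subtype.ext (congrFun hf ω))
      apply ext1
      intro u
      rw [h1, h3, hf2]
    · intro θ' hθ'
      rw [Finset.mem_filter] at hθ'
      obtain ⟨f, hf⟩ := exf' θ' (mem_Irr.mp hθ'.1) hθ'.2.2
      obtain ⟨θ, hθ⟩ := exists_theta h (fun ω => (f ω).2.1) (((cm f).ker_iff h).mpr (hker' f θ' hf))
      have hθi : IsIrr θ := theta_irr (fun ω => (f ω).2.1) hθ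
      refine ⟨θ, ?_, ?_⟩
      · rw [Finset.mem_filter]
        exact ⟨mem_Irr.mpr hθi, (fx f θ θ' hθ hf).mpr hθ'.2.1, nd f θ hθ⟩
      · obtain ⟨f₂, h3, h4⟩ := hpr θ hθi (nd f θ hθ)
        have hf2 : f = f₂ := by
          funext ω
          have := f_unique (fun ω => (f ω).2.1) (fun ω => (f₂ ω).2.1) fun u => by
            rw [← hθ, ← h3]
          exact Subtype.ext (congrFun this ω)
        apply ext2
        intro u
        rw [h4, hf, hf2]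
    · intro θ hθ
      rw [Finset.mem_filter] at hθ
      obtain ⟨f, h1, h2⟩ := hpr θ (mem_Irr.mp hθ.1) hθ.2.2
      exact val f θ _ h1 h2
  rw [c1, ← key, ← e1] at e2
  exact (natCast_mul_inj p Nat.card_pos.ne' e2).symm

end cmp

end Pool.Agent.Zk54.MQ
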