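import Pool.Agent.Zk54.MQ.E7b
import Pool.Agent.Zk54.MQ.E1
import Pool.Agent.Zk54.MQ.M5b
import Pool.Agent.Zk54.MQ.DefE

set_option autoImplicit false
set_option linter.unusedSectionVars false
set_option linter.style.haveILetI false

open scoped BigOperators Classical

noncomputable section

namespace Pool.Agent.Zk54.MQ

open Pool.Agent.Helper884 Pool.Agent.H254R3.IN Pool.Agent.Q288.MB
open Pool.Agent.K3h3.KB Pool.Agent.K3h3.MK
open IC (Irr)
open Pool.Agent.K3h83.IN (ov wo wo_eq wo_congr fixes S1 S2 S3b G5 Tst mem_Tst range_le_Tst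
  mem_NN_subtype cod cod_coe)

/-- invariant characters, general automorphisms -/
theorem fixes_gen {G' U₁ Ω : Type} [Group G'] [Group U₁] [Finite U₁] [Fintype Ω] [MulAction G' Ω]
    (m₁ : (Ω → U₁) →* G') (x : G') (β : Ω → MulAut U₁)
    (hβ : ∀ u, x * m₁ u * x⁻¹ = m₁ (fun ω => β (x⁻¹ • ω) (u (x⁻¹ • ω))))
    {F : Ω → U₁ → ℂ} (hF : ∀ ω, IsIrr (F ω)) {θ : m₁.range → ℂ}
    (hθ : ∀ u, θ ⟨m₁ u, ⟨u, rfl⟩⟩ = ∏ ω, F ω (u ω)) :
    fixes m₁.range.subtype θ x ↔ ∀ ω v, F (x • ω) (β ω v) = F ω v := by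
  have sh : ∀ (u : Ω → U₁) (hm : x * m₁ u * x⁻¹ ∈ m₁.range),
      θ ⟨x * m₁ u * x⁻¹, hm⟩ = ∏ ω, F (x • ω) (β ω (u ω)) := by
    intro u hm
    have e : (⟨x * m₁ u * x⁻¹, hm⟩ : m₁.range) =
        ⟨m₁ (fun ω => β (x⁻¹ • ω) (u (x⁻¹ • ω))), ⟨_, rfl⟩⟩ := Subtype.ext (hβ u)
    rw [e, hθ]
    refine (Fintype.prod_equiv (MulAction.toPerm x) _ _ fun ω => ?_).symm
    rw [MulAction.toPerm_apply, inv_smul_smul]
  constructor
  · intro hfix
    have h1 : (fun ω v => F (x • ω) (β ω v)) = F := by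
      refine f_unique (fun ω => Pool.Agent.Q90.WR.irr_comp (β ω) (hF _)) hF fun u => ?_
      have hm : x * m₁ u * x⁻¹ ∈ m₁.range := ⟨_, (hβ u).symm⟩
      rw [← sh u hm, ← hθ]
      exact hfix ⟨m₁ u, ⟨u, rfl⟩⟩ ⟨_, hm⟩ rfl
    intro ω v
    exact congrFun (congrFun h1 ω) v
  · rintro hfx ⟨_, ⟨u, rfl⟩⟩ ⟨l', hl'⟩ hl
    have hl2 : x * m₁ u * x⁻¹ = l' := hl
    subst hl2
    rw [sh u hl', hθ]
    exact Finset.prod_congr rfl fun ω _ => hfx ω _

/-- invariant characters and the permutation of the characters -/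
theorem fixes_loc {G' U₁ Ω J : Type} [Group G'] [Group U₁] [Finite U₁] [Fintype Ω]
    [MulAction G' Ω] (m₁ : (Ω → U₁) →* G') (x : G') (β : Ω → MulAut U₁)
    (hβ : ∀ u, x * m₁ u * x⁻¹ = m₁ (fun ω => β (x⁻¹ • ω) (u (x⁻¹ • ω))))
    (c : U₁ → U₁) (hc : Function.Surjective c) (i : Ω → ℕ) (u : Ω → U₁)
    (hβc : ∀ ω v, β ω v = u ω * c^[i ω] v * (u ω)⁻¹) (χ : J → U₁ → ℂ) (hχ : ∀ j, IsIrr (χ j))
    (hinj : Function.Injective χ) (τ : Equiv.Perm J) (hτ : ∀ j v, χ (τ j) (c v) = χ j v)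
    (f : Ω → J) {θ : m₁.range → ℂ}
    (hθ : ∀ u, θ ⟨m₁ u, ⟨u, rfl⟩⟩ = ∏ ω, χ (f ω) (u ω)) :
    fixes m₁.range.subtype θ x ↔ ∀ ω, f (x • ω) = (τ ^ i ω) (f ω) := by
  have hτi : ∀ (k : ℕ) j v, χ ((τ ^ k) j) (c^[k] v) = χ j v := by
    intro k
    induction k with
    | zero => intro j v; rfl
    | succ k ih =>
      intro j v
      rw [pow_succ', Function.iterate_succ_apply', Equiv.Perm.mul_apply, hτ, ih]
  rw [fixes_gen m₁ x β hβ (F := fun ω => χ (f ω)) (fun ω => hχ _) hθ]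
  refine forall_congr' fun ω => ?_
  have h1 : ∀ v, χ (f (x • ω)) (β ω v) = χ (f (x • ω)) (c^[i ω] v) := by
    intro v
    rw [hβc]
    exact (hχ _).conj _ _
  constructor
  · intro H
    apply hinj
    funext y
    obtain ⟨v, rfl⟩ := hc.iterate (i ω) y
    rw [← h1, H, hτi]
  · intro H v
    rw [h1, H, hτi]

/-- the restriction of an automorphism -/
def rAut {U : Type} [Group U] [Finite U] (A : MulAut U) (U₀ : Subgroup U)
    (h : ∀ u, u ∈ U₀ → A u ∈ U₀) : MulAut U₀ :=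
  MulEquiv.ofBijective ((A.toMonoidHom.comp U₀.subtype).codRestrict U₀ fun u => h u u.2)
    (by
      have hi : Function.Injective
          ((A.toMonoidHom.comp U₀.subtype).codRestrict U₀ fun u => h u u.2) := by
        intro x y hxy
        have h1 : A (x : U) = A (y : U) := congrArg Subtype.val hxy
        exact Subtype.ext (A.injective h1)
      exact ⟨hi, Finite.surjective_of_injective hi⟩)

theorem rAut_coe {U : Type} [Group U] [Finite U] (A : MulAut U) (U₀ : Subgroup U)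
    (h : ∀ u, u ∈ U₀ → A u ∈ U₀) (u : U₀) : ((rAut A U₀ h u : U₀) : U) = A u := rfl

theorem aut_iter {U : Type} [Group U] (a : MulAut U) (k : ℕ) (v : U) : (a ^ k) v = a^[k] v := by
  induction k with
  | zero => rfl
  | succ k ih => rw [pow_succ', MulAut.mul_apply, ih, Function.iterate_succ_apply']

theorem res_iter {U : Type} [Group U] (a : MulAut U) (U₀ : Subgroup U)
    (ha0 : ∀ u, u ∈ U₀ → a u ∈ U₀) (k : ℕ) (v : U₀) :
    (((fun v : U₀ => (⟨a v, ha0 v v.2⟩ : U₀))^[k] v : U₀) : U) = (a ^ k) v := by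
  induction k with
  | zero => rfl
  | succ k ih =>
    rw [pow_succ', MulAut.mul_apply, Function.iterate_succ_apply', ← ih]

section

variable {G U Ω : Type} [Group G] [Group U] [MulAction G Ω] {m : (Ω → U) →* G}
  {α : G → Ω → MulAut U}

theorem WE.normal (h : WE m α) : m.range.Normal where
  conj_mem := by
    rintro _ ⟨u, rfl⟩ g
    rw [h.eqv]
    exact ⟨_, rfl⟩

/-- the homomorphism into `B` -/
def mC (m : (Ω → U) →* G) (U₀ : Subgroup U) (B : Subgroup G)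
    (hmB : ∀ u : Ω → U, m u ∈ B ↔ ∀ ω, u ω ∈ U₀) : (Ω → U₀) →* B :=
  (res m U₀).codRestrict B fun u => (hmB _).mpr fun ω => (u ω).2

theorem mC_coe (U₀ : Subgroup U) (B : Subgroup G) (hmB : ∀ u : Ω → U, m u ∈ B ↔ ∀ ω, u ω ∈ U₀)
    (u : Ω → U₀) : ((mC m U₀ B hmB u : B) : G) = m (fun ω => (u ω : U)) := rfl

theorem mem_mC_range (U₀ : Subgroup U) (B : Subgroup G)
    (hmB : ∀ u : Ω → U, m u ∈ B ↔ ∀ ω, u ω ∈ U₀) (x : B) :
    x ∈ (mC m U₀ B hmB).range ↔ (x : G) ∈ m.range := by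
  constructor
  · rintro ⟨u, rfl⟩
    exact ⟨_, rfl⟩
  · rintro ⟨u, hu⟩
    have h1 : ∀ ω, u ω ∈ U₀ := (hmB u).mp (by rw [hu]; exact x.2)
    exact ⟨fun ω => ⟨u ω, h1 ω⟩, Subtype.ext hu⟩

theorem mC_normal (h : WE m α) (U₀ : Subgroup U) (B : Subgroup G)
    (hmB : ∀ u : Ω → U, m u ∈ B ↔ ∀ ω, u ω ∈ U₀) : (mC m U₀ B hmB).range.Normal where
  conj_mem := by
    intro x hx b
    rw [mem_mC_range] at hx ⊢
    exact h.normal.conj_mem _ hx b

end

theorem idx_eq {G : Type} [Group G] {L B T : Subgroup G} (hL : L.Normal) (hLB : L ⊔ B = ⊤)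
    (hT : L ≤ T) : T.index = T.relIndex B := by
  haveI := hL
  haveI : MulAction.IsPretransitive B (G ⧸ T) := by
    rw [MulAction.isPretransitive_iff_base (((1 : G) : G ⧸ T))]
    intro y
    obtain ⟨g, rfl⟩ := QuotientGroup.mk_surjective y
    have hg : g ∈ L ⊔ B := by rw [hLB]; trivial
    obtain ⟨l, hl, x, hx, rfl⟩ := Subgroup.mem_sup_of_normal_left.mp hg
    refine ⟨⟨x, hx⟩, ?_⟩
    change ((x * 1 : G) : G ⧸ T) = _
    rw [QuotientGroup.eq, mul_one]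
    have h1 : x⁻¹ * l * x⁻¹⁻¹ ∈ L := hL.conj_mem _ hl x⁻¹
    rw [inv_inv] at h1
    have e : x⁻¹ * (l * x) = x⁻¹ * l * x := by group
    rw [e]
    exact hT h1
  have h2 := MulAction.index_stabilizer_of_transitive B (((1 : G) : G ⧸ T))
  have h3 : MulAction.stabilizer B (((1 : G) : G ⧸ T)) = T.subgroupOf B := by
    ext x
    rw [MulAction.mem_stabilizer_iff, Subgroup.mem_subgroupOf]
    change (((x : G) * 1 : G) : G ⧸ T) = ((1 : G) : G ⧸ T) ↔ _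
    rw [mul_one, eq_comm, QuotientGroup.eq, inv_one, one_mul]
  rw [h3] at h2
  exact h2.symm

theorem bij_W {N V : Type} [Group N] [AddCommGroup V] [Module ℂ V] (W : N → (V →ₗ[ℂ] V))
    (γ : N → N → ℂ) (hγ : ∀ x y, γ x y ≠ 0) (hm : ∀ x y, W x ∘ₗ W y = γ x y • W (x * y)) (c₁ : ℂ)
    (hc₁ : c₁ ≠ 0) (h1 : W 1 = c₁ • LinearMap.id) (x : N) : Function.Bijective (W x) := by
  constructor
  · intro v w hvw
    have h2 := hm x⁻¹ x
    rw [inv_mul_cancel, h1, smul_smul] at h2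
    have h3 : ∀ v, W x⁻¹ (W x v) = (γ x⁻¹ x * c₁) • v := fun v => by
      have := congrArg (fun g : V →ₗ[ℂ] V => g v) h2
      exact this
    have h4 : (γ x⁻¹ x * c₁) • v = (γ x⁻¹ x * c₁) • w := by rw [← h3, ← h3, hvw]
    exact smul_right_injective V (mul_ne_zero (hγ _ _) hc₁) h4
  · intro v
    have h2 := hm x x⁻¹
    rw [mul_inv_cancel, h1, smul_smul] at h2
    have h3 : ∀ v, W x (W x⁻¹ v) = (γ x x⁻¹ * c₁) • v := fun v => by
      have := congrArg (fun g : V →ₗ[ℂ] V => g v) h2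
      exact this
    refine ⟨(γ x x⁻¹ * c₁)⁻¹ • W x⁻¹ v, ?_⟩
    rw [map_smul, h3, smul_smul, inv_mul_cancel₀ (mul_ne_zero (hγ _ _) hc₁), one_smul]

end Pool.Agent.Zk54.MQ
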