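import Pool.Agent.Zk54.MQ.E7c

set_option autoImplicit false
set_option linter.unusedSectionVars false
set_option linter.style.haveILetI false

open scoped BigOperators Classical

noncomputable section

namespace Pool.Agent.Zk54.MQ

open Pool.Agent.Helper884 Pool.Agent.H254R3.IN Pool.Agent.Q288.MB
open Pool.Agent.K3h3.KB Pool.Agent.K3h3.MK
open IC (Irr)
open Pool.Agent.K3h83.IN (ov wo wo_eq wo_congr fixes S1 S2 S3b G5 Tst mem_Tst range_le_Tst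
  mem_NN_subtype cod cod_coe)

/-- the data for the two sides -/
structure PD {G U Ω : Type} [Group G] [Finite G] [Group U] [Finite U] [Fintype Ω] [MulAction G Ω]
    (m : (Ω → U) →* G) (α : G → Ω → MulAut U) (U₀ : Subgroup U) (B : Subgroup G) (a : MulAut U)
    (b : ℕ) (u₁ : U) : Prop where
  h : WE m α
  hZ : Subgroup.center U ≤ U₀
  hLB : m.range ⊔ B = ⊤
  hmB : ∀ u : Ω → U, m u ∈ B ↔ ∀ ω, u ω ∈ U₀
  hb : 0 < b
  hu₁ : u₁ ∈ U₀
  hab : ∀ v, (a ^ b) v = u₁ * v * u₁⁻¹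
  hord : ∀ (k : ℕ) (w : U), (∀ v, (a ^ k) v = w * v * w⁻¹) → b ∣ k
  ha0 : ∀ u, u ∈ U₀ → a u ∈ U₀
  hfix : ∀ z ∈ Subgroup.center U, a z = z
  hα : ∀ g ∈ B, ∀ ω, ∃ (i : ℕ), ∃ u ∈ U₀, ∀ v, α g ω v = u * (a ^ i) v * u⁻¹

section

variable {G U Ω : Type} [Group G] [Finite G] [Group U] [Finite U] [Fintype Ω] [MulAction G Ω]
  {m : (Ω → U) →* G} {α : G → Ω → MulAut U} {U₀ : Subgroup U} {B : Subgroup G} {a : MulAut U}
  {b : ℕ} {u₁ : U}

theorem PD.pres (d : PD m α U₀ B a b u₁) {g : G} (hg : g ∈ B) (ω : Ω) (u : U) (hu : u ∈ U₀) :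
    α g ω u ∈ U₀ := by
  obtain ⟨i, w, hw, h⟩ := d.hα g hg ω
  rw [h]
  have h1 : (a ^ i) u ∈ U₀ := by
    rw [← res_iter a U₀ d.ha0 i ⟨u, hu⟩]
    exact Subtype.prop _
  exact U₀.mul_mem (U₀.mul_mem hw h1) (U₀.inv_mem hw)

theorem PD.eqvB (d : PD m α U₀ B a b u₁) (x : B) (u : Ω → U₀) :
    x * mC m U₀ B d.hmB u * x⁻¹ = mC m U₀ B d.hmB (fun ω =>
      rAut (α x (x⁻¹ • ω)) U₀ (d.pres x.2 (x⁻¹ • ω)) (u (x⁻¹ • ω))) :=
  Subtype.ext (d.h.eqv x fun ω => (u ω : U))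

variable {J : Type} {χ : J → U → ℂ} {χ' : J → U₀ → ℂ} {τ : Equiv.Perm J}

/-- when `x ∈ B` fixes the characters -/
theorem PD.fixes_iff (d : PD m α U₀ B a b u₁) (hχ : ∀ j, IsIrr (χ j))
    (hχ' : ∀ j, IsIrr (χ' j)) (hinj : Function.Injective χ) (hinj' : Function.Injective χ')
    (hτ : ∀ j u, χ (τ j) (a u) = χ j u)
    (hτ' : ∀ j (u : U₀), χ' (τ j) ⟨a u, d.ha0 u u.2⟩ = χ' j u) (f : Ω → J)
    {θ : m.range → ℂ} (hθ : ∀ u, θ ⟨m u, ⟨u, rfl⟩⟩ = ∏ ω, χ (f ω) (u ω))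
    {θ' : (mC m U₀ B d.hmB).range → ℂ}
    (hθ' : ∀ u, θ' ⟨mC m U₀ B d.hmB u, ⟨u, rfl⟩⟩ = ∏ ω, χ' (f ω) (u ω)) (x : B) (i : Ω → ℕ)
    (u : Ω → U₀) (hi : ∀ ω v, α x ω v = u ω * (a ^ i ω) v * (u ω : U)⁻¹) :
    (fixes m.range.subtype θ (x : G) ↔ ∀ ω, f (x • ω) = (τ ^ i ω) (f ω)) ∧
    (fixes (mC m U₀ B d.hmB).range.subtype θ' x ↔ ∀ ω, f (x • ω) = (τ ^ i ω) (f ω)) := by
  constructor
  · refine fixes_loc m (x : G) (fun ω => α x ω) (fun v => d.h.eqv x v) (fun v => a v) a.surjective i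
      (fun ω => (u ω : U)) (fun ω v => ?_) χ hχ hinj τ hτ f hθ
    rw [hi, aut_iter]
  · refine fixes_loc (mC m U₀ B d.hmB) x (fun ω => rAut (α x ω) U₀ (d.pres x.2 ω))
      (fun v => d.eqvB x v) (fun v => ⟨a v, d.ha0 v v.2⟩) ?_ i u (fun ω v => ?_) χ' hχ' hinj' τ hτ'
      f hθ'
    · exact (rAut a U₀ d.ha0).surjective
    · apply Subtype.ext
      rw [rAut_coe, hi, Subgroup.coe_mul, Subgroup.coe_mul, res_iter, Subgroup.coe_inv]

/-- **The characters over `θ` and over `θ'`.** -/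
theorem PD.wo_pair (d : PD m α U₀ B a b u₁) (s1 : S1) (s3b : S3b) [Fintype J]
    (hχ : ∀ j, IsIrr (χ j)) (hχ' : ∀ j, IsIrr (χ' j)) (hinj : Function.Injective χ)
    (hinj' : Function.Injective χ') (hτ : ∀ j u, χ (τ j) (a u) = χ j u)
    (hτ' : ∀ j (u : U₀), χ' (τ j) ⟨a u, d.ha0 u u.2⟩ = χ' j u)
    (hz : ∀ j (z : U) (hz : z ∈ Subgroup.center U), χ j z / χ j 1 = χ' j ⟨z, d.hZ hz⟩ / χ' j 1)
    (f : Ω → J) {θ : m.range → ℂ} (hθ : ∀ u, θ ⟨m u, ⟨u, rfl⟩⟩ = ∏ ω, χ (f ω) (u ω))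
    {θ' : (mC m U₀ B d.hmB).range → ℂ}
    (hθ' : ∀ u, θ' ⟨mC m U₀ B d.hmB u, ⟨u, rfl⟩⟩ = ∏ ω, χ' (f ω) (u ω))
    {A : Type} [CommRing A] (w : ℕ →* A) :
    ∃ (k : ℕ) (κ : A), wo w m.range.subtype θ = w k * (w (ndeg θ) * κ) ∧
      wo w (mC m U₀ B d.hmB).range.subtype θ' = w k * (w (ndeg θ') * κ) := by
  have hθi : IsIrr θ := theta_irr (f := fun ω => χ (f ω)) (fun ω => hχ _) hθ
  have hθi' : IsIrr θ' := theta_irr (f := fun ω => χ' (f ω)) (fun ω => hχ' _) hθ'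
  obtain ⟨M, hM⟩ : ∃ M : (Ω → U₀) →* B, M = mC m U₀ B d.hmB := ⟨_, rfl⟩
  have hLn : m.range.Normal := d.h.normal
  have hr : m.range.subtype.range = m.range := Subgroup.range_subtype _
  have hn : m.range.subtype.range.Normal := by rw [hr]; exact hLn
  have hMn : (mC m U₀ B d.hmB).range.Normal := mC_normal d.h U₀ B d.hmB
  have hr' : (mC m U₀ B d.hmB).range.subtype.range = (mC m U₀ B d.hmB).range :=
    Subgroup.range_subtype _
  have hn' : (mC m U₀ B d.hmB).range.subtype.range.Normal := by rw [hr']; exact hMn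
  obtain ⟨T, hTdef⟩ : ∃ T : Subgroup G, T = Tst m.range.subtype m.range.subtype_injective hn θ :=
    ⟨_, rfl⟩
  have hT : ∀ x, x ∈ T ↔ fixes m.range.subtype θ x := fun x => by rw [hTdef]; exact mem_Tst
  obtain ⟨T₀, hT₀def⟩ : ∃ T₀ : Subgroup B, T₀ = Tst (mC m U₀ B d.hmB).range.subtype
      (mC m U₀ B d.hmB).range.subtype_injective hn' θ' := ⟨_, rfl⟩
  have hT₀ : ∀ x, x ∈ T₀ ↔ fixes (mC m U₀ B d.hmB).range.subtype θ' x := fun x => by
    rw [hT₀def]; exact mem_Tst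
  have hET : m.range ≤ T := by
    rw [hTdef]
    have := range_le_Tst m.range.subtype m.range.subtype_injective hn hθi
    rwa [hr] at this
  have hET₀ : (mC m U₀ B d.hmB).range ≤ T₀ := by
    rw [hT₀def]
    have := range_le_Tst (mC m U₀ B d.hmB).range.subtype
      (mC m U₀ B d.hmB).range.subtype_injective hn' hθi'
    rwa [hr'] at this
  have hETr : m.range.subtype.range ≤ T := by rw [hr]; exact hET
  have hETr₀ : (mC m U₀ B d.hmB).range.subtype.range ≤ T₀ := by rw [hr']; exact hET₀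
  -- the local data
  choose i u hu hiu using d.hα
  let I : B → Ω → ℕ := fun x ω => i x x.2 ω
  let UU : B → Ω → U₀ := fun x ω => ⟨u x x.2 ω, hu x x.2 ω⟩
  have hIU : ∀ (x : B) ω v, α x ω v = UU x ω * (a ^ I x ω) v * (UU x ω : U)⁻¹ :=
    fun x ω v => hiu x x.2 ω v
  have hfix2 := fun x : B => d.fixes_iff hχ hχ' hinj hinj' hτ hτ' f hθ hθ' x (I x) (UU x) (hIU x)
  have hTT₀ : ∀ x : B, x ∈ T₀ ↔ (x : G) ∈ T := fun x => by
    rw [hT₀, hT, (hfix2 x).1, (hfix2 x).2]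
  have hTT₀' : T₀ = T.subgroupOf B := by
    ext x
    rw [hTT₀, Subgroup.mem_subgroupOf]
  have e1 := s1 A w m.range G m.range.subtype m.range.subtype_injective hn θ hθi T hT
    (cod m.range.subtype T hETr) fun _ => rfl
  have e2 := s1 A w (mC m U₀ B d.hmB).range B (mC m U₀ B d.hmB).range.subtype
    (mC m U₀ B d.hmB).range.subtype_injective hn' θ' hθi' T₀ hT₀
    (cod (mC m U₀ B d.hmB).range.subtype T₀ hETr₀) fun _ => rfl
  have hidx : T₀.index = T.index := by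
    rw [idx_eq hLn d.hLB hET, hTT₀']
    rfl
  rw [hidx] at e2
  -- the operators
  obtain ⟨n, n', R, R', t, t', hRt, hRt', -, -, hbl, hbl', hcj, hcj', hE3⟩ :=
    local_ops U₀ d.hZ a b d.hb u₁ d.hu₁ d.hab d.hord d.ha0 d.hfix χ χ' hχ hχ' hinj τ hτ hτ' hz
  let ar : U₀ → U₀ := fun v => ⟨a v, d.ha0 v v.2⟩
  have har : ∀ (k : ℕ) (v : U₀), ((ar^[k] v : U₀) : U) = (a ^ k) v := res_iter a U₀ d.ha0
  let L : Subgroup T := m.range.subgroupOf T
  let N : Subgroup T := B.subgroupOf T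
  have hNB : ∀ x : N, ((x : T) : G) ∈ B := fun x => Subgroup.mem_subgroupOf.mp x.2
  let ι : N → B := fun x => ⟨x, hNB x⟩
  have hLN : L ⊔ N = ⊤ := by
    rw [eq_top_iff]
    rintro ⟨x, hx⟩ -
    have hx' : x ∈ m.range ⊔ B := by rw [d.hLB]; trivial
    haveI := hLn
    obtain ⟨l, hl, y, hy, rfl⟩ := Subgroup.mem_sup_of_normal_left.mp hx'
    have hyT : y ∈ T := (Subgroup.mul_mem_cancel_left _ (hET hl)).mp hx
    exact Subgroup.mul_mem_sup (x := (⟨l, hET hl⟩ : T)) (y := (⟨y, hyT⟩ : T))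
      (Subgroup.mem_subgroupOf.mpr hl) (Subgroup.mem_subgroupOf.mpr hy)
  have hfx : ∀ (x : N) ω, f (x • ω) = (τ ^ I (ι x) ω) (f ω) := fun x ω =>
    ((hfix2 (ι x)).1.mp ((hT _).mp (x : T).2)) ω
  have hcomp : ∀ (x y : N) ω v,
      (((UU (ι x) (y • ω) * ar^[I (ι x) (y • ω)] (UU (ι y) ω) : U₀) : U)) *
        (a ^ (I (ι x) (y • ω) + I (ι y) ω)) v *
        (((UU (ι x) (y • ω) * ar^[I (ι x) (y • ω)] (UU (ι y) ω) : U₀) : U))⁻¹ =
      (UU (ι (x * y)) ω : U) * (a ^ I (ι (x * y)) ω) v * (UU (ι (x * y)) ω : U)⁻¹ := by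
    intro x y ω v
    have h1 := hIU (ι (x * y)) ω v
    have h2 := hIU (ι x) (y • ω) (α (ι y) ω v)
    have h3 := hIU (ι y) ω v
    have h4 : α (ι (x * y)) ω v = α (ι x) (y • ω) (α (ι y) ω v) := by
      have := d.h.mul (ι x) (ι y) ω
      have e5 : ((ι (x * y) : B) : G) = (ι x : G) * (ι y : G) := rfl
      rw [e5, this]
      rfl
    rw [← h1, h4, h2, h3, Subgroup.coe_mul, har, pow_add, MulAut.mul_apply, map_mul, map_mul,
      map_inv]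
    group
  choose l hl0 hl hl' using fun (x y : N) (ω : Ω) =>
    hE3 (I (ι x) (y • ω) + I (ι y) ω) (I (ι (x * y)) ω)
      (UU (ι x) (y • ω) * ar^[I (ι x) (y • ω)] (UU (ι y) ω)) (UU (ι (x * y)) ω) (hcomp x y ω)
  -- the homomorphisms
  have hmT : ∀ v : Ω → U, m v ∈ T := fun v => hET ⟨v, rfl⟩
  let m₁ : (Ω → U) →* L :=
    { toFun := fun v => ⟨⟨m v, hmT v⟩, Subgroup.mem_subgroupOf.mpr ⟨v, rfl⟩⟩
      map_one' := Subtype.ext (Subtype.ext (map_one m))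
      map_mul' := fun v w => Subtype.ext (Subtype.ext (map_mul m v w)) }
  have hm₁ : Function.Surjective m₁ := by
    rintro ⟨⟨x, hx⟩, hx2⟩
    obtain ⟨v, hv⟩ := Subgroup.mem_subgroupOf.mp hx2
    exact ⟨v, Subtype.ext (Subtype.ext hv)⟩
  have hmB0 : ∀ v : Ω → U₀, m (fun ω => (v ω : U)) ∈ B := fun v =>
    (d.hmB _).mpr fun ω => (v ω).2
  let m₂ : (Ω → U₀) →* (L ⊓ N : Subgroup T) :=
    { toFun := fun v => ⟨⟨m (fun ω => (v ω : U)), hmT _⟩, Subgroup.mem_subgroupOf.mpr ⟨_, rfl⟩,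
        Subgroup.mem_subgroupOf.mpr (hmB0 v)⟩
      map_one' := Subtype.ext (Subtype.ext (map_one m))
      map_mul' := fun v w => Subtype.ext (Subtype.ext (map_mul m _ _)) }
  have hm₂ : Function.Surjective m₂ := by
    rintro ⟨⟨x, hx⟩, hx2, hx3⟩
    obtain ⟨v, hv⟩ := Subgroup.mem_subgroupOf.mp hx2
    have h1 : ∀ ω, v ω ∈ U₀ := (d.hmB v).mp (by
      rw [hv]
      exact Subgroup.mem_subgroupOf.mp hx3)
    exact ⟨fun ω => ⟨v ω, h1 ω⟩, Subtype.ext (Subtype.ext hv)⟩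
  let eL : L ≃* m.range := Subgroup.subgroupOfEquivOfLe hET
  let eM : (L ⊓ N : Subgroup T) ≃* (mC m U₀ B d.hmB).range :=
    { toFun := fun x => ⟨⟨x.1.1, Subgroup.mem_subgroupOf.mp x.2.2⟩,
        (mem_mC_range U₀ B d.hmB _).mpr (Subgroup.mem_subgroupOf.mp x.2.1)⟩
      invFun := fun x => ⟨⟨x.1.1, hET ((mem_mC_range U₀ B d.hmB _).mp x.2)⟩,
        Subgroup.mem_subgroupOf.mpr ((mem_mC_range U₀ B d.hmB _).mp x.2),
        Subgroup.mem_subgroupOf.mpr x.1.2⟩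
      left_inv := fun _ => rfl
      right_inv := fun _ => rfl
      map_mul' := fun _ _ => rfl }
  obtain ⟨V, _, _, _, σ, W, hσi, hσc, hWm, hWc, hWs⟩ := side (N := N) m₁ hm₁
    (by
      intro v hv ω
      exact d.h.ker v (congrArg (fun x : L => ((x : T) : G)) hv) ω)
    n R f t (fun v => a v) hcj τ hbl χ hχ hRt (fun x => θ (eL x))
    (Pool.Agent.Q90.WR.irr_comp eL hθi) (fun v => hθ v) (fun x ω => I (ι x) ω)
    (fun x ω => (UU (ι x) ω : U)) hfx l (by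
      intro x y ω
      have := hl x y ω
      rw [Subgroup.coe_mul, har] at this
      rw [← aut_iter]
      exact this)
  obtain ⟨V', _, _, _, σ', W', hσi', hσc', hWm', hWc', hWs'⟩ := side (N := N) m₂ hm₂
    (by
      intro v hv ω
      have h1 := d.h.ker _ (congrArg (fun x : (L ⊓ N : Subgroup T) => ((x : T) : G)) hv) ω
      rw [Subgroup.mem_center_iff] at h1 ⊢
      intro y
      exact Subtype.ext (h1 y))
    n' R' f t' ar hcj' τ hbl' χ' hχ' hRt' (fun x => θ' (eM x))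
    (Pool.Agent.Q90.WR.irr_comp eM hθi') (fun v => hθ' v) (fun x ω => I (ι x) ω)
    (fun x ω => UU (ι x) ω) hfx l hl'
  -- the elements of `L ⊓ N`
  have hex : ∀ e : (L ⊓ N : Subgroup T), ∃ (v : Ω → U₀) (r : Ω → J → ℂ), m₂ v = e ∧
      (∀ ω j, r ω j ≠ 0) ∧
      (∀ ω, bd R (UU (ι ⟨e, e.2.2⟩) ω : U) * t ^ I (ι ⟨e, e.2.2⟩) ω = bd R (v ω : U) *
        Matrix.blockDiagonal' fun j => r ω j • (1 : Matrix (Fin (n j)) (Fin (n j)) ℂ)) ∧
      (∀ ω, bd R' (UU (ι ⟨e, e.2.2⟩) ω) * t' ^ I (ι ⟨e, e.2.2⟩) ω = bd R' (v ω) *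
        Matrix.blockDiagonal' fun j => r ω j • (1 : Matrix (Fin (n' j)) (Fin (n' j)) ℂ)) := by
    intro e
    obtain ⟨v, hv⟩ := hm₂ e
    have h1 : ∀ ω y, (UU (ι ⟨e, e.2.2⟩) ω : U) * (a ^ I (ι ⟨e, e.2.2⟩) ω) y *
        (UU (ι ⟨e, e.2.2⟩) ω : U)⁻¹ = (v ω : U) * (a ^ 0) y * (v ω : U)⁻¹ := by
      intro ω y
      rw [← hIU]
      have e5 : ((ι ⟨e, e.2.2⟩ : B) : G) = m (fun ω => (v ω : U)) :=
        (congrArg (fun x : (L ⊓ N : Subgroup T) => ((x : T) : G)) hv).symm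
      rw [e5, d.h.inn]
      rfl
    choose r hr0 hr hr' using fun ω => hE3 (I (ι ⟨e, e.2.2⟩) ω) 0 (UU (ι ⟨e, e.2.2⟩) ω) (v ω) (h1 ω)
    refine ⟨v, r, hv, hr0, fun ω => ?_, fun ω => ?_⟩
    · have := hr ω
      rw [pow_zero, mul_one] at this
      exact this
    · have := hr' ω
      rw [pow_zero, mul_one] at this
      exact this
  choose ve re hve hre0 hre hre' using hex
  have htriv : ∀ (e : (L ⊓ N : Subgroup T)) (ω : Ω), (⟨e, e.2.2⟩ : N) • ω = ω := by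
    intro e ω
    have e5 : ((e : T) : G) = m (fun ω => (ve e ω : U)) :=
      (congrArg (fun x : (L ⊓ N : Subgroup T) => ((x : T) : G)) (hve e)).symm
    change ((e : T) : G) • ω = ω
    rw [e5]
    exact d.h.triv _ ω
  have hc : ∀ e : (L ⊓ N : Subgroup T), W ⟨e, e.2.2⟩ =
      (∏ ω, re e ω (f ω)) • σ ⟨e, e.2.1⟩ := by
    intro e
    have := hWs ⟨e, e.2.2⟩ (fun ω => (ve e ω : U)) (re e) (htriv e) (hre e)
    rw [this]
    congr 2
    exact congrArg (fun x : (L ⊓ N : Subgroup T) => (⟨x, x.2.1⟩ : L)) (hve e)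
  have hc' : ∀ e : (L ⊓ N : Subgroup T), W' ⟨e, e.2.2⟩ = (∏ ω, re e ω (f ω)) • σ' e := by
    intro e
    have := hWs' ⟨e, e.2.2⟩ (ve e) (re e) (htriv e) (hre' e)
    rw [this, hve]
  have hγ : ∀ x y : N, (∏ ω, l x y ω (f ω)) ≠ 0 := fun x y =>
    Finset.prod_ne_zero_iff.mpr fun ω _ => hl0 _ _ _ _
  have hr1 : (∏ ω, re 1 ω (f ω)) ≠ 0 := Finset.prod_ne_zero_iff.mpr fun ω _ => hre0 _ _ _
  have hWi : ∀ x, Function.Bijective (W x) := by
    refine bij_W W _ hγ hWm _ hr1 ?_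
    have := hc 1
    have e6 : (⟨((1 : (L ⊓ N : Subgroup T)) : T), (1 : (L ⊓ N : Subgroup T)).2.1⟩ : L) = 1 := rfl
    rw [e6, map_one] at this
    exact this
  have hWi' : ∀ x, Function.Bijective (W' x) := by
    refine bij_W W' _ hγ hWm' _ hr1 ?_
    have := hc' 1
    rw [map_one] at this
    exact this
  have hconj : ∀ (x : N) (v : Ω → U),
      m (fun ω => UU (ι x) (x⁻¹ • ω) * a^[I (ι x) (x⁻¹ • ω)] (v (x⁻¹ • ω)) *
        (UU (ι x) (x⁻¹ • ω) : U)⁻¹) = ((x : T) : G) * m v * ((x : T) : G)⁻¹ := by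
    intro x v
    rw [d.h.eqv]
    congr 1
    funext ω
    have := hIU (ι x) (x⁻¹ • ω) (v (x⁻¹ • ω))
    rw [← aut_iter]
    exact this.symm
  have hW : ∀ (x : N) (y y' : L), (x : T) * y * (x : T)⁻¹ = y' →
      W x ∘ₗ σ y = σ y' ∘ₗ W x := by
    intro x y y' hy
    obtain ⟨v, rfl⟩ := hm₁ y
    have h1 := hWc x v (fun ω => UU (ι x) (x⁻¹ • ω) * a^[I (ι x) (x⁻¹ • ω)] (v (x⁻¹ • ω)) *
        (UU (ι x) (x⁻¹ • ω) : U)⁻¹) (fun ω => by rw [inv_smul_smul])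
    rw [h1]
    congr 2
    apply Subtype.ext
    rw [← hy]
    exact Subtype.ext (hconj x v)
  have hW' : ∀ (x : N) (y y' : (L ⊓ N : Subgroup T)), (x : T) * y * (x : T)⁻¹ = y' →
      W' x ∘ₗ σ' y = σ' y' ∘ₗ W' x := by
    intro x y y' hy
    obtain ⟨v, rfl⟩ := hm₂ y
    have h1 := hWc' x v (fun ω => UU (ι x) (x⁻¹ • ω) * ar^[I (ι x) (x⁻¹ • ω)] (v (x⁻¹ • ω)) *
        (UU (ι x) (x⁻¹ • ω))⁻¹) (fun ω => by rw [inv_smul_smul])
    rw [h1]
    congr 2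
    apply Subtype.ext
    rw [← hy]
    refine Subtype.ext ((congrArg m (funext fun ω => ?_)).trans (hconj x fun ω => (v ω : U)))
    rw [← aut_iter, ← har]
    rfl
  obtain ⟨κ, hκ1, hκ2⟩ := triple_iso s3b L N (hLn.subgroupOf T) hLN σ hσi σ' hσi' W W' hWi hWi'
    hW hW' (fun x y => ∏ ω, l x y ω (f ω)) hWm hWm' (fun e => ∏ ω, re e ω (f ω)) hc hc' w
  have nd1 : ndeg σ.character = ndeg θ := by
    rw [hσc]
    change ⌊(θ (eL 1)).re⌋₊ = _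
    rw [map_one]
    rfl
  have nd2 : ndeg σ'.character = ndeg θ' := by
    rw [hσc']
    change ⌊(θ' (eM 1)).re⌋₊ = _
    rw [map_one]
    rfl
  rw [nd1, hσc] at hκ1
  rw [nd2, hσc'] at hκ2
  have t1 : wo w (cod m.range.subtype T hETr) θ = wo w L.subtype fun x => θ (eL x) := by
    refine wo_congr w eL.symm (MulEquiv.refl T) _ _ (fun l => ?_) _ _ (fun l => ?_)
    · exact Subtype.ext rfl
    · simp
  let eT : T₀ ≃* N :=
    { toFun := fun x => ⟨⟨(x : B), (hTT₀ x).mp x.2⟩, Subgroup.mem_subgroupOf.mpr (x : B).2⟩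
      invFun := fun x => ⟨ι x, (hTT₀ _).mpr (x : T).2⟩
      left_inv := fun _ => rfl
      right_inv := fun _ => rfl
      map_mul' := fun _ _ => rfl }
  have t2 : wo w (cod (mC m U₀ B d.hmB).range.subtype T₀ hETr₀) θ' =
      wo w (Subgroup.inclusion (inf_le_right : L ⊓ N ≤ N)) fun x => θ' (eM x) := by
    refine wo_congr w eM.symm eT _ _ (fun l => ?_) _ _ (fun l => ?_)
    · exact Subtype.ext rfl
    · simp
  exact ⟨T.index, κ, by rw [e1, t1, hκ1], by rw [e2, t2, hκ2]⟩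

end

end Pool.Agent.Zk54.MQ
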