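import Pool.Agent.Zk54.MQ.M9
import Pool.Agent.Zk54.MQ.E5
import Pool.Agent.Zk54.MQ.E6
import Pool.Agent.Zk54.MQ.E4
import Pool.Agent.Zk54.MQ.E7
import Pool.Agent.Zk54.MQ.DefD

/-!
# The class of groups and the main induction: simple factors with a cyclic group of outer automorphisms
-/

set_option autoImplicit false
set_option linter.unusedSectionVars false
set_option linter.style.haveILetI false

open scoped BigOperators Classical

noncomputable section

namespace Pool.Agent.Zk54.MQ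

open Pool.Agent.K3h83.IN Pool.Agent.K3h83.PI
open Pool.Agent.Helper884 Pool.Agent.K3h3.KB Pool.Agent.K3h3.MK
open Pool.Agent.H254R3.IN (IsIrr mem_Irr)
open IC (Irr)

theorem Bad3.bad {p : ℕ} {𝔊 : (S : Type) → [Group S] → Prop} {Y : Type} [Group Y]
    (h : Bad3 p 𝔊 Y) : Bad p Y := by
  obtain ⟨M, h1, h2, h3, h4, -⟩ := h
  exact ⟨M, h1, h2, h3, h4⟩

/-- E8: the class of groups -/
theorem cls_Sec3 (p : ℕ) [hp : Fact p.Prime] (𝔊 : (S : Type) → [Group S] → Prop) :
    ClsP p (Sec3 p 𝔊) where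
  iso := by
    rintro G G' _ _ _ ⟨e⟩ h Y _ H f hi hf
    refine h Y (H.comap e.toMonoidHom) (f.comp (e.toMonoidHom.subgroupComap H)) ?_ ?_
    · rwa [Subgroup.index_comap_of_surjective _ e.surjective]
    · refine hf.comp ?_
      rintro ⟨y, hy⟩
      exact ⟨⟨e.symm y, by simpa using hy⟩, Subtype.ext (e.apply_symm_apply y)⟩
  sub := by
    intro G _ _ X hX h Y _ H f hi hf
    have e : H ≃* H.map X.subtype := H.equivMapOfInjective X.subtype X.subtype_injective
    refine h Y (H.map X.subtype) (f.comp e.symm.toMonoidHom) ?_ (hf.comp e.symm.surjective)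
    rw [Subgroup.index_map_subtype, hp.out.dvd_mul]
    exact fun h' => h'.elim hi hX
  quo := by
    intro G _ _ K _ h Y _ H f hi hf
    refine h Y (H.comap (QuotientGroup.mk' K)) (f.comp ((QuotientGroup.mk' K).subgroupComap H)) ?_ ?_
    · rwa [Subgroup.index_comap_of_surjective _ (QuotientGroup.mk'_surjective K)]
    · refine hf.comp ?_
      rintro ⟨y, hy⟩
      obtain ⟨g, rfl⟩ := QuotientGroup.mk'_surjective K y
      exact ⟨⟨g, hy⟩, rfl⟩
  ext := by
    intro G _ _ K _ hK _ h Y _ H f hi hf hb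
    have hs : Function.Surjective ((QuotientGroup.mk' K).subgroupMap H) :=
      MonoidHom.subgroupMap_surjective _ _
    have hker : ((QuotientGroup.mk' K).subgroupMap H).ker ≤ f.ker := by
      intro x hx
      have h1 : QuotientGroup.mk' K (x : G) = 1 := congrArg Subtype.val hx
      have h2 : (x : G) ∈ Subgroup.center G := hK ((QuotientGroup.eq_one_iff _).mp h1)
      have h3 : f x ∈ Subgroup.center Y := by
        rw [Subgroup.mem_center_iff]
        intro y
        obtain ⟨z, rfl⟩ := hf y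
        rw [← map_mul, ← map_mul]
        congr 1
        exact Subtype.ext (Subgroup.mem_center_iff.mp h2 z)
      rw [hb.bad.center, Subgroup.mem_bot] at h3
      exact h3
    refine h Y (H.map (QuotientGroup.mk' K)) (((QuotientGroup.mk' K).subgroupMap H).liftOfSurjective hs
      ⟨f, hker⟩) ?_ ?_ hb
    · exact fun h' => hi (h'.trans (Subgroup.index_map_dvd H (QuotientGroup.mk'_surjective K)))
    · intro y
      obtain ⟨z, rfl⟩ := hf y
      exact ⟨_, MonoidHom.liftOfRightInverse_comp_apply _ _ _ ⟨f, hker⟩ z⟩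

section

variable {p : ℕ} [hp : Fact p.Prime]

/-- a normalized noncentral `p`-subgroup: the subgroup is proper -/
theorem ne_top_of_red {G : Type} [Group G] [Finite G] {P : Sylow p G} (hP : Red2 P) {B R : Subgroup G}
    (hR : IsPGroup p R) (hRne : R ≠ ⊥) (hRn : B ≤ Subgroup.normalizer (R : Set G)) : B ≠ ⊤ := by
  intro h
  have hRnor : R.Normal := by
    rw [← Subgroup.normalizer_eq_top_iff, eq_top_iff, ← h]
    exact hRn
  have hRs : Group.IsSolvable R := by
    haveI : Group.IsNilpotent R := hR.isNilpotent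
    infer_instance
  have hRc := hP.rad R hRnor hRs
  obtain ⟨n, hn⟩ := IsPGroup.iff_card.mp hR
  have hn0 : n ≠ 0 := by
    rintro rfl
    rw [pow_zero] at hn
    exact hRne (Subgroup.card_eq_one.mp hn)
  apply hP.cop
  refine (dvd_trans ?_ (Subgroup.card_dvd_of_le hRc))
  rw [hn]
  exact dvd_pow_self p hn0

/-- the case of inner automorphisms -/
theorem inn_core {C : ∀ (G : Type) [Group G], Prop} (hC : ClsP p C) {G : Type} [Group G] [Finite G]
    (hG : C G) (P : Sylow p G) (hP : Red2 P) (M : Subgroup (G ⧸ Subgroup.center G)) (hM : M.Normal)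
    (hmin : ∀ L : Subgroup (G ⧸ Subgroup.center G), L.Normal → L ≠ ⊥ → M ≤ L)
    (hna : ∃ a ∈ M, ∃ b ∈ M, a * b ≠ b * a) (hinn : Inn (GoodS p) M)
    (hI : ∀ (Y : Type) [Group Y] [Finite Y], C Y →
      (Subgroup.center Y).index < (Subgroup.center G).index → Q1 p Y) :
    wt (cl p) G = wt (cl p) (NN P) := by
  obtain ⟨S, hSM, hMS, hsim, hin, hgood⟩ := hinn
  obtain ⟨U, _, _, Ω, _, _, _, m, X, hU, ⟨eS⟩, hW, hdvd⟩ :=
    exists_datum M S hM hmin hSM hMS hsim hna hin
  have hpZ : ¬ p ∣ Nat.card (Subgroup.center U) := fun h => hP.cop (h.trans hdvd)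
  by_cases hpU : p ∣ Nat.card U
  swap
  · refine case2 a_S1 a_S2 a_G5 hW hpU P (hP.sup _ hW.normal fun hcen => ?_)
    -- `S` would be trivial
    obtain ⟨ω⟩ := (inferInstance : Nonempty Ω)
    have hcomm : commutator U ≤ Subgroup.center U := by
      have key : ∀ u v : U, u * v * u⁻¹ * v⁻¹ ∈ Subgroup.center U := by
        intro u v
        have h1 : m (Pi.mulSingle ω (u * v * u⁻¹ * v⁻¹)) = 1 := by
          rw [Pi.mulSingle_mul, Pi.mulSingle_mul, Pi.mulSingle_mul,
            Pi.mulSingle_inv, Pi.mulSingle_inv, map_mul, map_mul, map_mul, map_inv, map_inv]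
          have h2 := Subgroup.mem_center_iff.mp (hcen ⟨Pi.mulSingle ω u, rfl⟩)
            (m (Pi.mulSingle ω v))
          rw [← h2]
          group
        have h4 := hW.ker (Pi.mulSingle ω (u * v * u⁻¹ * v⁻¹))
          (by rw [h1]; exact X.one_mem) ω
        rwa [Pi.mulSingle_eq_same] at h4
      rw [commutator_def, Subgroup.commutator_le]
      intro u _ v _
      exact key u v
    have htop : Subgroup.center U = ⊤ := by
      rw [eq_top_iff, ← hU]
      exact hcomm
    have hsub : Subsingleton (U ⧸ Subgroup.center U) := by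
      rw [htop]
      exact QuotientGroup.subsingleton_quotient_top
    have hSs : Subsingleton S := eS.symm.toEquiv.injective.subsingleton
    haveI := hsim.toNontrivial
    exact not_subsingleton S hSs
  let PU : Sylow p U := default
  have hle : Subgroup.center U ≤ NN PU := le_NN_of_center PU le_rfl
  obtain ⟨e, he1, he2⟩ := exists_e a_S13 PU hle fun nu hnu => hgood U hU hpZ ⟨eS⟩ PU hle nu hnu
  obtain ⟨P', R, hP', hR, hRn, hRne⟩ := sylow_part hW hpZ PU
  have hPB : (P' : Subgroup G) ≤ BB m (NN PU) X := Subgroup.le_normalizer.trans hP'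
  have hZB : Subgroup.center G ≤ BB m (NN PU) X := (le_NN_of_center P' le_rfl).trans hP'
  have hBt : BB m (NN PU) X ≠ ⊤ := ne_top_of_red hP hR (hRne hpU) hRn
  have e1 := compare (p := p) a_S1 a_S2 a_G5 hW hle e he1 he2 P' hP'
  rw [e1, hI _ (hC.sub G _ (idx P' hPB) hG) (index_center_lt hZB hBt) (P'.subtype hPB),
    wt_NN_sub P' hP']
  exact wt_NN (cl p) P' P

theorem conj_range_normal (U : Type) [Group U] : (MulAut.conj : U →* MulAut U).range.Normal := by
  constructor
  rintro _ ⟨x, rfl⟩ g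
  refine ⟨g x, ?_⟩
  ext v
  simp [MulAut.conj_apply, MulAut.mul_apply]

theorem cyc_of_quot {U S : Type} [Group U] [Finite U] [Group S] (hpZ : ¬ p ∣ Nat.card (Subgroup.center U))
    (e : U ⧸ Subgroup.center U ≃* S) (hS : ∀ Q : Sylow p S, IsCyclic Q) (Q : Sylow p U) :
    IsCyclic Q := by
  let f : Q →* S := (e.toMonoidHom.comp (QuotientGroup.mk' (Subgroup.center U))).comp
    (Q : Subgroup U).subtype
  have hf : Function.Injective f := by
    rw [injective_iff_map_eq_one]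
    intro x hx
    have h1 : (x : U) ∈ Subgroup.center U := by
      rw [← QuotientGroup.eq_one_iff]
      exact (map_eq_one_iff e e.injective).mp hx
    obtain ⟨n, hn⟩ := (IsPGroup.iff_orderOf (p := p)).mp Q.isPGroup' x
    have h2 : orderOf x ∣ Nat.card (Subgroup.center U) := by
      have h3 : orderOf (⟨(x : U), h1⟩ : Subgroup.center U) ∣ Nat.card (Subgroup.center U) :=
        orderOf_dvd_natCard _
      rw [← Subgroup.orderOf_coe] at h3
      rw [← Subgroup.orderOf_coe x]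
      exact h3
    rcases Nat.eq_zero_or_pos n with rfl | h0
    · rw [pow_zero, orderOf_eq_one_iff] at hn
      exact hn
    · exact absurd ((dvd_pow_self p h0.ne').trans (hn ▸ h2)) hpZ
  have hr : IsPGroup p f.range := by
    have h1 : IsPGroup p (⊤ : Subgroup Q) := Q.isPGroup'.to_subgroup ⊤
    have := h1.map f
    rwa [← MonoidHom.range_eq_map] at this
  obtain ⟨R, hR⟩ := hr.exists_le_sylow
  haveI := hS R
  exact isCyclic_of_injective ((Subgroup.inclusion hR).comp f.rangeRestrict)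
    ((Subgroup.inclusion_injective hR).comp
      (fun a b hab => hf (congrArg Subtype.val hab)))

open scoped Pointwise in
/-- an automorphism modulo inner automorphisms which preserves a Sylow subgroup -/
theorem exists_a1 {U : Type} [Group U] [Finite U] (PU : Sylow p U) (a : MulAut U) (b : ℕ)
    (hpb : ¬ p ∣ b) (haz : ∀ z ∈ Subgroup.center U, a z = z)
    (hab : ∃ u₁ : U, ∀ v, (a ^ b) v = u₁ * v * u₁⁻¹) :
    ∃ (a₁ : MulAut U) (b₁ : ℕ) (u₁ : U), ¬ p ∣ b₁ ∧ 0 < b₁ ∧ (∀ z ∈ Subgroup.center U, a₁ z = z) ∧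
      (∀ x, a₁ x ∈ PU ↔ x ∈ PU) ∧ (∀ v, (a₁ ^ b₁) v = u₁ * v * u₁⁻¹) ∧
      (∀ (k : ℕ) (w : U), (∀ v, (a₁ ^ k) v = w * v * w⁻¹) → b₁ ∣ k) ∧
      ∀ i : ℕ, ∃ w : U, ∀ v, (a ^ i) v = w * (a₁ ^ i) v * w⁻¹ := by
  haveI := conj_range_normal U
  obtain ⟨v, hv⟩ := MulAction.exists_smul_eq U (a • PU) PU
  obtain ⟨a₁, ha₁⟩ : ∃ a₁ : MulAut U, a₁ = MulAut.conj v * a := ⟨_, rfl⟩
  have ha₁v : ∀ x, a₁ x = v * a x * v⁻¹ := by
    intro x
    rw [ha₁]
    rfl
  have hmem : ∀ x, a₁ x ∈ PU ↔ x ∈ PU := by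
    intro x
    have h1 : a₁ x ∈ v • (a • PU) ↔ x ∈ PU := by
      change a₁ x ∈ ((v • (a • PU) : Sylow p U) : Subgroup U) ↔ x ∈ (PU : Subgroup U)
      rw [Sylow.coe_subgroup_smul, Subgroup.mem_pointwise_smul_iff_inv_smul_mem]
      have h2 : (MulAut.conj v)⁻¹ • a₁ x = a x := by
        rw [← map_inv, MulAut.smul_def, MulAut.conj_apply, ha₁v]
        group
      rw [h2]
      change a x ∈ a • (PU : Subgroup U) ↔ _
      rw [Subgroup.mem_pointwise_smul_iff_inv_smul_mem]
      have h3 : a⁻¹ • a x = x := by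
        rw [MulAut.smul_def]
        exact a.symm_apply_apply x
      rw [h3]
    rw [hv] at h1
    exact h1
  have hpow : ∀ i : ℕ, ∃ w : U, ∀ x, (a₁ ^ i) x = w * (a ^ i) x * w⁻¹ := by
    intro i
    induction i with
    | zero => exact ⟨1, fun x => by simp⟩
    | succ i ih =>
      obtain ⟨w, hw⟩ := ih
      refine ⟨v * a w, fun x => ?_⟩
      rw [pow_succ', MulAut.mul_apply, hw, ha₁v, pow_succ', MulAut.mul_apply, map_mul, map_mul, map_inv]
      group
  have hinn : ∀ k : ℕ, (∃ w : U, ∀ x, (a₁ ^ k) x = w * x * w⁻¹) ↔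
      orderOf (QuotientGroup.mk a₁ : MulAut U ⧸ (MulAut.conj : U →* MulAut U).range) ∣ k := by
    intro k
    rw [orderOf_dvd_iff_pow_eq_one, ← QuotientGroup.mk_pow, QuotientGroup.eq_one_iff]
    constructor
    · rintro ⟨w, hw⟩
      refine ⟨w, ?_⟩
      ext x
      rw [hw, MulAut.conj_apply]
    · rintro ⟨w, hw⟩
      exact ⟨w, fun x => by rw [← hw, MulAut.conj_apply]⟩
  obtain ⟨b₁, hb₁⟩ : ∃ b₁, b₁ = orderOf
    (QuotientGroup.mk a₁ : MulAut U ⧸ (MulAut.conj : U →* MulAut U).range) := ⟨_, rfl⟩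
  rw [← hb₁] at hinn
  have hdvd : b₁ ∣ b := by
    rw [← hinn]
    obtain ⟨u₁, hu₁⟩ := hab
    obtain ⟨w, hw⟩ := hpow b
    refine ⟨w * u₁, fun x => ?_⟩
    rw [hw, hu₁]
    group
  obtain ⟨u₁, hu₁⟩ := (hinn b₁).mpr dvd_rfl
  refine ⟨a₁, b₁, u₁, fun h => hpb (h.trans hdvd), ?_, ?_, hmem, hu₁, fun k w hw => (hinn k).mp ⟨w, hw⟩, ?_⟩
  · rcases Nat.eq_zero_or_pos b₁ with h | h
    · exfalso
      apply hpb
      rw [h] at hdvd
      rw [Nat.eq_zero_of_zero_dvd hdvd]
      exact dvd_zero p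
    · exact h
  · intro z hz
    rw [ha₁v, haz z hz, Subgroup.mem_center_iff.mp hz v, mul_inv_cancel_right]
  · intro i
    obtain ⟨w, hw⟩ := hpow i
    refine ⟨w⁻¹, fun x => ?_⟩
    rw [hw]
    group

/-- the case of a cyclic group of outer automorphisms -/
theorem cyc_core {C : ∀ (G : Type) [Group G], Prop} (hC : ClsP p C) {G : Type} [Group G] [Finite G]
    (hG : C G) (P : Sylow p G) (hP : Red2 P) (M : Subgroup (G ⧸ Subgroup.center G)) (hM : M.Normal)
    (hmin : ∀ L : Subgroup (G ⧸ Subgroup.center G), L.Normal → L ≠ ⊥ → M ≤ L)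
    (hna : ∃ a ∈ M, ∃ b ∈ M, a * b ≠ b * a) (hcy : Cyc p M)
    (hI : ∀ (Y : Type) [Group Y] [Finite Y], C Y →
      (Subgroup.center Y).index < (Subgroup.center G).index → Q1 p Y) :
    wt (cl p) G = wt (cl p) (NN P) := by
  obtain ⟨S, hSM, hMS, hsim, hpS, hQS, y₀, b, hy₀, hpb, hb, hin⟩ := hcy
  obtain ⟨U, _, _, Ω, _, _, _, m, α, a, hU, ⟨eS⟩, hW, hdvd, haz, hab, hα⟩ :=
    exists_datum2 M S hM hmin hSM hMS hsim hna y₀ b hy₀ hb hin
  have hpZ : ¬ p ∣ Nat.card (Subgroup.center U) := fun h => hP.cop (h.trans hdvd)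
  have hcyc : ∀ Q : Sylow p U, IsCyclic Q := cyc_of_quot hpZ eS hQS
  have hpU : p ∣ Nat.card U := by
    have h1 : Nat.card (U ⧸ Subgroup.center U) = Nat.card S := Nat.card_congr eS.toEquiv
    rw [← h1] at hpS
    exact hpS.trans (Subgroup.card_quotient_dvd_card _)
  let PU : Sylow p U := default
  have hle : Subgroup.center U ≤ NN PU := le_NN_of_center PU le_rfl
  obtain ⟨a₁, b₁, u₁, hpb₁, hb₁, haz₁, hPU, hu₁, hord, haa⟩ := exists_a1 PU a b hpb haz hab
  have hPUi : ∀ (i : ℕ) x, (a₁ ^ i) x ∈ PU ↔ x ∈ PU := by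
    intro i
    induction i with
    | zero => exact fun x => Iff.rfl
    | succ i ih =>
      intro x
      rw [pow_succ', MulAut.mul_apply, hPU, ih]
  have hnor : ∀ (i : ℕ) (u : U), (∀ x ∈ PU, u * (a₁ ^ i) x * u⁻¹ ∈ PU) → u ∈ NN PU := by
    intro i u hu
    refine Subgroup.mem_normalizer_fintype fun x hx => ?_
    have h1 : (a₁ ^ i) ((a₁ ^ i)⁻¹ x) = x := by
      rw [← MulAut.mul_apply, mul_inv_cancel, MulAut.one_apply]
    have h2 : (a₁ ^ i)⁻¹ x ∈ PU := by
      rw [← hPUi i, h1]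
      exact hx
    have h3 := hu _ h2
    rw [h1] at h3
    exact h3
  have hu₁N : u₁ ∈ NN PU := by
    refine hnor 0 u₁ fun x hx => ?_
    rw [pow_zero, MulAut.one_apply, ← hu₁, hPUi]
    exact hx
  have ha0 : ∀ u, u ∈ NN PU → a₁ u ∈ NN PU := by
    intro u hu
    refine hnor 1 _ fun x hx => ?_
    rw [pow_one, ← map_inv, ← map_mul, ← map_mul, hPU]
    exact (Subgroup.mem_normalizer_iff.mp hu x).mp hx
  obtain ⟨e, he1, he2, he3⟩ := exists_e_eqv hpZ hcyc PU hle a₁ b₁ hpb₁ ⟨u₁, hu₁⟩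
    (fun x hx => (hPU x).mpr hx) ha0 haz₁
  obtain ⟨P', R, hP', hR, hRne, hLB, hmB, hαB⟩ := sylow_part2 hW hpZ PU
  have hα' : ∀ g ∈ Subgroup.normalizer (R : Set G), ∀ ω, ∃ (i : ℕ), ∃ u ∈ NN PU,
      ∀ v, α g ω v = u * (a₁ ^ i) v * u⁻¹ := by
    intro g hg ω
    obtain ⟨i, u, hu⟩ := hα g ω
    obtain ⟨w, hw⟩ := haa i
    have h1 : ∀ v, α g ω v = (u * w) * (a₁ ^ i) v * (u * w)⁻¹ := by
      intro v
      rw [hu, hw]
      group
    refine ⟨i, u * w, hnor i _ fun x hx => ?_, h1⟩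
    rw [← h1]
    exact hαB g hg ω x hx
  have hPB : (P' : Subgroup G) ≤ Subgroup.normalizer (R : Set G) := Subgroup.le_normalizer.trans hP'
  have hZB : Subgroup.center G ≤ Subgroup.normalizer (R : Set G) :=
    (le_NN_of_center P' le_rfl).trans hP'
  have hBt : Subgroup.normalizer (R : Set G) ≠ ⊤ := ne_top_of_red hP hR (hRne hpU) le_rfl
  have e1 := compare2 (p := p) a_S1 a_S2 Pool.Agent.K3h18.IN.t_S3b hW (NN PU) hle
    (Subgroup.normalizer (R : Set G)) hLB hmB a₁ b₁ hb₁ u₁ hu₁N hu₁ hord ha0 haz₁ hα' e he1 he2 he3 P' hP'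
  rw [e1, hI _ (hC.sub G _ (idx P' hPB) hG) (index_center_lt hZB hBt) (P'.subtype hPB),
    wt_NN_sub P' hP']
  exact wt_NN (cl p) P' P

/-- E8: the equality for all groups of the class -/
theorem main_class3 {p : ℕ} [hp : Fact p.Prime] (G : Type) [Group G] [Finite G]
    (hG : Sec3 p (GoodS p) G) : Q1 p G := by
  refine main3 a_S1 a_S2 a_S3 a_S4 a_S4a a_S5 a_S6 a_S7 a_S8 a_S9 a_S12 a_S14 a_S15 a_S16 a_S17
    a_G1 a_G2 a_G3 a_G4 a_G5 (cls_Sec3 p (GoodS p)) (fun G _ _ hG P hP hI => ?_) G hG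
  by_cases hc : IsCyclic P
  swap
  · obtain ⟨M, hM, hmin, hna, hQ⟩ := bad_of_red P hP hc
    by_cases hinn : Inn (GoodS p) M
    · exact inn_core (cls_Sec3 p (GoodS p)) hG P hP M hM hmin hna hinn hI
    by_cases hcy : Cyc p M
    · exact cyc_core (cls_Sec3 p (GoodS p)) hG P hP M hM hmin hna hcy hI
    exfalso
    refine hG (G ⧸ Subgroup.center G) ⊤ ((QuotientGroup.mk' (Subgroup.center G)).comp
      Subgroup.topEquiv.toMonoidHom) ?_ ?_ ⟨M, hM, hmin, hna, hQ, hinn, hcy⟩
    · rw [Subgroup.index_top]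
      exact hp.out.one_lt.ne' ∘ Nat.dvd_one.mp
    · exact (QuotientGroup.mk'_surjective _).comp Subgroup.topEquiv.surjective
  have hdvd : p ∣ Nat.card G := by
    by_contra h
    exact hP.ne (NN_top_of_not_dvd P h)
  obtain ⟨Q, B, H, hPB, hQP, hB, hLC, hE1, hE2⟩ := a_C0 p G P hc hdvd
  have hZB : Subgroup.center G ≤ B := (le_NN_of_center P le_rfl).trans hPB
  have hBt : B ≠ ⊤ := by
    intro h
    -- `Q` would be normal, so central
    have hQn : Q.Normal := by
      rw [← Subgroup.normalizer_eq_top_iff, ← hB, h]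
    have hQc : Nat.card Q = p := by
      have h1 := hLC.cQ
      rw [← h1]
      refine Nat.card_congr (Subgroup.subgroupOfEquivOfLe ?_).toEquiv.symm
      exact hQP.trans (Subgroup.le_normalizer.trans hPB)
    have hQs : Group.IsSolvable Q := by
      have h1 : IsCyclic Q := isCyclic_of_prime_card hQc
      exact Group.isSolvable_of_comm fun x y => by
        letI := h1.commGroup
        exact mul_comm x y
    exact hP.cop (by
      have := Subgroup.card_dvd_of_le (hP.rad Q hQn hQs)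
      rwa [hQc] at this)
  rw [a_CN p B G _ _ H B.subtype hLC hE1, ← wt_NN_sub P hPB]
  exact hI B ((cls_Sec3 p (GoodS p)).sub G B (idx P (Subgroup.le_normalizer.trans hPB)) hG)
    (index_center_lt hZB hBt) _

end

end Pool.Agent.Zk54.MQ
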