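import Pool.Agent.Zk54.MQ.E9b

set_option autoImplicit false
set_option linter.unusedSectionVars false
set_option linter.style.haveILetI false

namespace Pool.Agent.Zk54.MQ

open Subgroup

/-- a quotient of a subgroup which factors through a smaller image -/
theorem e9_lift {A F Y : Type} [Group A] [Group F] [Group Y] (φ : A →* F) (ψ : A →* Y)
    (S : Subgroup Y) (hS : S ≤ ψ.range) (hk : ∀ c : A, ψ c ∈ S → φ c = 1 → ψ c = 1) :
    ∃ g : ((S.comap ψ).map φ : Subgroup F) →* S, Function.Surjective g := by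
  let α : (S.comap ψ : Subgroup A) →* ((S.comap ψ).map φ : Subgroup F) := φ.subgroupMap _
  have hα : Function.Surjective α := φ.subgroupMap_surjective _
  let β : (S.comap ψ : Subgroup A) →* S :=
    (ψ.comp (S.comap ψ).subtype).codRestrict S fun x => x.2
  have hβ : Function.Surjective β := by
    rintro ⟨s, hs⟩
    obtain ⟨c, rfl⟩ := hS hs
    exact ⟨⟨c, hs⟩, rfl⟩
  have hker : α.ker ≤ β.ker := by
    intro c hc
    rw [MonoidHom.mem_ker] at hc ⊢
    have h1 : φ c = 1 := congrArg Subtype.val hc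
    exact Subtype.ext (hk c c.2 h1)
  refine ⟨MonoidHom.liftOfSurjective α hα ⟨β, hker⟩, fun s => ?_⟩
  obtain ⟨c, rfl⟩ := hβ s
  exact ⟨α c, MonoidHom.liftOfRightInverse_comp_apply _ _ _ ⟨β, hker⟩ c⟩

/-- E9: extensions by groups with a series with factors solvable or with the property `TT` -/
theorem Sec3_ext {p : ℕ} [hp : Fact p.Prime] (𝔊 : (S : Type) → [Group S] → Prop) {G : Type} [Group G]
    [Finite G] (N : Subgroup G) [N.Normal] (hN : Ser (TT p) N) (hq : Sec3 p 𝔊 (G ⧸ N)) :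
    Sec3 p 𝔊 G := by
  intro Y _ H f hi hf hbad
  have hbad' := hbad
  haveI : Finite Y := Finite.of_surjective f hf
  obtain ⟨M, hM, hmin, hab, -, -, hCyc⟩ := hbad
  -- the part of `N`
  let K : Subgroup N := H.subgroupOf N
  have hKi : ¬ p ∣ K.index := M13_relIndex H N hi
  let ψ : K →* Y :=
    { toFun := fun k => f ⟨(k : N), k.2⟩
      map_one' := map_one f
      map_mul' := fun a b => by
        rw [← map_mul]
        rfl }
  have hψ : ∀ k : K, ψ k = f ⟨(k : N), k.2⟩ := fun k => rfl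
  have hr : ψ.range.Normal := by
    constructor
    rintro _ ⟨k, rfl⟩ y
    obtain ⟨g, rfl⟩ := hf y
    have h1 : (g : G) * (k : N) * (g : G)⁻¹ ∈ N := Normal.conj_mem inferInstance _ (k : N).2 _
    have h2 : (g : G) * (k : N) * (g : G)⁻¹ ∈ H := H.mul_mem (H.mul_mem g.2 k.2) (H.inv_mem g.2)
    refine ⟨⟨⟨_, h1⟩, h2⟩, ?_⟩
    rw [hψ, hψ, ← map_inv, ← map_mul, ← map_mul]
    rfl
  by_cases h0 : ψ.range = ⊥
  · -- `Y` is a section of `G / N`
    have hs : Function.Surjective ((QuotientGroup.mk' N).subgroupMap H) :=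
      MonoidHom.subgroupMap_surjective _ _
    have hker : ((QuotientGroup.mk' N).subgroupMap H).ker ≤ f.ker := by
      intro x hx
      have h1 : QuotientGroup.mk' N (x : G) = 1 := congrArg Subtype.val hx
      have h2 : (x : G) ∈ N := (QuotientGroup.eq_one_iff _).mp h1
      have h3 : ψ ⟨⟨x, h2⟩, x.2⟩ ∈ ψ.range := ⟨_, rfl⟩
      rw [h0, Subgroup.mem_bot] at h3
      exact h3
    refine hq Y (H.map (QuotientGroup.mk' N))
      (((QuotientGroup.mk' N).subgroupMap H).liftOfSurjective hs ⟨f, hker⟩) ?_ ?_ hbad'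
    · exact fun h' => hi (h'.trans (Subgroup.index_map_dvd H (QuotientGroup.mk'_surjective N)))
    · intro y
      obtain ⟨z, rfl⟩ := hf y
      exact ⟨_, MonoidHom.liftOfRightInverse_comp_apply _ _ _ ⟨f, hker⟩ z⟩
  have hMr : M ≤ ψ.range := hmin _ hr h0
  obtain ⟨S, hSM, hSn, hSs, a0, ha0, b0, hb0, hab0⟩ := e9_simple M hM hmin hab
  apply hCyc
  obtain ⟨n, Hs, hH0, hHn, hstep⟩ := hN
  -- indices
  have hidx : ∀ i ≤ n, ¬ p ∣ K.relIndex (Hs i) := by
    intro i hin
    induction hin using Nat.decreasingInduction with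
    | self => rw [hHn, relIndex_top_right]; exact hKi
    | of_succ i hi ih =>
      obtain ⟨hle, F, _, g, -, hk, -⟩ := hstep i hi
      haveI : ((Hs i).subgroupOf (Hs (i + 1))).Normal := by
        rw [← hk]
        infer_instance
      have h1 := M13_relIndex (K.subgroupOf (Hs (i + 1))) ((Hs i).subgroupOf (Hs (i + 1))) ih
      rwa [relIndex_subgroupOf hle] at h1
  -- the first subgroup of the series which contains `S`
  obtain ⟨i, hin, hi1, hi0⟩ : ∃ i < n, (∀ s ∈ S, ∃ k : K, (k : N) ∈ Hs (i + 1) ∧ ψ k = s) ∧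
      ¬ ∀ s ∈ S, ∃ k : K, (k : N) ∈ Hs i ∧ ψ k = s := by
    by_contra hcon
    push Not at hcon
    have h1 : ∀ j ≤ n, ∀ s ∈ S, ∃ k : K, (k : N) ∈ Hs j ∧ ψ k = s := by
      intro j hj
      induction hj using Nat.decreasingInduction with
      | self =>
        intro s hs
        obtain ⟨k, hk⟩ := hMr (hSM hs)
        exact ⟨k, by rw [hHn]; exact mem_top _, hk⟩
      | of_succ j hj ih => exact hcon j hj ih
    have h2 := h1 0 (Nat.zero_le _)
    apply hab0
    obtain ⟨k, hk, hk'⟩ := h2 a0 ha0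
    rw [hH0, mem_bot] at hk
    have h3 : k = 1 := Subtype.ext hk
    rw [← hk', h3, map_one, one_mul, mul_one]
  obtain ⟨hle, F, iF, φ, hφs, hφk, hF⟩ := hstep i hin
  have hφ1 : ∀ x : Hs (i + 1), φ x = 1 ↔ (x : N) ∈ Hs i := by
    intro x
    rw [← MonoidHom.mem_ker, hφk, mem_subgroupOf]
  let A : Subgroup (Hs (i + 1)) := K.subgroupOf (Hs (i + 1))
  let φA : A →* F := φ.comp A.subtype
  let ψA : A →* Y :=
    { toFun := fun c => ψ ⟨((c : Hs (i + 1)) : N), c.2⟩
      map_one' := map_one ψ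
      map_mul' := fun a b => by
        rw [← map_mul]
        rfl }
  have hψA : ∀ c : A, ψA c = ψ ⟨((c : Hs (i + 1)) : N), c.2⟩ := fun c => rfl
  have hSr : S ≤ ψA.range := by
    intro s hs
    obtain ⟨k, hk, hk'⟩ := hi1 s hs
    exact ⟨⟨⟨k, hk⟩, k.2⟩, hk'⟩
  have hφA1 : ∀ c : A, φA c = 1 ↔ ((c : Hs (i + 1)) : N) ∈ Hs i := fun c => hφ1 c
  haveI hSnt : Nontrivial S := hSs.toNontrivial
  -- `S` meets the image of `Hs i` trivially
  have hSi : ∀ c : A, ψA c ∈ S → φA c = 1 → ψA c = 1 := by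
    let B : Subgroup Y := (φA.ker).map ψA
    have hBn : ((B ⊓ S).subgroupOf S).Normal := by
      constructor
      rintro ⟨x, hx⟩ hxB ⟨s, hs⟩
      rw [mem_subgroupOf] at hxB ⊢
      obtain ⟨⟨c, hc, hcx⟩, -⟩ := hxB
      obtain ⟨d, hd⟩ := hSr hs
      refine ⟨⟨d * c * d⁻¹, ?_, ?_⟩, S.mul_mem (S.mul_mem hs hx) (S.inv_mem hs)⟩
      · rw [SetLike.mem_coe, MonoidHom.mem_ker] at hc ⊢
        rw [map_mul, map_mul, hc, mul_one, ← map_mul, mul_inv_cancel, map_one]
      · rw [map_mul, map_mul, map_inv, hcx, hd]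
        rfl
    rcases hBn.eq_bot_or_eq_top with h1 | h1
    · intro c hc hc1
      have h2 : (⟨ψA c, hc⟩ : S) ∈ (B ⊓ S).subgroupOf S := by
        rw [mem_subgroupOf]
        exact ⟨⟨c, hc1, rfl⟩, hc⟩
      rw [h1, mem_bot] at h2
      exact congrArg Subtype.val h2
    · exfalso
      apply hi0
      intro s hs
      have h2 : (⟨s, hs⟩ : S) ∈ (B ⊓ S).subgroupOf S := by rw [h1]; exact mem_top _
      rw [mem_subgroupOf] at h2
      obtain ⟨⟨c, hc, hcx⟩, -⟩ := h2
      exact ⟨⟨((c : Hs (i + 1)) : N), c.2⟩, (hφA1 c).1 hc, hcx⟩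
  obtain ⟨g, hg⟩ := e9_lift φA ψA S hSr hSi
  have hnotsol : ¬ Group.IsSolvable S := by
    intro hsol
    have h1 := (IsSimpleGroup.comm_iff_isSolvable (G := S)).2 hsol
    exact hab0 (congrArg Subtype.val (h1 ⟨a0, ha0⟩ ⟨b0, hb0⟩))
  have hidxA : ¬ p ∣ φA.range.index := by
    have h1 : φA.range = A.map φ := by
      rw [MonoidHom.range_comp, range_subtype]
    rw [h1]
    exact fun h' => hidx (i + 1) hin (h'.trans (index_map_dvd A hφs))
  have hcase : ¬ Group.IsSolvable φA.range := by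
    intro hsol
    apply hnotsol
    haveI := hsol
    have h1 : (S.comap ψA).map φA ≤ φA.range := map_le_range _ _
    haveI : Group.IsSolvable ((S.comap ψA).map φA : Subgroup F) :=
      Group.isSolvable_of_isSolvable_injective (Subgroup.inclusion_injective h1)
    exact Group.isSolvable_of_surjective hg
  rcases hF with hF | hF
  · exfalso
    apply hcase
    haveI := hF
    exact Group.isSolvable_of_isSolvable_injective φA.range.subtype_injective
  have htop : φA.range = ⊤ := (hF.2.2.2.2.1 φA.range hidxA).resolve_right hcase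
  have hsurj : Function.Surjective φA := MonoidHom.range_eq_top.1 htop
  haveI hFs : IsSimpleGroup F := hF.1
  have hne : ∀ L : Subgroup Y, S ≤ L → (L.comap ψA).map φA ≠ ⊥ := by
    intro L hSL h1
    apply hi0
    intro s hs
    obtain ⟨c, hc⟩ := hSr hs
    have h2 : φA c ∈ (L.comap ψA).map φA := ⟨c, by
      show ψA c ∈ L
      rw [hc]
      exact hSL hs, rfl⟩
    rw [h1, mem_bot] at h2
    exact ⟨⟨((c : Hs (i + 1)) : N), c.2⟩, (hφA1 c).1 h2, hc⟩
  have hMtop : (M.comap ψA).map φA = ⊤ := by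
    haveI : (M.comap ψA).Normal := hM.comap ψA
    have h1 : ((M.comap ψA).map φA).Normal := Normal.map inferInstance φA hsurj
    exact h1.eq_bot_or_eq_top.resolve_left (hne M hSM)
  have hStop : (S.comap ψA).map φA = ⊤ := by
    have h1 : ((S.comap ψA).map φA).Normal := by
      constructor
      rintro _ ⟨c, hc, rfl⟩ t
      have h2 : t ∈ (M.comap ψA).map φA := by rw [hMtop]; exact mem_top _
      obtain ⟨m, hm, rfl⟩ := h2
      refine ⟨m * c * m⁻¹, ?_, by rw [map_mul, map_mul, map_inv]⟩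
      show ψA (m * c * m⁻¹) ∈ S
      rw [map_mul, map_mul, map_inv]
      exact hSn _ hm _ hc
    exact h1.eq_bot_or_eq_top.resolve_left (hne S le_rfl)
  -- the isomorphism
  obtain ⟨g', hg'⟩ : ∃ g' : F →* S, Function.Surjective g' := by
    refine ⟨g.comp ((MulEquiv.subgroupCongr hStop).symm.toMonoidHom.comp
      (Subgroup.topEquiv (G := F)).symm.toMonoidHom), ?_⟩
    exact hg.comp ((MulEquiv.subgroupCongr hStop).symm.surjective.comp
      (Subgroup.topEquiv (G := F)).symm.surjective)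
  have hinj : Function.Injective g' := by
    rw [← MonoidHom.ker_eq_bot_iff]
    refine (g'.normal_ker.eq_bot_or_eq_top).resolve_right fun ht => ?_
    obtain ⟨x, hx⟩ := exists_ne (1 : S)
    obtain ⟨y, rfl⟩ := hg' x
    apply hx
    have : y ∈ g'.ker := by rw [ht]; exact mem_top _
    exact this
  exact e9_cyc M S hSM hSn hSs hF (MulEquiv.ofBijective g' ⟨hinj, hg'⟩)

end Pool.Agent.Zk54.MQ
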