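import Pool.Agent.Zk54.MQ.DefD
import Pool.Agent.Zk54.MQ.M13

set_option autoImplicit false
set_option linter.unusedSectionVars false
set_option linter.style.haveILetI false

namespace Pool.Agent.Zk54.MQ

open Subgroup

/-- the conjugate subgroup -/
def e9c {Y : Type} [Group Y] (S : Subgroup Y) (y : Y) : Subgroup Y :=
  S.map (MulAut.conj y).toMonoidHom

theorem mem_e9c {Y : Type} [Group Y] {S : Subgroup Y} {y x : Y} :
    x ∈ e9c S y ↔ ∃ s ∈ S, y * s * y⁻¹ = x := Iff.rfl

/-- a minimal normal subgroup of the unique minimal normal subgroup is simple -/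
theorem e9_simple {Y : Type} [Group Y] [Finite Y] (M : Subgroup Y) (hM : M.Normal)
    (hmin : ∀ L : Subgroup Y, L.Normal → L ≠ ⊥ → M ≤ L)
    (hab : ∃ a ∈ M, ∃ b ∈ M, a * b ≠ b * a) :
    ∃ S : Subgroup Y, S ≤ M ∧ (∀ m ∈ M, ∀ s ∈ S, m * s * m⁻¹ ∈ S) ∧ IsSimpleGroup S ∧
      (∃ a ∈ S, ∃ b ∈ S, a * b ≠ b * a) := by
  obtain ⟨a0, ha0, b0, hb0, hab0⟩ := hab
  let X : Set (Subgroup Y) := {L | L ≤ M ∧ L ≠ ⊥ ∧ ∀ m ∈ M, ∀ s ∈ L, m * s * m⁻¹ ∈ L}
  have hMne : M ≠ ⊥ := by
    rintro rfl
    rw [mem_bot] at ha0 hb0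
    exact hab0 (by rw [ha0, hb0])
  obtain ⟨S, hSX, hSmin⟩ := (Set.toFinite X).exists_minimal
    ⟨M, le_rfl, hMne, fun m hm s hs => M.mul_mem (M.mul_mem hm hs) (M.inv_mem hm)⟩
  obtain ⟨hSM, hSne, hSn⟩ := hSX
  -- conjugates
  have hcM : ∀ y, e9c S y ≤ M := by
    rintro y _ ⟨s, hs, rfl⟩
    exact hM.conj_mem _ (hSM hs) y
  have hcn : ∀ y, ∀ m ∈ M, ∀ s ∈ e9c S y, m * s * m⁻¹ ∈ e9c S y := by
    intro y m hm x hx
    obtain ⟨s, hs, rfl⟩ := mem_e9c.1 hx
    have h1 : y⁻¹ * m * y ∈ M := by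
      have := hM.conj_mem m hm y⁻¹
      rwa [inv_inv] at this
    refine mem_e9c.2 ⟨_, hSn _ h1 s hs, ?_⟩
    group
  have hcomm : ∀ y, e9c S y ≠ S → ∀ x ∈ e9c S y, ∀ s ∈ S, x * s = s * x := by
    intro y hy x hx s hs
    have h1 : S ⊓ e9c S y = ⊥ := by
      by_contra h0
      apply hy
      have h2 : S ≤ S ⊓ e9c S y := hSmin ⟨inf_le_left.trans hSM, h0, fun m hm s hs =>
        ⟨hSn m hm s hs.1, hcn y m hm s hs.2⟩⟩ inf_le_left
      have h3 : S ≤ e9c S y := h2.trans inf_le_right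
      have h4 : Nat.card (e9c S y) = Nat.card S :=
        Nat.card_congr (S.equivMapOfInjective _ (MulAut.conj y).injective).toEquiv.symm
      exact (Subgroup.eq_of_le_of_card_ge h3 h4.le).symm
    have h2 : x * s * x⁻¹ * s⁻¹ ∈ S ⊓ e9c S y := by
      refine ⟨S.mul_mem (hSn x (hcM y hx) s hs) (S.inv_mem hs), ?_⟩
      have h3 := hcn y s (hSM hs) x⁻¹ ((e9c S y).inv_mem hx)
      have h4 := (e9c S y).mul_mem hx h3
      have e : x * (s * x⁻¹ * s⁻¹) = x * s * x⁻¹ * s⁻¹ := by group
      rwa [e] at h4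
    rw [h1, mem_bot, mul_inv_eq_one, mul_inv_eq_iff_eq_mul] at h2
    exact h2
  -- `M` is generated by the conjugates
  have hgen : ∀ R : Subgroup Y, (∀ y, e9c S y ≤ R) → M ≤ R := by
    intro R hR
    have h1 : M ≤ normalClosure (S : Set Y) := by
      refine hmin _ inferInstance fun h0 => hSne ?_
      rw [eq_bot_iff, ← h0]
      exact le_normalClosure
    refine h1.trans ?_
    rw [normalClosure, closure_le]
    intro x hx
    rw [Group.mem_conjugatesOfSet_iff] at hx
    obtain ⟨s, hs, hsx⟩ := hx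
    obtain ⟨c, rfl⟩ := isConj_iff.1 hsx
    exact hR c (mem_e9c.2 ⟨s, hs, rfl⟩)
  -- a subgroup normalized by `S` is normalized by `M`
  have hT : ∀ T : Subgroup Y, T ≤ S → (∀ s ∈ S, ∀ t ∈ T, s * t * s⁻¹ ∈ T) →
      ∀ m ∈ M, ∀ t ∈ T, m * t * m⁻¹ ∈ T := by
    intro T hTS hTn
    have h1 : M ≤ normalizer (T : Set Y) := by
      apply hgen
      intro y x hx
      by_cases hy : e9c S y = S
      · rw [hy] at hx
        rw [mem_normalizer_iff]
        intro t
        refine ⟨fun ht => hTn x hx t ht, fun ht => ?_⟩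
        have h2 := hTn x⁻¹ (S.inv_mem hx) _ ht
        have e : x⁻¹ * (x * t * x⁻¹) * x⁻¹⁻¹ = t := by group
        rwa [e] at h2
      · rw [mem_normalizer_iff]
        intro t
        constructor
        · intro ht
          have h2 := hcomm y hy x hx t (hTS ht)
          rw [h2, mul_inv_cancel_right]
          exact ht
        · intro ht
          have h2 := hcomm y hy x⁻¹ ((e9c S y).inv_mem hx) _ (hTS ht)
          have e : t = x * t * x⁻¹ := by
            have h3 : x⁻¹ * (x * t * x⁻¹) * x = x * t * x⁻¹ := by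
              rw [h2]
              group
            calc t = x⁻¹ * (x * t * x⁻¹) * x := by group
              _ = _ := h3
          rw [e]
          exact ht
    intro m hm t ht
    exact (mem_normalizer_iff.1 (h1 hm) t).1 ht
  refine ⟨S, hSM, hSn, ?_, ?_⟩
  · haveI : Nontrivial S := (Subgroup.nontrivial_iff_ne_bot S).mpr hSne
    refine ⟨fun L hL => ?_⟩
    by_cases h0 : L = ⊥
    · exact Or.inl h0
    · right
      have hLS : L.map S.subtype ≤ S := by
        rintro _ ⟨l, _, rfl⟩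
        exact l.2
      have h1 : S ≤ L.map S.subtype := by
        refine hSmin ⟨hLS.trans hSM, ?_, ?_⟩ hLS
        · intro h2
          apply h0
          rw [Subgroup.map_eq_bot_iff_of_injective _ S.subtype_injective] at h2
          exact h2
        · apply hT _ hLS
          rintro s hs _ ⟨l, hl, rfl⟩
          exact ⟨(⟨s, hs⟩ : S) * l * (⟨s, hs⟩ : S)⁻¹, hL.conj_mem l hl _, rfl⟩
      rw [eq_top_iff]
      intro x _
      obtain ⟨l, hl, hlx⟩ := h1 x.2
      have : l = x := Subtype.ext hlx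
      rwa [← this]
  · by_contra hcon
    push Not at hcon
    have h1 : ∀ s ∈ S, M ≤ centralizer {s} := by
      intro s hs
      apply hgen
      intro y x hx
      rw [mem_centralizer_singleton_iff]
      by_cases hy : e9c S y = S
      · rw [hy] at hx
        exact hcon x hx s hs
      · exact hcomm y hy x hx s hs
    have h2 : S ≤ centralizer (M : Set Y) := by
      intro s hs
      rw [mem_centralizer_iff]
      intro m hm
      have := h1 s hs hm
      rw [mem_centralizer_singleton_iff] at this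
      exact this
    have h3 : M ≤ centralizer (M : Set Y) := by
      refine hmin _ inferInstance fun h0 => hSne ?_
      rw [eq_bot_iff, ← h0]
      exact h2
    exact hab0 ((mem_centralizer_iff.1 (h3 hb0)) a0 ha0)

end Pool.Agent.Zk54.MQ
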