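import Pool.Agent.Zk54.MQ.M5b
import Pool.Agent.Zk54.MQ.M7
import Pool.Agent.Zk54.MQ.M14

set_option autoImplicit false
set_option linter.unusedSectionVars false
set_option linter.style.haveILetI false

open scoped BigOperators Classical

noncomputable section

namespace Pool.Agent.Zk54.MQ

open Pool.Agent.Helper884 Pool.Agent.H254R3.IN Pool.Agent.Q288.MB
open Pool.Agent.K3h3.KB Pool.Agent.K3h3.MK
open IC (Irr)
open Pool.Agent.K3h83.IN (S1 S2 G5)

/-- the permutation action on the functions -/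
def pAct (Ω A X : Type) [Group A] [Group X] [MulAction X Ω] : X →* MulAut (Ω → A) where
  toFun x :=
    { toFun := fun u ω => u (x⁻¹ • ω)
      invFun := fun u ω => u (x • ω)
      left_inv := fun u => by funext ω; simp
      right_inv := fun u => by funext ω; simp
      map_mul' := fun _ _ => rfl }
  map_one' := by ext u ω; simp
  map_mul' x y := by ext u ω; simp [mul_smul]

/-- the wreath product -/
abbrev WrX (Ω A X : Type) [Group A] [Group X] [MulAction X Ω] : Type := (Ω → A) ⋊[pAct Ω A X] X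

instance (Ω A X : Type) [Group A] [Group X] [MulAction X Ω] [Finite Ω] [Finite A] [Finite X] :
    Finite (WrX Ω A X) := Finite.of_injective (fun g => (g.left, g.right)) fun a b h => by
  have h1 := congrArg Prod.fst h
  have h2 := congrArg Prod.snd h
  exact SemidirectProduct.ext h1 h2

/-- equal weighted numbers give a bijection -/
theorem wt_bij {p : ℕ} [hp : Fact p.Prime] {A B : Type} [Group A] [Finite A] [Group B] [Finite B]
    (h : wt (cl p) A = wt (cl p) B) :
    ∃ e : {χ : A → ℂ // IsIrr χ ∧ (ndeg χ : ZMod p) ≠ 0} ≃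
        {χ : B → ℂ // IsIrr χ ∧ (ndeg χ : ZMod p) ≠ 0},
      ∀ χ, (ndeg χ.1 : ZMod p) ^ 2 = (ndeg (e χ).1 : ZMod p) ^ 2 := by
  have key : ∀ v : (ZMod p)ˣ, Nonempty ({χ : Pool.Agent.K3h3.MK.X p A // kap p χ = v} ≃
      {χ : Pool.Agent.K3h3.MK.X p B // kap p χ = v}) := by
    intro v
    have h1 := coeff_wt p A v
    rw [h, coeff_wt p B v] at h1
    have h3 : Nat.card {χ : Pool.Agent.K3h3.MK.X p A // kap p χ = v} =
        Nat.card {χ : Pool.Agent.K3h3.MK.X p B // kap p χ = v} := by exact_mod_cast h1.symm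
    exact Finite.card_eq.mp h3
  let E : ∀ v : (ZMod p)ˣ, {χ : Pool.Agent.K3h3.MK.X p A // kap p χ = v} ≃
      {χ : Pool.Agent.K3h3.MK.X p B // kap p χ = v} := fun v => Classical.choice (key v)
  refine ⟨(Equiv.sigmaFiberEquiv (fun χ : Pool.Agent.K3h3.MK.X p A => kap p χ)).symm.trans
    ((Equiv.sigmaCongrRight E).trans
      (Equiv.sigmaFiberEquiv (fun χ : Pool.Agent.K3h3.MK.X p B => kap p χ))), ?_⟩
  intro χ
  have h3 : kap p (E (kap p χ) ⟨χ, rfl⟩).1 = kap p χ := (E (kap p χ) ⟨χ, rfl⟩).2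
  have h4 := congrArg Units.val h3
  exact h4.symm

/-- the weighted number of the Sylow normalizer for isomorphic groups -/
theorem wt_NN_iso {p : ℕ} [hp : Fact p.Prime] {G H : Type} [Group G] [Finite G] [Group H]
    [Finite H] (E : G ≃* H) (P : Sylow p G) (Q : Sylow p H) :
    wt (cl p) (Pool.Agent.K3h3.MK.NN P) = wt (cl p) (Pool.Agent.K3h3.MK.NN Q) := by
  have hr : (Q : Subgroup H) ≤ E.toMonoidHom.range := by
    intro y _
    exact ⟨E.symm y, E.apply_symm_apply y⟩
  let P' : Sylow p G := Q.comapOfInjective E.toMonoidHom E.injective hr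
  rw [wt_NN (cl p) P P']
  have hm : ∀ x, x ∈ P' ↔ E x ∈ Q := fun x => Iff.rfl
  have hn : ∀ x, x ∈ Pool.Agent.K3h3.MK.NN P' ↔ E x ∈ Pool.Agent.K3h3.MK.NN Q := by
    intro x
    rw [Subgroup.mem_normalizer_iff, Subgroup.mem_normalizer_iff]
    constructor
    · intro h y
      have h1 := h (E.symm y)
      have h2 : E.symm y ∈ P' ↔ x * E.symm y * x⁻¹ ∈ P' := h1
      rw [hm, hm, map_mul, map_mul, map_inv, E.apply_symm_apply] at h2
      exact h2
    · intro h y
      have h1 : E y ∈ Q ↔ E x * E y * (E x)⁻¹ ∈ Q := h (E y)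
      show y ∈ P' ↔ x * y * x⁻¹ ∈ P'
      rw [hm, hm, map_mul, map_mul, map_inv]
      exact h1
  refine wt_congr (cl p)
    { toFun := fun x => ⟨E x.1, (hn x.1).mp x.2⟩
      invFun := fun y => ⟨E.symm y.1, (hn (E.symm y.1)).mpr (by rw [E.apply_symm_apply]; exact y.2)⟩
      left_inv := fun x => Subtype.ext (E.symm_apply_apply x.1)
      right_inv := fun y => Subtype.ext (E.apply_symm_apply y.1)
      map_mul' := fun x y => Subtype.ext (map_mul E x.1 y.1) }

section wrx

variable (Ω A X : Type) [Group A] [Group X] [MulAction X Ω]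

/-- the action of the wreath product on `Ω` -/
instance wrAct : MulAction (WrX Ω A X) Ω :=
  MulAction.compHom Ω (SemidirectProduct.rightHom : WrX Ω A X →* X)

theorem wr_smul (g : WrX Ω A X) (ω : Ω) : g • ω = g.right • ω := rfl

theorem wr_WD : WD (G := WrX Ω A X) (SemidirectProduct.inl : (Ω → A) →* WrX Ω A X) ⊥
    (SemidirectProduct.inr : X →* WrX Ω A X).range where
  Cc := bot_le
  eqv := by
    rintro _ ⟨y, rfl⟩ u
    rw [← map_inv, ← SemidirectProduct.inl_aut]
    rfl
  triv := by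
    intro u ω
    rw [wr_smul]
    exact one_smul X ω
  ker := by
    rintro u ⟨y, hy⟩ ω
    have h1 := congrArg SemidirectProduct.left hy
    rw [Subgroup.mem_bot]
    have h2 : (1 : Ω → A) = u := h1
    rw [← h2]
    rfl
  cen := by
    intro u hu
    have h1 : u = 1 := by
      funext ω
      exact Subgroup.mem_bot.mp (hu ω)
    rw [h1, map_one]
    exact Subgroup.one_mem _
  sup := by
    rw [eq_top_iff]
    intro g _
    rw [← SemidirectProduct.inl_left_mul_inr_right g]
    exact Subgroup.mul_mem_sup ⟨_, rfl⟩ ⟨_, rfl⟩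

/-- the wreath product of a subgroup -/
def wrSub (U₀ : Subgroup A) : WrX Ω U₀ X →* WrX Ω A X where
  toFun g := ⟨fun ω => (g.left ω : A), g.right⟩
  map_one' := rfl
  map_mul' _ _ := rfl

theorem wrSub_inj (U₀ : Subgroup A) : Function.Injective (wrSub Ω A X U₀) := by
  intro a b h
  have h1 := congrArg SemidirectProduct.left h
  have h2 := congrArg SemidirectProduct.right h
  refine SemidirectProduct.ext ?_ h2
  funext ω
  exact Subtype.ext (congrFun h1 ω)

theorem wrSub_range (U₀ : Subgroup A) : (wrSub Ω A X U₀).range =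
    BB (SemidirectProduct.inl : (Ω → A) →* WrX Ω A X) U₀
      (SemidirectProduct.inr : X →* WrX Ω A X).range := by
  apply le_antisymm
  · rintro _ ⟨g, rfl⟩
    rw [← SemidirectProduct.inl_left_mul_inr_right (wrSub Ω A X U₀ g)]
    exact Subgroup.mul_mem_sup ⟨g.left, rfl⟩ ⟨_, rfl⟩
  · rw [sup_le_iff]
    constructor
    · rintro _ ⟨u, rfl⟩
      exact ⟨SemidirectProduct.inl u, rfl⟩
    · rintro _ ⟨x, rfl⟩
      exact ⟨SemidirectProduct.inr x, rfl⟩

/-- the isomorphism with the subgroup `BB` -/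
def wrIso (U₀ : Subgroup A) : WrX Ω U₀ X ≃*
    BB (SemidirectProduct.inl : (Ω → A) →* WrX Ω A X) U₀
      (SemidirectProduct.inr : X →* WrX Ω A X).range :=
  (MonoidHom.ofInjective (wrSub_inj Ω A X U₀)).trans
    (MulEquiv.subgroupCongr (wrSub_range Ω A X U₀))

end wrx

/-- Q1 for `A` reduces Q1 for the wreath product to the wreath product of the Sylow normalizer -/
theorem wr_iff (s1 : S1) (s2 : S2) (g5 : G5) {p : ℕ} [hp : Fact p.Prime] {Ω A X : Type} [Group A]
    [Finite A] [Group X] [Finite X] [Finite Ω] [Nonempty Ω] [MulAction X Ω] (P : Sylow p A)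
    (hA : wt (cl p) A = wt (cl p) (Pool.Agent.K3h3.MK.NN P)) (R : Sylow p (WrX Ω A X))
    (R' : Sylow p (WrX Ω (Pool.Agent.K3h3.MK.NN P) X)) :
    wt (cl p) (WrX Ω A X) = wt (cl p) (Pool.Agent.K3h3.MK.NN R) ↔
      wt (cl p) (WrX Ω (Pool.Agent.K3h3.MK.NN P) X) = wt (cl p) (Pool.Agent.K3h3.MK.NN R') := by
  haveI := Fintype.ofFinite Ω
  have h := wr_WD Ω A X
  have hC : ¬ p ∣ Nat.card (⊥ : Subgroup A) := by
    rw [Subgroup.card_bot]
    exact hp.out.one_lt.ne' ∘ Nat.dvd_one.mp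
  obtain ⟨P', R₀, hP', -, -, -⟩ := sylow_part h hC P
  obtain ⟨e, he⟩ := wt_bij hA
  have e1 := compare s1 s2 g5 h (U₀ := Pool.Agent.K3h3.MK.NN P) bot_le e he
    (fun χ c hc => by
      have h1 : c = 1 := Subgroup.mem_bot.mp hc
      subst h1
      have h2 : χ.1 1 ≠ 0 := one_ne χ.2.1
      have h3 : (e χ).1 1 ≠ 0 := one_ne (e χ).2.1
      rw [div_self h2]
      exact (div_self h3).symm) P' hP'
  have hPB : (P' : Subgroup (WrX Ω A X)) ≤ BB (SemidirectProduct.inl : (Ω → A) →* WrX Ω A X)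
      (Pool.Agent.K3h3.MK.NN P) (SemidirectProduct.inr : X →* WrX Ω A X).range :=
    Subgroup.le_normalizer.trans hP'
  have hm := Pool.Agent.K3h83.IN.mem_NN_subtype P' hPB
  have e2 : wt (cl p) (Pool.Agent.K3h3.MK.NN (P'.subtype hPB)) =
      wt (cl p) (Pool.Agent.K3h3.MK.NN P') := by
    refine wt_congr (cl p) ⟨⟨fun x => ⟨x.1.1, (hm x.1).mp x.2⟩,
      fun x => ⟨⟨x.1, hP' x.2⟩, (hm ⟨x.1, hP' x.2⟩).mpr x.2⟩, fun _ => rfl, fun _ => rfl⟩,
      fun _ _ => rfl⟩
  rw [e1, wt_NN (cl p) R P', ← e2, wt_congr (cl p) (wrIso Ω A X (Pool.Agent.K3h3.MK.NN P)),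
    wt_NN_iso (wrIso Ω A X (Pool.Agent.K3h3.MK.NN P)) R' (P'.subtype hPB)]

theorem Sec2_iso {p : ℕ} {𝔊 : (S : Type) → [Group S] → Prop} {G G' : Type} [Group G] [Group G']
    (e : G ≃* G') (h : Sec2 p 𝔊 G) : Sec2 p 𝔊 G' := by
  intro Y _ H f hi hf
  refine h Y (H.comap e.toMonoidHom) (f.comp (e.toMonoidHom.subgroupComap H)) ?_ ?_
  · rwa [Subgroup.index_comap_of_surjective _ e.surjective]
  · refine hf.comp ?_
    rintro ⟨y, hy⟩
    exact ⟨⟨e.symm y, by simpa using hy⟩, Subtype.ext (e.apply_symm_apply y)⟩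

theorem solv_pi (Ω A : Type) [Finite Ω] [Group A] (hA : Group.IsSolvable A) :
    Group.IsSolvable (Ω → A) := by
  obtain ⟨n, hn⟩ := hA.solvable
  refine ⟨n, ?_⟩
  rw [eq_bot_iff]
  intro u hu
  rw [Subgroup.mem_bot]
  funext ω
  have h1 := map_derivedSeries_le_derivedSeries (Pi.evalMonoidHom (fun _ : Ω => A) ω) n
  have h2 := h1 ⟨u, hu, rfl⟩
  rw [hn, Subgroup.mem_bot] at h2
  exact h2

/-- wreath products of solvable groups with groups without obstructions -/
theorem wr_solv {p : ℕ} [hp : Fact p.Prime] (𝔊 : (S : Type) → [Group S] → Prop) {Ω A X : Type}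
    [Group A] [Finite A] [Group X] [Finite X] [Finite Ω] [MulAction X Ω]
    (hA : Group.IsSolvable A) (hX : Sec2 p 𝔊 X) : Sec2 p 𝔊 (WrX Ω A X) := by
  have hs : Function.Surjective (SemidirectProduct.rightHom : WrX Ω A X →* X) :=
    SemidirectProduct.rightHom_surjective
  refine Sec2_of_sub 𝔊 (ι := Unit)
    (fun _ => (SemidirectProduct.rightHom : WrX Ω A X →* X).ker) ?_ fun _ => ?_
  · rw [iInf_const]
    have h1 := solv_pi Ω A hA
    let f : (Ω → A) →* (SemidirectProduct.rightHom : WrX Ω A X →* X).ker :=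
      (SemidirectProduct.inl : (Ω → A) →* WrX Ω A X).codRestrict _ fun u => by
        rw [MonoidHom.mem_ker]
        rfl
    have hf : Function.Surjective f := by
      rintro ⟨g, hg⟩
      refine ⟨g.left, Subtype.ext ?_⟩
      refine SemidirectProduct.ext rfl ?_
      rw [MonoidHom.mem_ker] at hg
      exact hg.symm
    exact Group.isSolvable_of_surjective hf
  · exact Sec2_iso (QuotientGroup.quotientKerEquivOfSurjective _ hs).symm hX

end Pool.Agent.Zk54.MQ
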