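import Pool.Agent.Zk54.MQ.DefD

/-!
# Series of direct powers
-/

set_option autoImplicit false
set_option linter.unusedSectionVars false
set_option linter.style.haveILetI false

open scoped BigOperators Classical

noncomputable section

namespace Pool.Agent.Zk54.MQ

theorem ser_iso' {𝔗 : (S : Type) → [Group S] → Prop} {G G' : Type} [Group G] [Group G'] (e : G ≃* G')
    (h : Ser 𝔗 G) : Ser 𝔗 G' := by
  obtain ⟨n, H, h0, hn, hs⟩ := h
  refine ⟨n, fun i => (H i).map e.toMonoidHom, ?_, ?_, fun i hi => ?_⟩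
  · change (H 0).map _ = ⊥
    rw [h0, Subgroup.map_bot]
  · change (H n).map _ = ⊤
    rw [hn, Subgroup.map_top_of_surjective _ e.surjective]
  obtain ⟨hle, F, _, f, hf, hk, hF⟩ := hs i hi
  refine ⟨Subgroup.map_mono hle, F, inferInstance,
    f.comp (e.subgroupMap (H (i + 1))).symm.toMonoidHom, hf.comp (MulEquiv.surjective _), ?_, hF⟩
  ext x
  obtain ⟨y, rfl⟩ := (e.subgroupMap (H (i + 1))).surjective x
  change f ((e.subgroupMap (H (i + 1))).symm (e.subgroupMap (H (i + 1)) y)) = 1 ↔
    e (y : G) ∈ (H i).map e.toMonoidHom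
  rw [MulEquiv.symm_apply_apply]
  have h1 : f y = 1 ↔ (y : G) ∈ H i := by
    rw [← Subgroup.mem_subgroupOf, ← hk]
    rfl
  rw [h1]
  constructor
  · intro hy
    exact ⟨_, hy, rfl⟩
  · rintro ⟨z, hz, hzy⟩
    rwa [← e.injective hzy]

/-- one step of a series -/
def Stp (𝔗 : (S : Type) → [Group S] → Prop) {G : Type} [Group G] (H K : Subgroup G) : Prop :=
  H ≤ K ∧ ∃ (F : Type) (_ : Group F) (f : K →* F), Function.Surjective f ∧
    f.ker = H.subgroupOf K ∧ (Group.IsSolvable F ∨ 𝔗 F)

theorem stp_prod_bot {𝔗 : (S : Type) → [Group S] → Prop} {A B : Type} [Group A] [Group B]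
    {H K : Subgroup A} (h : Stp 𝔗 H K) : Stp 𝔗 (H.prod (⊥ : Subgroup B)) (K.prod ⊥) := by
  obtain ⟨hle, F, _, f, hf, hk, hF⟩ := h
  have h3 : ∀ y : K, f y = 1 ↔ (y : A) ∈ H := by
    intro y
    rw [← Subgroup.mem_subgroupOf, ← hk]
    rfl
  refine ⟨Subgroup.prod_mono hle le_rfl, F, inferInstance,
    f.comp (((MonoidHom.fst A B).comp (K.prod ⊥).subtype).codRestrict K
      (fun x => x.2.1)), ?_, ?_, hF⟩
  · intro y
    obtain ⟨x, rfl⟩ := hf y
    exact ⟨⟨((x : A), 1), x.2, rfl⟩, rfl⟩
  · ext x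
    rw [Subgroup.mem_subgroupOf, Subgroup.mem_prod]
    constructor
    · intro hx
      exact ⟨(h3 _).mp hx, x.2.2⟩
    · intro hx
      exact (h3 _).mpr hx.1

theorem stp_top_prod {𝔗 : (S : Type) → [Group S] → Prop} {A B : Type} [Group A] [Group B]
    {H K : Subgroup B} (h : Stp 𝔗 H K) : Stp 𝔗 (Subgroup.prod (⊤ : Subgroup A) H)
      (Subgroup.prod ⊤ K) := by
  obtain ⟨hle, F, _, f, hf, hk, hF⟩ := h
  have h3 : ∀ y : K, f y = 1 ↔ (y : B) ∈ H := by
    intro y
    rw [← Subgroup.mem_subgroupOf, ← hk]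
    rfl
  refine ⟨Subgroup.prod_mono le_rfl hle, F, inferInstance,
    f.comp (((MonoidHom.snd A B).comp (Subgroup.prod ⊤ K).subtype).codRestrict K
      (fun x => x.2.2)), ?_, ?_, hF⟩
  · intro y
    obtain ⟨x, rfl⟩ := hf y
    exact ⟨⟨(1, (x : B)), Subgroup.mem_top _, x.2⟩, rfl⟩
  · ext x
    rw [Subgroup.mem_subgroupOf, Subgroup.mem_prod]
    constructor
    · intro hx
      exact ⟨Subgroup.mem_top _, (h3 _).mp hx⟩
    · intro hx
      exact (h3 _).mpr hx.2

/-- the product of two groups with series -/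
theorem ser_prod {𝔗 : (S : Type) → [Group S] → Prop} {A B : Type} [Group A] [Group B]
    (hA : Ser 𝔗 A) (hB : Ser 𝔗 B) : Ser 𝔗 (A × B) := by
  obtain ⟨n, H, h0, hn, hs⟩ := hA
  obtain ⟨m, K, k0, km, ks⟩ := hB
  -- the family of subgroups, with its values
  obtain ⟨J, hJ1, hJ2⟩ : ∃ J : ℕ → Subgroup (A × B), (∀ i ≤ n, J i = (H i).prod ⊥) ∧
      ∀ i, n ≤ i → J i = Subgroup.prod ⊤ (K (i - n)) := by
    refine ⟨fun i => if i ≤ n then (H i).prod ⊥ else Subgroup.prod ⊤ (K (i - n)),
      fun i hi => if_pos hi, fun i hi => ?_⟩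
    by_cases h1 : i ≤ n
    · have h4 : i = n := le_antisymm h1 hi
      subst h4
      show (if i ≤ i then (H i).prod ⊥ else Subgroup.prod ⊤ (K (i - i))) = _
      rw [if_pos le_rfl, Nat.sub_self, k0, hn]
    · exact if_neg h1
  refine ⟨n + m, J, ?_, ?_, fun i hi => ?_⟩
  · rw [hJ1 0 (Nat.zero_le n), h0]
    exact Subgroup.bot_prod_bot
  · rw [hJ2 (n + m) (Nat.le_add_right n m), Nat.add_sub_cancel_left, km]
    exact Subgroup.top_prod_top
  show Stp 𝔗 (J i) (J (i + 1))
  by_cases hin : i < n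
  · rw [hJ1 i hin.le, hJ1 (i + 1) hin]
    exact stp_prod_bot (hs i hin)
  · have hi' : i - n < m := by omega
    rw [hJ2 i (by omega), hJ2 (i + 1) (by omega)]
    have e : i + 1 - n = i - n + 1 := by omega
    rw [e]
    exact stp_top_prod (ks (i - n) hi')

/-- series of direct powers -/
theorem ser_pi (𝔗 : (S : Type) → [Group S] → Prop) {Ω A : Type} [Finite Ω] [Group A]
    (h : Ser 𝔗 A) : Ser 𝔗 (Ω → A) := by
  have key : ∀ n : ℕ, Ser 𝔗 (Fin n → A) := by
    intro n
    induction n with
    | zero =>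
      refine ⟨0, fun _ => ⊥, rfl, ?_, fun i hi => absurd hi (Nat.not_lt_zero i)⟩
      exact Subsingleton.elim _ _
    | succ n ih =>
      refine ser_iso' ?_ (ser_prod h ih)
      exact
        { toFun := fun x => Fin.cons x.1 x.2
          invFun := fun u => (u 0, fun i => u i.succ)
          left_inv := fun x => by
            refine Prod.ext ?_ ?_
            · simp
            · funext i
              simp
          right_inv := fun u => by
            funext i
            refine Fin.cases ?_ (fun j => ?_) i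
            · simp
            · simp
          map_mul' := fun x y => by
            funext i
            refine Fin.cases ?_ (fun j => ?_) i
            · simp
            · simp }
  obtain ⟨n, ⟨e⟩⟩ := Finite.exists_equiv_fin Ω
  refine ser_iso' ?_ (key n)
  exact
    { toFun := fun u ω => u (e ω)
      invFun := fun u i => u (e.symm i)
      left_inv := fun u => by
        funext i
        simp
      right_inv := fun u => by
        funext ω
        simp
      map_mul' := fun u v => rfl }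

end Pool.Agent.Zk54.MQ
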