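import Pool.Agent.K3h3.MK.Main

/-!
# One one-sided inequality with an error `o(|G|)` decides the McKay congruences
-/

set_option autoImplicit false
set_option linter.unusedSectionVars false

open scoped BigOperators Classical

noncomputable section

namespace Pool.Agent.Zk54.MQ

open Pool.Agent.Helper884 Pool.Agent.H254R3.IN Pool.Agent.Q288.MB
open Pool.Agent.K3h3.KB Pool.Agent.K3h3.MK
open IC (Irr)

section aux

variable (p : ℕ) [hp : Fact p.Prime]

/-- evaluation at a character -/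
def evc (χ : (ZMod p)ˣ →* ℂˣ) : RR p →+* ℂ :=
  (MonoidAlgebra.lift ℤ ℂ (ZMod p)ˣ ((Units.coeHom ℂ).comp χ)).toRingHom

theorem evc_apply (χ : (ZMod p)ˣ →* ℂˣ) (x : RR p) :
    evc p χ x = ∑ v : (ZMod p)ˣ, (x.coeff v : ℂ) * ((χ v : ℂˣ) : ℂ) := by
  have h1 : evc p χ x = MonoidAlgebra.lift ℤ ℂ (ZMod p)ˣ ((Units.coeHom ℂ).comp χ) x := rfl
  rw [h1, MonoidAlgebra.lift_apply, Finsupp.sum_fintype _ _ (fun _ => by simp)]
  refine Finset.sum_congr rfl fun v _ => ?_
  rw [zsmul_eq_mul]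
  rfl

theorem evc_single (χ : (ZMod p)ˣ →* ℂˣ) (u : (ZMod p)ˣ) (a : ℤ) :
    evc p χ (MonoidAlgebra.single u a) = a * ((χ u : ℂˣ) : ℂ) := by
  have h1 : evc p χ (MonoidAlgebra.single u a)
      = MonoidAlgebra.lift ℤ ℂ (ZMod p)ˣ ((Units.coeHom ℂ).comp χ) (MonoidAlgebra.single u a) := rfl
  rw [h1, MonoidAlgebra.lift_single, zsmul_eq_mul]
  rfl

theorem evc_psi (χ : (ZMod p)ˣ →* ℂˣ) (q : ℕ) (x : RR p) :
    evc p χ (psi p q x) = evc p (χ ^ q) x := by
  have hx : x = ∑ u : (ZMod p)ˣ, MonoidAlgebra.single u (x.coeff u) := by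
    ext v
    rw [MonoidAlgebra.coeff_sum, Finsupp.finsetSum_apply]
    simp_rw [MonoidAlgebra.coeff_single, Finsupp.single_apply]
    simp
  rw [hx, map_sum, map_sum, map_sum]
  refine Finset.sum_congr rfl fun u _ => ?_
  rw [psi_single, evc_single, evc_single, map_pow, MonoidHom.pow_apply]

/-- the linear functional -/
def LL (lam : (ZMod p)ˣ → ℝ) (x : RR p) : ℝ := ∑ v : (ZMod p)ˣ, lam v * (x.coeff v : ℝ)

theorem LL_mul_single (lam : (ZMod p)ˣ → ℝ) (x : RR p) (u : (ZMod p)ˣ) :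
    LL p lam (x * MonoidAlgebra.single u 1) = ∑ w : (ZMod p)ˣ, lam (w * u) * (x.coeff w : ℝ) := by
  unfold LL
  simp_rw [coeff_mul_single']
  refine Fintype.sum_equiv (Equiv.mulRight u⁻¹) _ _ fun v => ?_
  simp

theorem norm_char (χ : (ZMod p)ˣ →* ℂˣ) (u : (ZMod p)ˣ) : ‖((χ u : ℂˣ) : ℂ)‖ = 1 := by
  have h1 : ((χ u : ℂˣ) : ℂ) ^ (Fintype.card (ZMod p)ˣ) = 1 := by
    rw [← Units.val_pow_eq_pow_val, ← map_pow, pow_card_eq_one, map_one, Units.val_one]
  exact Complex.norm_eq_one_of_pow_eq_one h1 Fintype.card_ne_zero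

/-- the vanishing of all `ev_(χ^k)` forces `x = 0` -/
theorem eq_zero_of_evc (χ : (ZMod p)ˣ →* ℂˣ) (hχ : ∀ u : (ZMod p)ˣ, χ (u ^ 2) = 1 → u ^ 2 = 1)
    (x : RR p) (hx : ∀ v, (∀ u, u ^ 2 ≠ v) → x.coeff v = 0)
    (h : ∀ k : ℕ, 1 ≤ k → k < p → evc p (χ ^ k) x = 0) : x = 0 := by
  ext w₀
  change x.coeff w₀ = 0
  by_cases hw : ∃ u, u ^ 2 = w₀
  · obtain ⟨u₀, rfl⟩ := hw
    have h1 : ∑ k ∈ Finset.range (p - 1), evc p (χ ^ (k + 1)) x *
        (((χ (u₀ ^ 2) : ℂˣ) : ℂ)⁻¹) ^ (k + 1) = 0 := by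
      refine Finset.sum_eq_zero fun k hk => ?_
      rw [h (k + 1) (by omega) (by have := Finset.mem_range.1 hk; omega), zero_mul]
    have h2 : ∑ k ∈ Finset.range (p - 1), evc p (χ ^ (k + 1)) x *
        (((χ (u₀ ^ 2) : ℂˣ) : ℂ)⁻¹) ^ (k + 1) = ∑ v : (ZMod p)ˣ, (x.coeff v : ℂ) *
          ∑ k ∈ Finset.range (p - 1), (((χ v : ℂˣ) : ℂ) * ((χ (u₀ ^ 2) : ℂˣ) : ℂ)⁻¹) ^ (k + 1) := by
      simp_rw [evc_apply, Finset.sum_mul, Finset.mul_sum]
      rw [Finset.sum_comm]
      refine Finset.sum_congr rfl fun v _ => Finset.sum_congr rfl fun k _ => ?_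
      rw [MonoidHom.pow_apply, Units.val_pow_eq_pow_val, mul_pow, mul_assoc]
    rw [h1] at h2
    rw [Finset.sum_eq_single (u₀ ^ 2)] at h2
    · have h3 : ((χ (u₀ ^ 2) : ℂˣ) : ℂ) * ((χ (u₀ ^ 2) : ℂˣ) : ℂ)⁻¹ = 1 :=
        mul_inv_cancel₀ (Units.ne_zero _)
      rw [h3] at h2
      simp only [one_pow, Finset.sum_const, Finset.card_range, nsmul_eq_mul, mul_one] at h2
      have h4 : ((p - 1 : ℕ) : ℂ) ≠ 0 := by
        have := hp.out.two_le
        exact_mod_cast (by omega : p - 1 ≠ 0)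
      have h5 := (mul_eq_zero.1 h2.symm).resolve_right h4
      exact_mod_cast h5
    · intro v _ hv
      by_cases hsq : ∃ u, u ^ 2 = v
      · obtain ⟨u, rfl⟩ := hsq
        set z : ℂ := ((χ (u ^ 2) : ℂˣ) : ℂ) * ((χ (u₀ ^ 2) : ℂˣ) : ℂ)⁻¹ with hz
        have hz1 : z ≠ 1 := by
          intro hz1
          apply hv
          have e1 : χ ((u * u₀⁻¹) ^ 2) = 1 := by
            rw [mul_pow, inv_pow, map_mul, map_inv]
            ext
            rw [Units.val_mul, Units.val_inv_eq_inv_val, Units.val_one]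
            exact hz1
          have e2 := hχ _ e1
          rwa [mul_pow, inv_pow, mul_inv_eq_one] at e2
        have hzp : z ^ (p - 1) = 1 := by
          have e1 : z = ((χ (u ^ 2 * (u₀ ^ 2)⁻¹) : ℂˣ) : ℂ) := by
            rw [map_mul, map_inv, Units.val_mul, Units.val_inv_eq_inv_val]
          rw [e1, ← Units.val_pow_eq_pow_val, ← map_pow, ZMod.units_pow_card_sub_one_eq_one, map_one,
            Units.val_one]
        have hg : ∑ k ∈ Finset.range (p - 1), z ^ (k + 1) = 0 := by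
          simp_rw [pow_succ]
          rw [← Finset.sum_mul, geom_sum_eq hz1, hzp, sub_self, zero_div, zero_mul]
        rw [hg, mul_zero]
      · push Not at hsq
        rw [hx v hsq]
        simp
    · intro h3
      exact absurd (Finset.mem_univ _) h3
  · push Not at hw
    exact hx w₀ hw

end aux

/-- One one-sided inequality with an error `o(|G|)` decides. -/
theorem ineq_main (p : ℕ) [hp : Fact p.Prime] (𝒢 : (G : Type) → [Group G] → Prop)
    (hprod : ∀ (G H : Type) [Group G] [Finite G] [Group H] [Finite H], 𝒢 G → IsMetacyclic H →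
      ¬ p ∣ Nat.card H → 𝒢 (G × H))
    (hwr : ∀ q : ℕ, q.Prime → q ≠ p → ∃ (S : Type) (_ : CommGroup S) (_ : Finite S), Nat.card S = q ∧
      ∀ (G : Type) [Group G] [Finite G], 𝒢 G → 𝒢 (Wr G S))
    (lam : (ZMod p)ˣ → ℝ) (hmean : ∑ u : (ZMod p)ˣ, lam (u ^ 2) = 0)
    (η : (ZMod p)ˣ →* ℂˣ) (hη : ∀ u : (ZMod p)ˣ, η (u ^ 2) = 1 → u ^ 2 = 1)
    (hne : ∑ u : (ZMod p)ˣ, (lam (u ^ 2) : ℂ) * ((η (u ^ 2) : ℂˣ) : ℂ) ≠ 0)
    (H : ∀ ε : ℝ, 0 < ε → ∃ C : ℝ, ∀ (G : Type) [Group G] [Finite G], 𝒢 G → ∀ P : Sylow p G,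
      ∑ v : (ZMod p)ˣ, lam v * ((wt (cl p) G - wt (cl p) (NN P)).coeff v : ℝ) ≤
        ε * Nat.card G + C)
    (G : Type) [Group G] [Finite G] (hG : 𝒢 G) (P : Sylow p G) :
    wt (cl p) G = wt (cl p) (NN P) := by
  -- nonsquares
  have hsq : ∀ (G : Type) [Group G] [Finite G] (P : Sylow p G) (v : (ZMod p)ˣ), (∀ u, u ^ 2 ≠ v) →
      (wt (cl p) G - wt (cl p) (NN P)).coeff v = 0 := by
    intro G _ _ P v hv
    have h1 := coeff_nonsq p G hv
    have h2 := coeff_nonsq p (NN P) hv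
    have h3 : (wt (cl p) G - wt (cl p) (NN P)).coeff v
        = (wt (cl p) G).coeff v - (wt (cl p) (NN P)).coeff v := rfl
    rw [h3, h1, h2, sub_zero]
  -- Step 1
  have step1 : ∀ (G : Type) [Group G] [Finite G], 𝒢 G → ∀ (P : Sylow p G) (u : (ZMod p)ˣ),
      LL p lam ((wt (cl p) G - wt (cl p) (NN P)) * MonoidAlgebra.single (u ^ 2) 1) ≤ 0 := by
    intro G _ _ hG P u
    set D := wt (cl p) G - wt (cl p) (NN P) with hD
    by_contra hcon
    push Not at hcon
    set δ := LL p lam (D * MonoidAlgebra.single (u ^ 2) 1) with hδ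
    have : NeZero p := ⟨hp.out.ne_zero⟩
    set a : ℕ := (u : ZMod p).val with ha
    have ha1 : ((a : ℕ) : ZMod p) = u := ZMod.natCast_zmod_val _
    have hap : a < p := ZMod.val_lt _
    have ha0 : a ≠ 0 := by
      intro h
      rw [h, Nat.cast_zero] at ha1
      exact u.ne_zero ha1.symm
    have hane : (a : ZMod p) ≠ 0 := by rw [ha1]; exact u.ne_zero
    have hcla : cl p a = MonoidAlgebra.single (u ^ 2) 1 := by
      rw [cl_apply p hane]
      congr 2
      ext
      rw [Units.val_mk0, ha1]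
    have hGpos : (0 : ℝ) < Nat.card G := by exact_mod_cast Nat.card_pos
    have hapos : (0 : ℝ) < a := by exact_mod_cast Nat.pos_of_ne_zero ha0
    obtain ⟨C, hC⟩ := H (δ / (2 * (Nat.card G * a * a))) (by positivity)
    set ε := δ / (2 * (Nat.card G * a * a)) with hε
    -- a large prime
    obtain ⟨K, hK⟩ := exists_nat_gt (2 * (ε * Nat.card G * a + C - a * LL p lam D) / δ)
    have hcop : (1 : ℕ).Coprime a := Nat.coprime_one_left _
    obtain ⟨Q, hQC, hQp, hQm⟩ := Nat.forall_exists_prime_gt_and_modEq (max (a * K + 1) p)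
      (q := a) (a := 1) ha0 hcop
    have hQ1 : a * K + 1 < Q := (le_max_left _ _).trans_lt hQC
    have hQ2 : p < Q := (le_max_right _ _).trans_lt hQC
    obtain ⟨k, hk⟩ := (Nat.modEq_iff_dvd' (by omega : 1 ≤ Q)).mp hQm.symm
    have hQk : Q = 1 + a * k := by omega
    have hKk : K < k := by
      by_contra h
      push Not at h
      have := Nat.mul_le_mul_left a h
      omega
    have : Fact Q.Prime := ⟨hQp⟩
    obtain ⟨H', i1, i2, h1, h2, h3, h4⟩ := exists_frob p ha0 hQk hap (by omega)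
    have h5 := hC (G × H') (hprod G H' hG h1 h3) default
    rw [del_prod (cl p) h3 P, ← hD, h4, hcla, Nat.card_prod, h2] at h5
    have h6 : ∑ v : (ZMod p)ˣ, lam v * ((D * ((k : RR p) * MonoidAlgebra.single (u ^ 2) 1 + (a : RR p))).coeff v : ℝ)
        = k * δ + a * LL p lam D := by
      have e1 : ∀ v, (D * ((k : RR p) * MonoidAlgebra.single (u ^ 2) 1 + (a : RR p))).coeff v
          = (k : ℤ) * (D * MonoidAlgebra.single (u ^ 2) 1).coeff v + (a : ℤ) * D.coeff v := by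
        intro v
        rw [mul_add, MonoidAlgebra.coeff_add, Finsupp.add_apply, mul_left_comm, coeff_natCast_mul,
          mul_comm D (a : RR p), coeff_natCast_mul]
      simp_rw [e1]
      rw [hδ]
      unfold LL
      rw [Finset.mul_sum, Finset.mul_sum, ← Finset.sum_add_distrib]
      refine Finset.sum_congr rfl fun v _ => ?_
      push_cast
      ring
    rw [h6] at h5
    push_cast at h5
    rw [hQk] at h5
    push_cast at h5
    have h7 : ε * (Nat.card G * ((1 + (a : ℝ) * k) * a)) = ε * Nat.card G * a + k * (δ / 2) := by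
      have e2 : ε * (Nat.card G * a * a) = δ / 2 := by
        rw [hε]; field_simp
      calc ε * (Nat.card G * ((1 + (a : ℝ) * k) * a))
          = ε * Nat.card G * a + k * (ε * (Nat.card G * a * a)) := by ring
        _ = _ := by rw [e2]
    rw [h7] at h5
    have h8 : (k : ℝ) * δ / 2 ≤ ε * Nat.card G * a + C - a * LL p lam D := by linarith
    rw [div_lt_iff₀ hcon] at hK
    have h9 : (K : ℝ) < k := by exact_mod_cast hKk
    nlinarith
  -- Step 2
  have step2 : ∀ (G : Type) [Group G] [Finite G], 𝒢 G → ∀ (P : Sylow p G) (u : (ZMod p)ˣ),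
      LL p lam ((wt (cl p) G - wt (cl p) (NN P)) * MonoidAlgebra.single (u ^ 2) 1) = 0 := by
    intro G _ _ hG P
    set D := wt (cl p) G - wt (cl p) (NN P) with hD
    have h1 : ∑ u : (ZMod p)ˣ, LL p lam (D * MonoidAlgebra.single (u ^ 2) 1) = 0 := by
      simp_rw [LL_mul_single]
      rw [Finset.sum_comm]
      refine Finset.sum_eq_zero fun w _ => ?_
      by_cases hw : ∃ s, s ^ 2 = w
      · obtain ⟨s, rfl⟩ := hw
        rw [← Finset.sum_mul]
        have e1 : ∑ u : (ZMod p)ˣ, lam (s ^ 2 * u ^ 2) = ∑ u : (ZMod p)ˣ, lam (u ^ 2) := by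
          refine Fintype.sum_equiv (Equiv.mulLeft s) _ _ fun u => ?_
          rw [Equiv.coe_mulLeft, mul_pow]
        rw [e1, hmean, zero_mul]
      · push Not at hw
        refine Finset.sum_eq_zero fun u _ => ?_
        rw [hsq G P w hw]
        simp
    intro u
    have h2 := (Finset.sum_eq_zero_iff_of_nonpos (fun u _ => step1 G hG P u)).1 h1
    exact h2 u (Finset.mem_univ u)
  -- Step 3
  set χ : (ZMod p)ˣ →* ℂˣ := η⁻¹ with hχ
  have step3 : ∀ (G : Type) [Group G] [Finite G], 𝒢 G → ∀ (P : Sylow p G),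
      evc p χ (wt (cl p) G - wt (cl p) (NN P)) = 0 := by
    intro G _ _ hG P
    set D := wt (cl p) G - wt (cl p) (NN P) with hD
    have h1 : ∑ u : (ZMod p)ˣ, ((LL p lam (D * MonoidAlgebra.single (u ^ 2) 1) : ℝ) : ℂ)
        * ((η (u ^ 2) : ℂˣ) : ℂ) = 0 := by
      refine Finset.sum_eq_zero fun u _ => ?_
      rw [step2 G hG P u]
      simp
    have h2 : ∑ u : (ZMod p)ˣ, ((LL p lam (D * MonoidAlgebra.single (u ^ 2) 1) : ℝ) : ℂ)
        * ((η (u ^ 2) : ℂˣ) : ℂ) = evc p χ D *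
          ∑ u : (ZMod p)ˣ, (lam (u ^ 2) : ℂ) * ((η (u ^ 2) : ℂˣ) : ℂ) := by
      simp_rw [LL_mul_single, evc_apply]
      push_cast
      simp_rw [Finset.sum_mul]
      rw [Finset.sum_comm]
      refine Finset.sum_congr rfl fun w _ => ?_
      by_cases hw : ∃ s, s ^ 2 = w
      · obtain ⟨s, rfl⟩ := hw
        rw [Finset.mul_sum]
        refine Fintype.sum_equiv (Equiv.mulLeft s) _ _ fun u => ?_
        rw [Equiv.coe_mulLeft, mul_pow, map_mul]
        have e1 : ((χ (s ^ 2) : ℂˣ) : ℂ) * ((η (s ^ 2) : ℂˣ) : ℂ) = 1 := by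
          rw [hχ, MonoidHom.inv_apply, ← Units.val_mul, inv_mul_cancel, Units.val_one]
        rw [Units.val_mul]
        calc ((lam (s ^ 2 * u ^ 2) : ℝ) : ℂ) * ((D.coeff (s ^ 2) : ℤ) : ℂ) * ((η (u ^ 2) : ℂˣ) : ℂ)
            = ((lam (s ^ 2 * u ^ 2) : ℝ) : ℂ) * ((D.coeff (s ^ 2) : ℤ) : ℂ) * ((η (u ^ 2) : ℂˣ) : ℂ)
              * (((χ (s ^ 2) : ℂˣ) : ℂ) * ((η (s ^ 2) : ℂˣ) : ℂ)) := by rw [e1, mul_one]
          _ = _ := by ring
      · push Not at hw
        rw [hsq G P w hw]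
        simp
    rw [h1] at h2
    exact (mul_eq_zero.1 h2.symm).resolve_right hne
  -- Step 4
  have step4 : ∀ θ : (ZMod p)ˣ →* ℂˣ, (∀ (G : Type) [Group G] [Finite G], 𝒢 G → ∀ (P : Sylow p G),
      evc p θ (wt (cl p) G - wt (cl p) (NN P)) = 0) → ∀ q : ℕ, q.Prime → q ≠ p →
      ∀ (G : Type) [Group G] [Finite G], 𝒢 G → ∀ (P : Sylow p G),
        evc p (θ ^ q) (wt (cl p) G - wt (cl p) (NN P)) = 0 := by
    intro θ hθ q hq hqp G _ _ hG P
    obtain ⟨S, iS, iF, hS, hW⟩ := hwr q hq hqp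
    have hpS : ¬ p ∣ Nat.card S := by
      rw [hS]
      intro h0
      exact hqp ((Nat.prime_dvd_prime_iff_eq hp.out hq).mp h0).symm
    obtain ⟨R0, ⟨e⟩⟩ := exists_wr hpS P
    have h1 := wt_wr_psi p hq hS G
    have h2 := wt_wr_psi p hq hS (NN P)
    rw [← wt_congr (cl p) e] at h2
    have h3 := hθ G hG P
    have h4 := hθ (Wr G S) (hW G hG) R0
    rw [map_sub, sub_eq_zero] at h3 h4
    have e1 := congrArg (evc p θ) h1
    have e2 := congrArg (evc p θ) h2
    simp only [map_mul, map_add, map_sub, map_pow, map_natCast, evc_psi] at e1 e2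
    rw [← h3, ← h4, e1] at e2
    have hqne : (q : ZMod p) ≠ 0 := by
      intro h0
      rw [ZMod.natCast_eq_zero_iff] at h0
      exact hqp ((Nat.prime_dvd_prime_iff_eq hp.out hq).mp h0).symm
    have hn : ‖evc p θ (cl p q)‖ = 1 := by
      rw [cl_apply p hqne, evc_single, Int.cast_one, one_mul]
      exact norm_char p θ _
    have hne2 : (q : ℂ) ^ 2 - evc p θ (cl p q) ≠ 0 := by
      intro h0
      have h5 : evc p θ (cl p q) = (q : ℂ) ^ 2 := (sub_eq_zero.1 h0).symm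
      rw [h5, norm_pow, Complex.norm_natCast] at hn
      have h6 : (2 : ℝ) ≤ q := by exact_mod_cast hq.two_le
      nlinarith
    have h7 : ((q : ℂ) ^ 2 - evc p θ (cl p q)) * (evc p (θ ^ q) (wt (cl p) G) -
        evc p (θ ^ q) (wt (cl p) (NN P))) = 0 := by
      linear_combination e2
    rw [map_sub]
    exact (mul_eq_zero.1 h7).resolve_left hne2
  -- all powers
  have step5 : ∀ k : ℕ, ¬ p ∣ k → k ≠ 0 → ∀ (G : Type) [Group G] [Finite G], 𝒢 G →
      ∀ (P : Sylow p G), evc p (χ ^ k) (wt (cl p) G - wt (cl p) (NN P)) = 0 := by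
    intro k
    induction k using Nat.strong_induction_on with
    | _ k ih =>
      intro h1 h2
      by_cases hk : k = 1
      · have e : χ ^ k = χ := MonoidHom.ext fun v => by rw [MonoidHom.pow_apply, hk, pow_one]
        rw [e]
        exact step3
      · have hq : k.minFac.Prime := Nat.minFac_prime hk
        obtain ⟨m, hm⟩ := k.minFac_dvd
        have hm0 : m ≠ 0 := by
          rintro rfl
          rw [mul_zero] at hm
          exact h2 hm
        have hmk : m < k := by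
          have h3 := hq.one_lt
          have h4 : 1 * m < k.minFac * m := Nat.mul_lt_mul_of_pos_right h3 (Nat.pos_of_ne_zero hm0)
          omega
        have hpm : ¬ p ∣ m := fun h => h1 (hm ▸ h.mul_left _)
        have hqp : k.minFac ≠ p := fun h => h1 (h ▸ k.minFac_dvd)
        intro G _ _ hG P
        have e : χ ^ k = (χ ^ m) ^ k.minFac := MonoidHom.ext fun v => by
          rw [MonoidHom.pow_apply, MonoidHom.pow_apply, MonoidHom.pow_apply, ← pow_mul, mul_comm m,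
            ← hm]
        rw [e]
        exact step4 (χ ^ m) (ih m hmk hpm hm0) k.minFac hq hqp G hG P
  rw [← sub_eq_zero]
  refine eq_zero_of_evc p χ ?_ _ (hsq G P) fun k hk1 hkp => step5 k ?_ (by omega) G hG P
  · intro u hu
    apply hη
    rw [hχ, MonoidHom.inv_apply, inv_eq_one] at hu
    exact hu
  · intro h
    exact absurd (Nat.le_of_dvd (by omega) h) (by omega)

end Pool.Agent.Zk54.MQ
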