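import Pool.Agent.Zk54.MQ.Def0

set_option autoImplicit false
set_option linter.unusedSectionVars false
set_option linter.style.haveILetI false

namespace Pool.Agent.Zk54.MQ

variable {G U Ω : Type} [Group G] [Group U] [MulAction G Ω]
  {m : (Ω → U) →* G} {C : Subgroup U} {X : Subgroup G}

theorem WD.normal (h : WD m C X) : m.range.Normal := by
  rw [← Subgroup.normalizer_eq_top_iff, eq_top_iff, ← h.sup, sup_le_iff]
  refine ⟨Subgroup.le_normalizer, fun x hx => ?_⟩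
  have key : ∀ y ∈ X, ∀ l ∈ m.range, y * l * y⁻¹ ∈ m.range := by
    rintro y hy _ ⟨u, rfl⟩
    rw [h.eqv y hy u]
    exact ⟨_, rfl⟩
  rw [Subgroup.mem_normalizer_iff]
  intro l
  refine ⟨key x hx l, fun hl => ?_⟩
  have h1 := key x⁻¹ (X.inv_mem hx) _ hl
  have e : x⁻¹ * (x * l * x⁻¹) * x⁻¹⁻¹ = l := by group
  rwa [e] at h1

theorem WD.exists_mul (h : WD m C X) (g : G) : ∃ u : Ω → U, ∃ x ∈ X, g = m u * x := by
  haveI := h.normal
  have hg : g ∈ m.range ⊔ X := by rw [h.sup]; trivial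
  obtain ⟨_, ⟨u, rfl⟩, x, hx, rfl⟩ := Subgroup.mem_sup_of_normal_left.mp hg
  exact ⟨u, x, hx, rfl⟩

theorem WD.index_eq (h : WD m C X) {T : Subgroup G} (hT : m.range ≤ T) :
    T.index = T.relIndex X := by
  haveI := h.normal
  haveI : MulAction.IsPretransitive X (G ⧸ T) := by
    rw [MulAction.isPretransitive_iff_base (((1 : G) : G ⧸ T))]
    intro y
    obtain ⟨g, rfl⟩ := QuotientGroup.mk_surjective y
    obtain ⟨u, x, hx, rfl⟩ := h.exists_mul g
    refine ⟨⟨x, hx⟩, ?_⟩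
    change ((x * 1 : G) : G ⧸ T) = _
    rw [QuotientGroup.eq, mul_one]
    have h1 : x⁻¹ * m u * x⁻¹⁻¹ ∈ m.range := (h.normal).conj_mem _ ⟨u, rfl⟩ x⁻¹
    rw [inv_inv] at h1
    have e : x⁻¹ * (m u * x) = x⁻¹ * m u * x := by group
    rw [e]
    exact hT h1
  have h2 := MulAction.index_stabilizer_of_transitive X (((1 : G) : G ⧸ T))
  have h3 : MulAction.stabilizer X (((1 : G) : G ⧸ T)) = T.subgroupOf X := by
    ext x
    rw [MulAction.mem_stabilizer_iff, Subgroup.mem_subgroupOf]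
    change (((x : G) * 1 : G) : G ⧸ T) = ((1 : G) : G ⧸ T) ↔ _
    rw [mul_one, eq_comm, QuotientGroup.eq, inv_one, one_mul]
  rw [h3] at h2
  exact h2.symm

end Pool.Agent.Zk54.MQ
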