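import Pool.Agent.Zk54.MQ.M2a
import Pool.Agent.Zk54.MQ.Nrm
import Pool.Agent.K3h83.IN.Rel

set_option autoImplicit false
set_option linter.unusedSectionVars false
set_option linter.style.haveILetI false

open scoped BigOperators Classical

noncomputable section

namespace Pool.Agent.Zk54.MQ

open Pool.Agent.Helper884 Pool.Agent.H254R3.IN Pool.Agent.Q288.MB
open Pool.Agent.K3h3.KB Pool.Agent.K3h3.MK
open IC (Irr)
open Pool.Agent.K3h83.IN (ov wo wo_congr fixes S1 S2 G5 Tst mem_Tst range_le_Tst cod cod_coe)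

section

variable {G U Ω : Type} [Group G] [Finite G] [Group U] [Finite U] [Fintype Ω] [MulAction G Ω]
  {m : (Ω → U) →* G} {C : Subgroup U} {X : Subgroup G}

theorem comp_irr {E' G' V : Type} [Group E'] [Group G'] [AddCommGroup V] [Module ℂ V]
    (π : E' →* G') (hπ : Function.Surjective π) {ρ : Representation ℂ G' V}
    (hr : ρ.IsIrreducible) : Representation.IsIrreducible (ρ.comp π) := by
  have e : Subrepresentation (ρ.comp π) ≃o Subrepresentation ρ :=
    { toFun := fun W => ⟨W.toSubmodule, fun g v hv => by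
        obtain ⟨x, rfl⟩ := hπ g
        exact W.apply_mem_toSubmodule x hv⟩
      invFun := fun W => ⟨W.toSubmodule, fun g v hv => W.apply_mem_toSubmodule (π g) hv⟩
      left_inv := fun W => rfl
      right_inv := fun W => rfl
      map_rel_iff' := Iff.rfl }
  exact (OrderIso.isSimpleOrder_iff e).2 hr

/-- M2b: the characters over `θ` -/
theorem wo_theta (s1 : S1) (g5 : G5) (h : WD m C X) {f : Ω → (U → ℂ)} (hf : ∀ ω, IsIrr (f ω))
    {θ : m.range → ℂ} (hθ : ∀ u, θ ⟨m u, ⟨u, rfl⟩⟩ = ∏ ω, f ω (u ω)) {R : Type} [CommRing R]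
    (w : ℕ →* R) :
    wo w m.range.subtype θ = w ((Xf X f).relIndex X) *
      (w (ndeg θ) * wo w (Subgroup.inclusion (h.inf_le f)) fun d => θ ⟨d, d.2.1⟩ / θ 1) := by
  have hθi : IsIrr θ := theta_irr hf hθ
  have hr : m.range.subtype.range = m.range := Subgroup.range_subtype _
  have hEn : m.range.Normal := h.normal
  have hn : m.range.subtype.range.Normal := by rw [hr]; exact hEn
  obtain ⟨T, hTdef⟩ : ∃ T : Subgroup G, T = Tst m.range.subtype m.range.subtype_injective hn θ :=
    ⟨_, rfl⟩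
  have hT : ∀ x, x ∈ T ↔ fixes m.range.subtype θ x := fun x => by rw [hTdef]; exact mem_Tst
  have hET : m.range ≤ T := by
    rw [hTdef]
    have := range_le_Tst m.range.subtype m.range.subtype_injective hn hθi
    rwa [hr] at this
  have hXT : T ⊓ X = Xf X f := by
    ext x
    rw [Subgroup.mem_inf, mem_Xf, and_comm, hT]
    exact and_congr_right fun hx => fixes_iff h hf hθ hx
  have hXfT : Xf X f ≤ T := by rw [← hXT]; exact inf_le_left
  have hETr : m.range.subtype.range ≤ T := by rw [hr]; exact hET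
  have e1 := s1 R w m.range G m.range.subtype m.range.subtype_injective hn θ hθi T hT
    (cod m.range.subtype T hETr) fun _ => rfl
  have hidx : T.index = (Xf X f).relIndex X := by
    rw [h.index_eq hET, ← hXT, Subgroup.inf_relIndex_right]
  rw [e1, hidx]
  congr 1
  -- the group `T`
  obtain ⟨V, _, _, _, σ, W, hσi, hσc, hW1, hW2, hσd⟩ := exists_rep_theta h hf hθ
  have hD : m.range ⊓ X ≤ Subgroup.center G := by
    rintro _ ⟨⟨u, rfl⟩, hx⟩
    exact h.cen u (h.ker u hx)
  have hDT : m.range ⊓ X ≤ T := inf_le_left.trans hET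
  let eL : (m.range.subgroupOf T) ≃* m.range := Subgroup.subgroupOfEquivOfLe hET
  let eN : ((Xf X f).subgroupOf T) ≃* Xf X f := Subgroup.subgroupOfEquivOfLe hXfT
  let eZ : ((m.range ⊓ X).subgroupOf T) ≃* (m.range ⊓ X : Subgroup G) :=
    Subgroup.subgroupOfEquivOfLe hDT
  haveI := Fintype.ofFinite m.range
  obtain ⟨μ, hμ⟩ := Pool.Agent.K3h18.IN.central
    (Subgroup.inclusion (inf_le_left : m.range ⊓ X ≤ m.range)) (by
      rintro _ ⟨a, rfl⟩
      rw [Subgroup.mem_center_iff]
      intro y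
      exact Subtype.ext (Subgroup.mem_center_iff.mp (hD a.2) y)) hθi
  have hθ1 : θ 1 ≠ 0 := by
    rw [← ndeg_cast hθi]
    exact_mod_cast (ndeg_pos hθi).ne'
  have hμ2 : ∀ d : (m.range ⊓ X : Subgroup G), ((μ d : ℂˣ) : ℂ) = θ ⟨d, d.2.1⟩ / θ 1 := by
    intro d
    rw [eq_div_iff hθ1, ← hμ d 1, mul_one]
    rfl
  have hZL : (m.range ⊓ X).subgroupOf T ≤ m.range.subgroupOf T :=
    Subgroup.comap_mono inf_le_left
  have hZN : (m.range ⊓ X).subgroupOf T ≤ (Xf X f).subgroupOf T :=
    Subgroup.comap_mono (h.inf_le f)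
  have k := g5 R w T (m.range.subgroupOf T) ((Xf X f).subgroupOf T) ((m.range ⊓ X).subgroupOf T)
    hZL hZN (by
      intro z hz
      rw [Subgroup.mem_center_iff]
      intro y
      exact Subtype.ext (Subgroup.mem_center_iff.mp (hD (Subgroup.mem_subgroupOf.mp hz)) y))
    (hEn.subgroupOf T) (by
      rw [eq_top_iff]
      intro t _
      obtain ⟨u, x, hx, hux⟩ := h.exists_mul (t : G)
      have hmu : m u ∈ T := hET ⟨u, rfl⟩
      have hxT : x ∈ T := by
        have h1 : m u * x ∈ T := by rw [← hux]; exact t.2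
        exact (Subgroup.mul_mem_cancel_left _ hmu).mp h1
      have hxf : x ∈ Xf X f := by rw [← hXT]; exact ⟨hxT, hx⟩
      have ht : t = ⟨m u, hmu⟩ * ⟨x, hxT⟩ := Subtype.ext hux
      rw [ht]
      exact Subgroup.mul_mem_sup (Subgroup.mem_subgroupOf.mpr ⟨u, rfl⟩)
        (Subgroup.mem_subgroupOf.mpr hxf))
    (by
      ext t
      rw [Subgroup.mem_inf, Subgroup.mem_subgroupOf, Subgroup.mem_subgroupOf,
        Subgroup.mem_subgroupOf, Subgroup.mem_inf]
      refine and_congr_right fun ht => ⟨fun hx => hx.1, fun hx => ?_⟩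
      exact h.inf_le f ⟨ht, hx⟩)
    (μ.comp eZ.toMonoidHom) V (σ.comp eL.toMonoidHom) ?_ (by
      intro z v
      change σ ⟨(z : T), _⟩ v = ((μ (eZ z) : ℂˣ) : ℂ) • v
      rw [hμ2, hσd _ (Subgroup.mem_subgroupOf.mp z.2).2 v]
      rfl)
    (W.comp eN.toMonoidHom) (by
      intro n l l' hnl v
      exact hW1 (eN n) (eL l) (eL l') (congrArg Subtype.val hnl) v)
    (by
      intro n hn'
      exact hW2 (eN n) (Subgroup.mem_subgroupOf.mp hn').1)
  · have c1 : (Representation.character (σ.comp eL.toMonoidHom)) = fun l => θ (eL l) := by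
      funext l
      rw [← hσc]
      rfl
    have nd : ndeg (Representation.character (σ.comp eL.toMonoidHom)) = ndeg θ := by
      rw [c1]
      change ⌊(θ (eL 1)).re⌋₊ = _
      rw [map_one]
      rfl
    rw [nd] at k
    have t1 : wo w (cod m.range.subtype T hETr) θ =
        wo w (m.range.subgroupOf T).subtype (Representation.character (σ.comp eL.toMonoidHom)) := by
      refine wo_congr w eL.symm (MulEquiv.refl T) _ _ (fun l => ?_) _ _ (fun l => ?_)
      · exact Subtype.ext rfl
      · rw [c1]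
        simp
    have t2 : wo w (Subgroup.inclusion hZN)
          (fun a => (((μ.comp eZ.toMonoidHom) a : ℂˣ) : ℂ)) =
        wo w (Subgroup.inclusion (h.inf_le f)) fun d => θ ⟨d, d.2.1⟩ / θ 1 := by
      refine wo_congr w eZ eN _ _ (fun l => ?_) _ _ (fun l => ?_)
      · exact Subtype.ext rfl
      · change ((μ (eZ l) : ℂˣ) : ℂ) = _
        rw [hμ2]
    rw [t1, k, t2]
  · exact comp_irr eL.toMonoidHom eL.surjective hσi

end

end Pool.Agent.Zk54.MQ
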