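import Pool.Agent.Zk54.MQ.Def0
import Pool.Agent.K3h83.IN.Stm4
import Pool.Agent.K3h18.IN.Infl

set_option autoImplicit false
set_option linter.unusedSectionVars false
set_option linter.style.haveILetI false

open scoped BigOperators Classical

noncomputable section

namespace Pool.Agent.Zk54.MQ

open Pool.Agent.Helper884 Pool.Agent.H254R3.IN Pool.Agent.Q288.MB
open Pool.Agent.K3h3.KB Pool.Agent.K3h3.MK
open IC (Irr)
open Pool.Agent.K3h83.IN (ov wo fixes S1 S2 G5)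
open Pool.Agent.K3h18.IN (irr_infl irr_of_infl)

section

variable {G U Ω : Type} [Group G] [Finite G] [Group U] [Finite U] [Fintype Ω] [MulAction G Ω]
  {m : (Ω → U) →* G} {C : Subgroup U} {X : Subgroup G}

theorem rr_surj : Function.Surjective m.rangeRestrict := MonoidHom.rangeRestrict_surjective m

/-- M3: every irreducible character is a product -/
theorem exists_f {θ : m.range → ℂ} (hθ : IsIrr θ) :
    ∃ f : Ω → (U → ℂ), (∀ ω, IsIrr (f ω)) ∧ ∀ u, θ ⟨m u, ⟨u, rfl⟩⟩ = ∏ ω, f ω (u ω) := by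
  haveI := Fintype.ofFinite U
  obtain ⟨f, hf, h⟩ := cover_pi (irr_infl m.rangeRestrict rr_surj hθ)
  exact ⟨f, hf, fun u => congrFun h u⟩

/-- M3: the product is irreducible -/
theorem theta_irr {f : Ω → (U → ℂ)} (hf : ∀ ω, IsIrr (f ω)) {θ : m.range → ℂ}
    (hθ : ∀ u, θ ⟨m u, ⟨u, rfl⟩⟩ = ∏ ω, f ω (u ω)) : IsIrr θ := by
  haveI := Fintype.ofFinite U
  haveI := Fintype.ofFinite m.range
  refine irr_of_infl m.rangeRestrict rr_surj ?_
  have e : (fun x => θ (m.rangeRestrict x)) = bt f := funext fun u => hθ u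
  rw [e]
  exact bt_irr hf

theorem f_unique {f f' : Ω → (U → ℂ)} (hf : ∀ ω, IsIrr (f ω)) (hf' : ∀ ω, IsIrr (f' ω))
    (h : ∀ u : Ω → U, ∏ ω, f ω (u ω) = ∏ ω, f' ω (u ω)) : f = f' := by
  haveI := Fintype.ofFinite U
  exact bt_inj hf hf' (funext h)

theorem ndeg_theta {f : Ω → (U → ℂ)} (hf : ∀ ω, IsIrr (f ω)) {θ : m.range → ℂ}
    (hθ : ∀ u, θ ⟨m u, ⟨u, rfl⟩⟩ = ∏ ω, f ω (u ω)) : ndeg θ = ∏ ω, ndeg (f ω) := by
  apply ndeg_eq
  have h1 := hθ 1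
  have h2 : (⟨m 1, ⟨1, rfl⟩⟩ : m.range) = 1 := Subtype.ext (map_one m)
  rw [h2] at h1
  rw [h1]
  push_cast
  exact Finset.prod_congr rfl fun ω _ => ndeg_cast (hf ω)

theorem prod_shift (h : WD m C X) {f : Ω → (U → ℂ)} {θ : m.range → ℂ}
    (hθ : ∀ u, θ ⟨m u, ⟨u, rfl⟩⟩ = ∏ ω, f ω (u ω)) {x : G} (hx : x ∈ X) (u : Ω → U)
    (hm : x * m u * x⁻¹ ∈ m.range) : θ ⟨x * m u * x⁻¹, hm⟩ = ∏ ω, f (x • ω) (u ω) := by
  have e : (⟨x * m u * x⁻¹, hm⟩ : m.range) = ⟨m (fun ω => u (x⁻¹ • ω)), ⟨_, rfl⟩⟩ :=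
    Subtype.ext (h.eqv x hx u)
  rw [e, hθ]
  refine (Fintype.prod_equiv (MulAction.toPerm x) _ _ fun ω => ?_).symm
  rw [MulAction.toPerm_apply, inv_smul_smul]

theorem fixes_iff (h : WD m C X) {f : Ω → (U → ℂ)} (hf : ∀ ω, IsIrr (f ω)) {θ : m.range → ℂ}
    (hθ : ∀ u, θ ⟨m u, ⟨u, rfl⟩⟩ = ∏ ω, f ω (u ω)) {x : G} (hx : x ∈ X) :
    fixes m.range.subtype θ x ↔ ∀ ω, f (x • ω) = f ω := by
  constructor
  · intro hfix
    have h1 : (fun ω => f (x • ω)) = f := by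
      refine f_unique (fun ω => hf _) hf fun u => ?_
      have hm : x * m u * x⁻¹ ∈ m.range := ⟨_, (h.eqv x hx u).symm⟩
      rw [← prod_shift h hθ hx u hm, ← hθ]
      exact hfix ⟨m u, ⟨u, rfl⟩⟩ ⟨_, hm⟩ rfl
    exact fun ω => congrFun h1 ω
  · rintro hfx ⟨_, ⟨u, rfl⟩⟩ ⟨l', hl'⟩ hl
    have hl2 : x * m u * x⁻¹ = l' := hl
    subst hl2
    rw [prod_shift h hθ hx u hl', hθ]
    exact Finset.prod_congr rfl fun ω _ => by rw [hfx]

/-- elements of the normal subgroup fix the irreducible characters -/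
theorem fixes_range {θ : m.range → ℂ} (hθ : IsIrr θ) {x : G} (hx : x ∈ m.range) :
    fixes m.range.subtype θ x := by
  haveI := Fintype.ofFinite m.range
  rintro l l' hl
  have hl2 : l' = (⟨x, hx⟩ : m.range) * l * (⟨x, hx⟩ : m.range)⁻¹ := Subtype.ext hl.symm
  rw [hl2]
  exact IC.IsIrrChar.isClass hθ _ _

/-- the character with given factors exists -/
theorem exists_theta (h : WD m C X) {f : Ω → (U → ℂ)} (hf : ∀ ω, IsIrr (f ω))
    (hk : ∀ u, m u = 1 → ∏ ω, f ω (u ω) = ∏ ω, f ω 1) :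
    ∃ θ : m.range → ℂ, ∀ u, θ ⟨m u, ⟨u, rfl⟩⟩ = ∏ ω, f ω (u ω) := by
  haveI := Fintype.ofFinite U
  have hcen : ∀ ω, ∃ μ : C →* ℂˣ, ∀ (a : C) (x : U), f ω ((a : U) * x) =
      ((μ a : ℂˣ) : ℂ) * f ω x := fun ω => by
    have := Pool.Agent.K3h18.IN.central C.subtype (by rw [Subgroup.range_subtype]; exact h.Cc) (hf ω)
    exact this
  choose μ hμ using hcen
  have key : ∀ u v : Ω → U, m u = m v → ∏ ω, f ω (u ω) = ∏ ω, f ω (v ω) := by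
    intro u v huv
    have h1 : m (u * v⁻¹) = 1 := by rw [map_mul, map_inv, huv, mul_inv_cancel]
    have h2 : ∀ ω, (u * v⁻¹) ω ∈ C := h.ker _ (by rw [h1]; exact X.one_mem)
    have h3 := hk _ h1
    have h4 : ∀ ω, f ω (u ω) = ((μ ω ⟨_, h2 ω⟩ : ℂˣ) : ℂ) * f ω (v ω) := by
      intro ω
      rw [← hμ ω ⟨_, h2 ω⟩ (v ω)]
      congr 1
      simp
    have h5 : ∀ ω, f ω ((u * v⁻¹) ω) = ((μ ω ⟨_, h2 ω⟩ : ℂˣ) : ℂ) * f ω 1 := by
      intro ω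
      rw [← hμ ω ⟨_, h2 ω⟩ 1, mul_one]
    have h6 : ∏ ω, f ω 1 ≠ 0 := Finset.prod_ne_zero_iff.mpr fun ω _ => by
      rw [← ndeg_cast (hf ω)]
      exact_mod_cast (ndeg_pos (hf ω)).ne'
    have h7 : ∏ ω, ((μ ω ⟨_, h2 ω⟩ : ℂˣ) : ℂ) = 1 := by
      simp_rw [h5] at h3
      rw [Finset.prod_mul_distrib] at h3
      exact mul_right_cancel₀ h6 (by rw [h3, one_mul])
    simp_rw [h4]
    rw [Finset.prod_mul_distrib, h7, one_mul]
  refine ⟨fun l => ∏ ω, f ω (l.2.choose ω), fun u => ?_⟩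
  exact key _ _ (⟨u, rfl⟩ : ∃ v, m v = m u).choose_spec

end

end Pool.Agent.Zk54.MQ
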