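import Pool.Agent.Zk54.MQ.M2b
import Pool.Agent.K3h83.IN.Rel

set_option autoImplicit false
set_option linter.unusedSectionVars false
set_option linter.style.haveILetI false

open scoped BigOperators Classical

noncomputable section

namespace Pool.Agent.Zk54.MQ

open Pool.Agent.Helper884 Pool.Agent.H254R3.IN Pool.Agent.Q288.MB
open Pool.Agent.K3h3.KB Pool.Agent.K3h3.MK
open IC (Irr)
open Pool.Agent.K3h83.IN (ov wo wo_congr fixes S1 S2 G5 Tst mem_Tst range_le_Tst mem_NN_subtype)

section

variable {G U Ω : Type} [Group G] [Finite G] [Group U] [Finite U] [Fintype Ω] [MulAction G Ω]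
  {m : (Ω → U) →* G} {C : Subgroup U} {X : Subgroup G}

/-- the group `B` -/
abbrev BB (m : (Ω → U) →* G) (U₀ : Subgroup U) (X : Subgroup G) : Subgroup G :=
  (res m U₀).range ⊔ X

/-- the homomorphism into `B` -/
def mB (m : (Ω → U) →* G) (U₀ : Subgroup U) (X : Subgroup G) : (Ω → U₀) →* BB m U₀ X :=
  (res m U₀).codRestrict _ fun u => (le_sup_left : (res m U₀).range ≤ _) ⟨u, rfl⟩

@[simp] theorem mB_coe (U₀ : Subgroup U) (u : Ω → U₀) :
    ((mB m U₀ X u : BB m U₀ X) : G) = m (fun ω => (u ω : U)) := rfl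

theorem mB_range_map (U₀ : Subgroup U) :
    (mB m U₀ X).range.map (BB m U₀ X).subtype = (res m U₀).range := by
  rw [MonoidHom.map_range]
  rfl

theorem WD.toB (h : WD m C X) (U₀ : Subgroup U) :
    WD (mB m U₀ X) (C.subgroupOf U₀) (X.subgroupOf (BB m U₀ X)) where
  Cc := by
    intro c hc
    rw [Subgroup.mem_center_iff]
    intro y
    exact Subtype.ext (Subgroup.mem_center_iff.mp (h.Cc (Subgroup.mem_subgroupOf.mp hc)) y)
  eqv := by
    intro x hx u
    exact Subtype.ext (h.eqv x (Subgroup.mem_subgroupOf.mp hx) fun ω => (u ω : U))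
  triv := by
    intro u ω
    exact h.triv (fun ω => (u ω : U)) ω
  ker := by
    intro u hu ω
    exact Subgroup.mem_subgroupOf.mpr (h.ker _ (Subgroup.mem_subgroupOf.mp hu) ω)
  cen := by
    intro u hu
    rw [Subgroup.mem_center_iff]
    intro y
    exact Subtype.ext (Subgroup.mem_center_iff.mp
      (h.cen (fun ω => (u ω : U)) fun ω => Subgroup.mem_subgroupOf.mp (hu ω)) y)
  sup := by
    apply Subgroup.map_injective (BB m U₀ X).subtype_injective
    rw [Subgroup.map_sup, mB_range_map, Subgroup.map_subgroupOf_eq_of_le le_sup_right,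
      ← MonoidHom.range_eq_map, Subgroup.range_subtype]

theorem cl_sq {p : ℕ} [Fact p.Prime] {a b : ℕ} (ha : (a : ZMod p) ≠ 0)
    (h : (a : ZMod p) ^ 2 = (b : ZMod p) ^ 2) : cl p a = cl p b := by
  have hb : (b : ZMod p) ≠ 0 := by
    intro hb
    rw [hb, zero_pow two_ne_zero] at h
    exact ha (pow_eq_zero_iff two_ne_zero |>.mp h)
  rw [cl_apply p ha, cl_apply p hb]
  congr 1
  ext
  simpa using h

theorem cl_zero {p : ℕ} [Fact p.Prime] {a : ℕ} (ha : (a : ZMod p) = 0) : cl p a = 0 := by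
  change cls p a = 0
  unfold cls
  rw [dif_pos ha]

end

end Pool.Agent.Zk54.MQ
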