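import Pool.Agent.K3h83.PI.Sub
import Pool.Agent.Zk54.MQ.M5b
import Pool.Agent.Zk54.MQ.M6
import Pool.Agent.Zk54.MQ.M7
import Pool.Agent.Zk54.MQ.M8
import Pool.Agent.Zk54.MQ.M12
import Pool.Agent.Zk54.MQ.DefC

/-!
# The class of groups and the main induction
-/

set_option autoImplicit false
set_option linter.unusedSectionVars false
set_option linter.style.haveILetI false

open scoped BigOperators Classical

noncomputable section

namespace Pool.Agent.Zk54.MQ

open Pool.Agent.K3h83.IN Pool.Agent.K3h83.PI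
open Pool.Agent.Helper884 Pool.Agent.K3h3.KB Pool.Agent.K3h3.MK
open Pool.Agent.H254R3.IN (IsIrr mem_Irr)
open IC (Irr)

/-- the relative equalities for the perfect central extensions `U` of `S` of degree prime to `p` -/
def GoodS (p : ℕ) [Fact p.Prime] (S : Type) [Group S] : Prop :=
  ∀ (U : Type) [Group U] [Finite U], commutator U = ⊤ → ¬ p ∣ Nat.card (Subgroup.center U) →
    Nonempty (U ⧸ Subgroup.center U ≃* S) → ∀ (P : Sylow p U) (hle : Subgroup.center U ≤ NN P)
    (nu : Subgroup.center U → ℂ), IsIrr nu →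
      wo (cl p) (Subgroup.center U).subtype nu = wo (cl p) (Subgroup.inclusion hle) nu

theorem Bad2.bad {p : ℕ} {𝔊 : (S : Type) → [Group S] → Prop} {Y : Type} [Group Y]
    (h : Bad2 p 𝔊 Y) : Bad p Y := by
  obtain ⟨M, h1, h2, h3, h4, -⟩ := h
  exact ⟨M, h1, h2, h3, h4⟩

theorem cls_Sec2 (p : ℕ) [hp : Fact p.Prime] (𝔊 : (S : Type) → [Group S] → Prop) :
    ClsP p (Sec2 p 𝔊) where
  iso := by
    rintro G G' _ _ _ ⟨e⟩ h Y _ H f hi hf
    refine h Y (H.comap e.toMonoidHom) (f.comp (e.toMonoidHom.subgroupComap H)) ?_ ?_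
    · rwa [Subgroup.index_comap_of_surjective _ e.surjective]
    · refine hf.comp ?_
      rintro ⟨y, hy⟩
      exact ⟨⟨e.symm y, by simpa using hy⟩, Subtype.ext (e.apply_symm_apply y)⟩
  sub := by
    intro G _ _ X hX h Y _ H f hi hf
    have e : H ≃* H.map X.subtype := H.equivMapOfInjective X.subtype X.subtype_injective
    refine h Y (H.map X.subtype) (f.comp e.symm.toMonoidHom) ?_ (hf.comp e.symm.surjective)
    rw [Subgroup.index_map_subtype, hp.out.dvd_mul]
    exact fun h' => h'.elim hi hX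
  quo := by
    intro G _ _ K _ h Y _ H f hi hf
    refine h Y (H.comap (QuotientGroup.mk' K)) (f.comp ((QuotientGroup.mk' K).subgroupComap H)) ?_ ?_
    · rwa [Subgroup.index_comap_of_surjective _ (QuotientGroup.mk'_surjective K)]
    · refine hf.comp ?_
      rintro ⟨y, hy⟩
      obtain ⟨g, rfl⟩ := QuotientGroup.mk'_surjective K y
      exact ⟨⟨g, hy⟩, rfl⟩
  ext := by
    intro G _ _ K _ hK _ h Y _ H f hi hf hb
    have hs : Function.Surjective ((QuotientGroup.mk' K).subgroupMap H) :=
      MonoidHom.subgroupMap_surjective _ _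
    have hker : ((QuotientGroup.mk' K).subgroupMap H).ker ≤ f.ker := by
      intro x hx
      have h1 : QuotientGroup.mk' K (x : G) = 1 := congrArg Subtype.val hx
      have h2 : (x : G) ∈ Subgroup.center G := hK ((QuotientGroup.eq_one_iff _).mp h1)
      have h3 : f x ∈ Subgroup.center Y := by
        rw [Subgroup.mem_center_iff]
        intro y
        obtain ⟨z, rfl⟩ := hf y
        rw [← map_mul, ← map_mul]
        congr 1
        exact Subtype.ext (Subgroup.mem_center_iff.mp h2 z)
      rw [hb.bad.center, Subgroup.mem_bot] at h3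
      exact h3
    refine h Y (H.map (QuotientGroup.mk' K)) (((QuotientGroup.mk' K).subgroupMap H).liftOfSurjective hs
      ⟨f, hker⟩) ?_ ?_ hb
    · exact fun h' => hi (h'.trans (Subgroup.index_map_dvd H (QuotientGroup.mk'_surjective K)))
    · intro y
      obtain ⟨z, rfl⟩ := hf y
      exact ⟨_, MonoidHom.liftOfRightInverse_comp_apply _ _ _ ⟨f, hker⟩ z⟩

section

variable {p : ℕ} [hp : Fact p.Prime]

/-- the case of a noncyclic Sylow subgroup -/
theorem inn_case {G : Type} [Group G] [Finite G] (hG : Sec2 p (GoodS p) G) (P : Sylow p G) (hP : Red2 P)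
    (hc : ¬ IsCyclic P)
    (hI : ∀ (Y : Type) [Group Y] [Finite Y], Sec2 p (GoodS p) Y →
      (Subgroup.center Y).index < (Subgroup.center G).index → Q1 p Y) :
    wt (cl p) G = wt (cl p) (NN P) := by
  obtain ⟨M, hM, hmin, hna, hQ⟩ := bad_of_red P hP hc
  have hinn : Inn (GoodS p) M := by
    by_contra hcon
    refine hG (G ⧸ Subgroup.center G) ⊤ ((QuotientGroup.mk' (Subgroup.center G)).comp
      Subgroup.topEquiv.toMonoidHom) ?_ ?_ ⟨M, hM, hmin, hna, hQ, hcon⟩
    · rw [Subgroup.index_top]
      exact hp.out.one_lt.ne' ∘ Nat.dvd_one.mp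
    · exact (QuotientGroup.mk'_surjective _).comp Subgroup.topEquiv.surjective
  obtain ⟨S, hSM, hMS, hsim, hin, hgood⟩ := hinn
  obtain ⟨U, _, _, Ω, _, _, _, m, X, hU, ⟨eS⟩, hW, hdvd⟩ :=
    exists_datum M S hM hmin hSM hMS hsim hna hin
  have hpZ : ¬ p ∣ Nat.card (Subgroup.center U) := fun h => hP.cop (h.trans hdvd)
  by_cases hpU : p ∣ Nat.card U
  swap
  · refine case2 a_S1 a_S2 a_G5 hW hpU P (hP.sup _ hW.normal fun hcen => ?_)
    -- `S` would be trivial
    obtain ⟨ω⟩ := (inferInstance : Nonempty Ω)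
    have hcomm : commutator U ≤ Subgroup.center U := by
      have key : ∀ u v : U, u * v * u⁻¹ * v⁻¹ ∈ Subgroup.center U := by
        intro u v
        have h1 : m (Pi.mulSingle ω (u * v * u⁻¹ * v⁻¹)) = 1 := by
          rw [Pi.mulSingle_mul, Pi.mulSingle_mul, Pi.mulSingle_mul,
            Pi.mulSingle_inv, Pi.mulSingle_inv, map_mul, map_mul, map_mul, map_inv, map_inv]
          have h2 := Subgroup.mem_center_iff.mp (hcen ⟨Pi.mulSingle ω u, rfl⟩)
            (m (Pi.mulSingle ω v))
          rw [← h2]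
          group
        have h4 := hW.ker (Pi.mulSingle ω (u * v * u⁻¹ * v⁻¹))
          (by rw [h1]; exact X.one_mem) ω
        rwa [Pi.mulSingle_eq_same] at h4
      rw [commutator_def, Subgroup.commutator_le]
      intro u _ v _
      exact key u v
    have htop : Subgroup.center U = ⊤ := by
      rw [eq_top_iff, ← hU]
      exact hcomm
    have hsub : Subsingleton (U ⧸ Subgroup.center U) := by
      rw [htop]
      exact QuotientGroup.subsingleton_quotient_top
    have hSs : Subsingleton S := eS.symm.toEquiv.injective.subsingleton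
    haveI := hsim.toNontrivial
    exact not_subsingleton S hSs
  let PU : Sylow p U := default
  have hle : Subgroup.center U ≤ NN PU := le_NN_of_center PU le_rfl
  obtain ⟨e, he1, he2⟩ := exists_e a_S13 PU hle fun nu hnu => hgood U hU hpZ ⟨eS⟩ PU hle nu hnu
  obtain ⟨P', R, hP', hR, hRn, hRne⟩ := sylow_part hW hpZ PU
  have hPB : (P' : Subgroup G) ≤ BB m (NN PU) X := Subgroup.le_normalizer.trans hP'
  have hZB : Subgroup.center G ≤ BB m (NN PU) X := (le_NN_of_center P' le_rfl).trans hP'
  have hBt : BB m (NN PU) X ≠ ⊤ := by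
    intro h
    have hRnor : R.Normal := by
      rw [← Subgroup.normalizer_eq_top_iff, eq_top_iff, ← h]
      exact hRn
    have hRs : Group.IsSolvable R := by
      haveI : Group.IsNilpotent R := hR.isNilpotent
      infer_instance
    have hRc := hP.rad R hRnor hRs
    obtain ⟨n, hn⟩ := IsPGroup.iff_card.mp hR
    have hn0 : n ≠ 0 := by
      rintro rfl
      rw [pow_zero] at hn
      exact hRne hpU (Subgroup.card_eq_one.mp hn)
    apply hP.cop
    refine (dvd_trans ?_ (Subgroup.card_dvd_of_le hRc))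
    rw [hn]
    exact dvd_pow_self p hn0
  have e1 := compare (p := p) a_S1 a_S2 a_G5 hW hle e he1 he2 P' hP'
  rw [e1, hI _ ((cls_Sec2 p (GoodS p)).sub G _ (idx P' hPB) hG) (index_center_lt hZB hBt) (P'.subtype hPB),
    wt_NN_sub P' hP']
  exact wt_NN (cl p) P' P

/-- the equality for all groups of the class -/
theorem main_class (G : Type) [Group G] [Finite G] (hG : Sec2 p (GoodS p) G) : Q1 p G := by
  refine main3 a_S1 a_S2 a_S3 a_S4 a_S4a a_S5 a_S6 a_S7 a_S8 a_S9 a_S12 a_S14 a_S15 a_S16 a_S17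
    a_G1 a_G2 a_G3 a_G4 a_G5 (cls_Sec2 p (GoodS p)) (fun G _ _ hG P hP hI => ?_) G hG
  by_cases hc : IsCyclic P
  swap
  · exact inn_case hG P hP hc hI
  have hdvd : p ∣ Nat.card G := by
    by_contra h
    exact hP.ne (NN_top_of_not_dvd P h)
  obtain ⟨Q, B, H, hPB, hQP, hB, hLC, hE1, hE2⟩ := a_C0 p G P hc hdvd
  have hZB : Subgroup.center G ≤ B := (le_NN_of_center P le_rfl).trans hPB
  have hBt : B ≠ ⊤ := by
    intro h
    -- `Q` would be normal, so central
    have hQn : Q.Normal := by
      rw [← Subgroup.normalizer_eq_top_iff, ← hB, h]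
    have hQc : Nat.card Q = p := by
      have h1 := hLC.cQ
      rw [← h1]
      refine Nat.card_congr (Subgroup.subgroupOfEquivOfLe ?_).toEquiv.symm
      exact hQP.trans (Subgroup.le_normalizer.trans hPB)
    have hQs : Group.IsSolvable Q := by
      have h1 : IsCyclic Q := isCyclic_of_prime_card hQc
      exact Group.isSolvable_of_comm fun x y => by
        letI := h1.commGroup
        exact mul_comm x y
    exact hP.cop (by
      have := Subgroup.card_dvd_of_le (hP.rad Q hQn hQs)
      rwa [hQc] at this)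
  rw [a_CN p B G _ _ H B.subtype hLC hE1, ← wt_NN_sub P hPB]
  exact hI B ((cls_Sec2 p (GoodS p)).sub G B (idx P (Subgroup.le_normalizer.trans hPB)) hG)
    (index_center_lt hZB hBt) _

end

end Pool.Agent.Zk54.MQ
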