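import Mathlib

/-!
# The group `PSL_2(p)`: unitriangular subgroups and Sylow subgroups
-/

set_option autoImplicit false
set_option maxHeartbeats 400000

namespace Pool.Agent.Zk54.MQ

open Matrix

section field

variable {F : Type} [Field F]

/-- `SL_2(F)` -/
abbrev psl_G (F : Type) [Field F] : Type := Matrix.SpecialLinearGroup (Fin 2) F

/-- the upper unitriangular matrices -/
def psl_u (t : F) : psl_G F := ⟨!![1, t; 0, 1], by simp [Matrix.det_fin_two]⟩

/-- the lower unitriangular matrices -/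
def psl_v (t : F) : psl_G F := ⟨!![1, 0; t, 1], by simp [Matrix.det_fin_two]⟩

lemma psl_ext {M N : psl_G F} (h1 : M.1 0 0 = N.1 0 0) (h2 : M.1 0 1 = N.1 0 1)
    (h3 : M.1 1 0 = N.1 1 0) (h4 : M.1 1 1 = N.1 1 1) : M = N := by
  apply Subtype.ext
  ext i j
  fin_cases i <;> fin_cases j
  · exact h1
  · exact h2
  · exact h3
  · exact h4

lemma psl_det (M : psl_G F) : M.1 0 0 * M.1 1 1 - M.1 0 1 * M.1 1 0 = 1 := by
  have := M.2
  rwa [Matrix.det_fin_two] at this

lemma psl_mul00 (M N : psl_G F) : (M * N).1 0 0 = M.1 0 0 * N.1 0 0 + M.1 0 1 * N.1 1 0 := by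
  rw [Matrix.SpecialLinearGroup.coe_mul, Matrix.mul_apply, Fin.sum_univ_two]

lemma psl_mul01 (M N : psl_G F) : (M * N).1 0 1 = M.1 0 0 * N.1 0 1 + M.1 0 1 * N.1 1 1 := by
  rw [Matrix.SpecialLinearGroup.coe_mul, Matrix.mul_apply, Fin.sum_univ_two]

lemma psl_mul10 (M N : psl_G F) : (M * N).1 1 0 = M.1 1 0 * N.1 0 0 + M.1 1 1 * N.1 1 0 := by
  rw [Matrix.SpecialLinearGroup.coe_mul, Matrix.mul_apply, Fin.sum_univ_two]

lemma psl_mul11 (M N : psl_G F) : (M * N).1 1 1 = M.1 1 0 * N.1 0 1 + M.1 1 1 * N.1 1 1 := by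
  rw [Matrix.SpecialLinearGroup.coe_mul, Matrix.mul_apply, Fin.sum_univ_two]

@[simp] lemma psl_u00 (t : F) : (psl_u t).1 0 0 = 1 := rfl
@[simp] lemma psl_u01 (t : F) : (psl_u t).1 0 1 = t := rfl
@[simp] lemma psl_u10 (t : F) : (psl_u t).1 1 0 = 0 := rfl
@[simp] lemma psl_u11 (t : F) : (psl_u t).1 1 1 = 1 := rfl
@[simp] lemma psl_v00 (t : F) : (psl_v t).1 0 0 = 1 := rfl
@[simp] lemma psl_v01 (t : F) : (psl_v t).1 0 1 = 0 := rfl
@[simp] lemma psl_v10 (t : F) : (psl_v t).1 1 0 = t := rfl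
@[simp] lemma psl_v11 (t : F) : (psl_v t).1 1 1 = 1 := rfl

lemma psl_u_mul (s t : F) : psl_u s * psl_u t = psl_u (s + t) := by
  apply psl_ext
  · rw [psl_mul00]; simp
  · rw [psl_mul01]; simp [add_comm]
  · rw [psl_mul10]; simp
  · rw [psl_mul11]; simp

lemma psl_v_mul (s t : F) : psl_v s * psl_v t = psl_v (s + t) := by
  apply psl_ext
  · rw [psl_mul00]; simp
  · rw [psl_mul01]; simp
  · rw [psl_mul10]; simp
  · rw [psl_mul11]; simp

lemma psl_u_zero : psl_u (0 : F) = 1 := by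
  apply psl_ext <;> rfl

lemma psl_v_zero : psl_v (0 : F) = 1 := by
  apply psl_ext <;> rfl

lemma psl_u_inv (t : F) : (psl_u t)⁻¹ = psl_u (-t) := by
  rw [inv_eq_iff_mul_eq_one, psl_u_mul, add_neg_cancel, psl_u_zero]

lemma psl_v_inv (t : F) : (psl_v t)⁻¹ = psl_v (-t) := by
  rw [inv_eq_iff_mul_eq_one, psl_v_mul, add_neg_cancel, psl_v_zero]

/-- the center -/
lemma psl_center {M : psl_G F} : M ∈ Subgroup.center (psl_G F) ↔
    M.1 0 1 = 0 ∧ M.1 1 0 = 0 ∧ M.1 0 0 = M.1 1 1 := by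
  rw [Matrix.SpecialLinearGroup.mem_center_iff]
  constructor
  · rintro ⟨r, -, hr⟩
    rw [← hr]
    simp
  · rintro ⟨h1, h2, h3⟩
    refine ⟨M.1 0 0, ?_, ?_⟩
    · have := psl_det M
      rw [h1, ← h3] at this
      rw [Fintype.card_fin, pow_two]
      linear_combination this
    · ext i j
      fin_cases i <;> fin_cases j
      · simp
      · simpa using h1.symm
      · simpa using h2.symm
      · simpa using h3

/-- conjugates of `u t` -/
lemma psl_conj_u0 (M : psl_G F) (t : F) (h : M.1 1 0 = 0) :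
    M * psl_u t * M⁻¹ = psl_u (M.1 0 0 ^ 2 * t) := by
  rw [mul_inv_eq_iff_eq_mul]
  have hd := psl_det M
  rw [h] at hd
  apply psl_ext
  · rw [psl_mul00, psl_mul00]; simp [h]
  · rw [psl_mul01, psl_mul01]
    simp only [psl_u00, psl_u01, psl_u11, one_mul, mul_one]
    linear_combination (-(M.1 0 0) * t) * hd
  · rw [psl_mul10, psl_mul10]; simp [h]
  · rw [psl_mul11, psl_mul11]; simp [h]

/-- conjugates of `u t` -/
lemma psl_conj_u1 (M : psl_G F) (t : F) (h : M.1 1 0 ≠ 0) : M * psl_u t * M⁻¹ =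
    psl_u (M.1 0 0 / M.1 1 0) * psl_v (-(M.1 1 0 ^ 2 * t)) * psl_u (-(M.1 0 0 / M.1 1 0)) := by
  rw [mul_inv_eq_iff_eq_mul]
  have hd := psl_det M
  apply psl_ext
  · simp only [psl_mul00, psl_mul01, psl_mul10, psl_mul11, psl_u00, psl_u01, psl_u10, psl_u11,
      psl_v00, psl_v01, psl_v10, psl_v11]
    field_simp
    ring
  · simp only [psl_mul00, psl_mul01, psl_mul10, psl_mul11, psl_u00, psl_u01, psl_u10, psl_u11,
      psl_v00, psl_v01, psl_v10, psl_v11]
    field_simp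
    linear_combination (-(M.1 0 0 * t * M.1 1 0)) * hd
  · simp only [psl_mul00, psl_mul01, psl_mul10, psl_mul11, psl_u00, psl_u01, psl_u10, psl_u11,
      psl_v00, psl_v01, psl_v10, psl_v11]
    field_simp
    ring
  · simp only [psl_mul00, psl_mul01, psl_mul10, psl_mul11, psl_u00, psl_u01, psl_u10, psl_u11,
      psl_v00, psl_v01, psl_v10, psl_v11]
    field_simp
    linear_combination (-(M.1 1 0 ^ 2 * t)) * hd

/-- generation -/
lemma psl_gen (K : Subgroup (psl_G F)) (hu : ∀ t, psl_u t ∈ K) (hv : ∀ t, psl_v t ∈ K)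
    (M : psl_G F) : M ∈ K := by
  have key : ∀ M : psl_G F, M.1 1 0 ≠ 0 → M ∈ K := by
    intro M hM
    have hd := psl_det M
    have h1 : M = psl_u ((M.1 0 0 - 1) / M.1 1 0) * psl_v (M.1 1 0) *
        psl_u ((M.1 1 1 - 1) / M.1 1 0) := by
      apply psl_ext
      · simp only [psl_mul00, psl_mul01, psl_mul10, psl_mul11, psl_u00, psl_u01, psl_u10,
          psl_u11, psl_v00, psl_v01, psl_v10, psl_v11]
        field_simp
        ring
      · simp only [psl_mul00, psl_mul01, psl_mul10, psl_mul11, psl_u00, psl_u01, psl_u10,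
          psl_u11, psl_v00, psl_v01, psl_v10, psl_v11]
        field_simp
        linear_combination -hd
      · simp only [psl_mul00, psl_mul01, psl_mul10, psl_mul11, psl_u00, psl_u01, psl_u10,
          psl_u11, psl_v00, psl_v01, psl_v10, psl_v11]
        ring
      · simp only [psl_mul00, psl_mul01, psl_mul10, psl_mul11, psl_u00, psl_u01, psl_u10,
          psl_u11, psl_v00, psl_v01, psl_v10, psl_v11]
        field_simp
        ring
    rw [h1]
    exact K.mul_mem (K.mul_mem (hu _) (hv _)) (hu _)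
  by_cases h : M.1 1 0 = 0
  · have h2 : M * psl_v 1 ∈ K := by
      apply key
      rw [psl_mul10, h]
      have hd := psl_det M
      rw [h] at hd
      simp only [psl_v00, psl_v10, mul_one, zero_add]
      intro h3
      rw [h3] at hd
      simp at hd
    have h3 := K.mul_mem h2 (K.inv_mem (hv 1))
    rwa [mul_inv_cancel_right] at h3
  · exact key M h

/-- `PSL_2(F)` -/
abbrev psl_S (F : Type) [Field F] : Type := Matrix.ProjectiveSpecialLinearGroup (Fin 2) F

/-- the projection -/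
def psl_pi : psl_G F →* psl_S F := QuotientGroup.mk' (Subgroup.center (psl_G F))

lemma psl_pi_surj : Function.Surjective (psl_pi (F := F)) := QuotientGroup.mk'_surjective _

lemma psl_pi_eq_one {M : psl_G F} : psl_pi M = 1 ↔ M.1 0 1 = 0 ∧ M.1 1 0 = 0 ∧
    M.1 0 0 = M.1 1 1 := by
  rw [← psl_center]
  exact QuotientGroup.eq_one_iff M

lemma psl_pi_u_inj {s t : F} (h : psl_pi (psl_u s) = psl_pi (psl_u t)) : s = t := by
  have h1 : psl_pi (psl_u s * psl_u (-t)) = 1 := by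
    rw [map_mul, h, ← map_mul, psl_u_mul, add_neg_cancel, psl_u_zero, map_one]
  rw [psl_u_mul, psl_pi_eq_one, psl_u01] at h1
  linear_combination h1.1

lemma psl_pi_v_inj {s t : F} (h : psl_pi (psl_v s) = psl_pi (psl_v t)) : s = t := by
  have h1 : psl_pi (psl_v s * psl_v (-t)) = 1 := by
    rw [map_mul, h, ← map_mul, psl_v_mul, add_neg_cancel, psl_v_zero, map_one]
  rw [psl_v_mul, psl_pi_eq_one, psl_v10] at h1
  linear_combination h1.2.1

/-- the image of the upper unitriangular matrices -/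
def psl_Up (F : Type) [Field F] : Subgroup (psl_S F) where
  carrier := Set.range fun t => psl_pi (psl_u t)
  one_mem' := ⟨0, by simp only [psl_u_zero, map_one]⟩
  mul_mem' := by
    rintro _ _ ⟨s, rfl⟩ ⟨t, rfl⟩
    exact ⟨s + t, by simp only [← psl_u_mul, map_mul]⟩
  inv_mem' := by
    rintro _ ⟨s, rfl⟩
    exact ⟨-s, by simp only [← psl_u_inv, map_inv]⟩

/-- the image of the lower unitriangular matrices -/
def psl_Um (F : Type) [Field F] : Subgroup (psl_S F) where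
  carrier := Set.range fun t => psl_pi (psl_v t)
  one_mem' := ⟨0, by simp only [psl_v_zero, map_one]⟩
  mul_mem' := by
    rintro _ _ ⟨s, rfl⟩ ⟨t, rfl⟩
    exact ⟨s + t, by simp only [← psl_v_mul, map_mul]⟩
  inv_mem' := by
    rintro _ ⟨s, rfl⟩
    exact ⟨-s, by simp only [← psl_v_inv, map_inv]⟩

lemma psl_mem_Up {x : psl_S F} : x ∈ psl_Up F ↔ ∃ t, psl_pi (psl_u t) = x := Iff.rfl
lemma psl_mem_Um {x : psl_S F} : x ∈ psl_Um F ↔ ∃ t, psl_pi (psl_v t) = x := Iff.rfl

lemma psl_gen' (K : Subgroup (psl_S F)) (hu : psl_Up F ≤ K) (hv : psl_Um F ≤ K) : K = ⊤ := by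
  rw [eq_top_iff]
  intro x _
  obtain ⟨M, rfl⟩ := psl_pi_surj x
  exact psl_gen (K.comap psl_pi) (fun t => hu ⟨t, rfl⟩) (fun t => hv ⟨t, rfl⟩) M

lemma psl_card_Up : Nat.card (psl_Up F) = Nat.card F := by
  apply Nat.card_congr
  exact (Equiv.ofInjective (fun t => psl_pi (psl_u t)) (fun _ _ h => psl_pi_u_inj h)).symm

/-- the conjugates of `Up` -/
lemma psl_conj_Up (g : psl_S F) : (∀ x ∈ psl_Up F, g * x * g⁻¹ ∈ psl_Up F) ∨
    ∃ y : F, ∀ x : psl_S F, x ∈ psl_Um F ↔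
      (psl_pi (psl_u y) * x * (psl_pi (psl_u y))⁻¹) ∈ (psl_Up F).map (MulAut.conj g).toMonoidHom := by
  obtain ⟨M, rfl⟩ := psl_pi_surj g
  by_cases h : M.1 1 0 = 0
  · left
    rintro _ ⟨t, rfl⟩
    refine ⟨M.1 0 0 ^ 2 * t, ?_⟩
    have h1 := psl_conj_u0 M t h
    change psl_pi (psl_u (M.1 0 0 ^ 2 * t)) = psl_pi M * psl_pi (psl_u t) * (psl_pi M)⁻¹
    rw [← h1, map_mul, map_mul, map_inv]
  · right
    refine ⟨M.1 0 0 / M.1 1 0, fun x => ?_⟩
    have key : ∀ t, psl_pi M * psl_pi (psl_u t) * (psl_pi M)⁻¹ =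
        psl_pi (psl_u (M.1 0 0 / M.1 1 0)) * psl_pi (psl_v (-(M.1 1 0 ^ 2 * t))) *
          (psl_pi (psl_u (M.1 0 0 / M.1 1 0)))⁻¹ := by
      intro t
      have h1 := psl_conj_u1 M t h
      have h2 := congrArg psl_pi h1
      rw [← psl_u_inv] at h2
      simpa only [map_mul, map_inv] using h2
    rw [Subgroup.mem_map]
    constructor
    · rintro ⟨s, rfl⟩
      refine ⟨psl_pi (psl_u (-(s / M.1 1 0 ^ 2))), ⟨_, rfl⟩, ?_⟩
      change psl_pi M * _ * (psl_pi M)⁻¹ = _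
      rw [key]
      have h3 : -(M.1 1 0 ^ 2 * -(s / M.1 1 0 ^ 2)) = s := by field_simp
      rw [h3]
    · rintro ⟨_, ⟨t, rfl⟩, ht⟩
      change psl_pi M * psl_pi (psl_u t) * (psl_pi M)⁻¹ = _ at ht
      rw [key] at ht
      refine ⟨-(M.1 1 0 ^ 2 * t), ?_⟩
      exact mul_left_cancel (mul_right_cancel ht)

end field

end Pool.Agent.Zk54.MQ
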