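import Pool.Agent.Zk54.MQ.PSLa

/-!
# The Sylow subgroups of `PSL_2(p)`
-/

set_option autoImplicit false
set_option maxHeartbeats 400000

namespace Pool.Agent.Zk54.MQ

open Matrix

variable {p : ℕ} [hp : Fact p.Prime]

lemma psl_finite : Finite (psl_S (ZMod p)) := by
  have : Finite (psl_G (ZMod p)) := inferInstance
  exact Finite.of_surjective _ (psl_pi_surj (F := ZMod p))

lemma psl_not_sq : ¬ p ^ 2 ∣ Nat.card (psl_S (ZMod p)) := by
  have hp2 := hp.out.two_le
  intro h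
  have h1 : Nat.card (psl_S (ZMod p)) ∣ Nat.card (psl_G (ZMod p)) :=
    Subgroup.card_dvd_of_surjective psl_pi psl_pi_surj
  have h2 : Nat.card (psl_G (ZMod p)) ∣ Nat.card (GL (Fin 2) (ZMod p)) :=
    Subgroup.card_dvd_of_injective Matrix.SpecialLinearGroup.toGL
      Matrix.SpecialLinearGroup.toGL_injective
  have h3 : p ^ 2 ∣ Nat.card (GL (Fin 2) (ZMod p)) := (h.trans h1).trans h2
  rw [Matrix.card_GL_field, Fin.prod_univ_two, ZMod.card] at h3
  simp only [Fin.val_zero, pow_zero, Fin.val_one, pow_one] at h3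
  have h4 : p ^ 2 - p = p * (p - 1) := by rw [pow_two, Nat.mul_sub, mul_one]
  have h5 : (p ^ 2 - 1) * (p ^ 2 - p) = p * ((p ^ 2 - 1) * (p - 1)) := by rw [h4]; ring
  rw [h5, pow_two] at h3
  have h6 : p ∣ (p * p - 1) * (p - 1) := Nat.dvd_of_mul_dvd_mul_left hp.out.pos h3
  rcases (hp.out.dvd_mul).1 h6 with h7 | h7
  · have h8 : p ∣ p * p - (p * p - 1) := Nat.dvd_sub (dvd_mul_right p p) h7
    have h9 : p * p - (p * p - 1) = 1 := by
      have : 1 ≤ p * p := Nat.mul_pos hp.out.pos hp.out.pos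
      omega
    rw [h9] at h8
    exact hp.out.one_lt.ne' (Nat.dvd_one.1 h8)
  · have := Nat.le_of_dvd (by omega) h7
    omega

lemma psl_card_Up' : Nat.card (psl_Up (ZMod p)) = p := by
  rw [psl_card_Up, Nat.card_eq_fintype_card, ZMod.card]

lemma psl_dvd : p ∣ Nat.card (psl_S (ZMod p)) := by
  have h := Subgroup.card_subgroup_dvd_card (psl_Up (ZMod p))
  rwa [psl_card_Up'] at h

lemma psl_fact : (Nat.card (psl_S (ZMod p))).factorization p = 1 := by
  have := psl_finite (p := p)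
  have h0 : Nat.card (psl_S (ZMod p)) ≠ 0 := Nat.card_pos.ne'
  have h1 : 1 ≤ (Nat.card (psl_S (ZMod p))).factorization p :=
    (hp.out.dvd_iff_one_le_factorization h0).1 psl_dvd
  have h2 : ¬ 2 ≤ (Nat.card (psl_S (ZMod p))).factorization p := by
    intro h
    exact psl_not_sq ((hp.out.pow_dvd_iff_le_factorization h0).2 h)
  omega

lemma psl_card_sylow (Q : Sylow p (psl_S (ZMod p))) : Nat.card Q = p := by
  have := psl_finite (p := p)
  rw [Sylow.card_eq_multiplicity, psl_fact, pow_one]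

/-- a subgroup of order `p` is a Sylow subgroup -/
lemma psl_sylow_of (H : Subgroup (psl_S (ZMod p))) (h : Nat.card H = p) :
    ∃ Q : Sylow p (psl_S (ZMod p)), (Q : Subgroup (psl_S (ZMod p))) = H := by
  have := psl_finite (p := p)
  refine ⟨Sylow.ofCard H ?_, rfl⟩
  rw [psl_fact, pow_one, h]

/-- the Sylow subgroups -/
lemma psl_sylow_cases (Q : Sylow p (psl_S (ZMod p))) :
    (Q : Subgroup (psl_S (ZMod p))) = psl_Up (ZMod p) ∨
      ∃ y : ZMod p, ∀ x : psl_S (ZMod p), x ∈ psl_Um (ZMod p) ↔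
        psl_pi (psl_u y) * x * (psl_pi (psl_u y))⁻¹ ∈ (Q : Subgroup (psl_S (ZMod p))) := by
  have := psl_finite (p := p)
  obtain ⟨P, hP⟩ := psl_sylow_of (psl_Up (ZMod p)) psl_card_Up'
  obtain ⟨g, hg⟩ := MulAction.exists_smul_eq (psl_S (ZMod p)) P Q
  have hQ : (Q : Subgroup (psl_S (ZMod p))) =
      (psl_Up (ZMod p)).map (MulAut.conj g).toMonoidHom := by
    rw [← hg, ← hP]
    rfl
  rcases psl_conj_Up g with h | ⟨y, h⟩
  · left
    rw [hQ]
    apply Subgroup.eq_of_le_of_card_ge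
    · rintro _ ⟨x, hx, rfl⟩
      exact h x hx
    · rw [← hQ]
      have h1 : Nat.card (Q : Subgroup (psl_S (ZMod p))) = p := psl_card_sylow Q
      rw [h1, psl_card_Up']
  · right
    refine ⟨y, fun x => ?_⟩
    rw [hQ]
    exact h x

lemma psl_Um_not_le : ¬ psl_Um (ZMod p) ≤ psl_Up (ZMod p) := by
  intro h
  obtain ⟨t, ht⟩ := h (⟨1, rfl⟩ : psl_pi (psl_v (1 : ZMod p)) ∈ psl_Um (ZMod p))
  have h1 : psl_pi (psl_u t * psl_v (-1 : ZMod p)) = 1 := by
    rw [map_mul, show psl_pi (psl_u t) = psl_pi (psl_v (1 : ZMod p)) from ht, ← map_mul, psl_v_mul,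
      add_neg_cancel, psl_v_zero, map_one]
  rw [psl_pi_eq_one, psl_mul10] at h1
  have h2 := h1.2.1
  simp at h2

lemma psl_noncomm : ∃ a b : psl_S (ZMod p), a * b ≠ b * a := by
  refine ⟨psl_pi (psl_u 1), psl_pi (psl_v 1), fun h => ?_⟩
  have h1 : psl_pi (psl_u 1 * psl_v 1 * (psl_u (-1) * psl_v (-1)) : psl_G (ZMod p)) = 1 := by
    have h2 : psl_pi (psl_u (-1 : ZMod p)) * psl_pi (psl_v (-1)) =
        (psl_pi (psl_u 1))⁻¹ * (psl_pi (psl_v 1))⁻¹ := by
      rw [← map_inv, ← map_inv, psl_u_inv, psl_v_inv]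
    rw [map_mul, map_mul, map_mul, h2, h]
    group
  rw [psl_pi_eq_one] at h1
  have h3 := h1.2.1
  simp only [psl_mul00, psl_mul01, psl_mul10, psl_mul11, psl_u00, psl_u01, psl_u10, psl_u11,
    psl_v00, psl_v01, psl_v10, psl_v11] at h3
  have h4 : (1 : ZMod p) = 0 := by linear_combination h3
  exact one_ne_zero h4

/-- `PSL_2(p)` is simple for `p ≥ 5` -/
lemma psl_simple (h5 : 5 ≤ p) : IsSimpleGroup (psl_S (ZMod p)) :=
  Matrix.ProjectiveSpecialLinearGroup.rank_two_simple (by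
    rw [Nat.card_eq_fintype_card, ZMod.card]
    omega)

lemma psl_sylow_cyclic (Q : Sylow p (psl_S (ZMod p))) : IsCyclic Q :=
  isCyclic_of_prime_card (psl_card_sylow Q)

end Pool.Agent.Zk54.MQ
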